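import Mathlib
import Pool.Agent.Helper259.HtDef

set_option autoImplicit false

namespace Pool.Agent.Helper259.Var

open Polynomial Pool.Agent.Helper259.AbsHt

/-- an absolute value together with its archimedean defect `ε`: nonarchimedean with `ε = 0`, or
arbitrary with `ε = 1` -/
def Tame {B : Type*} [CommRing B] (u : AbsoluteValue B ℝ) (ε : ℕ) : Prop :=
  (IsNonarchimedean u ∧ ε = 0) ∨ ε = 1

/-- the local absolute values of `Qbar`: nonarchimedean ones (`ε = 0`) and those induced by a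
complex embedding (`ε = 1`) -/
def IsLoc (v : AbsoluteValue Qbar ℝ) (ε : ℕ) : Prop :=
  (IsNonarchimedean v ∧ ε = 0) ∨ ((∃ φ : Qbar →+* ℂ, ∀ x, v x = ‖φ x‖) ∧ ε = 1)

/-- `v` is a local absolute value and `b` bounds its archimedean defect and the size of the
constants in the finite set `T` -/
def Adm (T : Finset Qbar) (v : AbsoluteValue Qbar ℝ) (ε : ℕ) (b : ℝ) : Prop :=
  IsLoc v ε ∧ (ε : ℝ) ≤ b ∧ ∀ c ∈ T, v c ≤ Real.exp b

/-- a `Qbar`-point of the curve with coordinate ring `R` -/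
def IsPt {R : Type*} [CommRing R] [Algebra Qbar[X] R] (t : R →+* Qbar) : Prop :=
  ∀ c : Qbar, t (algebraMap Qbar[X] R (C c)) = c

/-- the value of the coordinate `s` at a point -/
noncomputable def sval {R : Type*} [CommRing R] [Algebra Qbar[X] R] (t : R →+* Qbar) : Qbar :=
  t (algebraMap Qbar[X] R X)

/-- the point `t` is near the place at infinity `w ∘ γ`: upper bounds for all functions -/
def Nr {R G : Type*} [CommRing R] [Algebra Qbar[X] R] [Group G] [MulSemiringAction G R]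
    (w : AbsoluteValue R ℝ) (v : AbsoluteValue Qbar ℝ) (b C : ℝ) (t : R →+* Qbar) (γ : G) : Prop :=
  ∀ (x : R) (a S : ℝ) (J : ℕ), 0 ≤ S → w (γ • x) ≤ Real.exp a →
    (∀ g : G, w (g • x) ≤ Real.exp (a + J)) →
    (∀ t' : R →+* Qbar, IsPt t' → v (sval t') = 1 → v (t' x) ≤ Real.exp S) →
    v (t x) ≤ Real.exp (a * Real.log (v (sval t)) + S + C * (J + |a| + 1) * b)

/-- the defect function of a sequence of vectors of polynomials -/
noncomputable def defect {ι : Type} (v : AbsoluteValue Qbar ℝ) (R : ℕ → ι → Qbar[X]) (E : ℕ → ℕ)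
    (n : ℕ) (s : Qbar) : ℝ :=
  E n * Real.log (v s) - Real.log (⨆ i, v ((R n i).eval s))

/-- growth hypothesis at the places at infinity for a sequence of vectors of functions -/
def WGrowth {R : Type*} (G : Type*) [CommRing R] [Group G] [MulSemiringAction G R]
    (w : AbsoluteValue R ℝ) {N : ℕ} (d : ℕ) (q : ℕ → Fin (N + 1) → R) (M : ℝ) : Prop :=
  (∀ g : G, |Real.log (⨆ i, w (g • q 0 i))| ≤ M) ∧
  ∀ n (g : G), |Real.log (⨆ i, w (g • q (n + 1) i)) - d * Real.log (⨆ i, w (g • q n i))| ≤ M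

/-- growth hypothesis at the points for a sequence of vectors of functions -/
def VGrowth {R : Type*} [CommRing R] [Algebra Qbar[X] R] {N : ℕ} (d : ℕ)
    (q : ℕ → Fin (N + 1) → R) (T : Finset Qbar) (C : ℝ) : Prop :=
  ∀ v ε b, Adm T v ε b → ∀ t : R →+* Qbar, IsPt t →
    (∀ n, ∃ i, t (q n i) ≠ 0) ∧
    |Real.log (⨆ i, v (t (q 0 i)))| ≤ C * (b + max 0 (Real.log (v (sval t)))) ∧
    ∀ n, |Real.log (⨆ i, v (t (q (n + 1) i))) - d * Real.log (⨆ i, v (t (q n i)))| ≤
      C * (b + max 0 (Real.log (v (sval t))))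

end Pool.Agent.Helper259.Var
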