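import Mathlib
import Pool.Agent.Helper259.Var.Defs

set_option autoImplicit false

namespace Pool.Agent.Helper259.Var

namespace MBase

open Polynomial Pool.Agent.Helper259.AbsHt

/-- sum bound -/
theorem sum_le {B : Type*} [CommRing B] {u : AbsoluteValue B ℝ} {ε : ℕ} (hu : Tame u ε)
    {ι : Type*} (s : Finset ι) (f : ι → B) (M : ℝ) (hM : 0 ≤ M) (h : ∀ i ∈ s, u (f i) ≤ M) :
    u (∑ i ∈ s, f i) ≤ (s.card : ℝ) ^ ε * M := by
  classical
  rcases hu with ⟨hn, rfl⟩ | rfl
  · rw [pow_zero, one_mul]
    induction s using Finset.induction_on with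
    | empty => simpa using hM
    | insert a s ha ih =>
      rw [Finset.sum_insert ha]
      refine (hn _ _).trans (max_le (h a (Finset.mem_insert_self a s)) ?_)
      exact ih fun i hi => h i (Finset.mem_insert_of_mem hi)
  · rw [pow_one]
    refine (u.sum_le s f).trans ?_
    refine (Finset.sum_le_card_nsmul s _ M h).trans ?_
    rw [nsmul_eq_mul]

/-- evaluation bound -/
theorem eval_le {B : Type*} [CommRing B] {u : AbsoluteValue B ℝ} {ε : ℕ} (hu : Tame u ε)
    (p : B[X]) (D : ℕ) (hD : p.natDegree ≤ D) (M : ℝ) (hM : ∀ j, u (p.coeff j) ≤ M) (x : B) :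
    u (p.eval x) ≤ ((D : ℝ) + 1) ^ ε * M * max 1 (u x) ^ D := by
  have hM0 : 0 ≤ M := (u.nonneg _).trans (hM 0)
  rcases subsingleton_or_nontrivial B with hB | hB
  · rw [Subsingleton.elim (p.eval x) 0, map_zero]; positivity
  rw [eval_eq_sum_range' (Nat.lt_succ_of_le hD)]
  have h := sum_le hu (Finset.range (D + 1)) (fun i => p.coeff i * x ^ i) (M * max 1 (u x) ^ D)
    (by positivity) (fun i hi => by
      rw [map_mul, map_pow]
      have h1 : i ≤ D := Nat.lt_succ_iff.1 (Finset.mem_range.1 hi)
      have h2 : u x ^ i ≤ max 1 (u x) ^ D :=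
        (pow_le_pow_left₀ (u.nonneg _) (le_max_right 1 (u x)) i).trans
          (pow_le_pow_right₀ (le_max_left 1 (u x)) h1)
      exact mul_le_mul (hM i) h2 (pow_nonneg (u.nonneg _) _) hM0)
  rw [Finset.card_range] at h
  push_cast at h
  rw [mul_assoc]
  exact h

/-- bound for the roots of a monic polynomial -/
theorem root_le {B : Type*} [CommRing B] {u : AbsoluteValue B ℝ} {ε : ℕ} (hu : Tame u ε)
    (m : ℕ) (p : B[X]) (hp : p.Monic) (hpm : p.natDegree = m) (a C₀ : ℝ) (hC₀ : 1 ≤ C₀)
    (ha : 0 ≤ a) (h : ∀ j, 1 ≤ j → j ≤ m → u (p.coeff (m - j)) ≤ C₀ * a ^ j) (z : B)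
    (hz : p.eval z = 0) :
    u z ≤ (m : ℝ) ^ ε * C₀ * a := by
  rcases subsingleton_or_nontrivial B with hB | hB
  · rw [Subsingleton.elim z 0, map_zero]; positivity
  rcases Nat.eq_zero_or_pos m with rfl | hm
  · have h1 : p = 1 := eq_one_of_monic_natDegree_zero hp hpm
    rw [h1, eval_one] at hz
    have h2 : z = 0 := by rw [← one_mul z, hz, zero_mul]
    rw [h2, map_zero]
    positivity
  · by_contra hcon
    push Not at hcon
    set r := u z with hr
    have hme : (1 : ℝ) ≤ (m : ℝ) ^ ε := one_le_pow₀ (by exact_mod_cast hm)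
    have har : a ≤ r := by
      have : 1 * a ≤ (m : ℝ) ^ ε * C₀ * a :=
        mul_le_mul_of_nonneg_right (one_le_mul_of_one_le_of_one_le hme hC₀) ha
      linarith
    have hr0 : 0 < r := lt_of_le_of_lt (by positivity) hcon
    have h1 : z ^ m = -∑ i ∈ Finset.range m, p.coeff i * z ^ i := by
      rw [eval_eq_sum_range, hpm, Finset.sum_range_succ] at hz
      have h2 : p.coeff m = 1 := by rw [← hpm]; exact hp.coeff_natDegree
      rw [h2, one_mul] at hz
      exact eq_neg_of_add_eq_zero_right hz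
    have h2 : u (z ^ m) ≤ (m : ℝ) ^ ε * (C₀ * a * r ^ (m - 1)) := by
      rw [h1, AbsoluteValue.map_neg]
      have h3 := sum_le hu (Finset.range m) (fun i => p.coeff i * z ^ i) (C₀ * a * r ^ (m - 1))
        (by positivity) (fun i hi => by
          have hi' : i < m := Finset.mem_range.1 hi
          have h4 := h (m - i) (by omega) (by omega)
          rw [show m - (m - i) = i by omega] at h4
          rw [map_mul, map_pow, ← hr]
          have h5 : a ^ (m - i) = a * a ^ (m - i - 1) := by
            rw [← pow_succ']; congr 1; omega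
          have h6 : r ^ (m - 1) = r ^ (m - i - 1) * r ^ i := by
            rw [← pow_add]; congr 1; omega
          rw [h5] at h4
          rw [h6]
          calc u (p.coeff i) * r ^ i ≤ (C₀ * (a * a ^ (m - i - 1))) * r ^ i :=
                mul_le_mul_of_nonneg_right h4 (by positivity)
            _ ≤ (C₀ * (a * r ^ (m - i - 1))) * r ^ i := by
                apply mul_le_mul_of_nonneg_right _ (by positivity)
                apply mul_le_mul_of_nonneg_left _ (by positivity)
                exact mul_le_mul_of_nonneg_left (pow_le_pow_left₀ ha har _) ha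
            _ = _ := by ring)
      rwa [Finset.card_range] at h3
    rw [map_pow, ← hr] at h2
    have h3 : r ^ m = r * r ^ (m - 1) := by rw [← pow_succ']; congr 1; omega
    rw [h3] at h2
    have h4 : (m : ℝ) ^ ε * (C₀ * a * r ^ (m - 1)) = ((m : ℝ) ^ ε * C₀ * a) * r ^ (m - 1) := by ring
    rw [h4] at h2
    have h5 : r ≤ (m : ℝ) ^ ε * C₀ * a := le_of_mul_le_mul_right h2 (pow_pos hr0 _)
    linarith

theorem two_le259 {B : Type*} [CommRing B] {u : AbsoluteValue B ℝ} {ε : ℕ} (hu : Tame u ε)
    (x y : B) (A : ℝ) (hx : u x ≤ A) (hy : u y ≤ A) : u (x - y) ≤ (2 : ℝ) ^ ε * A := by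
  rcases hu with ⟨hn, rfl⟩ | rfl
  · rw [pow_zero, one_mul, sub_eq_add_neg]
    refine (hn _ _).trans (max_le hx ?_)
    rw [AbsoluteValue.map_neg]; exact hy
  · rw [pow_one, sub_eq_add_neg]
    refine (u.add_le _ _).trans ?_
    rw [AbsoluteValue.map_neg]
    linarith

theorem one_le259 {B : Type*} [CommRing B] (u : AbsoluteValue B ℝ) : u 1 ≤ 1 := by
  have h : u 1 * u 1 = u 1 := by rw [← map_mul, one_mul]
  nlinarith [sq_nonneg (u 1 - 1), u.nonneg 1]

theorem coeff_aux259 {B : Type*} [CommRing B] {u : AbsoluteValue B ℝ} {ε : ℕ} (hu : Tame u ε)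
    {G : Type*} (a : G → B) (M : ℝ) (hM : ∀ g, u (a g) ≤ M) (hM0 : 0 ≤ M) (s : Finset G) :
    ∀ j : ℕ, j ≤ s.card →
    u ((∏ g ∈ s, (X - C (a g))).coeff (s.card - j)) ≤ ((2 : ℝ) ^ s.card) ^ ε * M ^ j := by
  classical
  induction s using Finset.induction_on with
  | empty =>
    intro j hj
    rw [Finset.card_empty] at hj
    have hj0 : j = 0 := by omega
    subst hj0
    simpa using one_le259 u
  | insert b s hb ih =>
    intro j hj
    rw [Finset.card_insert_of_notMem hb] at hj ⊢
    rw [Finset.prod_insert hb]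
    set P := ∏ g ∈ s, (X - C (a g)) with hP
    have hstep : ((2 : ℝ) ^ (s.card + 1)) ^ ε * M ^ j = (2 : ℝ) ^ ε * (((2 : ℝ) ^ s.card) ^ ε * M ^ j) := by
      rw [pow_succ, mul_pow]; ring
    rw [hstep]
    have hone : (1 : ℝ) ≤ (2 : ℝ) ^ ε := one_le_pow₀ (by norm_num)
    rcases Nat.eq_zero_or_pos j with rfl | hj1
    · -- leading coefficient
      have hmon : ((X - C (a b)) * P).Monic := by
        apply Monic.mul (monic_X_sub_C _)
        exact monic_prod_of_monic _ _ fun g _ => monic_X_sub_C _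
      rcases subsingleton_or_nontrivial B with hB | hB
      · have h0 : ((X - C (a b)) * P).coeff (s.card + 1 - 0) = 0 := Subsingleton.elim _ _
        rw [h0, AbsoluteValue.map_zero]; positivity
      have hdeg : ((X - C (a b)) * P).natDegree = s.card + 1 := by
        rw [hP, ← Finset.prod_insert (f := fun g => X - C (a g)) hb, natDegree_prod_of_monic _ _ fun g _ => monic_X_sub_C _]
        simp [Finset.card_insert_of_notMem hb]
      rw [Nat.sub_zero, ← hdeg, hmon.coeff_natDegree, pow_zero, mul_one]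
      refine (one_le259 u).trans ?_
      exact one_le_mul_of_one_le_of_one_le hone (one_le_pow₀ (one_le_pow₀ (by norm_num)))
    · rcases Nat.lt_or_ge s.card j with hlt | hle
      · have hjc : j = s.card + 1 := by omega
        subst hjc
        rw [Nat.sub_self, mul_coeff_zero, coeff_sub, coeff_X_zero, coeff_C_zero, zero_sub, neg_mul,
          AbsoluteValue.map_neg, map_mul]
        have h1 := ih s.card le_rfl
        rw [Nat.sub_self] at h1
        calc u (a b) * u (P.coeff 0) ≤ M * (((2 : ℝ) ^ s.card) ^ ε * M ^ s.card) :=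
              mul_le_mul (hM b) h1 (u.nonneg _) hM0
          _ = 1 * (((2 : ℝ) ^ s.card) ^ ε * M ^ (s.card + 1)) := by rw [pow_succ]; ring
          _ ≤ _ := mul_le_mul_of_nonneg_right hone (by positivity)
      · have hk : s.card + 1 - j = (s.card - j) + 1 := by omega
        rw [hk, sub_mul, coeff_sub, coeff_X_mul, coeff_C_mul]
        refine two_le259 hu _ _ _ (ih j hle) ?_
        rw [map_mul]
        have h1 := ih (j - 1) (by omega)
        rw [show s.card - (j - 1) = s.card - j + 1 by omega] at h1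
        calc u (a b) * u (P.coeff (s.card - j + 1)) ≤ M * (((2 : ℝ) ^ s.card) ^ ε * M ^ (j - 1)) :=
              mul_le_mul (hM b) h1 (u.nonneg _) hM0
          _ = ((2 : ℝ) ^ s.card) ^ ε * (M * M ^ (j - 1)) := by ring
          _ = _ := by rw [← pow_succ']; congr 2; omega

/-- coefficients of a product of linear factors -/
theorem coeff_prod_le {B : Type*} [CommRing B] {u : AbsoluteValue B ℝ} {ε : ℕ} (hu : Tame u ε)
    {G : Type*} [Fintype G] (a : G → B) (M : ℝ) (hM : ∀ g, u (a g) ≤ M) (hM0 : 0 ≤ M)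
    (j : ℕ) (hj : j ≤ Fintype.card G) :
    u ((∏ g, (X - C (a g))).coeff (Fintype.card G - j)) ≤ ((2 : ℝ) ^ Fintype.card G) ^ ε * M ^ j :=
  coeff_aux259 hu a M hM hM0 Finset.univ j hj

end MBase

export MBase (sum_le eval_le root_le coeff_prod_le)

end Pool.Agent.Helper259.Var
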