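import Mathlib

set_option autoImplicit false

namespace Pool.Agent.Helper259.Var

/-- The iterates of a point under a polynomial map: coordinate vectors of `f^n(P)`. -/
noncomputable def iterQ {A : Type*} [CommRing A] {N : ℕ}
    (F : Fin (N + 1) → MvPolynomial (Fin (N + 1)) A) (P : Fin (N + 1) → A) :
    ℕ → Fin (N + 1) → A
  | 0 => P
  | n + 1 => fun i => MvPolynomial.eval (iterQ F P n) (F i)

end Pool.Agent.Helper259.Var
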