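import Mathlib
import Pool.Agent.Helper259.Var.Base
import Pool.Agent.Helper259.Var.Iter

set_option autoImplicit false

universe u1 u2

namespace Pool.Agent.Helper259.Var

namespace MDyn

open Pool.Agent.Helper259.AbsHt

theorem j13747_hc_mul {A : Type u1} [CommRing A] {N d a : ℕ}
    (G F : MvPolynomial (Fin (N + 1)) A) (hF : F.IsHomogeneous d) :
    MvPolynomial.homogeneousComponent (a + d) (G * F) =
      MvPolynomial.homogeneousComponent a G * F := by
  letI := MvPolynomial.gradedAlgebra (σ := Fin (N + 1)) (R := A)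
  have h := DirectSum.coe_decompose_mul_of_right_mem_of_le
    (MvPolynomial.homogeneousSubmodule (Fin (N + 1)) A) (a := G) (b := F) (i := d) (n := a + d)
    ((MvPolynomial.mem_homogeneousSubmodule d F).2 hF) (Nat.le_add_left d a)
  rw [Nat.add_sub_cancel] at h
  rw [← MvPolynomial.decomposition.decompose'_apply, ← MvPolynomial.decomposition.decompose'_apply]
  exact h

theorem j13747_bound {A : Type u1} [CommRing A] {B : Type u2} [CommRing B] [IsDomain B] {N : ℕ}
    {u : AbsoluteValue B ℝ} {ε : ℕ} (hu : Tame u ε) (χ : A →+* B) (M : ℝ)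
    {p : MvPolynomial (Fin (N + 1)) A} {D K : ℕ} (hp : p.IsHomogeneous D)
    (hK : p.support.card ≤ K) (hc : ∀ m ∈ p.support, u (χ (p.coeff m)) ≤ Real.exp M)
    (x : Fin (N + 1) → B) (n : ℝ) (hn : ∀ i, u (x i) ≤ n) (hn0 : 0 ≤ n) :
    u (MvPolynomial.eval x (MvPolynomial.map χ p)) ≤ (K : ℝ) ^ ε * (Real.exp M * n ^ D) := by
  rw [MvPolynomial.eval_map, MvPolynomial.eval₂_eq']
  refine (sum_le hu p.support _ (Real.exp M * n ^ D) (by positivity) ?_).trans ?_
  · intro m hm
    rw [map_mul, map_prod]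
    refine mul_le_mul (hc m hm) ?_ (Finset.prod_nonneg fun i _ => u.nonneg _)
      (Real.exp_pos M).le
    have h1 : ∏ i, u (x i ^ m i) ≤ ∏ i, n ^ m i := by
      refine Finset.prod_le_prod (fun i _ => u.nonneg _) fun i _ => ?_
      rw [map_pow]
      exact pow_le_pow_left₀ (u.nonneg _) (hn i) _
    refine h1.trans (le_of_eq ?_)
    rw [Finset.prod_pow_eq_pow_sum]
    congr 1
    have h2 := hp (MvPolynomial.mem_support_iff.1 hm)
    rw [← h2, Finsupp.weight_apply, Finsupp.sum_fintype _ _ (fun _ => by simp)]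
    refine Finset.sum_congr rfl fun i _ => ?_
    simp
  · refine mul_le_mul_of_nonneg_right ?_ (by positivity)
    exact pow_le_pow_left₀ (Nat.cast_nonneg _) (Nat.cast_le.2 hK) _

/-- the basic functoriality inequality for a family of morphisms, for every domain over
`A` with an absolute value -/
theorem dyn_ineq {A : Type u1} [CommRing A] {N d : ℕ}
    (F : Fin (N + 1) → MvPolynomial (Fin (N + 1)) A) (hhom : ∀ i, (F i).IsHomogeneous d)
    (hpow : ∀ k, ∃ e : ℕ,
      (MvPolynomial.X k : MvPolynomial (Fin (N + 1)) A) ^ e ∈ Ideal.span (Set.range F)) :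
    ∃ (T : Finset A) (C : ℝ), 0 ≤ C ∧ ∀ (B : Type u2) [CommRing B] [IsDomain B]
      (u : AbsoluteValue B ℝ) (ε : ℕ), Tame u ε → ∀ (χ : A →+* B) (M : ℝ), 0 ≤ M →
      (∀ c ∈ T, u (χ c) ≤ Real.exp M) → ∀ x : Fin (N + 1) → B, x ≠ 0 →
      (∃ i, MvPolynomial.eval x (MvPolynomial.map χ (F i)) ≠ 0) ∧
      |Real.log (⨆ i, u (MvPolynomial.eval x (MvPolynomial.map χ (F i)))) -
        d * Real.log (⨆ i, u (x i))| ≤ C * (M + ε) := by
  classical
  choose a ha using hpow
  have hG : ∀ k, ∃ G : Fin (N + 1) → MvPolynomial (Fin (N + 1)) A,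
      (∀ j, (G j).IsHomogeneous (a k)) ∧
      ∑ j, G j * F j = (MvPolynomial.X k : MvPolynomial (Fin (N + 1)) A) ^ (a k + d) := by
    intro k
    have h1 : (MvPolynomial.X k : MvPolynomial (Fin (N + 1)) A) ^ (a k + d) ∈
        Ideal.span (Set.range F) := by
      rw [pow_add]
      exact Ideal.mul_mem_right _ _ (ha k)
    obtain ⟨G, hG⟩ := Ideal.mem_span_range_iff_exists_fun.1 h1
    refine ⟨fun j => MvPolynomial.homogeneousComponent (a k) (G j),
      fun j => MvPolynomial.homogeneousComponent_isHomogeneous _ _, ?_⟩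
    have h2 := congrArg (MvPolynomial.homogeneousComponent (a k + d)) hG
    rw [map_sum] at h2
    simp only [j13747_hc_mul _ _ (hhom _)] at h2
    rw [h2]
    refine MvPolynomial.homogeneousComponent_eq_self ?_
    have h3 := (MvPolynomial.isHomogeneous_X A k).pow (a k + d)
    rwa [one_mul] at h3
  choose G hGh hGs using hG
  let T : Finset A := (Finset.univ.biUnion fun i => (F i).support.image fun m => (F i).coeff m) ∪
    (Finset.univ.biUnion fun k => Finset.univ.biUnion fun j =>
      (G k j).support.image fun m => (G k j).coeff m)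
  let K : ℕ := (N + 1) + (∑ i, (F i).support.card) + ∑ k, ∑ j, (G k j).support.card
  have hK1 : N + 1 ≤ K := by
    show N + 1 ≤ (N + 1) + (∑ i, (F i).support.card) + ∑ k, ∑ j, (G k j).support.card
    omega
  have hKF : ∀ i, (F i).support.card ≤ K := by
    intro i
    have h1 : (F i).support.card ≤ ∑ i, (F i).support.card :=
      Finset.single_le_sum (f := fun i => (F i).support.card) (fun _ _ => Nat.zero_le _)
        (Finset.mem_univ i)
    show (F i).support.card ≤
      (N + 1) + (∑ i, (F i).support.card) + ∑ k, ∑ j, (G k j).support.card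
    omega
  have hKG : ∀ k j, (G k j).support.card ≤ K := by
    intro k j
    have h1 : (G k j).support.card ≤ ∑ j, (G k j).support.card :=
      Finset.single_le_sum (f := fun j => (G k j).support.card) (fun _ _ => Nat.zero_le _)
        (Finset.mem_univ j)
    have h2 : ∑ j, (G k j).support.card ≤ ∑ k, ∑ j, (G k j).support.card :=
      Finset.single_le_sum (f := fun k => ∑ j, (G k j).support.card) (fun _ _ => Nat.zero_le _)
        (Finset.mem_univ k)
    show (G k j).support.card ≤
      (N + 1) + (∑ i, (F i).support.card) + ∑ k, ∑ j, (G k j).support.card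
    omega
  clear_value K
  have hKr : (1 : ℝ) ≤ (K : ℝ) := by
    have : 1 ≤ K := by omega
    exact_mod_cast this
  have hlK : 0 ≤ Real.log K := Real.log_nonneg hKr
  refine ⟨T, 1 + 2 * Real.log K, by linarith, ?_⟩
  intro B _ _ u ε hu χ M hM hT x hx
  have hTF : ∀ i, ∀ m ∈ (F i).support, u (χ ((F i).coeff m)) ≤ Real.exp M := by
    intro i m hm
    apply hT
    refine Finset.mem_union_left _ (Finset.mem_biUnion.2 ⟨i, Finset.mem_univ i, ?_⟩)
    exact Finset.mem_image.2 ⟨m, hm, rfl⟩
  have hTG : ∀ k j, ∀ m ∈ (G k j).support, u (χ ((G k j).coeff m)) ≤ Real.exp M := by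
    intro k j m hm
    apply hT
    refine Finset.mem_union_right _ (Finset.mem_biUnion.2 ⟨k, Finset.mem_univ k,
      Finset.mem_biUnion.2 ⟨j, Finset.mem_univ j, ?_⟩⟩)
    exact Finset.mem_image.2 ⟨m, hm, rfl⟩
  obtain ⟨k, hk⟩ := exists_eq_ciSup_of_finite (f := fun i => u (x i))
  have hn : ∀ i, u (x i) ≤ ⨆ i, u (x i) := fun i =>
    le_ciSup (f := fun i => u (x i)) (Set.finite_range _).bddAbove i
  have hn0 : 0 < ⨆ i, u (x i) := by
    obtain ⟨i, hi⟩ := Function.ne_iff.1 hx
    exact lt_of_lt_of_le (u.pos hi) (hn i)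
  set n : ℝ := ⨆ i, u (x i) with hndef
  have hy : ∀ i, u (MvPolynomial.eval x (MvPolynomial.map χ (F i))) ≤
      ⨆ i, u (MvPolynomial.eval x (MvPolynomial.map χ (F i))) := fun i =>
    le_ciSup (f := fun i => u (MvPolynomial.eval x (MvPolynomial.map χ (F i))))
      (Set.finite_range _).bddAbove i
  have hyle : (⨆ i, u (MvPolynomial.eval x (MvPolynomial.map χ (F i)))) ≤
      (K : ℝ) ^ ε * (Real.exp M * n ^ d) :=
    ciSup_le fun i => j13747_bound hu χ M (hhom i) (hKF i) (hTF i) x n hn hn0.le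
  have hy0 : 0 ≤ ⨆ i, u (MvPolynomial.eval x (MvPolynomial.map χ (F i))) :=
    le_trans (u.nonneg _) (hy 0)
  have hlow : n ^ (a k + d) ≤ (K : ℝ) ^ ε * (((K : ℝ) ^ ε * (Real.exp M * n ^ a k)) *
      ⨆ i, u (MvPolynomial.eval x (MvPolynomial.map χ (F i)))) := by
    have h1 := congrArg (fun q => MvPolynomial.eval x (MvPolynomial.map χ q)) (hGs k)
    simp only [map_sum, map_mul, map_pow, MvPolynomial.map_X, MvPolynomial.eval_X] at h1
    have h2 : n ^ (a k + d) = u (x k ^ (a k + d)) := by
      rw [map_pow]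
      exact congrArg (fun t : ℝ => t ^ (a k + d)) hk.symm
    rw [h2, ← h1]
    refine (sum_le hu Finset.univ _ (((K : ℝ) ^ ε * (Real.exp M * n ^ a k)) *
      ⨆ i, u (MvPolynomial.eval x (MvPolynomial.map χ (F i)))) (by positivity) ?_).trans ?_
    · intro j _
      rw [map_mul]
      refine mul_le_mul ?_ (hy j) (u.nonneg _) (by positivity)
      exact j13747_bound hu χ M (hGh k j) (hKG k j) (hTG k j) x n hn hn0.le
    · refine mul_le_mul_of_nonneg_right ?_ (by positivity)
      refine pow_le_pow_left₀ (Nat.cast_nonneg _) ?_ _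
      rw [Finset.card_univ, Fintype.card_fin]
      exact Nat.cast_le.2 hK1
  generalize hydef : (⨆ i, u (MvPolynomial.eval x (MvPolynomial.map χ (F i)))) = y at *
  have hlow' : n ^ d ≤ (K : ℝ) ^ ε * ((K : ℝ) ^ ε * Real.exp M) * y := by
    have hpos : 0 < n ^ a k := pow_pos hn0 _
    rw [pow_add] at hlow
    refine le_of_mul_le_mul_left ?_ hpos
    calc n ^ a k * n ^ d ≤ _ := hlow
      _ = _ := by ring
  have hypos : 0 < y := by
    rcases hy0.lt_or_eq with h | h
    · exact h
    · rw [← h, mul_zero] at hlow'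
      exact absurd (pow_pos hn0 d) (not_lt.2 hlow')
  refine ⟨?_, ?_⟩
  · by_contra hno
    push Not at hno
    have h1 : y = 0 := by
      rw [← hydef]
      simp only [hno, map_zero]
      exact ciSup_const
    exact absurd h1 hypos.ne'
  · have hKpos : (0 : ℝ) < (K : ℝ) := by linarith
    have l1 : Real.log y ≤ ε * Real.log K + (M + d * Real.log n) := by
      have h := Real.log_le_log hypos hyle
      rwa [Real.log_mul (pow_pos hKpos _).ne' (by positivity), Real.log_pow,
        Real.log_mul (Real.exp_pos M).ne' (pow_pos hn0 _).ne', Real.log_exp, Real.log_pow] at h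
    have l2 : d * Real.log n ≤ ε * Real.log K + (ε * Real.log K + M) + Real.log y := by
      have h := Real.log_le_log (pow_pos hn0 d) hlow'
      rwa [Real.log_mul (by positivity) hypos.ne', Real.log_mul (pow_pos hKpos _).ne'
        (by positivity), Real.log_mul (pow_pos hKpos _).ne' (Real.exp_pos M).ne',
        Real.log_exp, Real.log_pow, Real.log_pow] at h
    have hε : (0 : ℝ) ≤ ε := Nat.cast_nonneg ε
    have hp1 : 0 ≤ Real.log K * M := mul_nonneg hlK hM
    have hp2 : 0 ≤ (ε : ℝ) * Real.log K := mul_nonneg hε hlK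
    rw [abs_le]
    constructor
    · nlinarith
    · nlinarith

/-- size of a unimodular vector -/
theorem unimod_ineq {A : Type u1} [CommRing A] {N : ℕ} (P U : Fin (N + 1) → A)
    (hU : ∑ i, U i * P i = 1) :
    ∃ (T : Finset A) (C : ℝ), 0 ≤ C ∧ ∀ (B : Type u2) [CommRing B] [IsDomain B]
      (u : AbsoluteValue B ℝ) (ε : ℕ), Tame u ε → ∀ (χ : A →+* B) (M : ℝ), 0 ≤ M →
      (∀ c ∈ T, u (χ c) ≤ Real.exp M) →
      (∃ i, χ (P i) ≠ 0) ∧ |Real.log (⨆ i, u (χ (P i)))| ≤ C * (M + ε) := by
  classical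
  have hKr : (1 : ℝ) ≤ ((N + 1 : ℕ) : ℝ) := by
    exact_mod_cast Nat.succ_le_succ (Nat.zero_le N)
  have hlK : 0 ≤ Real.log ((N + 1 : ℕ) : ℝ) := Real.log_nonneg hKr
  refine ⟨Finset.univ.image U ∪ Finset.univ.image P, 1 + Real.log ((N + 1 : ℕ) : ℝ),
    by linarith, ?_⟩
  intro B _ _ u ε hu χ M hM hT
  have hTU : ∀ i, u (χ (U i)) ≤ Real.exp M := fun i =>
    hT _ (Finset.mem_union_left _ (Finset.mem_image_of_mem U (Finset.mem_univ i)))
  have hTP : ∀ i, u (χ (P i)) ≤ Real.exp M := fun i =>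
    hT _ (Finset.mem_union_right _ (Finset.mem_image_of_mem P (Finset.mem_univ i)))
  have hy : ∀ i, u (χ (P i)) ≤ ⨆ i, u (χ (P i)) := fun i =>
    le_ciSup (f := fun i => u (χ (P i))) (Set.finite_range _).bddAbove i
  have hyle : (⨆ i, u (χ (P i))) ≤ Real.exp M := ciSup_le hTP
  have hy0 : 0 ≤ ⨆ i, u (χ (P i)) := le_trans (u.nonneg _) (hy 0)
  have hlow : 1 ≤ ((N + 1 : ℕ) : ℝ) ^ ε * (Real.exp M * ⨆ i, u (χ (P i))) := by
    have h1 := congrArg χ hU
    simp only [map_sum, map_mul, map_one] at h1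
    have h2 : (1 : ℝ) = u 1 := (map_one u).symm
    rw [h2, ← h1]
    refine (sum_le hu Finset.univ _ (Real.exp M * ⨆ i, u (χ (P i))) (by positivity) ?_).trans ?_
    · intro j _
      rw [map_mul]
      exact mul_le_mul (hTU j) (hy j) (u.nonneg _) (Real.exp_pos M).le
    · rw [Finset.card_univ, Fintype.card_fin]
  generalize hydef : (⨆ i, u (χ (P i))) = y at *
  have hypos : 0 < y := by
    rcases hy0.lt_or_eq with h | h
    · exact h
    · rw [← h, mul_zero, mul_zero] at hlow
      exact absurd hlow (by norm_num)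
  refine ⟨?_, ?_⟩
  · by_contra hno
    push Not at hno
    have h1 : y = 0 := by
      rw [← hydef]
      simp only [hno, map_zero]
      exact ciSup_const
    exact absurd h1 hypos.ne'
  · have hKpos : (0 : ℝ) < ((N + 1 : ℕ) : ℝ) := by linarith
    have l1 : Real.log y ≤ M := by
      have h := Real.log_le_log hypos hyle
      rwa [Real.log_exp] at h
    have l2 : 0 ≤ ε * Real.log ((N + 1 : ℕ) : ℝ) + (M + Real.log y) := by
      have h := Real.log_le_log one_pos hlow
      rwa [Real.log_one, Real.log_mul (pow_pos hKpos _).ne' (by positivity), Real.log_pow,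
        Real.log_mul (Real.exp_pos M).ne' hypos.ne', Real.log_exp] at h
    have hε : (0 : ℝ) ≤ ε := Nat.cast_nonneg ε
    have hp1 : 0 ≤ Real.log ((N + 1 : ℕ) : ℝ) * M := mul_nonneg hlK hM
    have hp2 : 0 ≤ (ε : ℝ) * Real.log ((N + 1 : ℕ) : ℝ) := mul_nonneg hε hlK
    rw [abs_le]
    constructor
    · nlinarith
    · nlinarith

end MDyn

export MDyn (dyn_ineq unimod_ineq)

end Pool.Agent.Helper259.Var
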