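import Mathlib
import Pool.Agent.Helper259.Var.Dyn

set_option autoImplicit false

universe u1 u2

namespace Pool.Agent.Helper259.Var

namespace MIterG

open Pool.Agent.Helper259.AbsHt

/-- growth of the iterates -/
theorem iter_growth {A : Type u1} [CommRing A] {N d : ℕ} (hd : 2 ≤ d)
    (F : Fin (N + 1) → MvPolynomial (Fin (N + 1)) A) (hhom : ∀ i, (F i).IsHomogeneous d)
    (hpow : ∀ k, ∃ e : ℕ,
      (MvPolynomial.X k : MvPolynomial (Fin (N + 1)) A) ^ e ∈ Ideal.span (Set.range F))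
    (P U : Fin (N + 1) → A) (hU : ∑ i, U i * P i = 1) :
    ∃ (T : Finset A) (C : ℝ), 0 ≤ C ∧ ∀ (B : Type u2) [CommRing B] [IsDomain B]
      (u : AbsoluteValue B ℝ) (ε : ℕ), Tame u ε → ∀ (χ : A →+* B) (M : ℝ), 0 ≤ M →
      (∀ c ∈ T, u (χ c) ≤ Real.exp M) → ∀ n,
      (∃ i, χ (iterQ F P n i) ≠ 0) ∧
      |Real.log (⨆ i, u (χ (iterQ F P n i)))| ≤ C * d ^ n * (M + ε) ∧
      |Real.log (⨆ i, u (χ (iterQ F P (n + 1) i))) -
        d * Real.log (⨆ i, u (χ (iterQ F P n i)))| ≤ C * (M + ε) := by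
  classical
  obtain ⟨T1, C1, hC1, h1⟩ := dyn_ineq.{u1, u2} F hhom hpow
  obtain ⟨T2, C2, hC2, h2⟩ := unimod_ineq.{u1, u2} P U hU
  refine ⟨T1 ∪ T2, 2 * (C1 + C2), by positivity, ?_⟩
  intro B _ _ u ε hu χ M hM hT
  have hT1 : ∀ c ∈ T1, u (χ c) ≤ Real.exp M := fun c hc => hT c (Finset.mem_union_left _ hc)
  have hT2 : ∀ c ∈ T2, u (χ c) ≤ Real.exp M := fun c hc => hT c (Finset.mem_union_right _ hc)
  have hmap : ∀ n i, χ (iterQ F P (n + 1) i) =
      MvPolynomial.eval (fun i => χ (iterQ F P n i)) (MvPolynomial.map χ (F i)) := by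
    intro n i
    show χ (MvPolynomial.eval (iterQ F P n) (F i)) = _
    rw [MvPolynomial.eval_map]
    exact MvPolynomial.eval₂_comp_left χ (RingHom.id A) (iterQ F P n) (F i) |>.trans
      (by rw [RingHom.comp_id]; rfl)
  have hne : ∀ n, ∃ i, χ (iterQ F P n i) ≠ 0 := by
    intro n
    induction n with
    | zero => exact (h2 B u ε hu χ M hM hT2).1
    | succ n ih =>
      obtain ⟨i0, hi0⟩ := ih
      have hx : (fun i => χ (iterQ F P n i)) ≠ 0 := fun h => hi0 (congrFun h i0)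
      obtain ⟨i, hi⟩ := (h1 B u ε hu χ M hM hT1 (fun i => χ (iterQ F P n i)) hx).1
      exact ⟨i, by rw [hmap]; exact hi⟩
  set E : ℝ := M + ε with hE
  have hE0 : 0 ≤ E := by positivity
  have hstep : ∀ n, |Real.log (⨆ i, u (χ (iterQ F P (n + 1) i))) -
        d * Real.log (⨆ i, u (χ (iterQ F P n i)))| ≤ C1 * E := by
    intro n
    obtain ⟨i0, hi0⟩ := hne n
    have hx : (fun i => χ (iterQ F P n i)) ≠ 0 := fun h => hi0 (congrFun h i0)
    have h3 := (h1 B u ε hu χ M hM hT1 (fun i => χ (iterQ F P n i)) hx).2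
    have h4 : (⨆ i, u (χ (iterQ F P (n + 1) i))) =
        ⨆ i, u (MvPolynomial.eval (fun i => χ (iterQ F P n i)) (MvPolynomial.map χ (F i))) := by
      congr 1; funext i; rw [hmap]
    rw [h4]
    exact h3
  have hzero : |Real.log (⨆ i, u (χ (iterQ F P 0 i)))| ≤ C2 * E :=
    (h2 B u ε hu χ M hM hT2).2
  have hd' : (2 : ℝ) ≤ d := by exact_mod_cast hd
  have hdn : ∀ n : ℕ, (1 : ℝ) ≤ (d : ℝ) ^ n := fun n => one_le_pow₀ (by linarith)
  have hbound : ∀ n, |Real.log (⨆ i, u (χ (iterQ F P n i)))| ≤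
      (C1 + C2) * (2 * d ^ n - 1) * E := by
    intro n
    induction n with
    | zero =>
      refine hzero.trans ?_
      have : C2 ≤ (C1 + C2) * (2 * (d : ℝ) ^ 0 - 1) := by
        rw [pow_zero]; linarith
      exact mul_le_mul_of_nonneg_right this hE0
    | succ n ih =>
      have h5 := hstep n
      have h6 : |Real.log (⨆ i, u (χ (iterQ F P (n + 1) i)))| ≤
          C1 * E + d * |Real.log (⨆ i, u (χ (iterQ F P n i)))| := by
        have h7 : Real.log (⨆ i, u (χ (iterQ F P (n + 1) i))) =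
          (Real.log (⨆ i, u (χ (iterQ F P (n + 1) i))) -
            d * Real.log (⨆ i, u (χ (iterQ F P n i)))) +
            d * Real.log (⨆ i, u (χ (iterQ F P n i))) := by ring
        rw [h7]
        refine (abs_add_le _ _).trans ?_
        rw [abs_mul, abs_of_nonneg (by linarith : (0 : ℝ) ≤ d)]
        linarith
      refine h6.trans ?_
      have h8 : (d : ℝ) * |Real.log (⨆ i, u (χ (iterQ F P n i)))| ≤
          d * ((C1 + C2) * (2 * d ^ n - 1) * E) := mul_le_mul_of_nonneg_left ih (by linarith)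
      have h9 : C1 * E + d * ((C1 + C2) * (2 * d ^ n - 1) * E) ≤
          (C1 + C2) * (2 * (d : ℝ) ^ (n + 1) - 1) * E := by
        have h10 : C1 + d * ((C1 + C2) * (2 * d ^ n - 1)) ≤
          (C1 + C2) * (2 * (d : ℝ) ^ (n + 1) - 1) := by
          have h11 : 0 ≤ (C1 + C2) * ((d : ℝ) - 2) := mul_nonneg (by positivity) (by linarith)
          have h12 : (C1 + C2) * (2 * (d : ℝ) ^ (n + 1) - 1) -
            (C1 + d * ((C1 + C2) * (2 * d ^ n - 1))) = (C1 + C2) * ((d : ℝ) - 2) + C2 := by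
            rw [pow_succ]; ring
          linarith
        have := mul_le_mul_of_nonneg_right h10 hE0
        calc C1 * E + d * ((C1 + C2) * (2 * d ^ n - 1) * E) =
            (C1 + d * ((C1 + C2) * (2 * d ^ n - 1))) * E := by ring
          _ ≤ _ := this
      linarith
  intro n
  refine ⟨hne n, (hbound n).trans ?_, (hstep n).trans ?_⟩
  · apply mul_le_mul_of_nonneg_right _ hE0
    have : 0 ≤ C1 + C2 := by positivity
    nlinarith [hdn n]
  · apply mul_le_mul_of_nonneg_right _ hE0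
    linarith

end MIterG

export MIterG (iter_growth)

end Pool.Agent.Helper259.Var
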