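import Mathlib
import Pool.Agent.Helper259.Var.Defs

set_option autoImplicit false

namespace Pool.Agent.Helper259.Var

namespace MLift

open Polynomial Pool.Agent.Helper259.AbsHt

/-- ring homomorphisms to an algebraically closed field extend along integral injective
ring extensions -/
theorem exists_lift {A R K : Type*} [CommRing A] [CommRing R] [Algebra A R]
    [Algebra.IsIntegral A R] [Field K] [IsAlgClosed K]
    (hinj : Function.Injective (algebraMap A R)) (t : A →+* K) :
    ∃ t' : R →+* K, t'.comp (algebraMap A R) = t := by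
  have hp : (RingHom.ker t).IsPrime := RingHom.ker_isPrime t
  obtain ⟨q, -, hq, hqp⟩ := Ideal.exists_ideal_over_prime_of_isIntegral (RingHom.ker t)
    (⊥ : Ideal R) (by
      rw [← RingHom.ker_eq_comap_bot, (RingHom.injective_iff_ker_eq_bot _).1 hinj]
      exact bot_le)
  have hle : ∀ a ∈ q.comap (algebraMap A R), t a = 0 := by
    intro a ha
    rw [hqp] at ha
    exact ha
  let ι : (A ⧸ q.comap (algebraMap A R)) →+* K := Ideal.Quotient.lift _ t hle
  have hι : Function.Injective ι := by
    rw [RingHom.injective_iff_ker_eq_bot, eq_bot_iff]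
    intro x hx
    obtain ⟨a, rfl⟩ := Ideal.Quotient.mk_surjective x
    have h1 : t a = 0 := hx
    have h2 : a ∈ q.comap (algebraMap A R) := by rw [hqp]; exact h1
    exact Ideal.Quotient.eq_zero_iff_mem.2 h2
  letI : Algebra (A ⧸ q.comap (algebraMap A R)) K := ι.toAlgebra
  haveI : (q.comap (algebraMap A R)).IsPrime := Ideal.comap_isPrime _ _
  haveI h3 : Module.IsTorsionFree (A ⧸ q.comap (algebraMap A R)) (R ⧸ q) :=
    Module.isTorsionFree_iff_algebraMap_injective.2 Ideal.algebraMap_quotient_injective
  haveI h4 : Module.IsTorsionFree (A ⧸ q.comap (algebraMap A R)) K :=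
    Module.isTorsionFree_iff_algebraMap_injective.2 hι
  let f : (R ⧸ q) →ₐ[A ⧸ q.comap (algebraMap A R)] K := IsAlgClosed.lift
  refine ⟨f.toRingHom.comp (Ideal.Quotient.mk q), ?_⟩
  ext a
  show f (Ideal.Quotient.mk q (algebraMap A R a)) = t a
  have h5 : Ideal.Quotient.mk q (algebraMap A R a) =
      algebraMap (A ⧸ q.comap (algebraMap A R)) (R ⧸ q) (Ideal.Quotient.mk _ a) := rfl
  rw [h5, f.commutes]
  rfl

end MLift

export MLift (exists_lift)

end Pool.Agent.Helper259.Var
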