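import Mathlib
import Pool.Agent.Helper259.Var.Defs

set_option autoImplicit false

namespace Pool.Agent.Helper259.Var

namespace MExt

open Pool.Agent.Helper259.AbsHt

theorem ext_abv_aux {F K L : Type*} [NontriviallyNormedField F] [CompleteSpace F]
    [IsUltrametricDist F] [Field K] [Field L] [Algebra K L] [Algebra.IsAlgebraic K L]
    (i : K →+* F) :
    ∃ w : AbsoluteValue L ℝ, IsNonarchimedean w ∧ ∀ x : K, w (algebraMap K L x) = ‖i x‖ := by
  letI : Algebra K (AlgebraicClosure F) := ((algebraMap F (AlgebraicClosure F)).comp i).toAlgebra
  let ι : L →ₐ[K] AlgebraicClosure F := IsAlgClosed.lift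
  let f := spectralMulAlgNorm F (AlgebraicClosure F)
  have hf : ∀ y, f y = spectralNorm F (AlgebraicClosure F) y := fun y => rfl
  refine ⟨{
    toFun := fun x => f (ι x)
    map_mul' := fun x y => by rw [map_mul, map_mul]
    nonneg' := fun x => apply_nonneg f _
    eq_zero' := fun x => by
      constructor
      · intro h
        have h2 : ι x = 0 := by
          by_contra hc
          exact (map_pos_of_ne_zero f hc).ne' h
        exact (map_eq_zero ι).mp h2
      · intro h
        rw [h, map_zero, map_zero]
    add_le' := fun x y => by
      rw [map_add]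
      exact map_add_le_add f _ _ }, ?_, ?_⟩
  · intro x y
    change f (ι (x + y)) ≤ max (f (ι x)) (f (ι y))
    rw [map_add]
    exact isNonarchimedean_spectralNorm (ι x) (ι y)
  · intro x
    change f (ι (algebraMap K L x)) = _
    rw [AlgHom.commutes]
    exact spectralNorm_extends (i x)

theorem complUltra {E : Type*} [NormedField E] (h : IsNonarchimedean (norm : E → ℝ)) :
    IsUltrametricDist (UniformSpace.Completion E) := by
  apply IsUltrametricDist.isUltrametricDist_of_forall_norm_add_le_max_norm
  intro x y
  refine UniformSpace.Completion.induction_on₂ x y ?_ ?_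
  · exact isClosed_le (continuous_norm.comp (continuous_fst.add continuous_snd))
      ((continuous_norm.comp continuous_fst).max (continuous_norm.comp continuous_snd))
  · intro a b
    rw [← UniformSpace.Completion.coe_add, UniformSpace.Completion.norm_coe,
      UniformSpace.Completion.norm_coe, UniformSpace.Completion.norm_coe]
    exact h a b

/-- Extension of a nonarchimedean absolute value to an algebraic extension. -/
theorem exists_ext_abv {K L : Type*} [Field K] [Field L] [Algebra K L] [Algebra.IsAlgebraic K L]
    (v : AbsoluteValue K ℝ) (hv : IsNonarchimedean v) :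
    ∃ w : AbsoluteValue L ℝ, IsNonarchimedean w ∧ ∀ x : K, w (algebraMap K L x) = v x := by
  classical
  by_cases hn : v.IsNontrivial
  · obtain ⟨x0, hx0⟩ := hn.exists_abv_gt_one
    have hun : IsNonarchimedean (norm : WithAbs v → ℝ) := by
      intro x y
      exact hv x.ofAbs y.ofAbs
    haveI : IsUltrametricDist v.Completion := complUltra hun
    letI : NontriviallyNormedField v.Completion :=
      { (inferInstance : NormedField v.Completion) with
        non_trivial := ⟨((WithAbs.toAbs v x0 : WithAbs v) : v.Completion), by
          rw [UniformSpace.Completion.norm_coe]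
          exact hx0⟩ }
    let i : K →+* v.Completion :=
      (UniformSpace.Completion.coeRingHom (α := WithAbs v)).comp
        ((WithAbs.equiv v).symm : K →+* WithAbs v)
    obtain ⟨w, hw1, hw2⟩ := ext_abv_aux (L := L) i
    refine ⟨w, hw1, fun x => ?_⟩
    rw [hw2]
    change ‖((WithAbs.toAbs v x : WithAbs v) : v.Completion)‖ = v x
    rw [UniformSpace.Completion.norm_coe]
    rfl
  · refine ⟨AbsoluteValue.trivial, ?_, ?_⟩
    · intro x y
      by_cases h1 : x + y = 0
      · rw [h1, map_zero]
        exact le_max_of_le_left (apply_nonneg _ _)
      · rw [AbsoluteValue.trivial_apply h1]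
        by_cases hx : x = 0
        · have hy : y ≠ 0 := by
            rintro rfl
            exact h1 (by rw [hx, add_zero])
          exact le_max_of_le_right (AbsoluteValue.trivial_apply hy).ge
        · exact le_max_of_le_left (AbsoluteValue.trivial_apply hx).ge
    · intro x
      by_cases hx : x = 0
      · rw [hx, map_zero, map_zero, map_zero]
      · rw [AbsoluteValue.trivial_apply ((map_ne_zero _).mpr hx),
          AbsoluteValue.not_isNontrivial_apply hn hx]

end MExt

export MExt (exists_ext_abv)

end Pool.Agent.Helper259.Var
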