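import Mathlib
import Pool.Agent.Helper259.Var.Ext
import Pool.Agent.Helper259.AbsHt

set_option autoImplicit false

namespace Pool.Agent.Helper259.Var

namespace MPlaces

open Pool.Agent.Helper259.AbsHt

/-- the absolute height of vectors with entries in a given finite set is a finite weighted
sum of local terms, the weights of the archimedean terms having sum `1`. -/
theorem exists_places (T : Finset Qbar) :
    ∃ (n : ℕ) (v : Fin n → AbsoluteValue Qbar ℝ) (ε : Fin n → ℕ) (μ : Fin n → ℝ),
      (∀ i, 0 ≤ μ i) ∧ (∀ i, IsLoc (v i) (ε i)) ∧ (∑ i, μ i * (ε i : ℝ) = 1) ∧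
      ∀ (m : ℕ) (x : Fin m → Qbar), x ≠ 0 → (∀ k, x k ∈ T) →
        absLogHeight x = ∑ i, μ i * Real.log (⨆ k, v i (x k)) := by
  classical
  let L : IntermediateField ℚ Qbar := IntermediateField.adjoin ℚ (T : Set Qbar)
  have hfd : FiniteDimensional ℚ L :=
    have : Finite (T : Set Qbar) := T.finite_toSet
    IntermediateField.finiteDimensional_adjoin fun y _ =>
      ((AlgebraicClosure.isAlgebraic ℚ).isAlgebraic y).isIntegral
  have hNF : NumberField L := { to_charZero := inferInstance, to_finiteDimensional := hfd }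
  have hAlgQ : Algebra.IsAlgebraic ℚ Qbar := AlgebraicClosure.isAlgebraic ℚ
  have hAlg : Algebra.IsAlgebraic L Qbar := Algebra.IsAlgebraic.tower_top (K := ℚ) L
  have hTL : ∀ t ∈ T, t ∈ L := fun t ht => IntermediateField.subset_adjoin ℚ _ ht
  have hSfin : {v : NumberField.FinitePlace L | ∃ t : L, (t : Qbar) ∈ T ∧ t ≠ 0 ∧ v t ≠ 1}.Finite := by
    have hT' : {t : L | (t : Qbar) ∈ T ∧ t ≠ 0}.Finite := by
      refine Set.Finite.subset (T.finite_toSet.preimage (f := fun t : L => (t : Qbar))
        Subtype.val_injective.injOn) ?_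
      intro t ht
      exact ht.1
    refine (Set.Finite.biUnion hT' (t := fun t => Function.mulSupport
      (fun w : NumberField.FinitePlace L => w t)) fun t ht => NumberField.FinitePlace.hasFiniteMulSupport ht.2).subset ?_
    rintro v ⟨t, ht, ht0, hv⟩
    simp only [Set.mem_iUnion]
    exact ⟨t, ⟨ht, ht0⟩, hv⟩
  have hext : ∀ v : NumberField.FinitePlace L, ∃ w : AbsoluteValue Qbar ℝ, IsNonarchimedean w ∧
      ∀ x : L, w (x : Qbar) = v x := by
    intro v
    obtain ⟨w, hw1, hw2⟩ := exists_ext_abv (K := L) (L := Qbar) v.val (NumberField.FinitePlace.add_le v)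
    exact ⟨w, hw1, fun x => hw2 x⟩
  choose W hW1 hW2 using hext
  let Φ : NumberField.InfinitePlace L → (Qbar →+* ℂ) := fun w => NumberField.ComplexEmbedding.lift Qbar w.embedding
  have hΦ : ∀ (w : NumberField.InfinitePlace L) (x : L), ‖Φ w (x : Qbar)‖ = w x := by
    intro w x
    have : Φ w (algebraMap L Qbar x) = w.embedding x :=
      NumberField.ComplexEmbedding.lift_algebraMap_apply Qbar w.embedding x
    rw [← NumberField.InfinitePlace.norm_embedding_eq w x, ← this]
    rfl
  let S := hSfin.toFinset
  let ι := NumberField.InfinitePlace L ⊕ S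
  let e : Fin (Fintype.card ι) ≃ ι := (Fintype.equivFin ι).symm
  let V : ι → AbsoluteValue Qbar ℝ := Sum.elim (fun w => NumberField.place (Φ w)) (fun s => W s.1)
  let E : ι → ℕ := Sum.elim (fun _ => 1) (fun _ => 0)
  have hd : (0 : ℝ) < Module.finrank ℚ L := by exact_mod_cast Module.finrank_pos
  let M : ι → ℝ := Sum.elim (fun w => (w.mult : ℝ) / Module.finrank ℚ L) (fun _ => 1 / Module.finrank ℚ L)
  have hsum : ∀ f : ι → ℝ, ∑ i, f (e i) = ∑ w : NumberField.InfinitePlace L, f (Sum.inl w) +
      ∑ s : S, f (Sum.inr s) := by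
    intro f
    rw [Equiv.sum_comp e f, Fintype.sum_sum_type]
  refine ⟨Fintype.card ι, fun i => V (e i), fun i => E (e i), fun i => M (e i), ?_, ?_, ?_, ?_⟩
  · have hM : ∀ j, 0 ≤ M j := by
      rintro (w | s)
      · simp only [M, Sum.elim_inl]
        positivity
      · simp only [M, Sum.elim_inr]
        positivity
    exact fun i => hM (e i)
  · have hL : ∀ j, IsLoc (V j) (E j) := by
      rintro (w | s)
      · right
        exact ⟨⟨Φ w, fun x => NumberField.place_apply _ _⟩, rfl⟩
      · left
        exact ⟨hW1 _, rfl⟩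
    exact fun i => hL (e i)
  · rw [hsum (fun j => M j * (E j : ℝ))]
    simp only [M, E, Sum.elim_inl, Sum.elim_inr, Nat.cast_one, mul_one, Nat.cast_zero, mul_zero,
      Finset.sum_const_zero, add_zero]
    rw [← Finset.sum_div, ← Nat.cast_sum, NumberField.InfinitePlace.sum_mult_eq]
    exact div_self hd.ne'
  · intro m x hx hxT
    let y : Fin m → L := fun k => ⟨x k, hTL _ (hxT k)⟩
    have hy : y ≠ 0 := by
      intro h
      apply hx
      funext k
      have := congrArg (fun z : L => (z : Qbar)) (congrFun h k)
      simpa [y] using this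
    have h1 : absLogHeight x = Height.logHeight y / Module.finrank ℚ L :=
      absLogHeight_eq L (algebraMap L Qbar) y
    have hpos : ∀ v : AbsoluteValue L ℝ, 0 < ⨆ k, v (y k) := by
      intro v
      obtain ⟨k, hk⟩ := Function.ne_iff.mp hy
      have : 0 < v (y k) := v.pos hk
      exact this.trans_le (Finite.le_ciSup_of_le k le_rfl)
    have h2 : ∏ᶠ v : NumberField.FinitePlace L, ⨆ k, v (y k) = ∏ v ∈ S, ⨆ k, v (y k) := by
      apply finprod_eq_prod_of_mulSupport_subset
      intro v hv
      rw [Function.mem_mulSupport] at hv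
      rw [Finset.mem_coe, Set.Finite.mem_toFinset]
      by_contra hcon
      apply hv
      have hall : ∀ t : L, (t : Qbar) ∈ T → t ≠ 0 → v t = 1 := by
        intro t ht ht0
        by_contra h
        exact hcon ⟨t, ht, ht0, h⟩
      obtain ⟨k, hk⟩ := Function.ne_iff.mp hy
      have : Nonempty (Fin m) := ⟨k⟩
      apply le_antisymm
      · apply ciSup_le
        intro j
        by_cases hj : y j = 0
        · rw [hj, map_zero]; exact zero_le_one
        · exact (hall (y j) (hxT j) hj).le
      · rw [← hall (y k) (hxT k) hk]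
        exact Finite.le_ciSup_of_le (f := fun k => v (y k)) k le_rfl
    have h3 : Height.logHeight y = ∑ w : NumberField.InfinitePlace L, (w.mult : ℝ) * Real.log (⨆ k, w (y k)) +
        ∑ v ∈ S, Real.log (⨆ k, v (y k)) := by
      rw [Height.logHeight_eq_log_mulHeight, NumberField.mulHeight_eq hy, h2, Real.log_mul, Real.log_prod,
        Real.log_prod]
      · simp only [Real.log_pow]
      · intro v _
        exact (hpos v.val).ne'
      · intro w _
        exact (pow_pos (hpos w.val) _).ne'
      · exact (Finset.prod_pos fun w _ => pow_pos (hpos w.val) _).ne'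
      · exact (Finset.prod_pos fun v _ => hpos v.val).ne'
    rw [hsum (fun j => M j * Real.log (⨆ k, V j (x k))), h1, h3]
    simp only [M, V, Sum.elim_inl, Sum.elim_inr]
    rw [add_div, Finset.sum_div]
    congr 1
    · apply Finset.sum_congr rfl
      intro w _
      have : ∀ k, NumberField.place (Φ w) (x k) = w (y k) := fun k => by
        rw [NumberField.place_apply]; exact hΦ w (y k)
      simp only [this]
      ring
    · rw [← Finset.sum_coe_sort S (fun v => Real.log (⨆ k, v (y k))), Finset.sum_div]
      apply Finset.sum_congr rfl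
      intro s _
      have : ∀ k, W s.1 (x k) = s.1 (y k) := fun k => hW2 s.1 (y k)
      simp only [this]
      ring

end MPlaces

export MPlaces (exists_places)

end Pool.Agent.Helper259.Var
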