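import Mathlib
import Pool.Agent.Helper259.Var.Places

set_option autoImplicit false

namespace Pool.Agent.Helper259.Var

namespace MGlob

open Pool.Agent.Helper259.AbsHt

lemma absLogHeight_nonneg' {ι : Type*} [Finite ι] (x : ι → Qbar) : 0 ≤ absLogHeight x := by
  unfold absLogHeight
  exact div_nonneg (Height.logHeight_nonneg _) (Nat.cast_nonneg _)

lemma sup_one_pair (v : AbsoluteValue Qbar ℝ) (s : Qbar) :
    Real.log (⨆ k, v ((![1, s] : Fin 2 → Qbar) k)) = max 0 (Real.log (v s)) := by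
  have h1 : (⨆ k, v ((![1, s] : Fin 2 → Qbar) k)) = max 1 (v s) := by
    apply le_antisymm
    · apply ciSup_le
      intro k
      fin_cases k
      · simp
      · simp
    · apply max_le
      · have := le_ciSup (f := fun k => v ((![1, s] : Fin 2 → Qbar) k))
          (Set.finite_range _).bddAbove 0
        simpa using this
      · have := le_ciSup (f := fun k => v ((![1, s] : Fin 2 → Qbar) k))
          (Set.finite_range _).bddAbove 1
        simpa using this
  rw [h1]
  rcases le_total (v s) 1 with h | h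
  · rw [max_eq_left h, Real.log_one, max_eq_left (Real.log_nonpos (v.nonneg s) h)]
  · rw [max_eq_right h, max_eq_right (Real.log_nonneg h)]

lemma le_exp_max (x : ℝ) (hx : 0 ≤ x) : x ≤ Real.exp (max 0 (Real.log x)) := by
  rcases hx.eq_or_lt with h | h
  · rw [← h]; exact (Real.exp_pos _).le
  · calc x = Real.exp (Real.log x) := (Real.exp_log h).symm
      _ ≤ _ := Real.exp_le_exp.mpr (le_max_right _ _)

/-- the data for a finite set containing `T`, `1`, `s` -/
lemma places_data (T : Finset Qbar) (T' : Finset Qbar) (hT : ∀ c ∈ T, c ∈ T') (h1 : (1 : Qbar) ∈ T')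
    (s : Qbar) (hs : s ∈ T') :
    ∃ (n : ℕ) (v : Fin n → AbsoluteValue Qbar ℝ) (ε : Fin n → ℕ) (μ b : Fin n → ℝ),
      (∀ i, 0 ≤ μ i) ∧ (∀ i, Adm T (v i) (ε i) (b i)) ∧
      (∑ i, μ i * b i = 1 + ∑ c ∈ T, absLogHeight ![1, c]) ∧
      (∑ i, μ i * max 0 (Real.log (v i s)) = absLogHeight ![1, s]) ∧
      ∀ (m : ℕ) (x : Fin m → Qbar), x ≠ 0 → (∀ k, x k ∈ T') →
        absLogHeight x = ∑ i, μ i * Real.log (⨆ k, v i (x k)) := by
  obtain ⟨n, v, ε, μ, hμ, hv, hsum, hh⟩ := exists_places T'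
  have key : ∀ c ∈ T', ∑ i, μ i * max 0 (Real.log (v i c)) = absLogHeight ![1, c] := by
    intro c hc
    rw [hh 2 ![1, c] (by
      intro h0
      have := congrFun h0 0
      simp at this) (by
      intro k
      fin_cases k
      · simpa using h1
      · simpa using hc)]
    refine Finset.sum_congr rfl fun i _ => ?_
    rw [sup_one_pair]
  refine ⟨n, v, ε, μ, fun i => (ε i : ℝ) + ∑ c ∈ T, max 0 (Real.log (v i c)), hμ, ?_, ?_,
    key s hs, hh⟩
  · intro i
    refine ⟨hv i, ?_, ?_⟩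
    · have : 0 ≤ ∑ c ∈ T, max 0 (Real.log (v i c)) :=
        Finset.sum_nonneg fun c _ => le_max_left _ _
      linarith
    · intro c hc
      refine (le_exp_max _ ((v i).nonneg c)).trans (Real.exp_le_exp.mpr ?_)
      have h2 : max 0 (Real.log (v i c)) ≤ ∑ c ∈ T, max 0 (Real.log (v i c)) :=
        Finset.single_le_sum (f := fun c => max 0 (Real.log (v i c)))
          (fun c _ => le_max_left _ _) hc
      have h3 : (0:ℝ) ≤ (ε i : ℝ) := Nat.cast_nonneg _
      linarith
  · simp only [mul_add, Finset.sum_add_distrib, hsum, Finset.mul_sum]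
    congr 1
    rw [Finset.sum_comm]
    exact Finset.sum_congr rfl fun c hc => key c (hT c hc)

/-- from the local comparison to heights -/
theorem global_bound {τ : Type*} {N d r k : ℕ} (q : τ → ℕ → Fin (N + 1) → Qbar)
    (φ : τ → Fin r → Fin (k + 1) → Qbar) (c : Fin r → ℝ) (s : τ → Qbar)
    (hq : ∀ t n, q t n ≠ 0) (hφ : ∀ t j, φ t j ≠ 0) (m : ℕ) (W : ℕ → Fin m → Qbar)
    (hW : ∀ n, W n ≠ 0) (T : Finset Qbar) (C : ℝ) (hC : 0 ≤ C)
    (h : ∀ v ε b, Adm T v ε b → ∀ t n,
      |Real.log (⨆ i, v (q t n i)) - d ^ n * ∑ j, c j * Real.log (⨆ i, v (φ t j i))| ≤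
        C * (-Real.log (⨆ i, v (W n i)) + C * d ^ n * b) + C * max 0 (Real.log (v (s t)))) :
    ∃ C' : ℝ, 0 ≤ C' ∧ ∀ t n,
      |absLogHeight (q t n) - d ^ n * ∑ j, c j * absLogHeight (φ t j)| ≤
        C' * d ^ n + C' * absLogHeight ![1, s t] := by
  classical
  set K : ℝ := 1 + ∑ c ∈ T, absLogHeight ![1, c] with hK
  have hK0 : 0 ≤ K := by
    have : 0 ≤ ∑ c ∈ T, absLogHeight ![1, c] :=
      Finset.sum_nonneg fun c _ => absLogHeight_nonneg' _
    linarith
  refine ⟨C ^ 2 * K + C, by positivity, fun t n => ?_⟩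
  set T' : Finset Qbar := T ∪ {1, s t} ∪ Finset.univ.image (q t n) ∪
    Finset.univ.biUnion (fun j => Finset.univ.image (φ t j)) ∪ Finset.univ.image (W n) with hT'
  obtain ⟨p, v, ε, μ, b, hμ, hadm, hb, hs, hh⟩ := places_data T T'
    (fun c hc => by simp [hT', hc]) (by simp [hT']) (s t) (by simp [hT'])
  have e1 := hh _ (q t n) (hq t n) (fun k => by simp [hT'])
  have e2 : ∀ j, absLogHeight (φ t j) = ∑ i, μ i * Real.log (⨆ k, v i (φ t j k)) := fun j =>
    hh _ (φ t j) (hφ t j) (fun k => by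
      simp only [hT', Finset.mem_union, Finset.mem_biUnion, Finset.mem_image, Finset.mem_univ,
        true_and]
      exact Or.inl (Or.inr ⟨j, k, rfl⟩))
  have e3 := hh _ (W n) (hW n) (fun k => by simp [hT'])
  have e4 : absLogHeight (q t n) - d ^ n * ∑ j, c j * absLogHeight (φ t j) =
      ∑ i, μ i * (Real.log (⨆ k, v i (q t n k)) -
        d ^ n * ∑ j, c j * Real.log (⨆ k, v i (φ t j k))) := by
    simp only [mul_sub, Finset.sum_sub_distrib]
    rw [← e1]
    congr 1
    simp only [e2, Finset.mul_sum]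
    rw [Finset.sum_comm]
    refine Finset.sum_congr rfl fun i _ => Finset.sum_congr rfl fun j _ => by ring
  rw [e4]
  have e5 : |∑ i, μ i * (Real.log (⨆ k, v i (q t n k)) -
        d ^ n * ∑ j, c j * Real.log (⨆ k, v i (φ t j k)))| ≤
      ∑ i, μ i * (C * (-Real.log (⨆ k, v i (W n k)) + C * d ^ n * b i) +
        C * max 0 (Real.log (v i (s t)))) := by
    refine (Finset.abs_sum_le_sum_abs _ _).trans (Finset.sum_le_sum fun i _ => ?_)
    rw [abs_mul, abs_of_nonneg (hμ i)]
    exact mul_le_mul_of_nonneg_left (h (v i) (ε i) (b i) (hadm i) t n) (hμ i)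
  have e6 : ∑ i, μ i * (C * (-Real.log (⨆ k, v i (W n k)) + C * d ^ n * b i) +
        C * max 0 (Real.log (v i (s t)))) =
      -C * absLogHeight (W n) + C ^ 2 * d ^ n * K + C * absLogHeight ![1, s t] := by
    rw [e3, hK, ← hb, ← hs]
    simp only [Finset.mul_sum, ← Finset.sum_add_distrib]
    refine Finset.sum_congr rfl fun i _ => by ring
  rw [e6] at e5
  have g1 := absLogHeight_nonneg' (W n)
  have g2 := absLogHeight_nonneg' ![1, s t]
  have g3 : (0:ℝ) ≤ (d:ℝ) ^ n := by positivity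
  have g4 : 0 ≤ C * absLogHeight (W n) := mul_nonneg hC g1
  have g5 : 0 ≤ C * (d:ℝ) ^ n := mul_nonneg hC g3
  have g6 : 0 ≤ C ^ 2 * K * absLogHeight ![1, s t] := by positivity
  nlinarith

/-- second estimate -/
theorem global_dyn {τ : Type*} {N d : ℕ} (q : τ → ℕ → Fin (N + 1) → Qbar) (s : τ → Qbar)
    (hq : ∀ t n, q t n ≠ 0) (T : Finset Qbar) (C : ℝ) (hC : 0 ≤ C)
    (h : ∀ v ε b, Adm T v ε b → ∀ t n,
      |Real.log (⨆ i, v (q t (n + 1) i)) - d * Real.log (⨆ i, v (q t n i))| ≤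
        C * (b + max 0 (Real.log (v (s t))))) :
    ∃ C' : ℝ, 0 ≤ C' ∧ ∀ t n,
      |absLogHeight (q t (n + 1)) - d * absLogHeight (q t n)| ≤
        C' * (1 + absLogHeight ![1, s t]) := by
  classical
  set K : ℝ := 1 + ∑ c ∈ T, absLogHeight ![1, c] with hK
  have hK1 : 1 ≤ K := by
    have : 0 ≤ ∑ c ∈ T, absLogHeight ![1, c] :=
      Finset.sum_nonneg fun c _ => absLogHeight_nonneg' _
    linarith
  refine ⟨C * K, by positivity, fun t n => ?_⟩
  set T' : Finset Qbar := T ∪ {1, s t} ∪ Finset.univ.image (q t n) ∪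
    Finset.univ.image (q t (n + 1)) with hT'
  obtain ⟨p, v, ε, μ, b, hμ, hadm, hb, hs, hh⟩ := places_data T T'
    (fun c hc => by simp [hT', hc]) (by simp [hT']) (s t) (by simp [hT'])
  have e1 := hh _ (q t n) (hq t n) (fun k => by simp [hT'])
  have e2 := hh _ (q t (n + 1)) (hq t (n + 1)) (fun k => by simp [hT'])
  have e4 : absLogHeight (q t (n + 1)) - d * absLogHeight (q t n) =
      ∑ i, μ i * (Real.log (⨆ k, v i (q t (n + 1) k)) - d * Real.log (⨆ k, v i (q t n k))) := by
    rw [e1, e2, Finset.mul_sum, ← Finset.sum_sub_distrib]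
    refine Finset.sum_congr rfl fun i _ => by ring
  rw [e4]
  have e5 : |∑ i, μ i * (Real.log (⨆ k, v i (q t (n + 1) k)) -
        d * Real.log (⨆ k, v i (q t n k)))| ≤
      ∑ i, μ i * (C * (b i + max 0 (Real.log (v i (s t))))) := by
    refine (Finset.abs_sum_le_sum_abs _ _).trans (Finset.sum_le_sum fun i _ => ?_)
    rw [abs_mul, abs_of_nonneg (hμ i)]
    exact mul_le_mul_of_nonneg_left (h (v i) (ε i) (b i) (hadm i) t n) (hμ i)
  have e6 : ∑ i, μ i * (C * (b i + max 0 (Real.log (v i (s t))))) =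
      C * (K + absLogHeight ![1, s t]) := by
    rw [hK, ← hb, ← hs, ← Finset.sum_add_distrib, Finset.mul_sum]
    refine Finset.sum_congr rfl fun i _ => by ring
  rw [e6] at e5
  refine e5.trans ?_
  have g2 := absLogHeight_nonneg' ![1, s t]
  have : K + absLogHeight ![1, s t] ≤ K * (1 + absLogHeight ![1, s t]) := by nlinarith
  calc C * (K + absLogHeight ![1, s t]) ≤ C * (K * (1 + absLogHeight ![1, s t])) :=
        mul_le_mul_of_nonneg_left this hC
    _ = _ := by ring

end MGlob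

export MGlob (global_bound global_dyn)

end Pool.Agent.Helper259.Var
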