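import Mathlib
import Pool.Agent.Helper259.Var.Defs

set_option autoImplicit false

universe u1 u2

namespace Pool.Agent.Helper259.Var

namespace MTel

open Pool.Agent.Helper259.AbsHt

/-- Tate's telescoping argument -/
theorem telescope (d : ℕ) (hd : 2 ≤ d) (a : ℕ → ℝ) (M : ℝ)
    (h : ∀ n, |a (n + 1) - d * a n| ≤ M) :
    ∃ L : ℝ, Filter.Tendsto (fun n => a n / (d : ℝ) ^ n) Filter.atTop (nhds L) ∧
      ∀ n, |a n / (d : ℝ) ^ n - L| ≤ M / (d : ℝ) ^ n := by
  have hM : 0 ≤ M := (abs_nonneg _).trans (h 0)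
  have hd2 : (2 : ℝ) ≤ d := by exact_mod_cast hd
  have hd0 : (0 : ℝ) < d := by linarith
  have hr : (1 : ℝ) / d < 1 := by
    rw [div_lt_one hd0]
    linarith
  have hstep : ∀ n, dist (a n / (d : ℝ) ^ n) (a (n + 1) / (d : ℝ) ^ (n + 1)) ≤
      M / d * (1 / d) ^ n := by
    intro n
    rw [dist_comm, Real.dist_eq]
    have e1 : a (n + 1) / (d : ℝ) ^ (n + 1) - a n / (d : ℝ) ^ n =
        (a (n + 1) - d * a n) / (d : ℝ) ^ (n + 1) := by
      rw [pow_succ]
      field_simp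
    have e2 : M / d * (1 / d) ^ n = M / (d : ℝ) ^ (n + 1) := by
      rw [pow_succ, one_div, inv_pow]
      field_simp
    rw [e1, e2, abs_div, abs_of_pos (pow_pos hd0 _)]
    exact div_le_div_of_nonneg_right (h n) (pow_pos hd0 _).le
  have hc := cauchySeq_of_le_geometric _ _ hr hstep
  obtain ⟨L, hL⟩ := cauchySeq_tendsto_of_complete hc
  refine ⟨L, hL, fun n => ?_⟩
  have h1 := dist_le_of_le_geometric_of_tendsto _ _ hr hstep hL n
  rw [Real.dist_eq] at h1
  refine h1.trans ?_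
  have h2 : (1 : ℝ) / 2 ≤ 1 - 1 / d := by
    have h3 : (1 : ℝ) / d ≤ 1 / 2 := one_div_le_one_div_of_le (by norm_num) hd2
    linarith
  have h4 : M / d * (1 / d) ^ n = M / (d : ℝ) ^ n * (1 / d) := by
    rw [one_div, inv_pow]
    field_simp
  have h5 : (1 : ℝ) / d ≤ 1 - 1 / d := by
    have h3 : (1 : ℝ) / d ≤ 1 / 2 := one_div_le_one_div_of_le (by norm_num) hd2
    linarith
  rw [h4, div_le_iff₀ (by linarith)]
  exact mul_le_mul_of_nonneg_left h5 (div_nonneg hM (pow_pos hd0 _).le)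

end MTel

export MTel (telescope)

end Pool.Agent.Helper259.Var
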