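import Mathlib
import Pool.Agent.Helper259.Var.Glob
import Pool.Agent.Helper259.Var.Tel

set_option autoImplicit false

namespace Pool.Agent.Helper259.Var

namespace MLim

open Pool.Agent.Helper259.AbsHt

/-- passage to the canonical height -/
theorem canonical_bound {τ : Type*} {N d r k : ℕ} (hd : 2 ≤ d)
    (q : τ → ℕ → Fin (N + 1) → Qbar)
    (φ : τ → Fin r → Fin (k + 1) → Qbar) (c : Fin r → ℝ) (s : τ → Qbar)
    (hq : ∀ t n, q t n ≠ 0) (hφ : ∀ t j, φ t j ≠ 0) (m : ℕ) (W : ℕ → Fin m → Qbar)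
    (hW : ∀ n, W n ≠ 0) (T : Finset Qbar) (C : ℝ) (hC : 0 ≤ C)
    (h : ∀ v ε b, Adm T v ε b → ∀ t n,
      |Real.log (⨆ i, v (q t n i)) - d ^ n * ∑ j, c j * Real.log (⨆ i, v (φ t j i))| ≤
        C * (-Real.log (⨆ i, v (W n i)) + C * d ^ n * b) + C * max 0 (Real.log (v (s t))))
    (T₁ : Finset Qbar) (C₁ : ℝ) (hC₁ : 0 ≤ C₁)
    (h' : ∀ v ε b, Adm T₁ v ε b → ∀ t n,
      |Real.log (⨆ i, v (q t (n + 1) i)) - d * Real.log (⨆ i, v (q t n i))| ≤
        C₁ * (b + max 0 (Real.log (v (s t))))) :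
    (∀ t, ∃ L : ℝ, Filter.Tendsto (fun n => absLogHeight (q t n) / (d : ℝ) ^ n) Filter.atTop
      (nhds L)) ∧
    ∃ C' : ℝ, 0 ≤ C' ∧ ∀ t (L : ℝ),
      Filter.Tendsto (fun n => absLogHeight (q t n) / (d : ℝ) ^ n) Filter.atTop (nhds L) →
      |L - ∑ j, c j * absLogHeight (φ t j)| ≤ C' := by
  constructor
  · intro t
    obtain ⟨C1, hC1, H1⟩ := global_dyn q s hq T₁ C₁ hC₁ h'
    obtain ⟨L, hL, _⟩ := telescope d hd (fun n => absLogHeight (q t n)) _ (H1 t)
    exact ⟨L, hL⟩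
  · obtain ⟨C', hC', H⟩ := global_bound q φ c s hq hφ m W hW T C hC h
    refine ⟨C', hC', fun t L hL => ?_⟩
    have hd1 : (1 : ℝ) < (d : ℝ) := by exact_mod_cast (by omega : 1 < d)
    have hd0 : (0 : ℝ) < (d : ℝ) := by linarith
    have hinv : Filter.Tendsto (fun n : ℕ => C' + C' * absLogHeight ![1, s t] * ((d : ℝ)⁻¹) ^ n)
        Filter.atTop (nhds (C' + C' * absLogHeight ![1, s t] * 0)) := by
      refine Filter.Tendsto.const_add _ (Filter.Tendsto.const_mul _ ?_)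
      exact tendsto_pow_atTop_nhds_zero_of_lt_one (inv_nonneg.2 hd0.le) (inv_lt_one_of_one_lt₀ hd1)
    rw [mul_zero, add_zero] at hinv
    have hleft : Filter.Tendsto
        (fun n => |absLogHeight (q t n) / (d : ℝ) ^ n - ∑ j, c j * absLogHeight (φ t j)|)
        Filter.atTop (nhds |L - ∑ j, c j * absLogHeight (φ t j)|) :=
      (hL.sub_const _).abs
    refine le_of_tendsto_of_tendsto' hleft hinv fun n => ?_
    have hn := H t n
    have hdn : (0 : ℝ) < (d : ℝ) ^ n := pow_pos hd0 n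
    have hrew : absLogHeight (q t n) / (d : ℝ) ^ n - ∑ j, c j * absLogHeight (φ t j)
        = (absLogHeight (q t n) - (d : ℝ) ^ n * ∑ j, c j * absLogHeight (φ t j)) / (d : ℝ) ^ n := by
      field_simp
    rw [hrew, abs_div, abs_of_pos hdn, div_le_iff₀ hdn]
    calc _ ≤ _ := hn
      _ = (C' + C' * absLogHeight ![1, s t] * ((d : ℝ)⁻¹) ^ n) * (d : ℝ) ^ n := by
          rw [inv_pow]
          field_simp

end MLim

export MLim (canonical_bound)

end Pool.Agent.Helper259.Var
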