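import Mathlib
import Pool.Agent.Helper259.Var.Base

set_option autoImplicit false

namespace Pool.Agent.Helper259.Var

namespace MPolyBd

open Polynomial Pool.Agent.Helper259.AbsHt

theorem polybd_tame {v : AbsoluteValue Qbar ℝ} {ε : ℕ} (h : IsLoc v ε) : Tame v ε := by
  rcases h with h | h
  · exact Or.inl h
  · exact Or.inr h.2

theorem polybd_pow (N : ℝ) (hN : 1 ≤ N) (ε : ℕ) (b : ℝ) (hb : (ε : ℝ) ≤ b) :
    N ^ ε ≤ Real.exp (Real.log N * b) := by
  have hN0 : 0 < N := by linarith
  have h1 : N ^ ε = Real.exp (Real.log N * ε) := by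
    rw [mul_comm, Real.exp_nat_mul, Real.exp_log hN0]
  rw [h1]
  apply Real.exp_le_exp.mpr
  exact mul_le_mul_of_nonneg_left hb (Real.log_nonneg hN)

theorem polybd_max (v : AbsoluteValue Qbar ℝ) (s : Qbar) :
    max 1 (v s) = Real.exp (max 0 (Real.log (v s))) := by
  rcases eq_or_lt_of_le (v.nonneg s) with h | h
  · rw [← h, Real.log_zero]
    simp
  · rcases le_total (v s) 1 with h1 | h1
    · rw [max_eq_left h1, max_eq_left (Real.log_nonpos h.le h1), Real.exp_zero]
    · rw [max_eq_right h1, max_eq_right (Real.log_nonneg h1), Real.exp_log h]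

/-- the size of a fixed polynomial at a large argument -/
theorem poly_large (p : Qbar[X]) (hp : p ≠ 0) :
    ∃ (T : Finset Qbar) (C : ℝ), 0 ≤ C ∧ ∀ v ε b, Adm T v ε b → ∀ s : Qbar,
      0 < Real.log (v s) → C * b ≤ Real.log (v s) →
      Real.exp (p.natDegree * Real.log (v s) - C * b) ≤ v (p.eval s) ∧
      v (p.eval s) ≤ Real.exp (p.natDegree * Real.log (v s) + C * b) := by
  classical
  obtain ⟨D, hD⟩ : ∃ D, D = p.natDegree := ⟨_, rfl⟩
  obtain ⟨c, hc⟩ : ∃ c, c = p.leadingCoeff := ⟨_, rfl⟩
  have hc0 : c ≠ 0 := by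
    rw [hc]
    exact leadingCoeff_ne_zero.mpr hp
  have hDr : (0:ℝ) ≤ D := Nat.cast_nonneg D
  obtain ⟨L2, hL2⟩ : ∃ L2 : ℝ, L2 = Real.log (2 * ((D:ℝ) + 1)) := ⟨_, rfl⟩
  have hL20 : 0 ≤ L2 := by
    rw [hL2]
    exact Real.log_nonneg (by linarith)
  have hlog1 : Real.log ((D:ℝ) + 1) ≤ L2 := by
    rw [hL2]
    exact Real.log_le_log (by linarith) (by linarith)
  refine ⟨insert c⁻¹ ((Finset.range (D + 1)).image p.coeff), 3 + L2, by linarith, ?_⟩
  intro v ε b hadm s hl hCl
  obtain ⟨hloc, hεb, hT⟩ := hadm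
  obtain ⟨l, hld⟩ : ∃ l, l = Real.log (v s) := ⟨_, rfl⟩
  rw [← hld] at hl hCl ⊢
  rw [← hD]
  have hb : 0 ≤ b := le_trans (Nat.cast_nonneg ε) hεb
  have hLb : 0 ≤ L2 * b := mul_nonneg hL20 hb
  have hvs0 : 0 < v s := by
    rcases eq_or_lt_of_le (v.nonneg s) with h | h
    · rw [← h, Real.log_zero] at hld
      linarith
    · exact h
  have hvs : v s = Real.exp l := by rw [hld, Real.exp_log hvs0]
  have hmax : max 1 (v s) = Real.exp l := by
    rw [polybd_max, ← hld, max_eq_right hl.le]
  have hcoef : ∀ j, v (p.coeff j) ≤ Real.exp b := by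
    intro j
    by_cases hj : j < D + 1
    · apply hT
      apply Finset.mem_insert_of_mem
      exact Finset.mem_image_of_mem _ (Finset.mem_range.mpr hj)
    · rw [coeff_eq_zero_of_natDegree_lt (by omega), map_zero]
      exact (Real.exp_pos b).le
  have hcinv : v c⁻¹ ≤ Real.exp b := hT _ (Finset.mem_insert_self _ _)
  have hvc : Real.exp (-b) ≤ v c := by
    rw [map_inv₀] at hcinv
    have hvc0 : 0 < v c := v.pos hc0
    rw [Real.exp_neg]
    exact inv_le_of_inv_le₀ hvc0 hcinv
  refine ⟨?_, ?_⟩
  · have hev : p.eval s = p.eraseLead.eval s + c * s ^ D := by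
      have h := congrArg (eval s) (eraseLead_add_C_mul_X_pow p)
      rw [eval_add, eval_mul, eval_C, eval_pow, eval_X, ← hc, ← hD] at h
      exact h.symm
    have hcs : Real.exp (-b + D * l) ≤ v (c * s ^ D) := by
      rw [map_mul, map_pow, hvs, Real.exp_add, Real.exp_nat_mul]
      exact mul_le_mul_of_nonneg_right hvc (by positivity)
    rcases Nat.eq_zero_or_pos D with hD0 | hD1
    · have hq : p.eraseLead = 0 := by
        rw [eq_C_of_natDegree_eq_zero (hD.symm.trans hD0)]
        exact eraseLead_C _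
      rw [hev, hq, eval_zero, zero_add]
      refine le_trans (Real.exp_le_exp.mpr ?_) hcs
      linarith
    · have hqd : p.eraseLead.natDegree ≤ D - 1 := by
        rw [hD]
        exact eraseLead_natDegree_le p
      have hqc : ∀ j, v (p.eraseLead.coeff j) ≤ Real.exp b := by
        intro j
        rw [eraseLead_coeff]
        split_ifs
        · rw [map_zero]
          exact (Real.exp_pos b).le
        · exact hcoef j
      have h1 := eval_le (polybd_tame hloc) p.eraseLead (D - 1) hqd (Real.exp b) hqc s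
      rw [hmax] at h1
      have hD' : ((D - 1 : ℕ) : ℝ) = (D : ℝ) - 1 := by
        rw [Nat.cast_sub hD1, Nat.cast_one]
      have hpow : Real.exp l ^ (D - 1) = Real.exp (D * l - l) := by
        rw [← Real.exp_nat_mul, hD']
        congr 1
        ring
      rw [hpow, hD', sub_add_cancel] at h1
      have h4 : c * s ^ D = p.eval s + (-(p.eraseLead.eval s)) := by
        rw [hev]
        ring
      rcases hloc with ⟨hna, hε⟩ | ⟨_, hε⟩
      · rw [hε, pow_zero, one_mul, ← Real.exp_add] at h1
        have h2b : 2 * b < l := by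
          rcases eq_or_lt_of_le hb with h | h
          · rw [← h]
            linarith
          · linarith
        have h3 : v (p.eraseLead.eval s) < v (c * s ^ D) :=
          lt_of_le_of_lt h1 (lt_of_lt_of_le (Real.exp_lt_exp.mpr (by linarith)) hcs)
        have h5 := hna (p.eval s) (-(p.eraseLead.eval s))
        rw [← h4, v.map_neg] at h5
        rcases le_max_iff.mp h5 with h6 | h6
        · refine le_trans (Real.exp_le_exp.mpr ?_) (hcs.trans h6)
          linarith
        · exact absurd h6 (not_le.mpr h3)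
      · rw [hε, pow_one] at h1
        have hb1 : 1 ≤ b := by
          rw [hε] at hεb
          exact_mod_cast hεb
        have h4' : v (c * s ^ D) ≤ v (p.eval s) + v (p.eraseLead.eval s) := by
          rw [h4]
          refine (v.add_le _ _).trans ?_
          rw [v.map_neg]
        have hDpos : (0:ℝ) < D := by exact_mod_cast hD1
        have h5 : (D:ℝ) * Real.exp b * Real.exp (D * l - l)
            ≤ (1 / 2) * Real.exp (-b + D * l) := by
          have e1 : (2 * (D:ℝ)) ≤ Real.exp (l - 2 * b) := by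
            have e0 : Real.log (2 * D) ≤ l - 2 * b := by
              have f1 : Real.log (2 * D) ≤ L2 := by
                rw [hL2]
                exact Real.log_le_log (by linarith) (by linarith)
              have f2 : L2 ≤ L2 * b := le_mul_of_one_le_right hL20 hb1
              linarith
            calc 2 * (D:ℝ) = Real.exp (Real.log (2 * D)) := (Real.exp_log (by positivity)).symm
              _ ≤ _ := Real.exp_le_exp.mpr e0
          have e2 : Real.exp (-b + D * l)
              = Real.exp (l - 2 * b) * (Real.exp b * Real.exp (D * l - l)) := by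
            rw [← Real.exp_add, ← Real.exp_add]
            congr 1
            ring
          rw [e2]
          have e3 : 0 < Real.exp b * Real.exp (D * l - l) := by positivity
          have e4 := mul_le_mul_of_nonneg_right e1 e3.le
          linarith
        have h6 : Real.exp (D * l - 2 * b) ≤ (1 / 2) * Real.exp (-b + D * l) := by
          have e1 : Real.exp (D * l - 2 * b) = Real.exp (-b) * Real.exp (-b + D * l) := by
            rw [← Real.exp_add]
            congr 1
            ring
          have e2 : Real.exp (-b) ≤ 1 / 2 := by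
            have e3 := Real.add_one_le_exp b
            rw [Real.exp_neg, one_div]
            exact inv_anti₀ (by norm_num) (by linarith)
          rw [e1]
          exact mul_le_mul_of_nonneg_right e2 (Real.exp_pos _).le
        have h7 : Real.exp (D * l - (3 + L2) * b) ≤ Real.exp (D * l - 2 * b) :=
          Real.exp_le_exp.mpr (by linarith)
        linarith
  · have h1 := eval_le (polybd_tame hloc) p D hD.ge (Real.exp b) hcoef s
    rw [hmax] at h1
    have h2 := polybd_pow ((D:ℝ) + 1) (by linarith) ε b hεb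
    refine h1.trans ?_
    have h3 : ((D:ℝ) + 1) ^ ε * Real.exp b * Real.exp l ^ D
        ≤ Real.exp (Real.log ((D:ℝ) + 1) * b) * Real.exp b * Real.exp l ^ D := by
      apply mul_le_mul_of_nonneg_right _ (by positivity)
      exact mul_le_mul_of_nonneg_right h2 (Real.exp_pos b).le
    refine h3.trans ?_
    rw [← Real.exp_nat_mul, ← Real.exp_add, ← Real.exp_add]
    apply Real.exp_le_exp.mpr
    have h4 : Real.log ((D:ℝ) + 1) * b ≤ L2 * b := mul_le_mul_of_nonneg_right hlog1 hb
    linarith

/-- the size of a fixed function at any point -/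
theorem bdd_pt {R : Type*} [CommRing R] [Algebra Qbar[X] R] [Algebra.IsIntegral Qbar[X] R]
    (x : R) :
    ∃ (T : Finset Qbar) (C : ℝ), 0 ≤ C ∧ ∀ v ε b, Adm T v ε b → ∀ t : R →+* Qbar, IsPt t →
      v (t x) ≤ Real.exp (C * (b + max 0 (Real.log (v (sval t))))) := by
  classical
  obtain ⟨P, hPm, hPx⟩ := Algebra.IsIntegral.isIntegral (R := Qbar[X]) x
  obtain ⟨m, hm⟩ : ∃ m, m = P.natDegree := ⟨_, rfl⟩
  obtain ⟨D, hD⟩ : ∃ D : ℕ, ∀ k, k < m + 1 → (P.coeff k).natDegree ≤ D :=
    ⟨(Finset.range (m + 1)).sup (fun k => (P.coeff k).natDegree), fun k hk =>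
      Finset.le_sup (f := fun k => (P.coeff k).natDegree) (Finset.mem_range.mpr hk)⟩
  have hDr : (0:ℝ) ≤ D := Nat.cast_nonneg D
  have hmr : (0:ℝ) ≤ m := Nat.cast_nonneg m
  have hL1 : 0 ≤ Real.log ((m:ℝ) + 1) := Real.log_nonneg (by linarith)
  have hL2 : 0 ≤ Real.log ((D:ℝ) + 1) := Real.log_nonneg (by linarith)
  refine ⟨(Finset.range (m + 1)).biUnion (fun k => (Finset.range (D + 1)).image
    (fun i => (P.coeff k).coeff i)),
    Real.log ((m:ℝ) + 1) + Real.log ((D:ℝ) + 1) + 1 + D, by linarith, ?_⟩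
  intro v ε b hadm t ht
  obtain ⟨hloc, hεb, hT⟩ := hadm
  have hb : 0 ≤ b := le_trans (Nat.cast_nonneg ε) hεb
  obtain ⟨s, hs⟩ : ∃ s, s = sval t := ⟨_, rfl⟩
  rw [← hs]
  have hcomp : t.comp (algebraMap Qbar[X] R) = evalRingHom s := by
    apply Polynomial.ringHom_ext
    · intro c
      rw [RingHom.comp_apply, ht c, coe_evalRingHom, eval_C]
    · rw [RingHom.comp_apply, coe_evalRingHom, eval_X, hs]
      rfl
  have hroot : (P.map (evalRingHom s)).eval (t x) = 0 := by
    rw [eval_map, ← hcomp, ← hom_eval₂, hPx, map_zero]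
  obtain ⟨lam, hlam⟩ : ∃ lam, lam = max 0 (Real.log (v s)) := ⟨_, rfl⟩
  have hlam0 : 0 ≤ lam := by
    rw [hlam]
    exact le_max_left _ _
  have hmax : max 1 (v s) = Real.exp lam := by rw [polybd_max, hlam]
  rw [← hlam]
  have hcoef : ∀ k, k < m + 1 → v ((P.coeff k).eval s)
      ≤ ((D:ℝ) + 1) ^ ε * Real.exp b * Real.exp lam ^ D := by
    intro k hk
    have h1 := eval_le (polybd_tame hloc) (P.coeff k) D (hD k hk) (Real.exp b) (by
      intro i
      by_cases hi : i < D + 1
      · apply hT
        rw [Finset.mem_biUnion]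
        exact ⟨k, Finset.mem_range.mpr hk,
          Finset.mem_image_of_mem (fun i => (P.coeff k).coeff i) (Finset.mem_range.mpr hi)⟩
      · have := hD k hk
        rw [coeff_eq_zero_of_natDegree_lt (by omega), map_zero]
        exact (Real.exp_pos b).le) s
    rw [hmax] at h1
    exact h1
  have hC0 : 1 ≤ ((D:ℝ) + 1) ^ ε * Real.exp b * Real.exp lam ^ D := by
    have e1 : 1 ≤ ((D:ℝ) + 1) ^ ε := one_le_pow₀ (by linarith)
    have e2 : 1 ≤ Real.exp b := Real.one_le_exp hb
    have e3 : 1 ≤ Real.exp lam ^ D := one_le_pow₀ (Real.one_le_exp hlam0)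
    exact one_le_mul_of_one_le_of_one_le (one_le_mul_of_one_le_of_one_le e1 e2) e3
  have hr := root_le (polybd_tame hloc) m (P.map (evalRingHom s)) (hPm.map _)
    (by rw [hPm.natDegree_map, hm]) 1 _ hC0 zero_le_one (by
      intro j hj1 hj2
      rw [coeff_map, coe_evalRingHom, one_pow, mul_one]
      exact hcoef (m - j) (by omega)) (t x) hroot
  rw [mul_one] at hr
  refine hr.trans ?_
  have e1 : (m:ℝ) ^ ε ≤ Real.exp (Real.log ((m:ℝ) + 1) * b) :=
    (pow_le_pow_left₀ hmr (by linarith) ε).trans
      (polybd_pow ((m:ℝ) + 1) (by linarith) ε b hεb)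
  have e2 := polybd_pow ((D:ℝ) + 1) (by linarith) ε b hεb
  have e3 : (m:ℝ) ^ ε * (((D:ℝ) + 1) ^ ε * Real.exp b * Real.exp lam ^ D)
      ≤ Real.exp (Real.log ((m:ℝ) + 1) * b) *
        (Real.exp (Real.log ((D:ℝ) + 1) * b) * Real.exp b * Real.exp lam ^ D) := by
    apply mul_le_mul e1 _ (by positivity) (by positivity)
    apply mul_le_mul_of_nonneg_right _ (by positivity)
    exact mul_le_mul_of_nonneg_right e2 (Real.exp_pos b).le
  refine e3.trans ?_
  rw [← Real.exp_nat_mul, ← Real.exp_add, ← Real.exp_add, ← Real.exp_add]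
  apply Real.exp_le_exp.mpr
  have f1 : 0 ≤ Real.log ((m:ℝ) + 1) * lam := mul_nonneg hL1 hlam0
  have f2 : 0 ≤ Real.log ((D:ℝ) + 1) * lam := mul_nonneg hL2 hlam0
  have f3 : 0 ≤ (D:ℝ) * b := mul_nonneg hDr hb
  linarith

end MPolyBd

export MPolyBd (poly_large bdd_pt)

end Pool.Agent.Helper259.Var
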