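import Mathlib
import Pool.Agent.Helper259.Var.PolyBd
import Pool.Agent.Helper259.Var.Base

set_option autoImplicit false

namespace Pool.Agent.Helper259.Var

namespace MFix

open Polynomial Pool.Agent.Helper259.AbsHt

theorem adm_mono {T T' : Finset Qbar} (h : T ⊆ T') {v : AbsoluteValue Qbar ℝ} {ε : ℕ} {b : ℝ}
    (ha : Adm T' v ε b) : Adm T v ε b :=
  ⟨ha.1, ha.2.1, fun c hc => ha.2.2 c (h hc)⟩

theorem adm_nonneg {T : Finset Qbar} {v : AbsoluteValue Qbar ℝ} {ε : ℕ} {b : ℝ}
    (ha : Adm T v ε b) : 0 ≤ b := le_trans (Nat.cast_nonneg _) ha.2.1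

theorem near_upper {R G : Type*} [CommRing R] [IsDomain R] [Algebra Qbar[X] R]
    [Algebra.IsIntegral Qbar[X] R] [Group G]
    [Fintype G] [MulSemiringAction G R] (w : AbsoluteValue R ℝ)
    (x : R) (hx : x ≠ 0) (C' : ℝ) (hC' : 0 ≤ C') :
    ∃ (T : Finset Qbar) (C : ℝ), 0 ≤ C ∧ ∀ v ε b, Adm T v ε b → ∀ t : R →+* Qbar, IsPt t →
      ∀ γ : G, Nr w v b C' t γ →
      v (t x) ≤ Real.exp (Real.log (w (γ • x)) * Real.log (v (sval t)) + C * b) := by
  obtain ⟨T, C1, hC1, hb⟩ := bdd_pt x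
  set B : ℝ := ∑ g : G, |Real.log (w (g • x))| with hB
  have hBg : ∀ g : G, |Real.log (w (g • x))| ≤ B := fun g =>
    Finset.single_le_sum (f := fun g : G => |Real.log (w (g • x))|)
      (fun _ _ => abs_nonneg _) (Finset.mem_univ g)
  have hB0 : 0 ≤ B := le_trans (abs_nonneg _) (hBg 1)
  have hpos : ∀ g : G, 0 < w (g • x) := fun g => w.pos (by
    rw [Ne, smul_eq_zero_iff_eq]; exact hx)
  refine ⟨T, C1 + C' * ((⌈2 * B⌉₊ : ℝ) + B + 1), by positivity, ?_⟩
  intro v ε b hA t ht γ hN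
  have hb0 := adm_nonneg hA
  have h1 := hN x (Real.log (w (γ • x))) (C1 * b) ⌈2 * B⌉₊ (by positivity)
    (by rw [Real.exp_log (hpos γ)])
    (fun g => by
      rw [← Real.log_le_iff_le_exp (hpos g)]
      have h2 := (abs_le.mp (hBg g)).2
      have h3 := (abs_le.mp (hBg γ)).1
      have h4 := Nat.le_ceil (2 * B)
      linarith)
    (fun t' ht' hv => by
      have := hb v ε b hA t' ht'
      rw [hv, Real.log_one, max_self, add_zero] at this
      exact this)
  refine h1.trans (Real.exp_le_exp.mpr ?_)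
  have h5 : C' * ((⌈2 * B⌉₊ : ℝ) + |Real.log (w (γ • x))| + 1) * b ≤
      C' * ((⌈2 * B⌉₊ : ℝ) + B + 1) * b := by
    apply mul_le_mul_of_nonneg_right _ hb0
    apply mul_le_mul_of_nonneg_left _ hC'
    linarith [hBg γ]
  linarith

theorem pt_algebraMap {R : Type*} [CommRing R] [Algebra Qbar[X] R] {t : R →+* Qbar}
    (ht : IsPt t) (p : Qbar[X]) : t (algebraMap Qbar[X] R p) = p.eval (sval t) := by
  induction p using Polynomial.induction_on' with
  | add p q hp hq => rw [map_add, map_add, hp, hq, eval_add]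
  | monomial n c =>
    rw [← C_mul_X_pow_eq_monomial, map_mul, map_mul, map_pow, map_pow, ht c, eval_mul, eval_pow,
      eval_C, eval_X]
    rfl

/-- the size of a fixed nonzero function near a place at infinity -/
theorem fix_near {R G : Type*} [CommRing R] [IsDomain R] [Algebra Qbar[X] R]
    [FaithfulSMul Qbar[X] R] [Algebra.IsIntegral Qbar[X] R] [Group G]
    [Fintype G] [MulSemiringAction G R] [SMulCommClass G Qbar[X] R]
    [Algebra.IsInvariant Qbar[X] R G] (w : AbsoluteValue R ℝ) (hw : IsNonarchimedean w)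
    (hdeg : ∀ p : Qbar[X], p ≠ 0 → w (algebraMap Qbar[X] R p) = Real.exp p.natDegree)
    (x : R) (hx : x ≠ 0) (C' : ℝ) (hC' : 0 ≤ C') :
    ∃ (T : Finset Qbar) (C : ℝ), 0 ≤ C ∧ ∀ v ε b, Adm T v ε b → ∀ t : R →+* Qbar, IsPt t →
      0 < Real.log (v (sval t)) → C * b ≤ Real.log (v (sval t)) → ∀ γ : G, Nr w v b C' t γ →
      Real.exp (Real.log (w (γ • x)) * Real.log (v (sval t)) - C * b) ≤ v (t x) ∧
      v (t x) ≤ Real.exp (Real.log (w (γ • x)) * Real.log (v (sval t)) + C * b) := by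
  classical
  have hne : ∀ g : G, g • x ≠ 0 := fun g => by
    rw [Ne, smul_eq_zero_iff_eq]; exact hx
  set x' : R := ∏ g ∈ (Finset.univ : Finset G).erase 1, g • x with hx'
  have hx'0 : x' ≠ 0 := Finset.prod_ne_zero_iff.mpr (fun g _ => hne g)
  have hprod : x * x' = ∏ g : G, g • x := by
    rw [hx', ← Finset.mul_prod_erase Finset.univ (fun g : G => g • x) (Finset.mem_univ 1), one_smul]
  have hinv : ∀ γ : G, γ • (x * x') = x * x' := by
    intro γ
    rw [hprod, Finset.smul_prod']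
    simp_rw [smul_smul]
    exact Fintype.prod_bijective (fun g => γ * g) (Group.mulLeft_bijective γ) _ _ (fun _ => rfl)
  obtain ⟨p, hp⟩ := Algebra.IsInvariant.isInvariant (A := Qbar[X]) (G := G) (x * x') hinv
  have hp0 : p ≠ 0 := by
    rintro rfl
    rw [map_zero] at hp
    exact mul_ne_zero hx hx'0 hp.symm
  obtain ⟨T1, C1, hC1, h1⟩ := near_upper (G := G) w x hx C' hC'
  obtain ⟨T2, C2, hC2, h2⟩ := near_upper (G := G) w x' hx'0 C' hC'
  obtain ⟨T3, C3, hC3, h3⟩ := poly_large p hp0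
  refine ⟨T1 ∪ T2 ∪ T3, C1 + C2 + C3, by positivity, ?_⟩
  intro v ε b hA t ht hl hCl γ hN
  have hb0 := adm_nonneg hA
  have hA1 : Adm T1 v ε b := adm_mono (fun c hc => by simp [hc]) hA
  have hA2 : Adm T2 v ε b := adm_mono (fun c hc => by simp [hc]) hA
  have hA3 : Adm T3 v ε b := adm_mono (fun c hc => by simp [hc]) hA
  have hu1 := h1 v ε b hA1 t ht γ hN
  have hu2 := h2 v ε b hA2 t ht γ hN
  have hc1 : 0 ≤ C1 * b := by positivity
  have hc2 : 0 ≤ C2 * b := by positivity
  have hc3 : 0 ≤ C3 * b := by positivity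
  have hCl' : C1 * b + C2 * b + C3 * b ≤ Real.log (v (sval t)) := by
    have : (C1 + C2 + C3) * b = C1 * b + C2 * b + C3 * b := by ring
    rw [← this]; exact hCl
  have hp3 := (h3 v ε b hA3 (sval t) hl (by linarith)).1
  have hmul : v (t x) * v (t x') = v (p.eval (sval t)) := by
    rw [← pt_algebraMap ht p, hp, map_mul, map_mul]
  have hwg : 0 < w (γ • x) := w.pos (hne γ)
  have hwg' : 0 < w (γ • x') := w.pos (by rw [Ne, smul_eq_zero_iff_eq]; exact hx'0)
  have hlog : Real.log (w (γ • x)) + Real.log (w (γ • x')) = p.natDegree := by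
    rw [← Real.log_mul hwg.ne' hwg'.ne', ← map_mul, ← smul_mul', hinv γ, ← hp, hdeg p hp0,
      Real.log_exp]
  constructor
  · have hexp : Real.exp (Real.log (w (γ • x)) * Real.log (v (sval t)) - (C1 + C2 + C3) * b) *
        Real.exp (Real.log (w (γ • x')) * Real.log (v (sval t)) + C2 * b) ≤
        v (p.eval (sval t)) := by
      refine le_trans ?_ hp3
      rw [← Real.exp_add]
      apply Real.exp_le_exp.mpr
      rw [← hlog]
      nlinarith
    rw [← hmul] at hexp
    have h6 : 0 < Real.exp (Real.log (w (γ • x')) * Real.log (v (sval t)) + C2 * b) :=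
      Real.exp_pos _
    have h7 : v (t x) * v (t x') ≤
        v (t x) * Real.exp (Real.log (w (γ • x')) * Real.log (v (sval t)) + C2 * b) :=
      mul_le_mul_of_nonneg_left hu2 (v.nonneg _)
    exact le_of_mul_le_mul_right (hexp.trans h7) h6
  · refine hu1.trans (Real.exp_le_exp.mpr ?_)
    nlinarith

end MFix

export MFix (fix_near)

end Pool.Agent.Helper259.Var
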