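import Mathlib
import Pool.Agent.Helper259.Var.Base

set_option autoImplicit false

namespace Pool.Agent.Helper259.Var

namespace MDft

open Polynomial Pool.Agent.Helper259.AbsHt

lemma aux352_nat {v : AbsoluteValue Qbar ℝ} {ε : ℕ} (hv : IsLoc v ε) (D : ℕ) :
    ∃ N : ℕ, D < N ∧ v (N : Qbar) = (N : ℝ) ^ ε := by
  rcases hv with ⟨hna, rfl⟩ | ⟨⟨φ, hφ⟩, rfl⟩
  · have h1 : ∀ n : ℕ, v (n : Qbar) ≤ 1 := by
      intro n
      induction n with
      | zero => simp
      | succ n ih =>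
        push_cast
        refine (hna _ _).trans (max_le ih ?_)
        rw [map_one]
    have h2 : (1 : ℝ) ≤ max (v ((D + 1 + 1 : ℕ) : Qbar)) (v ((D + 1 : ℕ) : Qbar)) := by
      have h3 := hna (((D + 1 + 1 : ℕ) : Qbar)) (-((D + 1 : ℕ) : Qbar))
      have h4 : (((D + 1 + 1 : ℕ) : Qbar)) + (-((D + 1 : ℕ) : Qbar)) = 1 := by push_cast; ring
      rw [h4, map_one, map_neg_eq_map] at h3
      exact h3
    rcases le_max_iff.1 h2 with h3 | h3
    · exact ⟨D + 1 + 1, by omega, by rw [pow_zero]; exact le_antisymm (h1 _) h3⟩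
    · exact ⟨D + 1, by omega, by rw [pow_zero]; exact le_antisymm (h1 _) h3⟩
  · refine ⟨D + 1, by omega, ?_⟩
    rw [hφ, map_natCast, Complex.norm_natCast, pow_one]

/-- the coefficients of a polynomial are bounded by its values on the unit circle -/
theorem dft_le {v : AbsoluteValue Qbar ℝ} {ε : ℕ} (hv : IsLoc v ε) (p : Qbar[X]) (M : ℝ)
    (h : ∀ z : Qbar, v z = 1 → v (p.eval z) ≤ M) (j : ℕ) : v (p.coeff j) ≤ M := by
  have hM : 0 ≤ M := (v.nonneg _).trans (h 1 (map_one v))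
  obtain ⟨N, hDN, hvN⟩ := aux352_nat hv (max p.natDegree j)
  have hN1 : p.natDegree < N := (le_max_left _ _).trans_lt hDN
  have hN2 : j < N := (le_max_right _ _).trans_lt hDN
  have hN0 : 0 < N := by omega
  haveI : NeZero N := ⟨hN0.ne'⟩
  have hNc : ((N : ℕ) : Qbar) ≠ 0 := Nat.cast_ne_zero.2 hN0.ne'
  haveI : NeZero ((N : ℕ) : Qbar) := ⟨hNc⟩
  obtain ⟨w, hw⟩ := HasEnoughRootsOfUnity.exists_primitiveRoot Qbar N
  have hw0 : w ≠ 0 := hw.ne_zero hN0.ne'
  have hvw : v w = 1 := by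
    have h1 : v w ^ N = 1 := by rw [← map_pow, hw.pow_eq_one, map_one]
    exact (pow_eq_one_iff_of_nonneg (v.nonneg _) hN0.ne').1 h1
  have hvwi : v w⁻¹ = 1 := by rw [map_inv₀, hvw, inv_one]
  have hgeom : ∀ i ∈ Finset.range N, i ≠ j →
      ∑ k ∈ Finset.range N, (w ^ i * w⁻¹ ^ j) ^ k = 0 := by
    intro i hi hij
    have hζ : w ^ i * w⁻¹ ^ j ≠ 1 := by
      intro h1
      apply hij
      refine hw.pow_inj (Finset.mem_range.1 hi) hN2 ?_
      rw [inv_pow, ← div_eq_mul_inv, div_eq_one_iff_eq (pow_ne_zero _ hw0)] at h1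
      exact h1
    have h2 := geom_sum_mul (w ^ i * w⁻¹ ^ j) N
    have h3 : (w ^ i * w⁻¹ ^ j) ^ N = 1 := by
      rw [mul_pow, ← pow_mul, ← pow_mul, mul_comm i, mul_comm j, pow_mul, pow_mul, inv_pow,
        hw.pow_eq_one]
      simp
    rw [h3, sub_self] at h2
    exact (mul_eq_zero.1 h2).resolve_right (sub_ne_zero.2 hζ)
  have hmain : ∑ k ∈ Finset.range N, (w⁻¹ ^ j) ^ k * p.eval (w ^ k) = (N : Qbar) * p.coeff j := by
    have h1 : ∀ k ∈ Finset.range N, (w⁻¹ ^ j) ^ k * p.eval (w ^ k)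
        = ∑ i ∈ Finset.range N, p.coeff i * (w ^ i * w⁻¹ ^ j) ^ k := by
      intro k _
      rw [Polynomial.eval_eq_sum_range' hN1, Finset.mul_sum]
      refine Finset.sum_congr rfl fun i _ => ?_
      rw [mul_pow, ← pow_mul w k i, ← pow_mul w i k, mul_comm k i]
      ring
    rw [Finset.sum_congr rfl h1, Finset.sum_comm]
    simp only [← Finset.mul_sum]
    rw [Finset.sum_eq_single_of_mem j (Finset.mem_range.2 hN2)]
    · have h2 : w ^ j * w⁻¹ ^ j = 1 := by rw [← mul_pow, mul_inv_cancel₀ hw0, one_pow]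
      rw [h2]
      simp
      ring
    · intro i hi hij
      rw [hgeom i hi hij, mul_zero]
  have hT : Tame v ε := by
    rcases hv with h1 | h1
    · exact Or.inl h1
    · exact Or.inr h1.2
  have hb := sum_le hT (Finset.range N) (fun k => (w⁻¹ ^ j) ^ k * p.eval (w ^ k)) M hM (by
    intro k _
    rw [map_mul, map_pow, map_pow, hvwi, one_pow, one_pow, one_mul]
    refine h _ ?_
    rw [map_pow, hvw, one_pow])
  rw [hmain, map_mul, hvN, Finset.card_range] at hb
  exact le_of_mul_le_mul_left hb (by positivity)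

end MDft

export MDft (dft_le)

end Pool.Agent.Helper259.Var
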