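import Mathlib
import Pool.Agent.Helper259.Var.Defs

set_option autoImplicit false

namespace Pool.Agent.Helper259.Var

namespace MGauss

open Polynomial Pool.Agent.Helper259.AbsHt

lemma gp_single (D : ℕ) (v : AbsoluteValue Qbar ℝ) (φ : Qbar →+* ℂ) (hφ : ∀ x, v x = ‖φ x‖)
    (p : Qbar[X]) (hp : p ≠ 0) (hD : p.natDegree ≤ D) :
    |Real.log (p.gaussNorm v 1) - Real.log ((p.map φ).mahlerMeasure)| ≤
      D * Real.log 2 + Real.log (D + 1) := by
  have hq : p.map φ ≠ 0 := (Polynomial.map_ne_zero_iff φ.injective).2 hp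
  have hM : 0 < (p.map φ).mahlerMeasure := mahlerMeasure_pos_of_ne_zero hq
  have hdeg : (p.map φ).natDegree ≤ D := (natDegree_map_le).trans hD
  obtain ⟨i, hi⟩ := p.exists_eq_gaussNorm v 1
  have h1 : p.gaussNorm v 1 ≤ 2 ^ D * (p.map φ).mahlerMeasure := by
    rw [hi, one_pow, mul_one, hφ, ← coeff_map]
    refine (norm_coeff_le_choose_mul_mahlerMeasure i (p.map φ)).trans ?_
    refine mul_le_mul_of_nonneg_right ?_ hM.le
    have h2 : (p.map φ).natDegree.choose i ≤ 2 ^ D :=
      (Nat.choose_le_two_pow _ _).trans (Nat.pow_le_pow_right (by norm_num) hdeg)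
    exact_mod_cast h2
  have h3 : (p.map φ).mahlerMeasure ≤ (D + 1) * p.gaussNorm v 1 := by
    refine (mahlerMeasure_le_sqrt_natDegree_add_one_mul_supNorm (p.map φ)).trans ?_
    have h4 : (p.map φ).supNorm ≤ p.gaussNorm v 1 := by
      obtain ⟨j, hj⟩ := (p.map φ).exists_eq_supNorm
      rw [hj, coeff_map, ← hφ]
      have := p.le_gaussNorm v (zero_le_one (α := ℝ)) j
      simpa using this
    have h5 : √(((p.map φ).natDegree : ℝ) + 1) ≤ D + 1 := by
      rw [Real.sqrt_le_left (by positivity)]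
      have h6 : (((p.map φ).natDegree : ℕ) : ℝ) ≤ D := by exact_mod_cast hdeg
      have h7 : (0 : ℝ) ≤ (D : ℝ) := Nat.cast_nonneg D
      nlinarith
    exact mul_le_mul h5 h4 (supNorm_nonneg _) (by positivity)
  have hG : 0 < p.gaussNorm v 1 := by
    by_contra hcon
    push Not at hcon
    have h7 : (0 : ℝ) ≤ (D : ℝ) := Nat.cast_nonneg D
    nlinarith
  have h2D : Real.log (2 ^ D * (p.map φ).mahlerMeasure) =
      D * Real.log 2 + Real.log ((p.map φ).mahlerMeasure) := by
    rw [Real.log_mul (by positivity) hM.ne', Real.log_pow]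
  have h8 : Real.log (((D : ℝ) + 1) * p.gaussNorm v 1) =
      Real.log ((D : ℝ) + 1) + Real.log (p.gaussNorm v 1) := by
    rw [Real.log_mul (by positivity) hG.ne']
  have h9 := Real.log_le_log hG h1
  have h10 := Real.log_le_log hM h3
  have h11 : 0 ≤ Real.log ((D : ℝ) + 1) := Real.log_nonneg (by
    have h7 : (0 : ℝ) ≤ (D : ℝ) := Nat.cast_nonneg D
    linarith)
  have h12 : 0 ≤ (D : ℝ) * Real.log 2 := by
    have := Real.log_nonneg (one_le_two (α := ℝ))
    positivity
  rw [abs_le]
  constructor <;> linarith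

lemma gp_nonarch (v : AbsoluteValue Qbar ℝ) (hv : IsNonarchimedean v) {G : Type} (s : Finset G)
    (f : G → Qbar[X]) : (∏ g ∈ s, f g).gaussNorm v 1 = ∏ g ∈ s, (f g).gaussNorm v 1 := by
  classical
  induction s using Finset.induction_on with
  | empty =>
    have h := gaussNorm_C v 1 (1 : Qbar)
    rw [map_one, map_one] at h
    simpa using h
  | insert a s ha ih =>
    rw [Finset.prod_insert ha, Finset.prod_insert ha, gaussNorm_mul hv one_pos, ih]

/-- TARGET (Gauss lemma / Gelfond inequality for finite products of polynomials of bounded degree):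
`‖∏ f_g‖` and `∏ ‖f_g‖` agree up to a constant that is `1` in the nonarchimedean case. -/
theorem gauss_prod (m N : ℕ) : ∃ C : ℝ, 0 ≤ C ∧
    ∀ (v : AbsoluteValue Qbar ℝ) (ε : ℕ), IsLoc v ε →
    ∀ (G : Type) [Fintype G], Fintype.card G = m → ∀ f : G → Qbar[X],
      (∀ g, f g ≠ 0) → (∀ g, (f g).natDegree ≤ N) →
      |Real.log ((∏ g, f g).gaussNorm v 1) - ∑ g, Real.log ((f g).gaussNorm v 1)| ≤ ε * C := by
  have hB : ∀ D : ℕ, 0 ≤ (D : ℝ) * Real.log 2 + Real.log (D + 1) := by
    intro D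
    have h7 : (0 : ℝ) ≤ (D : ℝ) := Nat.cast_nonneg D
    have h11 : 0 ≤ Real.log ((D : ℝ) + 1) := Real.log_nonneg (by linarith)
    have := Real.log_nonneg (one_le_two (α := ℝ))
    positivity
  refine ⟨(((m * N : ℕ) : ℝ) * Real.log 2 + Real.log (((m * N : ℕ) : ℝ) + 1)) +
    m * ((N : ℝ) * Real.log 2 + Real.log (N + 1)),
    add_nonneg (hB _) (mul_nonneg (Nat.cast_nonneg m) (hB N)), ?_⟩
  intro v ε hv G _ hG f hf hN
  rcases hv with ⟨hna, rfl⟩ | ⟨⟨φ, hφ⟩, rfl⟩
  · have h1 := gp_nonarch v hna Finset.univ f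
    have h2 : Real.log (∏ g, (f g).gaussNorm v 1) = ∑ g, Real.log ((f g).gaussNorm v 1) := by
      refine Real.log_prod fun g _ => ?_
      intro h0
      exact hf g ((gaussNorm_eq_zero_iff v _ (fun x hx => v.eq_zero.1 hx) one_pos).1 h0)
    rw [h1, h2, sub_self, abs_zero]
    simp
  · have hF : (∏ g, f g) ≠ 0 := Finset.prod_ne_zero_iff.2 fun g _ => hf g
    have hFd : (∏ g, f g).natDegree ≤ m * N := by
      refine (natDegree_prod_le _ _).trans ?_
      refine (Finset.sum_le_card_nsmul _ _ N fun g _ => hN g).trans ?_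
      rw [Finset.card_univ, hG, smul_eq_mul]
    have h1 := gp_single (m * N) v φ hφ _ hF hFd
    have h2 : ∀ g, |Real.log ((f g).gaussNorm v 1) - Real.log (((f g).map φ).mahlerMeasure)| ≤
      N * Real.log 2 + Real.log (N + 1) := fun g => gp_single N v φ hφ _ (hf g) (hN g)
    have h3 : Real.log (((∏ g, f g).map φ).mahlerMeasure) =
        ∑ g, Real.log (((f g).map φ).mahlerMeasure) := by
      rw [Polynomial.map_prod, Finset.prod_eq_multiset_prod,
        prod_mahlerMeasure_eq_mahlerMeasure_prod, Multiset.map_map,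
        ← Finset.prod_eq_multiset_prod]
      refine Real.log_prod fun g _ => ?_
      exact (mahlerMeasure_pos_of_ne_zero
        ((Polynomial.map_ne_zero_iff φ.injective).2 (hf g))).ne'
    have h4 : |∑ g, Real.log (((f g).map φ).mahlerMeasure) -
        ∑ g, Real.log ((f g).gaussNorm v 1)| ≤
        m * ((N : ℝ) * Real.log 2 + Real.log (N + 1)) := by
      rw [← Finset.sum_sub_distrib]
      refine (Finset.abs_sum_le_sum_abs _ _).trans ?_
      refine (Finset.sum_le_card_nsmul _ _ ((N : ℝ) * Real.log 2 + Real.log (N + 1))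
        fun g _ => ?_).trans ?_
      · rw [abs_sub_comm]
        exact h2 g
      · rw [Finset.card_univ, hG, nsmul_eq_mul]
    rw [h3] at h1
    have h5 := abs_sub_le (Real.log ((∏ g, f g).gaussNorm v 1))
      (∑ g, Real.log (((f g).map φ).mahlerMeasure)) (∑ g, Real.log ((f g).gaussNorm v 1))
    rw [Nat.cast_one, one_mul]
    exact h5.trans (add_le_add h1 h4)

end MGauss

export MGauss (gauss_prod)

end Pool.Agent.Helper259.Var
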