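import Mathlib
import Pool.Agent.Helper259.Var.Gauss

set_option autoImplicit false

namespace Pool.Agent.Helper259.Var

namespace MNormPoly

open Polynomial Pool.Agent.Helper259.AbsHt

/-- the polynomial with given coefficients -/
noncomputable def j13750_pol {A : Type*} [CommRing A] {N : ℕ} (q : Fin (N + 1) → A) : A[X] :=
  ∑ i : Fin (N + 1), C (q i) * X ^ (i : ℕ)

theorem j13750_coeff {A : Type*} [CommRing A] {N : ℕ} (q : Fin (N + 1) → A) (i : Fin (N + 1)) :
    (j13750_pol q).coeff i = q i := by
  unfold j13750_pol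
  rw [finsetSum_coeff, Finset.sum_eq_single i]
  · rw [coeff_C_mul, coeff_X_pow, if_pos rfl, mul_one]
  · intro j _ hj
    rw [coeff_C_mul, coeff_X_pow, if_neg, mul_zero]
    intro h
    exact hj (Fin.ext h.symm)
  · intro h
    exact absurd (Finset.mem_univ i) h

theorem j13750_natDegree {A : Type*} [CommRing A] {N : ℕ} (q : Fin (N + 1) → A) :
    (j13750_pol q).natDegree ≤ N := by
  unfold j13750_pol
  refine natDegree_sum_le_of_forall_le _ _ fun i _ => ?_
  exact (natDegree_C_mul_X_pow_le _ _).trans (Nat.lt_succ_iff.1 i.2)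

theorem j13750_map {A B : Type*} [CommRing A] [CommRing B] {N : ℕ} (q : Fin (N + 1) → A)
    (φ : A →+* B) : (j13750_pol q).map φ = j13750_pol (fun i => φ (q i)) := by
  unfold j13750_pol
  rw [Polynomial.map_sum]
  refine Finset.sum_congr rfl fun i _ => ?_
  rw [Polynomial.map_mul, Polynomial.map_pow, map_C, map_X]

theorem j13750_ne_zero {A : Type*} [CommRing A] {N : ℕ} {q : Fin (N + 1) → A}
    (i : Fin (N + 1)) (h : q i ≠ 0) : j13750_pol q ≠ 0 := by
  intro h0
  apply h
  rw [← j13750_coeff q i, h0, coeff_zero]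

theorem j13750_sup {A : Type*} [CommRing A] (v : AbsoluteValue A ℝ) (f : A[X]) (D : ℕ)
    (hD : f.natDegree ≤ D) : f.gaussNorm v 1 = ⨆ i : Fin (D + 1), v (f.coeff i) := by
  have hb : BddAbove (Set.range fun i : Fin (D + 1) => v (f.coeff i)) :=
    (Set.finite_range _).bddAbove
  apply le_antisymm
  · obtain ⟨i, hi⟩ := exists_eq_gaussNorm v (1 : ℝ) f
    rw [hi, one_pow, mul_one]
    by_cases h : i < D + 1
    · exact le_ciSup (f := fun i : Fin (D + 1) => v (f.coeff i)) hb ⟨i, h⟩
    · rw [coeff_eq_zero_of_natDegree_lt (by omega), map_zero]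
      exact (v.nonneg _).trans
        (le_ciSup (f := fun i : Fin (D + 1) => v (f.coeff i)) hb ⟨0, Nat.succ_pos D⟩)
  · refine ciSup_le fun i => ?_
    have := le_gaussNorm v f zero_le_one (i : ℕ)
    rwa [one_pow, mul_one] at this

theorem j13750_gauss_prod {A : Type*} [CommRing A] [Nontrivial A] (w : AbsoluteValue A ℝ)
    (hw : IsNonarchimedean w) {ι : Type*} (s : Finset ι) (f : ι → A[X]) (hw1 : w 1 = 1) :
    (∏ i ∈ s, f i).gaussNorm w 1 = ∏ i ∈ s, (f i).gaussNorm w 1 := by
  classical
  induction s using Finset.induction_on with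
  | empty =>
    rw [Finset.prod_empty, Finset.prod_empty, ← C_1, gaussNorm_C, hw1]
  | insert a s ha ih =>
    rw [Finset.prod_insert ha, Finset.prod_insert ha, gaussNorm_mul hw one_pos, ih]

theorem j13750_eval {R : Type*} [CommRing R] [Algebra Qbar[X] R] {t : R →+* Qbar}
    (ht : IsPt t) (p : Qbar[X]) : t (algebraMap Qbar[X] R p) = p.eval (sval t) := by
  have h : (t.comp (algebraMap Qbar[X] R)) = evalRingHom (sval t) := by
    refine Polynomial.ringHom_ext (fun c => ?_) ?_
    · rw [RingHom.comp_apply, ht c, coe_evalRingHom, eval_C]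
    · rw [RingHom.comp_apply, coe_evalRingHom, eval_X]
      rfl
  have := congrArg (fun φ : Qbar[X] →+* Qbar => φ p) h
  simpa using this

/-- the norm of a vector of functions, as a vector of polynomials in `s` -/
theorem norm_poly {R G : Type*} [CommRing R] [IsDomain R] [Algebra Qbar[X] R] [Group G]
    [Fintype G] [MulSemiringAction G R] [SMulCommClass G Qbar[X] R]
    [Algebra.IsInvariant Qbar[X] R G] (w : AbsoluteValue R ℝ) (hw : IsNonarchimedean w)
    (hdeg : ∀ p : Qbar[X], p ≠ 0 → w (algebraMap Qbar[X] R p) = Real.exp p.natDegree) (N : ℕ) :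
    ∃ C : ℝ, 0 ≤ C ∧ ∀ q : Fin (N + 1) → R, q ≠ 0 →
      ∃ (Q : Fin (Fintype.card G * N + 1) → Qbar[X]) (E : ℕ),
        (∀ i, (Q i).natDegree ≤ E) ∧ (∃ i, (Q i).coeff E ≠ 0) ∧
        ((E : ℝ) = ∑ g : G, Real.log (⨆ i, w (g • q i))) ∧
        ∀ v ε, IsLoc v ε → ∀ t : R →+* Qbar, IsPt t → (∀ g : G, ∃ i, t (g • q i) ≠ 0) →
          (∃ i, (Q i).eval (sval t) ≠ 0) ∧
          |Real.log (⨆ i, v ((Q i).eval (sval t))) - ∑ g : G, Real.log (⨆ i, v (t (g • q i)))|
            ≤ ε * C := by
  classical
  obtain ⟨K, hK0, hK⟩ := gauss_prod (Fintype.card G) N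
  refine ⟨K, hK0, fun q hq => ?_⟩
  -- the conjugate polynomials and their product
  let f : G → R[X] := fun g => j13750_pol (fun i => g • q i)
  let P : R[X] := ∏ g : G, f g
  have hfdeg : ∀ g, (f g).natDegree ≤ N := fun g => j13750_natDegree _
  have hPdeg : P.natDegree ≤ Fintype.card G * N := by
    refine (natDegree_prod_le _ _).trans ?_
    refine (Finset.sum_le_sum fun g _ => hfdeg g).trans ?_
    rw [Finset.sum_const, Finset.card_univ, smul_eq_mul]
  have hf0 : ∀ g, f g ≠ 0 := by
    intro g
    obtain ⟨i, hi⟩ := Function.ne_iff.1 hq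
    refine j13750_ne_zero i ?_
    intro h
    apply hi
    have h2 : g⁻¹ • (g • q i) = 0 := by rw [h, smul_zero]
    rwa [inv_smul_smul] at h2
  have hP0 : P ≠ 0 := Finset.prod_ne_zero_iff.2 fun g _ => hf0 g
  have hinv : ∀ (i : ℕ) (h : G), h • P.coeff i = P.coeff i := by
    intro i h
    have h1 : P.map (MulSemiringAction.toRingHom G R h) = P := by
      change (∏ g : G, f g).map _ = ∏ g : G, f g
      rw [Polynomial.map_prod]
      rw [← Equiv.prod_comp (Equiv.mulLeft h) f]
      refine Finset.prod_congr rfl fun g _ => ?_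
      change (j13750_pol (fun i => g • q i)).map _ = j13750_pol (fun i => (h * g) • q i)
      rw [j13750_map]
      congr 1
      funext i
      rw [MulSemiringAction.toRingHom_apply, mul_smul]
    have h2 : (P.map (MulSemiringAction.toRingHom G R h)).coeff i = P.coeff i := by rw [h1]
    rw [coeff_map, MulSemiringAction.toRingHom_apply] at h2
    exact h2
  have hex : ∀ i : Fin (Fintype.card G * N + 1), ∃ a : Qbar[X],
      algebraMap Qbar[X] R a = P.coeff i := fun i =>
    Algebra.IsInvariant.isInvariant (G := G) _ (hinv i)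
  choose Q hQ using hex
  have hQ1 : ∃ i, Q i ≠ 0 := by
    by_contra hc
    push Not at hc
    apply hP0
    ext j
    rw [coeff_zero]
    by_cases hj : j < Fintype.card G * N + 1
    · rw [← hQ ⟨j, hj⟩, hc, map_zero]
    · exact coeff_eq_zero_of_natDegree_lt (by omega)
  let E : ℕ := Finset.univ.sup fun i => (Q i).natDegree
  have hE : ∀ i, (Q i).natDegree ≤ E := fun i =>
    Finset.le_sup (f := fun i => (Q i).natDegree) (Finset.mem_univ i)
  have hEc : ∃ i, (Q i).coeff E ≠ 0 := by
    obtain ⟨i1, hi1⟩ := hQ1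
    obtain ⟨i0, _, hi0⟩ := Finset.exists_mem_eq_sup (Finset.univ :
      Finset (Fin (Fintype.card G * N + 1))) ⟨i1, Finset.mem_univ _⟩ (fun i => (Q i).natDegree)
    by_cases h0 : Q i0 = 0
    · have hE0 : E = 0 := by
        change Finset.univ.sup (fun i => (Q i).natDegree) = 0
        rw [hi0, h0, natDegree_zero]
      refine ⟨i1, ?_⟩
      have h1 : (Q i1).natDegree = E := le_antisymm (hE i1) (by omega)
      rw [← h1, coeff_natDegree]
      exact leadingCoeff_ne_zero.2 hi1
    · refine ⟨i0, ?_⟩
      have h1 : E = (Q i0).natDegree := hi0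
      rw [h1, coeff_natDegree]
      exact leadingCoeff_ne_zero.2 h0
  refine ⟨Q, E, hE, hEc, ?_, ?_⟩
  · -- the formula for `E`
    have hw1 : w 1 = 1 := by
      exact map_one w
    have h1 : P.gaussNorm w 1 = ∏ g : G, (f g).gaussNorm w 1 :=
      j13750_gauss_prod w hw _ _ hw1
    have h2 : ∀ g, (f g).gaussNorm w 1 = ⨆ i, w (g • q i) := by
      intro g
      rw [j13750_sup w (f g) N (hfdeg g)]
      congr 1
      funext i
      rw [j13750_coeff]
    have h3 : ∀ g, (f g).gaussNorm w 1 ≠ 0 := by
      intro g h0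
      exact hf0 g ((gaussNorm_eq_zero_iff w (f g) (fun x hx => (w.eq_zero).1 hx) one_pos).1 h0)
    have h4 : P.gaussNorm w 1 = Real.exp E := by
      rw [j13750_sup w P _ hPdeg]
      apply le_antisymm
      · refine ciSup_le fun i => ?_
        rw [← hQ i]
        by_cases hi : Q i = 0
        · rw [hi, map_zero, map_zero]
          exact (Real.exp_pos _).le
        · rw [hdeg _ hi]
          exact Real.exp_le_exp.2 (by exact_mod_cast hE i)
      · obtain ⟨i, hi⟩ := hEc
        have hi0 : Q i ≠ 0 := by
          rintro h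
          rw [h, coeff_zero] at hi
          exact hi rfl
        have hid : (Q i).natDegree = E := le_antisymm (hE i) (le_natDegree_of_ne_zero hi)
        refine le_trans (le_of_eq ?_) (le_ciSup (f := fun i : Fin (Fintype.card G * N + 1) =>
          w (P.coeff i)) (Set.finite_range _).bddAbove i)
        change Real.exp E = w (P.coeff i)
        rw [← hQ i, hdeg _ hi0, hid]
    have h5 : Real.log (P.gaussNorm w 1) = ∑ g : G, Real.log ((f g).gaussNorm w 1) := by
      rw [h1, Real.log_prod fun g _ => h3 g]
    rw [h4, Real.log_exp] at h5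
    rw [h5]
    exact Finset.sum_congr rfl fun g _ => by rw [h2]
  · intro v ε hv t ht hne
    have hfm : ∀ g, (f g).map t = j13750_pol (fun i => t (g • q i)) := fun g => j13750_map _ t
    have hfm0 : ∀ g, (f g).map t ≠ 0 := by
      intro g
      obtain ⟨i, hi⟩ := hne g
      rw [hfm]
      exact j13750_ne_zero i hi
    have hPm : P.map t = ∏ g : G, (f g).map t := by
      change (∏ g : G, f g).map t = _
      rw [Polynomial.map_prod]
    have hPm0 : P.map t ≠ 0 := by
      rw [hPm]
      exact Finset.prod_ne_zero_iff.2 fun g _ => hfm0 g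
    have hPmdeg : (P.map t).natDegree ≤ Fintype.card G * N := natDegree_map_le.trans hPdeg
    have hcoef : ∀ i : Fin (Fintype.card G * N + 1), (P.map t).coeff i = (Q i).eval (sval t) := by
      intro i
      rw [coeff_map, ← hQ i, j13750_eval ht]
    constructor
    · by_contra hc
      push Not at hc
      apply hPm0
      ext j
      rw [coeff_zero]
      by_cases hj : j < Fintype.card G * N + 1
      · have := hcoef ⟨j, hj⟩
        rw [hc] at this
        exact this
      · exact coeff_eq_zero_of_natDegree_lt (by omega)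
    · have e1 : (P.map t).gaussNorm v 1 = ⨆ i, v ((Q i).eval (sval t)) := by
        rw [j13750_sup v (P.map t) _ hPmdeg]
        congr 1
        funext i
        rw [hcoef]
      have e2 : ∀ g, ((f g).map t).gaussNorm v 1 = ⨆ i, v (t (g • q i)) := by
        intro g
        rw [j13750_sup v _ N (natDegree_map_le.trans (hfdeg g)), hfm]
        congr 1
        funext i
        rw [j13750_coeff]
      let eqv : G ≃ Fin (Fintype.card G) := Fintype.equivFin G
      have h1 := hK v ε hv (Fin (Fintype.card G)) (Fintype.card_fin _)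
        (fun j => (f (eqv.symm j)).map t) (fun j => hfm0 _)
        (fun j => natDegree_map_le.trans (hfdeg _))
      have h2 : ∏ j, (f (eqv.symm j)).map t = P.map t := by
        rw [hPm]
        exact Equiv.prod_comp eqv.symm (fun g => (f g).map t)
      have h3 : ∑ j, Real.log (((f (eqv.symm j)).map t).gaussNorm v 1) =
          ∑ g : G, Real.log (⨆ i, v (t (g • q i))) := by
        rw [Equiv.sum_comp eqv.symm (fun g => Real.log (((f g).map t).gaussNorm v 1))]
        exact Finset.sum_congr rfl fun g _ => by rw [e2]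
      rw [h2, h3, e1] at h1
      exact h1

end MNormPoly

export MNormPoly (norm_poly)

end Pool.Agent.Helper259.Var
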