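import Mathlib
import Pool.Agent.Helper259.Var.Dft

set_option autoImplicit false

namespace Pool.Agent.Helper259.Var

namespace MTaylor

open Polynomial Pool.Agent.Helper259.AbsHt

theorem isLoc_tame {v : AbsoluteValue Qbar ℝ} {ε : ℕ} (hv : IsLoc v ε) : Tame v ε := by
  rcases hv with h | h
  · exact Or.inl h
  · exact Or.inr h.2

theorem tame_nat {v : AbsoluteValue Qbar ℝ} {ε : ℕ} (hv : Tame v ε) (m : ℕ) :
    v (m : Qbar) ≤ (m : ℝ) ^ ε := by
  have := sum_le hv (Finset.range m) (fun _ => (1 : Qbar)) 1 zero_le_one (fun i _ => by simp)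
  simpa using this

theorem pow_sub_le {v : AbsoluteValue Qbar ℝ} {ε : ℕ} (hv : Tame v ε) (j : ℕ) (x y : Qbar)
    (hx : v x ≤ 1) (hy : v y ≤ 1) : v (x ^ j - y ^ j) ≤ (j : ℝ) ^ ε * v (x - y) := by
  rw [← geom_sum₂_mul, map_mul]
  refine mul_le_mul_of_nonneg_right ?_ (v.nonneg _)
  have := sum_le hv (Finset.range j) (fun i => x ^ i * y ^ (j - 1 - i)) 1 zero_le_one ?_
  · simpa using this
  · intro i _
    rw [map_mul, map_pow, map_pow]
    exact mul_le_one₀ (pow_le_one₀ (v.nonneg _) hx) (by positivity) (pow_le_one₀ (v.nonneg _) hy)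

/-- Lipschitz estimate in the unit disc -/
theorem lip_le {v : AbsoluteValue Qbar ℝ} {ε : ℕ} (hv : IsLoc v ε) (p : Qbar[X]) (E : ℕ)
    (hE : p.natDegree ≤ E) (M : ℝ) (hM : ∀ j, v (p.coeff j) ≤ M) (x y : Qbar) (hx : v x ≤ 1)
    (hy : v y ≤ 1) :
    v (p.eval x - p.eval y) ≤ (((E : ℝ) + 1) ^ 2) ^ ε * M * v (x - y) := by
  have hT := isLoc_tame hv
  have hM0 : 0 ≤ M := le_trans (v.nonneg _) (hM 0)
  rw [Polynomial.eval_eq_sum_range' (Nat.lt_succ_of_le hE) x,
    Polynomial.eval_eq_sum_range' (Nat.lt_succ_of_le hE) y, ← Finset.sum_sub_distrib]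
  have h1 := sum_le hT (Finset.range (E + 1))
    (fun j => p.coeff j * x ^ j - p.coeff j * y ^ j)
    (M * (((E : ℝ) + 1) ^ ε * v (x - y))) (by have := v.nonneg (x - y); positivity) ?_
  · refine h1.trans (le_of_eq ?_)
    rw [Finset.card_range]
    push_cast
    rw [← pow_mul, mul_comm 2 ε, pow_mul]
    ring
  · intro j hj
    rw [Finset.mem_range] at hj
    rw [← mul_sub, map_mul]
    refine mul_le_mul (hM j) ?_ (v.nonneg _) hM0
    refine (pow_sub_le hT j x y hx hy).trans ?_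
    refine mul_le_mul_of_nonneg_right ?_ (v.nonneg _)
    refine pow_le_pow_left₀ (by positivity) ?_ ε
    exact_mod_cast hj.le

theorem taylor_coeff_le {v : AbsoluteValue Qbar ℝ} {ε : ℕ} (hT : Tame v ε) (p : Qbar[X]) (E : ℕ)
    (hE : p.natDegree ≤ E) (M : ℝ) (hM0 : 0 ≤ M) (hM : ∀ j, v (p.coeff j) ≤ M) (τ : Qbar)
    (hτ : v τ ≤ 1) (j : ℕ) :
    v ((taylor τ p).coeff j) ≤ (((E : ℝ) + 1) * 2 ^ E) ^ ε * M := by
  have e1 : (taylor τ p).coeff j =
      ∑ k ∈ Finset.range (E + 1), p.coeff k * (τ ^ (k - j) * (k.choose j : Qbar)) := by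
    rw [taylor_apply, comp, eval₂_eq_sum_range' C (Nat.lt_succ_of_le hE), finsetSum_coeff]
    refine Finset.sum_congr rfl fun k _ => ?_
    rw [coeff_C_mul, coeff_X_add_C_pow]
  rw [e1]
  have h1 := sum_le hT (Finset.range (E + 1))
    (fun k => p.coeff k * (τ ^ (k - j) * (k.choose j : Qbar)))
    (M * (2 ^ E) ^ ε) (by positivity) ?_
  · refine h1.trans (le_of_eq ?_)
    rw [Finset.card_range, mul_pow]
    push_cast
    ring
  · intro k hk
    rw [Finset.mem_range] at hk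
    rw [map_mul, map_mul, map_pow]
    refine mul_le_mul (hM k) ?_ (mul_nonneg (pow_nonneg (v.nonneg _) _) (v.nonneg _)) hM0
    have h2 : v τ ^ (k - j) ≤ 1 := pow_le_one₀ (v.nonneg _) hτ
    have h3 : v (k.choose j : Qbar) ≤ ((2 : ℝ) ^ E) ^ ε := by
      refine (tame_nat hT _).trans (pow_le_pow_left₀ (by positivity) ?_ ε)
      have h4 : k.choose j ≤ 2 ^ E :=
        (Nat.choose_le_two_pow k j).trans (Nat.pow_le_pow_right (by norm_num) (by omega))
      exact_mod_cast h4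
    calc v τ ^ (k - j) * v (k.choose j : Qbar) ≤ 1 * ((2 : ℝ) ^ E) ^ ε :=
          mul_le_mul h2 h3 (v.nonneg _) zero_le_one
      _ = _ := one_mul _

/-- TARGET 2 (interpolation of Taylor coefficients): a polynomial which is small on a tiny circle
around `τ` is small at `0`. -/
theorem taylor_le {v : AbsoluteValue Qbar ℝ} {ε : ℕ} (hv : IsLoc v ε) (p : Qbar[X]) (E : ℕ)
    (hE : p.natDegree ≤ E) (M : ℝ) (hM1 : 1 ≤ M) (hM : ∀ j, v (p.coeff j) ≤ M) (τ : Qbar)
    (hτ0 : τ ≠ 0) (hτ : v τ ≤ 1) (K : ℕ) (hK : 1 ≤ K) (A : ℝ) (hA : 0 ≤ A)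
    (h : ∀ z : Qbar, v z = 1 → v (p.eval (τ + τ ^ K * z)) ≤ Real.exp (-A)) :
    v (p.eval 0) ≤ ((((E : ℝ) + 1) ^ 2) * 2 ^ E) ^ ε * M * Real.exp (-(A / K)) := by
  have hT := isLoc_tame hv
  have hM0 : 0 ≤ M := zero_le_one.trans hM1
  set X₀ : ℝ := (((E : ℝ) + 1) * 2 ^ E) ^ ε * M with hX₀
  have hbase : (1 : ℝ) ≤ ((E : ℝ) + 1) * 2 ^ E :=
    one_le_mul_of_one_le_of_one_le (by linarith [(Nat.cast_nonneg E : (0 : ℝ) ≤ E)])
      (one_le_pow₀ (by norm_num))
  have hX1 : 1 ≤ X₀ := one_le_mul_of_one_le_of_one_le (one_le_pow₀ hbase) hM1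
  have hc := taylor_coeff_le hT p E hE M hM0 hM τ hτ
  -- the coefficients of the rescaled polynomial
  have hq : ∀ j, v ((taylor τ p).coeff j) * v τ ^ (K * j) ≤ Real.exp (-A) := by
    intro j
    have h1 := dft_le hv ((taylor τ p).comp (C (τ ^ K) * X)) (Real.exp (-A)) ?_ j
    · rw [comp_C_mul_X_coeff, map_mul, map_pow, map_pow, ← pow_mul] at h1
      exact h1
    · intro z hz
      rw [eval_comp, taylor_eval, eval_mul, eval_C, eval_X, add_comm]
      exact h z hz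
  have hdeg : (taylor τ p).natDegree ≤ E := by rw [natDegree_taylor]; exact hE
  have h0 : p.eval 0 = ∑ j ∈ Finset.range (E + 1), (taylor τ p).coeff j * (-τ) ^ j := by
    rw [← Polynomial.eval_eq_sum_range' (Nat.lt_succ_of_le hdeg), taylor_eval]
    simp
  rw [h0]
  have h1 := sum_le hT (Finset.range (E + 1)) (fun j => (taylor τ p).coeff j * (-τ) ^ j)
    (X₀ * Real.exp (-(A / K))) (by positivity) ?_
  · refine h1.trans (le_of_eq ?_)
    rw [Finset.card_range, hX₀]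
    push_cast
    rw [mul_pow, mul_pow, ← pow_mul ((E : ℝ) + 1) 2 ε, mul_comm 2 ε, pow_mul]
    ring
  · intro j _
    rw [map_mul, map_pow, v.map_neg]
    have hKR : (K : ℝ) ≠ 0 := by positivity
    have hK0 : K ≠ 0 := by omega
    have ha := v.nonneg ((taylor τ p).coeff j)
    have ht := v.nonneg τ
    refine le_of_pow_le_pow_left₀ hK0 (by positivity) ?_
    rw [mul_pow, mul_pow, ← Real.exp_nat_mul, ← pow_mul, mul_comm j K]
    have e2 : (K : ℝ) * -(A / K) = -A := by field_simp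
    rw [e2]
    obtain ⟨K', rfl⟩ : ∃ K', K = K' + 1 := ⟨K - 1, by omega⟩
    have e3 : v ((taylor τ p).coeff j) ^ (K' + 1) * v τ ^ ((K' + 1) * j) =
        v ((taylor τ p).coeff j) ^ K' * (v ((taylor τ p).coeff j) * v τ ^ ((K' + 1) * j)) := by
      ring
    rw [e3]
    refine mul_le_mul ?_ (hq j) (by positivity) (by positivity)
    calc v ((taylor τ p).coeff j) ^ K' ≤ X₀ ^ K' := pow_le_pow_left₀ ha (hc j) _
      _ ≤ X₀ ^ (K' + 1) := pow_le_pow_right₀ hX1 (Nat.le_succ _)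

end MTaylor

export MTaylor (lip_le taylor_le)

end Pool.Agent.Helper259.Var
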