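import Mathlib
import Pool.Agent.Helper259.Var.Taylor

set_option autoImplicit false

namespace Pool.Agent.Helper259.Var

namespace MTwoConst

open Polynomial Pool.Agent.Helper259.AbsHt

theorem tc_coeff (v : AbsoluteValue Qbar ℝ) (p : Qbar[X]) (N : ℕ) (M : ℝ)
    (hM : ∀ j, v (p.coeff j) ≤ M) (j : ℕ) : v ((reflect N p).coeff j) ≤ M := by
  rw [coeff_reflect]; exact hM _

theorem tc_natDegree (p : Qbar[X]) (N : ℕ) (hp : p.natDegree ≤ N) :
    (reflect N p).natDegree ≤ N := by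
  refine (natDegree_reflect_le).trans ?_
  exact max_le le_rfl hp

theorem tc_eval_zero (p : Qbar[X]) (N : ℕ) :
    (reflect N p).eval 0 = p.coeff N := by
  rw [← coeff_zero_eq_eval_zero, coeff_reflect, revAt_zero]

theorem tc_eval (v : AbsoluteValue Qbar ℝ) (p : Qbar[X]) (N : ℕ) (hp : p.natDegree ≤ N)
    (s : Qbar) (hs : s ≠ 0) :
    v (p.eval s) = v s ^ N * v ((reflect N p).eval s⁻¹) := by
  have : Invertible s := invertibleOfNonzero hs
  have h := eval₂_reflect_mul_pow (RingHom.id Qbar) s N p hp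
  rw [invOf_eq_inv] at h
  have h2 : p.eval s = (reflect N p).eval s⁻¹ * s ^ N := by
    rw [eval, eval]; exact h.symm
  rw [h2, map_mul, map_pow, mul_comm]

theorem tc_sup {ι : Type} [Fintype ι] (v : AbsoluteValue Qbar ℝ) (R : ℕ → ι → Qbar[X]) (E : ℕ → ℕ)
    (hE : ∀ n i, (R n i).natDegree ≤ E n) (hne : ∀ n s, ∃ i, (R n i).eval s ≠ 0)
    (n : ℕ) (s : Qbar) (hs : 0 < Real.log (v s)) :
    Real.exp (-defect v R E n s) = ⨆ i, v ((reflect (E n) (R n i)).eval s⁻¹) := by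
  have hv1 : 1 < v s := by
    by_contra h
    push Not at h
    exact absurd (Real.log_nonpos (v.nonneg s) h) (not_le.mpr hs)
  have hs0 : s ≠ 0 := by
    rintro rfl
    simp at hv1
    linarith
  have h1 : (⨆ i, v ((R n i).eval s)) =
      v s ^ (E n) * ⨆ i, v ((reflect (E n) (R n i)).eval s⁻¹) := by
    rw [Real.mul_iSup_of_nonneg (by positivity)]
    congr 1
    ext i
    exact tc_eval v _ _ (hE n i) s hs0
  obtain ⟨i0, hi0⟩ := hne n s
  have hbd : BddAbove (Set.range fun i => v ((reflect (E n) (R n i)).eval s⁻¹)) :=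
    (Set.finite_range _).bddAbove
  have hpos : 0 < ⨆ i, v ((reflect (E n) (R n i)).eval s⁻¹) := by
    have h2 : 0 < v ((reflect (E n) (R n i0)).eval s⁻¹) := by
      have h3 := tc_eval v _ _ (hE n i0) s hs0
      have h4 : 0 < v ((R n i0).eval s) := v.pos hi0
      rw [h3] at h4
      have h5 : 0 < v s ^ (E n) := by positivity
      exact (pos_iff_pos_of_mul_pos h4).1 h5
    exact lt_of_lt_of_le h2 (le_ciSup hbd i0)
  unfold defect
  rw [h1, Real.log_mul (by positivity) hpos.ne', Real.log_pow]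
  have : -(↑(E n) * Real.log (v s) -
      (↑(E n) * Real.log (v s) + Real.log (⨆ i, v ((reflect (E n) (R n i)).eval s⁻¹)))) =
      Real.log (⨆ i, v ((reflect (E n) (R n i)).eval s⁻¹)) := by ring
  rw [this, Real.exp_log hpos]

theorem tc_le {ι : Type} [Fintype ι] (v : AbsoluteValue Qbar ℝ) (R : ℕ → ι → Qbar[X]) (E : ℕ → ℕ)
    (hE : ∀ n i, (R n i).natDegree ≤ E n) (hne : ∀ n s, ∃ i, (R n i).eval s ≠ 0)
    (n : ℕ) (s : Qbar) (hs : 0 < Real.log (v s)) (i : ι) :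
    v ((reflect (E n) (R n i)).eval s⁻¹) ≤ Real.exp (-defect v R E n s) := by
  rw [tc_sup v R E hE hne n s hs]
  exact le_ciSup (f := fun i => v ((reflect (E n) (R n i)).eval s⁻¹))
    (Set.finite_range _).bddAbove i

theorem tc_ge {ι : Type} [Fintype ι] (v : AbsoluteValue Qbar ℝ) (R : ℕ → ι → Qbar[X]) (E : ℕ → ℕ)
    (hE : ∀ n i, (R n i).natDegree ≤ E n) (hne : ∀ n s, ∃ i, (R n i).eval s ≠ 0)
    (n : ℕ) (s : Qbar) (hs : 0 < Real.log (v s)) (B : ℝ)
    (hB : ∀ i, v ((reflect (E n) (R n i)).eval s⁻¹) ≤ Real.exp (-B)) :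
    B ≤ defect v R E n s := by
  obtain ⟨i0, _⟩ := hne n s
  have : Nonempty ι := ⟨i0⟩
  have h1 := tc_sup v R E hE hne n s hs
  have h2 : (⨆ i, v ((reflect (E n) (R n i)).eval s⁻¹)) ≤ Real.exp (-B) := ciSup_le hB
  rw [← h1, Real.exp_le_exp] at h2
  linarith

/-- ultrametric/triangle in uniform form -/
theorem tc_add {v : AbsoluteValue Qbar ℝ} {ε : ℕ} (hv : IsLoc v ε) (x y : Qbar) (B : ℝ)
    (hx : v x ≤ B) (hy : v y ≤ B) : v (x + y) ≤ 2 ^ ε * B := by
  rcases hv with ⟨h, rfl⟩ | ⟨_, rfl⟩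
  · have := h x y
    simp only [pow_zero, one_mul]
    exact this.trans (max_le hx hy)
  · have := v.add_le x y
    rw [pow_one]; linarith

theorem tc_near {v : AbsoluteValue Qbar ℝ} {ε : ℕ} (hv : IsLoc v ε) (τ z : Qbar) (l : ℝ)
    (hl : 0 < l) (hεl : (ε : ℝ) ≤ l) (hτ : v τ = Real.exp (-l)) (hz : v z = 1) (K : ℕ)
    (hK : 2 ≤ K) :
    v (τ + τ ^ K * z) ≤ 2 ^ ε * v τ ∧ v τ ≤ 2 ^ ε * v (τ + τ ^ K * z) := by
  have hτ1 : v τ < 1 := by
    rw [hτ, ← Real.exp_zero, Real.exp_lt_exp]; linarith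
  have hτp : 0 < v τ := by rw [hτ]; exact Real.exp_pos _
  have hy : v (τ ^ K * z) ≤ v τ * v τ := by
    rw [map_mul, map_pow, hz, mul_one, ← pow_two]
    exact pow_le_pow_of_le_one hτp.le hτ1.le hK
  have hy2 : v (τ ^ K * z) < v τ := lt_of_le_of_lt hy (by nlinarith)
  refine ⟨tc_add hv _ _ _ le_rfl hy2.le, ?_⟩
  rcases hv with ⟨h, rfl⟩ | ⟨_, rfl⟩
  · have h1 := h (τ + τ ^ K * z) (-(τ ^ K * z))
    rw [show τ + τ ^ K * z + -(τ ^ K * z) = τ by ring, v.map_neg] at h1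
    simp only [pow_zero, one_mul]
    rcases le_max_iff.1 h1 with h2 | h2
    · exact h2
    · exact absurd h2 (not_le.mpr hy2)
  · have h1 := v.add_le (τ + τ ^ K * z) (-(τ ^ K * z))
    rw [show τ + τ ^ K * z + -(τ ^ K * z) = τ by ring, v.map_neg] at h1
    have h3 : v τ ≤ 1 / 2 := by
      rw [hτ]
      have h4 : Real.exp (-l) ≤ Real.exp (-1) := by
        rw [Real.exp_le_exp]
        push_cast at hεl
        linarith
      have h5 : Real.exp (-1) ≤ 1 / 2 := by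
        rw [Real.exp_neg, ← one_div]
        apply one_div_le_one_div_of_le (by norm_num)
        have := Real.add_one_le_exp (1 : ℝ)
        linarith
      linarith
    have h6 : v τ * v τ ≤ v τ * (1 / 2) := mul_le_mul_of_nonneg_left h3 hτp.le
    rw [pow_one]
    linarith

/-- size of the Lipschitz constant -/
theorem tc_const (E ε : ℕ) (hε : ε ≤ 1) : ((((E : ℝ) + 1) ^ 2)) ^ ε ≤ Real.exp (2 * (ε * E)) := by
  interval_cases ε
  · simp
  · have h := Real.add_one_le_exp (E : ℝ)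
    rw [pow_one, Nat.cast_one, one_mul, two_mul, Real.exp_add, pow_two]
    have : (0 : ℝ) ≤ E := by positivity
    exact mul_le_mul h h (by positivity) (Real.exp_pos _).le

theorem tc_const2 (E ε : ℕ) (hε : ε ≤ 1) :
    ((((E : ℝ) + 1) ^ 2) * 2 ^ E) ^ ε ≤ Real.exp (3 * (ε * E)) := by
  have h1 := tc_const E ε hε
  have h2 : ((2 : ℝ) ^ E) ^ ε ≤ Real.exp (ε * E) := by
    interval_cases ε
    · simp
    · rw [pow_one, Nat.cast_one, one_mul]
      have : (2 : ℝ) ≤ Real.exp 1 := by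
        have := Real.add_one_le_exp (1 : ℝ)
        linarith
      calc (2 : ℝ) ^ E ≤ (Real.exp 1) ^ E := pow_le_pow_left₀ (by norm_num) this _
        _ = Real.exp (E : ℝ) := by rw [← Real.exp_nat_mul, mul_one]
  rw [mul_pow, show (3 : ℝ) * (ε * E) = 2 * (ε * E) + ε * E by ring, Real.exp_add]
  exact mul_le_mul h1 h2 (by positivity) (Real.exp_pos _).le

/-- backward comparison -/
theorem tc_back (Y : ℕ → ℝ) (d : ℝ) (hd : 2 ≤ d) (c D : ℝ) (hc : 0 ≤ c) (n : ℕ)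
    (hn : Y n = d ^ n * D) (hY : ∀ k, |Y (k + 1) - d * Y k| ≤ c) :
    ∀ k, k ≤ n → |Y k - d ^ k * D| ≤ c := by
  intro k hk
  obtain ⟨m, rfl⟩ := Nat.exists_eq_add_of_le hk
  clear hk
  induction m generalizing k with
  | zero => rw [← Nat.add_zero k, hn]; simpa using hc
  | succ m ih =>
    have h1 := ih (k + 1) (by rw [show k + 1 + m = k + (m + 1) by ring]; exact hn)
    have h2 := hY k
    rw [abs_le] at *
    rw [pow_succ] at h1
    have hd0 : 0 < d := by linarith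
    constructor
    · by_contra h3
      push Not at h3
      have : d * (Y k - d ^ k * D) < d * (-c) := mul_lt_mul_of_pos_left h3 hd0
      nlinarith
    · by_contra h3
      push Not at h3
      have : d * c < d * (Y k - d ^ k * D) := mul_lt_mul_of_pos_left h3 hd0
      nlinarith

/-- forward propagation -/
theorem tc_forw (Y : ℕ → ℝ) (d : ℝ) (hd : 2 ≤ d) (c : ℝ) (hc : 0 ≤ c) (n1 : ℕ)
    (hY : ∀ k, |Y (k + 1) - d * Y k| ≤ c) :
    ∀ m, d ^ m * (Y n1 - c) ≤ Y (n1 + m) - c := by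
  intro m
  induction m with
  | zero => simp
  | succ m ih =>
    have h2 := hY (n1 + m)
    rw [abs_le] at h2
    have hd0 : 0 < d := by linarith
    have h3 : d * (d ^ m * (Y n1 - c)) ≤ d * (Y (n1 + m) - c) :=
      mul_le_mul_of_nonneg_left ih hd0.le
    rw [pow_succ, ← add_assoc]
    nlinarith

/-- the comparison at the pivot level -/
theorem tc_pivot {ι : Type} [Fintype ι] {v : AbsoluteValue Qbar ℝ} {ε : ℕ} (hv : IsLoc v ε)
    (R : ℕ → ι → Qbar[X]) (E : ℕ → ℕ)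
    (hE : ∀ n i, (R n i).natDegree ≤ E n) (hne : ∀ n s, ∃ i, (R n i).eval s ≠ 0)
    (C₀ b d : ℝ) (hC₀ : 1 ≤ C₀) (_hd : 2 ≤ d) (hb : (ε : ℝ) ≤ b)
    (hEb : ∀ n, (E n : ℝ) ≤ C₀ * d ^ n)
    (hM : ∀ n i j, v ((R n i).coeff j) ≤ Real.exp (C₀ * d ^ n * b))
    (n1 : ℕ) (s0 z : Qbar) (l : ℝ) (hl : 0 < l) (hl1 : l = Real.log (v s0)) (hεl : (ε : ℝ) ≤ l)
    (hbl : 3 * C₀ * d ^ n1 * b ≤ l) (K : ℕ) (_hK : 2 ≤ K) (hz : v z = 1)
    (hK2 : defect v R E n1 s0 ≤ (K - 1) * l)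
    (sz : Qbar) (hsz : sz⁻¹ = s0⁻¹ + s0⁻¹ ^ K * z) (hsz1 : 0 < Real.log (v sz)) :
    defect v R E n1 s0 - C₀ * l ≤ defect v R E n1 sz := by
  have hε1 : ε ≤ 1 := by rcases hv with ⟨_, rfl⟩ | ⟨_, rfl⟩ <;> omega
  have hv1 : 1 < v s0 := by
    by_contra h
    push Not at h
    have := Real.log_nonpos (v.nonneg s0) h
    rw [← hl1] at this
    exact absurd this (not_le.mpr hl)
  have hs0p : 0 < v s0 := by linarith
  have hτ : v s0⁻¹ = Real.exp (-l) := by
    rw [map_inv₀, Real.exp_neg, hl1, Real.exp_log hs0p]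
  have hsz2 : 1 < v sz := by
    by_contra h
    push Not at h
    exact absurd (Real.log_nonpos (v.nonneg sz) h) (not_le.mpr hsz1)
  have hb0 : 0 ≤ b := le_trans (Nat.cast_nonneg _) hb
  apply tc_ge v R E hE hne n1 sz hsz1
  intro i
  have h1 : v ((reflect (E n1) (R n1 i)).eval sz⁻¹ - (reflect (E n1) (R n1 i)).eval s0⁻¹) ≤
      Real.exp (-defect v R E n1 s0) := by
    refine (lip_le hv _ (E n1) (tc_natDegree _ _ (hE n1 i)) _
      (tc_coeff v _ _ _ (hM n1 i)) sz⁻¹ s0⁻¹ ?_ ?_).trans ?_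
    · rw [map_inv₀]; exact inv_le_one_of_one_le₀ hsz2.le
    · rw [map_inv₀]; exact inv_le_one_of_one_le₀ hv1.le
    · have h2 : v (sz⁻¹ - s0⁻¹) = Real.exp (-(K * l)) := by
        rw [hsz, add_sub_cancel_left, map_mul, hz, mul_one, map_pow, hτ, ← Real.exp_nat_mul]
        congr 1; ring
      rw [h2]
      have h3 := tc_const (E n1) ε hε1
      have h4 : (ε : ℝ) * E n1 ≤ C₀ * d ^ n1 * b := by
        have h5 : (ε : ℝ) * E n1 ≤ b * (C₀ * d ^ n1) :=
          mul_le_mul hb (hEb n1) (Nat.cast_nonneg _) hb0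
        linarith
      calc (((E n1 : ℝ) + 1) ^ 2) ^ ε * Real.exp (C₀ * d ^ n1 * b) * Real.exp (-(K * l))
          ≤ Real.exp (2 * (ε * E n1)) * Real.exp (C₀ * d ^ n1 * b) * Real.exp (-(K * l)) := by
            gcongr
        _ = Real.exp (2 * (ε * E n1) + C₀ * d ^ n1 * b - K * l) := by
            rw [← Real.exp_add, ← Real.exp_add]; rfl
        _ ≤ Real.exp (-defect v R E n1 s0) := by
            rw [Real.exp_le_exp]
            linarith
  have h6 := tc_le v R E hE hne n1 s0 (by rw [← hl1]; exact hl) i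
  have h7 := tc_add hv _ _ _ h1 h6
  rw [sub_add_cancel] at h7
  refine h7.trans ?_
  have h8 : (2 : ℝ) ^ ε ≤ Real.exp (C₀ * l) := by
    have h9 : (2 : ℝ) ^ ε ≤ Real.exp ε := by
      have : (2 : ℝ) ≤ Real.exp 1 := by
        have := Real.add_one_le_exp (1 : ℝ)
        linarith
      calc (2 : ℝ) ^ ε ≤ (Real.exp 1) ^ ε := pow_le_pow_left₀ (by norm_num) this _
        _ = Real.exp (ε : ℝ) := by rw [← Real.exp_nat_mul, mul_one]
    refine h9.trans ?_
    rw [Real.exp_le_exp]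
    nlinarith
  calc (2 : ℝ) ^ ε * Real.exp (-defect v R E n1 s0)
      ≤ Real.exp (C₀ * l) * Real.exp (-defect v R E n1 s0) := by gcongr
    _ = Real.exp (-(defect v R E n1 s0 - C₀ * l)) := by
        rw [← Real.exp_add]; congr 1; ring

/-- points near `s0` -/
theorem tc_sz {v : AbsoluteValue Qbar ℝ} {ε : ℕ} (hv : IsLoc v ε) (C₀ b : ℝ) (hC₀ : 1 ≤ C₀)
    (hb : (ε : ℝ) ≤ b) (s0 z : Qbar) (l : ℝ) (hl : 0 < l) (hl1 : l = Real.log (v s0))
    (hbl : (C₀ + 1) * b ≤ l) (K : ℕ) (hK : 2 ≤ K) (hz : v z = 1) :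
    ∃ sz : Qbar, sz⁻¹ = s0⁻¹ + s0⁻¹ ^ K * z ∧ 0 < Real.log (v sz) ∧
      C₀ * b ≤ Real.log (v sz) ∧ Real.log (v sz) ≤ 2 * l := by
  have hb0 : 0 ≤ b := le_trans (Nat.cast_nonneg _) hb
  have hε1 : ε ≤ 1 := by rcases hv with ⟨_, rfl⟩ | ⟨_, rfl⟩ <;> omega
  have hεl : (ε : ℝ) ≤ l := by nlinarith
  have hv1 : 1 < v s0 := by
    by_contra h
    push Not at h
    have := Real.log_nonpos (v.nonneg s0) h
    rw [← hl1] at this
    exact absurd this (not_le.mpr hl)
  have hs0p : 0 < v s0 := by linarith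
  have hτ : v s0⁻¹ = Real.exp (-l) := by
    rw [map_inv₀, Real.exp_neg, hl1, Real.exp_log hs0p]
  obtain ⟨h1, h2⟩ := tc_near hv s0⁻¹ z l hl hεl hτ hz K hK
  refine ⟨(s0⁻¹ + s0⁻¹ ^ K * z)⁻¹, inv_inv _, ?_⟩
  set w := s0⁻¹ + s0⁻¹ ^ K * z with hw
  have h2p : (0 : ℝ) < 2 ^ ε := by positivity
  have hwp : 0 < v w := by
    have : 0 < 2 ^ ε * v w := lt_of_lt_of_le (by rw [hτ]; exact Real.exp_pos _) h2
    exact (pos_iff_pos_of_mul_pos this).1 h2p
  have h3 : Real.log (v w⁻¹) = - Real.log (v w) := by rw [map_inv₀, Real.log_inv]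
  have hlog2 : Real.log 2 < 1 := by
    have := Real.log_two_lt_d9
    linarith
  have hlog20 : 0 < Real.log 2 := Real.log_pos (by norm_num)
  have h4 : Real.log (v w) ≤ ε * Real.log 2 - l := by
    have := Real.log_le_log hwp h1
    rw [Real.log_mul (by positivity) (by rw [hτ]; exact (Real.exp_pos _).ne'), Real.log_pow, hτ,
      Real.log_exp] at this
    linarith
  have h5 : -l ≤ ε * Real.log 2 + Real.log (v w) := by
    have := Real.log_le_log (by rw [hτ]; exact Real.exp_pos _) h2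
    rw [Real.log_mul (by positivity) hwp.ne', Real.log_pow, hτ, Real.log_exp] at this
    linarith
  rw [h3]
  interval_cases ε
  · push_cast at *
    refine ⟨by linarith, by nlinarith, by linarith⟩
  · push_cast at *
    refine ⟨by linarith, by nlinarith, by linarith⟩

/-- two-constants inequality at infinity, uniform in the absolute value -/
theorem two_const {ι : Type} [Fintype ι] (d : ℕ) (hd : 2 ≤ d) (C₀ : ℝ) (hC₀ : 1 ≤ C₀) :
    ∃ C : ℝ, 1 ≤ C ∧ ∀ (v : AbsoluteValue Qbar ℝ) (ε : ℕ) (b : ℝ), IsLoc v ε → (ε : ℝ) ≤ b →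
    ∀ (R : ℕ → ι → Qbar[X]) (E : ℕ → ℕ),
    (∀ n i, (R n i).natDegree ≤ E n) → (∀ n, (E n : ℝ) ≤ C₀ * d ^ n) →
    (∀ n i j, v ((R n i).coeff j) ≤ Real.exp (C₀ * d ^ n * b)) →
    (∀ n s, ∃ i, (R n i).eval s ≠ 0) → (∀ n, ∃ i, (R n i).coeff (E n) ≠ 0) →
    (∀ n s, 0 < Real.log (v s) → C₀ * b ≤ Real.log (v s) →
      |defect v R E (n + 1) s - d * defect v R E n s| ≤ C₀ * Real.log (v s)) →
    (∀ s, 0 < Real.log (v s) → C₀ * b ≤ Real.log (v s) →
      defect v R E 0 s ≤ C₀ * Real.log (v s)) →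
    ∀ n s, 0 < Real.log (v s) → C * b ≤ Real.log (v s) →
      defect v R E n s ≤ C * (-Real.log (⨆ i, v ((R n i).coeff (E n))) + C * d ^ n * b)
        + C * Real.log (v s) := by
  obtain ⟨K, hKge⟩ := exists_nat_ge (8 * d * C₀ + C₀ + 2)
  have hd' : (2 : ℝ) ≤ d := by exact_mod_cast hd
  have hK2 : 2 ≤ K := by
    have : (2 : ℝ) ≤ K := by nlinarith
    exact_mod_cast this
  have hKp : (0 : ℝ) < K := by
    have : (2 : ℝ) ≤ K := by exact_mod_cast hK2
    linarith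
  obtain ⟨C, hC8, hC2K, hCC5⟩ : ∃ C : ℝ, 8 * C₀ ≤ C ∧ 2 * K ≤ C ∧
      3 * C₀ * (8 * d * C₀) ≤ C * (C - C₀) := by
    refine ⟨8 * C₀ + 2 * K + 24 * d * C₀ * C₀, ?_, ?_, ?_⟩
    · have : 0 ≤ 24 * d * C₀ * C₀ := by positivity
      linarith
    · have : 0 ≤ 24 * d * C₀ * C₀ := by positivity
      linarith
    · have h1 : 0 ≤ 24 * d * C₀ * C₀ := by positivity
      nlinarith
  refine ⟨C, by linarith, ?_⟩
  intro v ε b hv hb R E hE hEb hM hne hlead hrec h0 n s hls hCb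
  have hb0 : 0 ≤ b := le_trans (Nat.cast_nonneg _) hb
  have hε1 : ε ≤ 1 := by rcases hv with ⟨_, rfl⟩ | ⟨_, rfl⟩ <;> omega
  obtain ⟨l, hl⟩ : ∃ l, l = Real.log (v s) := ⟨_, rfl⟩
  rw [← hl] at hls hCb ⊢
  have hdn : (1 : ℝ) ≤ (d : ℝ) ^ n := one_le_pow₀ (by linarith)
  -- the leading coefficients
  obtain ⟨i0, hi0⟩ := hlead n
  have : Nonempty ι := ⟨i0⟩
  have hbdW : BddAbove (Set.range fun i => v ((R n i).coeff (E n))) :=
    (Set.finite_range _).bddAbove
  have hWpos : 0 < ⨆ i, v ((R n i).coeff (E n)) :=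
    lt_of_lt_of_le (v.pos hi0) (le_ciSup hbdW i0)
  have hWle : Real.log (⨆ i, v ((R n i).coeff (E n))) ≤ C₀ * d ^ n * b := by
    rw [Real.log_le_iff_le_exp hWpos]
    exact ciSup_le (fun i => hM n i _)
  have hdnb : 0 ≤ (d : ℝ) ^ n * b := by positivity
  have hRHS : C * (C - C₀) * (d ^ n * b) + C * l ≤
      C * (-Real.log (⨆ i, v ((R n i).coeff (E n))) + C * d ^ n * b) + C * l := by
    have h1 : (C - C₀) * (d ^ n * b) ≤
      -Real.log (⨆ i, v ((R n i).coeff (E n))) + C * d ^ n * b := by linarith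
    have h2 := mul_le_mul_of_nonneg_left h1 (show 0 ≤ C by linarith)
    linarith
  have hCl : 0 ≤ C * l := mul_nonneg (by linarith) hls.le
  by_cases hcase1 : defect v R E n s ≤ 8 * C₀ * l
  · refine le_trans ?_ hRHS
    have h1 : 8 * C₀ * l ≤ C * l := mul_le_mul_of_nonneg_right hC8 hls.le
    have h2 : 0 ≤ C * (C - C₀) * (d ^ n * b) :=
      mul_nonneg (mul_nonneg (by linarith) (by linarith)) hdnb
    linarith
  by_cases hcase2 : defect v R E n s ≤ 3 * C₀ * (8 * d * C₀) * (d ^ n * b)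
  · refine le_trans ?_ hRHS
    have h1 := mul_le_mul_of_nonneg_right hCC5 hdnb
    linarith
  push Not at hcase1 hcase2
  obtain ⟨Y, hY⟩ : ∃ Y : ℕ → ℝ, Y = fun k => defect v R E k s := ⟨_, rfl⟩
  have hYe : ∀ k, defect v R E k s = Y k := fun k => by rw [hY]
  rw [hYe] at hcase1 hcase2 ⊢
  have hdp : (0 : ℝ) < (d : ℝ) := by linarith
  have hdnp : (0 : ℝ) < (d : ℝ) ^ n := by positivity
  obtain ⟨D, hD⟩ : ∃ D, Y n = (d : ℝ) ^ n * D := ⟨Y n / (d : ℝ) ^ n, by field_simp⟩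
  have hC₀b : C₀ * b ≤ l := le_trans (mul_le_mul_of_nonneg_right (by linarith) hb0) hCb
  have hC₀l : 0 < C₀ * l := mul_pos (by linarith) hls
  have hback := tc_back Y d hd' (C₀ * l) D hC₀l.le n hD (fun k => by
    rw [← hYe, ← hYe, hl]; exact hrec k s (by rw [← hl]; exact hls) (by rw [← hl]; exact hC₀b))
  have hPn : 8 * C₀ * l ≤ (d : ℝ) ^ n * D := by rw [← hD]; exact hcase1.le
  obtain ⟨n1, hn1n, hn1, hn1min⟩ : ∃ n1, n1 ≤ n ∧ 8 * C₀ * l ≤ (d : ℝ) ^ n1 * D ∧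
      ∀ m, m < n1 → (d : ℝ) ^ m * D < 8 * C₀ * l := by
    classical
    have hex : ∃ k, 8 * C₀ * l ≤ (d : ℝ) ^ k * D := ⟨n, hPn⟩
    refine ⟨Nat.find hex, Nat.find_le hPn, Nat.find_spec hex, fun m hm => ?_⟩
    have := Nat.find_min hex hm
    push Not at this
    exact this
  have hn1lt : (d : ℝ) ^ n1 * D < 8 * d * C₀ * l := by
    rcases n1 with _ | m
    · exfalso
      have h1 := (abs_le.1 (hback 0 (Nat.zero_le _))).1
      have h2 := h0 s (by rw [← hl]; exact hls) (by rw [← hl]; exact hC₀b)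
      rw [← hl, hYe] at h2
      rw [pow_zero, one_mul] at h1 hn1
      linarith
    · have h1 := hn1min m (Nat.lt_succ_self m)
      rw [pow_succ]
      have h2 := mul_lt_mul_of_pos_left h1 hdp
      linarith
  have hYn1 : Y n1 ≤ (8 * d * C₀ + C₀) * l := by
    have h1 := (abs_le.1 (hback n1 hn1n)).2
    linarith
  have hYn1' : (d : ℝ) ^ n1 * D - C₀ * l ≤ Y n1 := by
    have h1 := (abs_le.1 (hback n1 hn1n)).1
    linarith
  have hbl : 3 * C₀ * d ^ n1 * b ≤ l := by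
    rw [hD] at hcase2
    have h1 : 3 * C₀ * (8 * d * C₀) * b < D := by
      by_contra h
      push Not at h
      have := mul_le_mul_of_nonneg_left h hdnp.le
      linarith
    have h2 : (d : ℝ) ^ n1 * (3 * C₀ * (8 * d * C₀) * b) ≤ (d : ℝ) ^ n1 * D :=
      mul_le_mul_of_nonneg_left h1.le (by positivity)
    have h3 : (8 * d * C₀) * (3 * C₀ * d ^ n1 * b) ≤ (8 * d * C₀) * l := by linarith
    exact le_of_mul_le_mul_left h3 (by positivity)
  have hCC : (C₀ + 1) * b ≤ l :=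
    le_trans (mul_le_mul_of_nonneg_right (by linarith) hb0) hCb
  have hεl : (ε : ℝ) ≤ l := by
    refine hb.trans (le_trans ?_ hCC)
    nlinarith
  have hKl : Y n1 ≤ (K - 1) * l := by
    refine hYn1.trans ?_
    apply mul_le_mul_of_nonneg_right _ hls.le
    linarith
  obtain ⟨m, hm⟩ := Nat.exists_eq_add_of_le hn1n
  have hYnpos : 0 < Y n := lt_trans (by positivity) hcase1
  have hvs1 : 1 < v s := by
    by_contra h
    push Not at h
    have := Real.log_nonpos (v.nonneg s) h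
    rw [← hl] at this
    exact absurd this (not_le.mpr hls)
  have hs0 : s ≠ 0 := by
    rintro rfl
    rw [v.map_zero] at hvs1
    linarith
  have hM1 : (1 : ℝ) ≤ Real.exp (C₀ * d ^ n * b) := by
    rw [Real.one_le_exp_iff]; positivity
  have key : ∀ i, v ((R n i).coeff (E n)) ≤ Real.exp (4 * C₀ * d ^ n * b - Y n / 2 / K) := by
    intro i
    have h1 := taylor_le hv (reflect (E n) (R n i)) (E n) (tc_natDegree _ _ (hE n i)) _ hM1
      (tc_coeff v _ _ _ (hM n i)) s⁻¹ (inv_ne_zero hs0)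
      (by rw [map_inv₀]; exact inv_le_one_of_one_le₀ hvs1.le) K (by omega) (Y n / 2)
      (by linarith) (by
        intro z hz
        obtain ⟨sz, hsz, hsz1, hsz2, hsz3⟩ := tc_sz hv C₀ b hC₀ hb s z l hls hl hCC K hK2 hz
        rw [← hsz]
        refine (tc_le v R E hE hne n sz hsz1 i).trans ?_
        rw [Real.exp_le_exp, neg_le_neg_iff]
        have h2 := tc_pivot hv R E hE hne C₀ b d hC₀ hd' hb hEb hM n1 s z l hls hl hεl hbl K
          hK2 hz (by rw [hYe]; exact hKl) sz hsz hsz1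
        rw [hYe] at h2
        have h3 := tc_forw (fun k => defect v R E k sz) d hd' (2 * (C₀ * l)) (by positivity) n1
          (fun k => (hrec k sz hsz1 hsz2).trans (by
            have := mul_le_mul_of_nonneg_left hsz3 (show (0 : ℝ) ≤ C₀ by linarith)
            linarith)) m
        rw [← hm] at h3
        have h4 : (d : ℝ) ^ m * ((d : ℝ) ^ n1 * D / 2) ≤
            (d : ℝ) ^ m * (defect v R E n1 sz - 2 * (C₀ * l)) := by
          apply mul_le_mul_of_nonneg_left _ (by positivity)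
          linarith
        have h5 : (d : ℝ) ^ m * ((d : ℝ) ^ n1 * D / 2) = Y n / 2 := by
          rw [hD, hm, pow_add]; ring
        linarith)
    rw [tc_eval_zero] at h1
    refine h1.trans ?_
    have h3 := tc_const2 (E n) ε hε1
    have h4 : (ε : ℝ) * E n ≤ C₀ * d ^ n * b := by
      have h5 : (ε : ℝ) * E n ≤ b * (C₀ * d ^ n) :=
        mul_le_mul hb (hEb n) (Nat.cast_nonneg _) hb0
      linarith
    calc ((((E n : ℝ) + 1) ^ 2) * 2 ^ (E n)) ^ ε * Real.exp (C₀ * d ^ n * b)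
          * Real.exp (-(Y n / 2 / K))
        ≤ Real.exp (3 * (ε * E n)) * Real.exp (C₀ * d ^ n * b) * Real.exp (-(Y n / 2 / K)) := by
          gcongr
      _ = Real.exp (3 * (ε * E n) + C₀ * d ^ n * b - Y n / 2 / K) := by
          rw [← Real.exp_add, ← Real.exp_add]; rfl
      _ ≤ Real.exp (4 * C₀ * d ^ n * b - Y n / 2 / K) := by
          rw [Real.exp_le_exp]
          linarith
  have hlogW : Real.log (⨆ i, v ((R n i).coeff (E n))) ≤ 4 * C₀ * d ^ n * b - Y n / 2 / K := by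
    rw [Real.log_le_iff_le_exp hWpos]
    exact ciSup_le key
  obtain ⟨L, hL⟩ : ∃ L, L = Real.log (⨆ i, v ((R n i).coeff (E n))) := ⟨_, rfl⟩
  rw [← hL] at hlogW ⊢
  have h1 : Y n / 2 / K ≤ -L + 4 * C₀ * (d ^ n * b) := by linarith
  have h2 : Y n = 2 * K * (Y n / 2 / K) := by field_simp
  have h3 : 0 ≤ Y n / 2 / K := by positivity
  have h4 : 2 * K * (Y n / 2 / K) ≤ C * (Y n / 2 / K) := mul_le_mul_of_nonneg_right hC2K h3
  have h5 : C * (Y n / 2 / K) ≤ C * (-L + 4 * C₀ * (d ^ n * b)) :=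
    mul_le_mul_of_nonneg_left h1 (by linarith)
  have h6 : 4 * C₀ * (d ^ n * b) ≤ C * (d ^ n * b) :=
    mul_le_mul_of_nonneg_right (by linarith) hdnb
  have h7 : C * (-L + 4 * C₀ * (d ^ n * b)) ≤ C * (-L + C * (d ^ n * b)) :=
    mul_le_mul_of_nonneg_left (by linarith) (by linarith)
  have h8 : C * (-L + C * (d : ℝ) ^ n * b) = C * (-L + C * (d ^ n * b)) := by ring
  rw [h8]
  linarith

end MTwoConst

export MTwoConst (two_const)

end Pool.Agent.Helper259.Var
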