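import Mathlib
import Pool.Agent.Helper259.Var.Dft
import Pool.Agent.Helper259.Var.Lift
import Pool.Agent.Helper259.Var.TwoConst
import Pool.Agent.Helper259.Var.NormPoly

set_option autoImplicit false

namespace Pool.Agent.Helper259.Var

namespace MDefectMain

open Polynomial Pool.Agent.Helper259.AbsHt

theorem growth_abs (a : ℕ → ℝ) (d : ℕ) (hd : 2 ≤ d) (M : ℝ) (h0 : |a 0| ≤ M)
    (h : ∀ n, |a (n + 1) - d * a n| ≤ M) (n : ℕ) : |a n| ≤ 2 * M * d ^ n := by
  have hM : 0 ≤ M := (abs_nonneg _).trans h0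
  have hd' : (2 : ℝ) ≤ d := by exact_mod_cast hd
  have key : ∀ n, |a n| + M ≤ 2 * M * d ^ n := by
    intro n
    induction n with
    | zero => simp; linarith
    | succ n ih =>
      have h1 : |a (n + 1)| ≤ |a (n + 1) - d * a n| + d * |a n| := by
        have e : a (n + 1) = (a (n + 1) - d * a n) + d * a n := by ring
        calc |a (n + 1)| = |(a (n + 1) - d * a n) + d * a n| := by rw [← e]
          _ ≤ |a (n + 1) - d * a n| + |d * a n| := abs_add_le _ _
          _ = _ := by rw [abs_mul, abs_of_nonneg (by positivity : (0 : ℝ) ≤ d)]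
      have h2 := h n
      have h3 : (|a n| + M) * d ≤ 2 * M * d ^ n * d :=
        mul_le_mul_of_nonneg_right ih (by positivity)
      have h4 : 2 * M ≤ M * d := by nlinarith
      have h5 : 2 * M * (d : ℝ) ^ (n + 1) = 2 * M * d ^ n * d := by ring
      rw [h5]
      nlinarith
  have := key n
  linarith

theorem exists_point {R : Type*} [CommRing R] [Algebra Qbar[X] R]
    [FaithfulSMul Qbar[X] R] [Algebra.IsIntegral Qbar[X] R] (s : Qbar) :
    ∃ t : R →+* Qbar, IsPt t ∧ sval t = s := by
  obtain ⟨t, ht⟩ := exists_lift (A := Qbar[X]) (R := R) (K := Qbar)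
    (FaithfulSMul.algebraMap_injective _ _) (evalRingHom s)
  refine ⟨t, fun c => ?_, ?_⟩
  · have := DFunLike.congr_fun ht (C c)
    simpa using this
  · have := DFunLike.congr_fun ht X
    simpa [sval] using this

section

variable {R G : Type*} [CommRing R] [Algebra Qbar[X] R] [Group G]
    [MulSemiringAction G R] [SMulCommClass G Qbar[X] R]

/-- the translate of a point -/
noncomputable def tg (g : G) (t : R →+* Qbar) : R →+* Qbar := t.comp (MulSemiringAction.toRingHom G R g)

omit [Algebra Qbar[X] R] [SMulCommClass G Qbar[X] R] in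
theorem tg_apply (g : G) (t : R →+* Qbar) (x : R) : tg g t x = t (g • x) := rfl

theorem isPt_tg (g : G) {t : R →+* Qbar} (ht : IsPt t) : IsPt (tg g t) := by
  intro c
  rw [tg_apply, smul_algebraMap]
  exact ht c

theorem sval_tg (g : G) (t : R →+* Qbar) : sval (tg g t) = sval t := by
  unfold sval
  rw [tg_apply, smul_algebraMap]

end

theorem sup_pos' {ι : Type*} [Finite ι] {B : Type*} [CommRing B] (v : AbsoluteValue B ℝ)
    (x : ι → B) (h : ∃ i, x i ≠ 0) : 0 < ⨆ i, v (x i) := by
  obtain ⟨i, hi⟩ := h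
  exact lt_of_lt_of_le (v.pos hi) (le_ciSup (f := fun i => v (x i)) (Set.finite_range _).bddAbove i)

/-- the two-constants inequality for the sum over the conjugate points -/
theorem defect_main {R G : Type*} [CommRing R] [IsDomain R] [Algebra Qbar[X] R]
    [FaithfulSMul Qbar[X] R] [Algebra.IsIntegral Qbar[X] R] [Group G]
    [Fintype G] [MulSemiringAction G R] [SMulCommClass G Qbar[X] R]
    [Algebra.IsInvariant Qbar[X] R G] (w : AbsoluteValue R ℝ) (hw : IsNonarchimedean w)
    (hdeg : ∀ p : Qbar[X], p ≠ 0 → w (algebraMap Qbar[X] R p) = Real.exp p.natDegree)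
    (N d : ℕ) (hd : 2 ≤ d) (q : ℕ → Fin (N + 1) → R) (hq0 : ∀ n, q n ≠ 0) (M : ℝ)
    (hW : WGrowth G w d q M) (T₀ : Finset Qbar) (C₀ : ℝ) (hC₀ : 0 ≤ C₀)
    (hV : VGrowth d q T₀ C₀) :
    ∃ (m : ℕ) (W : ℕ → Fin m → Qbar), (∀ n, W n ≠ 0) ∧ ∃ (T : Finset Qbar) (C : ℝ), 0 ≤ C ∧
      ∀ v ε b, Adm T v ε b →
        (∀ n i, v (W n i) ≤ Real.exp (C * d ^ n * b)) ∧
        ∀ t : R →+* Qbar, IsPt t → 0 < Real.log (v (sval t)) → C * b ≤ Real.log (v (sval t)) →
        ∀ n, ∑ g : G, (Real.log (⨆ i, w (g • q n i)) * Real.log (v (sval t)) -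
            Real.log (⨆ i, v (t (g • q n i)))) ≤
          C * (-Real.log (⨆ i, v (W n i)) + C * d ^ n * b) + C * Real.log (v (sval t)) := by
  classical
  obtain ⟨C₁, hC₁, hnp⟩ := norm_poly (R := R) (G := G) w hw hdeg N
  choose Q E hQdeg hQlead hE hQv using fun n => hnp (q n) (hq0 n)
  have hd' : (2 : ℝ) ≤ d := by exact_mod_cast hd
  have hd1 : ∀ n : ℕ, (1 : ℝ) ≤ (d : ℝ) ^ n := fun n => one_le_pow₀ (by linarith)
  have hM : 0 ≤ M := (abs_nonneg _).trans (hW.1 1)
  set m : ℝ := (Fintype.card G : ℝ) with hm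
  have hm0 : 0 ≤ m := by positivity
  -- the place at infinity
  have hD : ∀ n (g : G), |Real.log (⨆ i, w (g • q n i))| ≤ 2 * M * d ^ n := by
    intro n g
    exact growth_abs (fun n => Real.log (⨆ i, w (g • q n i))) d hd M (hW.1 g)
      (fun n => hW.2 n g) n
  -- the points
  have hVn : ∀ v ε b, Adm T₀ v ε b → ∀ t : R →+* Qbar, IsPt t → ∀ (g : G) n,
      ∃ i, t (g • q n i) ≠ 0 := by
    intro v ε b hA t ht g n
    have := (hV v ε b hA (tg g t) (isPt_tg g ht)).1 n
    simpa only [tg_apply] using this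
  have hV0 : ∀ v ε b, Adm T₀ v ε b → ∀ t : R →+* Qbar, IsPt t → ∀ (g : G),
      |Real.log (⨆ i, v (t (g • q 0 i)))| ≤ C₀ * (b + max 0 (Real.log (v (sval t)))) := by
    intro v ε b hA t ht g
    have := (hV v ε b hA (tg g t) (isPt_tg g ht)).2.1
    simpa only [tg_apply, sval_tg] using this
  have hV1 : ∀ v ε b, Adm T₀ v ε b → ∀ t : R →+* Qbar, IsPt t → ∀ (g : G) n,
      |Real.log (⨆ i, v (t (g • q (n + 1) i))) - d * Real.log (⨆ i, v (t (g • q n i)))| ≤
        C₀ * (b + max 0 (Real.log (v (sval t)))) := by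
    intro v ε b hA t ht g n
    have := (hV v ε b hA (tg g t) (isPt_tg g ht)).2.2 n
    simpa only [tg_apply, sval_tg] using this
  have hV2 : ∀ v ε b, Adm T₀ v ε b → ∀ t : R →+* Qbar, IsPt t → ∀ (g : G) n,
      |Real.log (⨆ i, v (t (g • q n i)))| ≤
        2 * (C₀ * (b + max 0 (Real.log (v (sval t))))) * d ^ n := by
    intro v ε b hA t ht g n
    exact growth_abs (fun n => Real.log (⨆ i, v (t (g • q n i)))) d hd _ (hV0 v ε b hA t ht g)
      (fun n => hV1 v ε b hA t ht g n) n
  -- the coefficients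
  have hcoef : ∀ v ε b, Adm T₀ v ε b → ∀ n i j,
      v ((Q n i).coeff j) ≤ Real.exp ((2 * m * C₀ + C₁) * d ^ n * b) := by
    intro v ε b hA n i j
    have hb : 0 ≤ b := (Nat.cast_nonneg ε).trans hA.2.1
    refine dft_le hA.1 (Q n i) _ ?_ j
    intro z hz
    obtain ⟨t, ht, hs⟩ := exists_point (R := R) z
    have h1 := hQv n v ε hA.1 t ht (fun g => hVn v ε b hA t ht g n)
    rw [hs] at h1
    have h2 : v ((Q n i).eval z) ≤ ⨆ i, v ((Q n i).eval z) :=
      le_ciSup (f := fun i => v ((Q n i).eval z)) (Set.finite_range _).bddAbove i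
    refine h2.trans ?_
    rw [← Real.log_le_iff_le_exp (sup_pos' v _ h1.1)]
    have h3 := (abs_le.mp h1.2).2
    have h4 : ∑ g : G, Real.log (⨆ i, v (t (g • q n i))) ≤ ∑ g : G, 2 * (C₀ * b) * d ^ n := by
      refine Finset.sum_le_sum fun g _ => ?_
      have := hV2 v ε b hA t ht g n
      rw [hs, hz, Real.log_one, max_self, add_zero] at this
      exact (abs_le.mp this).2
    rw [Finset.sum_const, Finset.card_univ, nsmul_eq_mul] at h4
    have h5 : (ε : ℝ) * C₁ ≤ b * C₁ := mul_le_mul_of_nonneg_right hA.2.1 hC₁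
    have h6 : b * C₁ ≤ C₁ * d ^ n * b := by
      have : C₁ * b * 1 ≤ C₁ * b * d ^ n := mul_le_mul_of_nonneg_left (hd1 n) (by positivity)
      nlinarith
    have h7 : (2 * m * C₀ + C₁) * d ^ n * b = m * (2 * (C₀ * b) * d ^ n) + C₁ * d ^ n * b := by
      ring
    rw [h7]
    linarith
  set C₂ : ℝ := 1 + 2 * m * M + 2 * m * C₀ + (1 + d) * C₁ with hC₂def
  have hmM : 0 ≤ m * M := by positivity
  have hmC : 0 ≤ m * C₀ := by positivity
  have hdC : 0 ≤ d * C₁ := by positivity
  have hC₂ : 1 ≤ C₂ := by rw [hC₂def]; nlinarith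
  obtain ⟨C, hC, htc⟩ := two_const (ι := Fin (Fintype.card G * N + 1)) d hd C₂ hC₂
  -- the defect in terms of the conjugates
  have hdef : ∀ v ε b, Adm T₀ v ε b → ∀ t : R →+* Qbar, IsPt t → ∀ n,
      |defect v Q E n (sval t) - ∑ g : G, (Real.log (⨆ i, w (g • q n i)) *
        Real.log (v (sval t)) - Real.log (⨆ i, v (t (g • q n i))))| ≤ C₁ * b := by
    intro v ε b hA t ht n
    have h1 := (hQv n v ε hA.1 t ht (fun g => hVn v ε b hA t ht g n)).2
    have h5 : (ε : ℝ) * C₁ ≤ b * C₁ := mul_le_mul_of_nonneg_right hA.2.1 hC₁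
    unfold defect
    rw [Finset.sum_sub_distrib, ← Finset.sum_mul, ← hE n]
    rw [abs_le] at h1 ⊢
    constructor <;> linarith [h1.1, h1.2]
  have hcoef2 : ∀ v ε b, Adm T₀ v ε b → ∀ n i j,
      v ((Q n i).coeff j) ≤ Real.exp (C₂ * d ^ n * b) := by
    intro v ε b hA n i j
    have hb : 0 ≤ b := (Nat.cast_nonneg ε).trans hA.2.1
    refine (hcoef v ε b hA n i j).trans (Real.exp_le_exp.mpr ?_)
    have : 0 ≤ (d : ℝ) ^ n * b := by positivity
    have h9 : 2 * m * C₀ + C₁ ≤ C₂ := by rw [hC₂def]; nlinarith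
    nlinarith
  have hmain : ∀ v ε b, Adm T₀ v ε b → ∀ n s, 0 < Real.log (v s) → C * b ≤ Real.log (v s) →
      defect v Q E n s ≤ C * (-Real.log (⨆ i, v ((Q n i).coeff (E n))) + C * d ^ n * b)
        + C * Real.log (v s) := by
    intro v ε b hA
    have hb : 0 ≤ b := (Nat.cast_nonneg ε).trans hA.2.1
    refine htc v ε b hA.1 hA.2.1 Q E hQdeg ?_ (hcoef2 v ε b hA) ?_ hQlead ?_ ?_
    · intro n
      rw [hE n]
      have h1 : ∑ g : G, Real.log (⨆ i, w (g • q n i)) ≤ ∑ g : G, 2 * M * (d : ℝ) ^ n :=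
        Finset.sum_le_sum fun g _ => (abs_le.mp (hD n g)).2
      rw [Finset.sum_const, Finset.card_univ, nsmul_eq_mul] at h1
      have h2 : m * (2 * M * (d : ℝ) ^ n) ≤ C₂ * d ^ n := by
        have h9 : 2 * m * M ≤ C₂ := by rw [hC₂def]; nlinarith
        have h10 : 0 ≤ (d : ℝ) ^ n := by positivity
        nlinarith
      linarith
    · intro n s
      obtain ⟨t, ht, hs⟩ := exists_point (R := R) s
      have h1 := (hQv n v ε hA.1 t ht (fun g => hVn v ε b hA t ht g n)).1
      rw [hs] at h1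
      exact h1
    · intro n s hs0 hs1
      obtain ⟨t, ht, rfl⟩ := exists_point (R := R) s
      set l := Real.log (v (sval t)) with hl
      have hbl : b ≤ l := by nlinarith
      have e1 := hdef v ε b hA t ht n
      have e2 := hdef v ε b hA t ht (n + 1)
      have hsum : |∑ g : G, (Real.log (⨆ i, w (g • q (n + 1) i)) * l -
          Real.log (⨆ i, v (t (g • q (n + 1) i)))) - d * ∑ g : G,
          (Real.log (⨆ i, w (g • q n i)) * l - Real.log (⨆ i, v (t (g • q n i))))| ≤
          m * (M * l + C₀ * (b + l)) := by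
        rw [Finset.mul_sum, ← Finset.sum_sub_distrib]
        refine (Finset.abs_sum_le_sum_abs _ _).trans ?_
        have : ∀ g ∈ (Finset.univ : Finset G), |(Real.log (⨆ i, w (g • q (n + 1) i)) * l -
          Real.log (⨆ i, v (t (g • q (n + 1) i)))) - d *
          (Real.log (⨆ i, w (g • q n i)) * l - Real.log (⨆ i, v (t (g • q n i))))| ≤
          M * l + C₀ * (b + l) := by
          intro g _
          have f1 := hW.2 n g
          have f2 := hV1 v ε b hA t ht g n
          rw [← hl, max_eq_right hs0.le] at f2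
          have e3 : (Real.log (⨆ i, w (g • q (n + 1) i)) * l -
            Real.log (⨆ i, v (t (g • q (n + 1) i)))) - d *
            (Real.log (⨆ i, w (g • q n i)) * l - Real.log (⨆ i, v (t (g • q n i)))) =
            (Real.log (⨆ i, w (g • q (n + 1) i)) - d * Real.log (⨆ i, w (g • q n i))) * l -
            (Real.log (⨆ i, v (t (g • q (n + 1) i))) -
              d * Real.log (⨆ i, v (t (g • q n i)))) := by ring
          rw [e3]
          refine (abs_sub _ _).trans ?_
          rw [abs_mul, abs_of_pos hs0]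
          have f3 := mul_le_mul_of_nonneg_right f1 hs0.le
          linarith
        refine (Finset.sum_le_sum this).trans ?_
        rw [Finset.sum_const, Finset.card_univ, nsmul_eq_mul]
      have e4 : d * |defect v Q E n (sval t) - ∑ g : G, (Real.log (⨆ i, w (g • q n i)) *
        l - Real.log (⨆ i, v (t (g • q n i))))| ≤ d * (C₁ * b) :=
        mul_le_mul_of_nonneg_left e1 (by positivity)
      have e5 : |defect v Q E (n + 1) (sval t) - d * defect v Q E n (sval t)| ≤
          m * (M * l + C₀ * (b + l)) + C₁ * b + d * (C₁ * b) := by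
        set A := ∑ g : G, (Real.log (⨆ i, w (g • q (n + 1) i)) * l -
          Real.log (⨆ i, v (t (g • q (n + 1) i))))
        set B := ∑ g : G, (Real.log (⨆ i, w (g • q n i)) * l -
          Real.log (⨆ i, v (t (g • q n i))))
        set X1 := defect v Q E (n + 1) (sval t)
        set X0 := defect v Q E n (sval t)
        have e6 : X1 - d * X0 = (X1 - A) + (A - d * B) - d * (X0 - B) := by ring
        rw [e6]
        have g1 : |(X1 - A) + (A - d * B) - d * (X0 - B)| ≤
            |(X1 - A) + (A - d * B)| + |d * (X0 - B)| := abs_sub _ _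
        have g2 : |(X1 - A) + (A - d * B)| ≤ |X1 - A| + |A - d * B| := abs_add_le _ _
        rw [abs_mul, abs_of_nonneg (by positivity : (0 : ℝ) ≤ d)] at g1
        linarith
      refine e5.trans ?_
      have k1 : m * C₀ * b ≤ m * C₀ * l := mul_le_mul_of_nonneg_left hbl hmC
      have k2 : C₁ * b ≤ C₁ * l := mul_le_mul_of_nonneg_left hbl hC₁
      have k3 : d * C₁ * b ≤ d * C₁ * l := mul_le_mul_of_nonneg_left hbl hdC
      have k4 : 0 ≤ m * M * l := by positivity
      rw [hC₂def]
      nlinarith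
    · intro s hs0 hs1
      obtain ⟨t, ht, rfl⟩ := exists_point (R := R) s
      set l := Real.log (v (sval t)) with hl
      have hbl : b ≤ l := by nlinarith
      have e1 := (abs_le.mp (hdef v ε b hA t ht 0)).2
      have hsum : ∑ g : G, (Real.log (⨆ i, w (g • q 0 i)) * l -
          Real.log (⨆ i, v (t (g • q 0 i)))) ≤ m * (M * l + C₀ * (b + l)) := by
        have : ∀ g ∈ (Finset.univ : Finset G), (Real.log (⨆ i, w (g • q 0 i)) * l -
          Real.log (⨆ i, v (t (g • q 0 i)))) ≤ M * l + C₀ * (b + l) := by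
          intro g _
          have f1 := (abs_le.mp (hW.1 g)).2
          have f2 := hV0 v ε b hA t ht g
          rw [← hl, max_eq_right hs0.le] at f2
          have f3 := mul_le_mul_of_nonneg_right f1 hs0.le
          have f4 := (abs_le.mp f2).1
          linarith
        refine (Finset.sum_le_sum this).trans ?_
        rw [Finset.sum_const, Finset.card_univ, nsmul_eq_mul]
      have k1 : m * C₀ * b ≤ m * C₀ * l := mul_le_mul_of_nonneg_left hbl hmC
      have k2 : C₁ * b ≤ C₁ * l := mul_le_mul_of_nonneg_left hbl hC₁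
      have k4 : 0 ≤ m * M * l := by positivity
      have k5 : 0 ≤ d * C₁ * l := by positivity
      rw [hC₂def]
      nlinarith
  refine ⟨Fintype.card G * N + 1, fun n i => (Q n i).coeff (E n), ?_, T₀, C + C₁ + C₂, by linarith,
    ?_⟩
  · intro n hn
    obtain ⟨i, hi⟩ := hQlead n
    exact hi (congrFun hn i)
  · intro v ε b hA
    have hb : 0 ≤ b := (Nat.cast_nonneg ε).trans hA.2.1
    refine ⟨?_, ?_⟩
    · intro n i
      refine (hcoef2 v ε b hA n i (E n)).trans (Real.exp_le_exp.mpr ?_)
      have : 0 ≤ (d : ℝ) ^ n * b := by positivity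
      nlinarith
    · intro t ht hs0 hs1 n
      set l := Real.log (v (sval t)) with hl
      have hbl : b ≤ l := by nlinarith
      have hCbl : C * b ≤ l := by nlinarith
      have h1 := hmain v ε b hA n (sval t) hs0 hCbl
      have h2 := (abs_le.mp (hdef v ε b hA t ht n)).1
      have h3 : Real.log (⨆ i, v ((Q n i).coeff (E n))) ≤ C₂ * d ^ n * b := by
        rw [Real.log_le_iff_le_exp (sup_pos' v _ (hQlead n))]
        exact ciSup_le fun i => hcoef2 v ε b hA n i (E n)
      set L := Real.log (⨆ i, v ((Q n i).coeff (E n)))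
      set P := (d : ℝ) ^ n * b with hP
      have hP0 : 0 ≤ P := by positivity
      have h3' : L ≤ C₂ * P := by rw [hP, ← mul_assoc]; exact h3
      have h4 : C * (-L + C * d ^ n * b) ≤ (C + C₁ + C₂) * (-L + (C + C₁ + C₂) * d ^ n * b) := by
        have e1 : C * d ^ n * b = C * P := by rw [hP]; ring
        have e2 : (C + C₁ + C₂) * d ^ n * b = (C + C₁ + C₂) * P := by rw [hP]; ring
        rw [e1, e2]
        have f1 : 0 ≤ -L + (C + C₁ + C₂) * P := by nlinarith
        have f2 : C * (-L + C * P) ≤ C * (-L + (C + C₁ + C₂) * P) := by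
          apply mul_le_mul_of_nonneg_left _ (by linarith)
          nlinarith
        have f3 : C * (-L + (C + C₁ + C₂) * P) ≤ (C + C₁ + C₂) * (-L + (C + C₁ + C₂) * P) := by
          apply mul_le_mul_of_nonneg_right _ f1
          linarith
        linarith
      have k2 : C₁ * b ≤ C₁ * l := mul_le_mul_of_nonneg_left hbl hC₁
      have k3 : 0 ≤ C₂ * l := by positivity
      nlinarith

end MDefectMain

export MDefectMain (defect_main)

end Pool.Agent.Helper259.Var
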