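import Mathlib
import Pool.Agent.Helper259.Var.Base
import Pool.Agent.Helper259.Var.Dft
import Pool.Agent.Helper259.Var.Lift

set_option autoImplicit false

namespace Pool.Agent.Helper259.Var

namespace MCauchy

open Polynomial Pool.Agent.Helper259.AbsHt

/-- growth of a function on the curve from its pole orders at infinity and its size over
the unit circle -/
theorem cauchy_le {R G : Type*} [CommRing R] [IsDomain R] [Algebra Qbar[X] R] [Group G]
    [Fintype G] [MulSemiringAction G R] [SMulCommClass G Qbar[X] R]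
    [Algebra.IsInvariant Qbar[X] R G] (w : AbsoluteValue R ℝ) (hw : IsNonarchimedean w)
    (hdeg : ∀ p : Qbar[X], p ≠ 0 → w (algebraMap Qbar[X] R p) = Real.exp p.natDegree) :
    ∃ C : ℝ, 0 ≤ C ∧ ∀ v ε, IsLoc v ε → ∀ t : R →+* Qbar, IsPt t → 0 < Real.log (v (sval t)) →
      ∀ (y : R) (a S : ℝ), (∀ g : G, w (g • y) ≤ Real.exp a) →
      (∀ t' : R →+* Qbar, IsPt t' → v (sval t') = 1 → v (t' y) ≤ Real.exp S) →
      v (t y) ≤ Real.exp (a * Real.log (v (sval t)) + S + C * (|a| + 1) * ε) := by
  classical
  have hinj : Function.Injective (algebraMap Qbar[X] R) := by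
    rw [injective_iff_map_eq_zero]
    intro p hp
    by_contra hne
    have h1 := hdeg p hne
    rw [hp, map_zero] at h1
    exact (Real.exp_pos _).ne h1
  haveI hint : Algebra.IsIntegral Qbar[X] R := Algebra.IsInvariant.isIntegral Qbar[X] R G
  set m : ℕ := Fintype.card G with hm
  have hmpos : 0 < m := Fintype.card_pos
  have hm1 : (1 : ℝ) ≤ (m : ℝ) := by exact_mod_cast hmpos
  have h2m : (1 : ℝ) ≤ (2 : ℝ) ^ m := one_le_pow₀ (by norm_num)
  have hm2 : (1 : ℝ) ≤ (m : ℝ) * 2 ^ m := by nlinarith
  have hlog : 0 ≤ Real.log ((m : ℝ) * 2 ^ m) := Real.log_nonneg hm2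
  refine ⟨1 + Real.log ((m : ℝ) * 2 ^ m), by linarith, ?_⟩
  intro v ε hv t ht hl y a S ha hS
  have htame : Tame v ε := by
    rcases hv with h | h
    · exact Or.inl h
    · exact Or.inr h.2
  have hwtame : Tame w 0 := Or.inl ⟨hw, rfl⟩
  set s : Qbar := sval t with hs
  set l : ℝ := Real.log (v s) with hldef
  have hvs0 : 0 ≤ v s := v.nonneg s
  have hvs1 : 1 < v s := by
    by_contra hcon
    push Not at hcon
    have := Real.log_nonpos hvs0 hcon
    linarith
  have hvs : v s = Real.exp l := by
    rw [hldef, Real.exp_log (by linarith)]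
  have hmax : max 1 (v s) = Real.exp l := by
    rw [max_eq_right hvs1.le, hvs]
  -- points
  have hpt : ∀ t' : R →+* Qbar, IsPt t' → ∀ p : Qbar[X],
      t' (algebraMap Qbar[X] R p) = p.eval (sval t') := by
    intro t' ht' p
    have h1 : t'.comp (algebraMap Qbar[X] R) = Polynomial.evalRingHom (sval t') := by
      apply Polynomial.ringHom_ext
      · intro c
        rw [RingHom.comp_apply, ht' c, Polynomial.coe_evalRingHom, eval_C]
      · rw [RingHom.comp_apply, Polynomial.coe_evalRingHom, eval_X]
        rfl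
    have h2 := RingHom.congr_fun h1 p
    rw [RingHom.comp_apply, Polynomial.coe_evalRingHom] at h2
    exact h2
  -- the coefficients
  have hc : ∀ n : ℕ, ∃ c : Qbar[X], algebraMap Qbar[X] R c =
      (MulSemiringAction.charpoly G y).coeff n := fun n =>
    Algebra.IsInvariant.isInvariant (A := Qbar[X]) (B := R) (G := G) _
      (MulSemiringAction.smul_coeff_charpoly y n)
  choose c hc using hc
  have hP : MulSemiringAction.charpoly G y = ∏ g : G, (X - C (g • y)) := rfl
  have hdegc : ∀ j, j ≤ m → c (m - j) ≠ 0 → ((c (m - j)).natDegree : ℝ) ≤ j * a := by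
    intro j hj hne
    have h1 := hdeg _ hne
    have h2 := coeff_prod_le hwtame (fun g : G => g • y) (Real.exp a) ha (Real.exp_pos a).le j hj
    rw [← hP, ← hc, h1, pow_zero, one_mul, ← Real.exp_nat_mul] at h2
    exact Real.exp_le_exp.mp h2
  have hbound : ∀ j, j ≤ m → ∀ z : Qbar, v z = 1 →
      v ((c (m - j)).eval z) ≤ ((2 : ℝ) ^ m) ^ ε * Real.exp S ^ j := by
    intro j hj z hz
    obtain ⟨t', ht'⟩ := exists_lift hinj (Polynomial.evalRingHom z)
    have hall : ∀ p : Qbar[X], t' (algebraMap Qbar[X] R p) = p.eval z := by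
      intro p
      have := RingHom.congr_fun ht' p
      rw [RingHom.comp_apply, Polynomial.coe_evalRingHom] at this
      exact this
    have hag : ∀ g : G, v (t' (g • y)) ≤ Real.exp S := by
      intro g
      have h1 : ∀ p : Qbar[X], (t'.comp (MulSemiringAction.toRingHom G R g)) (algebraMap Qbar[X] R p)
          = p.eval z := by
        intro p
        rw [RingHom.comp_apply, MulSemiringAction.toRingHom_apply, smul_algebraMap, hall]
      have h2 : IsPt (t'.comp (MulSemiringAction.toRingHom G R g)) := by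
        intro c
        rw [h1, eval_C]
      have h3 : sval (t'.comp (MulSemiringAction.toRingHom G R g)) = z := by
        unfold sval
        rw [h1, eval_X]
      have h4 := hS _ h2 (by rw [h3, hz])
      rw [RingHom.comp_apply, MulSemiringAction.toRingHom_apply] at h4
      exact h4
    have h1 := coeff_prod_le htame (fun g : G => t' (g • y)) (Real.exp S) hag (Real.exp_pos S).le j hj
    have h2 : (∏ g : G, (X - C (t' (g • y)))) = (MulSemiringAction.charpoly G y).map t' := by
      rw [hP, Polynomial.map_prod]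
      apply Finset.prod_congr rfl
      intro g _
      rw [Polynomial.map_sub, Polynomial.map_X, Polynomial.map_C]
    rw [h2, Polynomial.coeff_map, ← hm, ← hc, hall] at h1
    exact h1
  set Cc : ℝ := ((2 : ℝ) ^ m) ^ ε with hCc
  have hCc1 : 1 ≤ Cc := one_le_pow₀ h2m
  have hCc0 : 0 ≤ Cc := by linarith
  have hval : ∀ j, j ≤ m → v ((c (m - j)).eval s) ≤
      Cc * Real.exp (S + a * l + ε * |a|) ^ j := by
    intro j hj
    by_cases hne : c (m - j) = 0
    · rw [hne, eval_zero, map_zero]
      exact mul_nonneg hCc0 (pow_nonneg (Real.exp_pos _).le _)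
    · have hD := hdegc j hj hne
      have h1 := dft_le hv (c (m - j)) (Cc * Real.exp S ^ j) (hbound j hj)
      have h2 := eval_le htame (c (m - j)) (c (m - j)).natDegree le_rfl _ h1 s
      refine h2.trans ?_
      set D : ℕ := (c (m - j)).natDegree with hDdef
      rw [hmax, ← Real.exp_nat_mul, ← Real.exp_nat_mul, ← Real.exp_nat_mul]
      have hja : (j : ℝ) * a ≤ j * |a| := mul_le_mul_of_nonneg_left (le_abs_self a) (Nat.cast_nonneg j)
      have h3 : ((D : ℝ) + 1) ^ ε ≤ Real.exp (ε * (j * |a|)) := by
        rw [Real.exp_nat_mul]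
        apply pow_le_pow_left₀ (by positivity)
        have h4 := Real.add_one_le_exp ((j : ℝ) * |a|)
        linarith
      have h5 : Real.exp ((D : ℝ) * l) ≤ Real.exp ((j : ℝ) * a * l) := by
        apply Real.exp_le_exp.mpr
        exact mul_le_mul_of_nonneg_right hD hl.le
      calc ((D : ℝ) + 1) ^ ε * (Cc * Real.exp (j * S)) * Real.exp (D * l)
          ≤ Real.exp (ε * (j * |a|)) * (Cc * Real.exp (j * S)) * Real.exp ((j : ℝ) * a * l) := by
            apply mul_le_mul _ h5 (Real.exp_pos _).le (by positivity)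
            exact mul_le_mul_of_nonneg_right h3 (by positivity)
        _ = Cc * (Real.exp (ε * (j * |a|)) * Real.exp (j * S) * Real.exp ((j : ℝ) * a * l)) := by ring
        _ = Cc * Real.exp (j * (S + a * l + ε * |a|)) := by
            rw [← Real.exp_add, ← Real.exp_add]
            congr 2
            ring
  -- the root
  set p : Qbar[X] := (MulSemiringAction.charpoly G y).map t with hp
  have hPm : (MulSemiringAction.charpoly G y).Monic := MulSemiringAction.monic_charpoly G y
  have hpm : p.Monic := hPm.map t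
  have hpd : p.natDegree = m := by
    rw [hp, hPm.natDegree_map, hP, Polynomial.natDegree_prod_of_monic]
    · simp [hm]
    · intro g _
      exact monic_X_sub_C _
  have hroot : p.eval (t y) = 0 := by
    rw [hp, Polynomial.eval_map, Polynomial.eval₂_hom, MulSemiringAction.eval_charpoly, map_zero]
  have h1 := root_le htame m p hpm hpd (Real.exp (S + a * l + ε * |a|)) Cc hCc1
    (Real.exp_pos _).le (by
      intro j _ hj
      rw [hp, Polynomial.coeff_map, ← hc, hpt t ht]
      exact hval j hj) (t y) hroot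
  refine h1.trans ?_
  have h2 : (m : ℝ) ^ ε * Cc = Real.exp (ε * Real.log ((m : ℝ) * 2 ^ m)) := by
    rw [Real.exp_nat_mul, Real.exp_log (by linarith), mul_pow]
  rw [h2, ← Real.exp_add]
  apply Real.exp_le_exp.mpr
  have he : (0 : ℝ) ≤ ε := Nat.cast_nonneg ε
  have h3 : 0 ≤ Real.log ((m : ℝ) * 2 ^ m) * |a| * ε := by positivity
  have h4 : (1 + Real.log ((m : ℝ) * 2 ^ m)) * (|a| + 1) * ε =
    ε * Real.log ((m : ℝ) * 2 ^ m) + ε * |a| + ε + Real.log ((m : ℝ) * 2 ^ m) * |a| * ε := by ring
  rw [h4]
  linarith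

end MCauchy

export MCauchy (cauchy_le)

end Pool.Agent.Helper259.Var
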