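import Mathlib
import Pool.Agent.Helper259.Var.Defs

set_option autoImplicit false

namespace Pool.Agent.Helper259.Var

namespace MApprox

open Pool.Agent.Helper259.AbsHt

/-- approximate idempotents for finitely many distinct nonarchimedean absolute values of a
field that agree (and are `> 1`) at one element `s`.
(Mathlib: `AbsoluteValue.exists_one_lt_lt_one_pi_of_not_isEquiv`,
`AbsoluteValue.isEquiv_iff_exists_rpow_eq`; take `u = a ^ n / (1 + a ^ n)`.) -/
theorem exists_approx {F : Type*} [Field F] {ι : Type*} [Finite ι] (w : ι → AbsoluteValue F ℝ)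
    (hna : ∀ i, IsNonarchimedean (w i)) (hinj : Function.Injective w) (s : F)
    (hs : ∀ i, w i s = Real.exp 1) (i : ι) :
    ∃ u : F, w i (u - 1) < 1 ∧ ∀ j ≠ i, w j u ≤ Real.exp (-1) := by
  have he1 : (1 : ℝ) < Real.exp 1 := Real.one_lt_exp_iff.2 one_pos
  have hs0 : s ≠ 0 := by
    rintro rfl
    have := hs i
    rw [map_zero] at this
    linarith
  have hnt : ∀ i, (w i).IsNontrivial := fun j => ⟨s, hs0, by rw [hs]; exact he1.ne'⟩
  have hv : Pairwise fun i j => ¬ (w i).IsEquiv (w j) := by
    intro j k hjk h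
    apply hjk
    apply hinj
    obtain ⟨c, hc, h1⟩ := AbsoluteValue.isEquiv_iff_exists_rpow_eq.1 h
    have h2 := congrFun h1 s
    simp only [hs] at h2
    have h3 : c = 1 := by
      rw [Real.exp_one_rpow] at h2
      exact Real.exp_injective h2
    ext x
    have h4 := congrFun h1 x
    rw [h3] at h4
    simpa using h4
  obtain ⟨a, ha, ha'⟩ := AbsoluteValue.exists_one_lt_lt_one_pi_of_not_isEquiv hnt hv i
  have hev : ∀ᶠ n : ℕ in Filter.atTop, ∀ j, j ≠ i → (w j a) ^ n ≤ Real.exp (-1) := by
    rw [Filter.eventually_all]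
    intro j
    by_cases hj : j = i
    · exact Filter.Eventually.of_forall fun n h => absurd hj h
    · have h1 := tendsto_pow_atTop_nhds_zero_of_lt_one ((w j).nonneg a) (ha' j hj)
      filter_upwards [h1.eventually (eventually_le_nhds (Real.exp_pos (-1)))] with n hn _
      exact hn
  obtain ⟨n, hn, hn1⟩ := (hev.and (Filter.eventually_ge_atTop 1)).exists
  have h1 : w i 1 < w i (a ^ n) := by
    rw [map_one, map_pow]
    exact one_lt_pow₀ ha (by omega)
  have h2 : w i (1 + a ^ n) = w i (a ^ n) := IsNonarchimedean.add_eq_right_of_lt (hna i) h1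
  have h3 : (1 : F) + a ^ n ≠ 0 := by
    intro h
    rw [h, map_zero] at h2
    rw [← h2, map_one] at h1
    linarith
  refine ⟨a ^ n / (1 + a ^ n), ?_, ?_⟩
  · have h4 : a ^ n / (1 + a ^ n) - 1 = - (1 / (1 + a ^ n)) := by
      field_simp
      ring
    rw [h4, AbsoluteValue.map_neg, map_div₀, h2, map_one, div_lt_one]
    · rwa [map_one] at h1
    · rw [map_one] at h1
      linarith
  · intro j hj
    have h5 : w j (a ^ n) ≤ Real.exp (-1) := by
      rw [map_pow]
      exact hn j hj
    have h6 : w j (a ^ n) < w j 1 := by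
      rw [map_one]
      refine h5.trans_lt ?_
      rw [Real.exp_lt_one_iff]
      norm_num
    have h7 : w j (1 + a ^ n) = w j 1 := IsNonarchimedean.add_eq_left_of_lt (hna j) h6
    rw [map_div₀, h7, map_one, div_one]
    exact h5

end MApprox

export MApprox (exists_approx)

end Pool.Agent.Helper259.Var
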