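import Mathlib
import Pool.Agent.Helper259.Var.Defs

set_option autoImplicit false

namespace Pool.Agent.Helper259.Var

namespace MFrac

open Polynomial Pool.Agent.Helper259.AbsHt

/-- value of the extension -/
noncomputable def fracVal {A K : Type*} [CommRing A] [IsDomain A] [Field K] [Algebra A K]
    [IsFractionRing A K] (u : AbsoluteValue A ℝ) (x : K) : ℝ :=
  u (IsLocalization.sec (nonZeroDivisors A) x).1 /
    u ((IsLocalization.sec (nonZeroDivisors A) x).2 : A)

theorem fracVal_div {A K : Type*} [CommRing A] [IsDomain A] [Field K] [Algebra A K]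
    [IsFractionRing A K] (u : AbsoluteValue A ℝ) (a b : A) (hb : b ≠ 0) :
    fracVal u (algebraMap A K a / algebraMap A K b) = u a / u b := by
  unfold fracVal
  set x : K := algebraMap A K a / algebraMap A K b with hx
  set s := IsLocalization.sec (nonZeroDivisors A) x with hs
  have h := IsLocalization.sec_spec (nonZeroDivisors A) x
  rw [← hs] at h
  have hinj := IsFractionRing.injective A K
  have hb' : algebraMap A K b ≠ 0 := by
    rw [Ne, map_eq_zero_iff _ hinj]; exact hb
  have h2 : (s.2 : A) ≠ 0 := nonZeroDivisors.ne_zero s.2.2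
  have h3 : a * s.2 = s.1 * b := by
    apply hinj
    rw [map_mul, map_mul, ← h, hx]
    field_simp
  have h4 : u a * u s.2 = u s.1 * u b := by
    rw [← map_mul, ← map_mul, h3]
  rw [div_eq_div_iff (u.ne_zero h2) (u.ne_zero hb)]
  linarith

/-- an absolute value of a domain extends to its fraction field -/
theorem exists_frac_ext {A K : Type*} [CommRing A] [IsDomain A] [Field K] [Algebra A K]
    [IsFractionRing A K] (u : AbsoluteValue A ℝ) :
    ∃ w : AbsoluteValue K ℝ, (∀ x, w (algebraMap A K x) = u x) ∧
      (IsNonarchimedean u → IsNonarchimedean w) := by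
  have hinj := IsFractionRing.injective A K
  have rep : ∀ x : K, ∃ a b : A, b ≠ 0 ∧ x = algebraMap A K a / algebraMap A K b := by
    intro x
    obtain ⟨a, b, hb, hx⟩ := IsFractionRing.div_surjective (A := A) x
    exact ⟨a, b, nonZeroDivisors.ne_zero hb, hx.symm⟩
  have ne : ∀ b : A, b ≠ 0 → algebraMap A K b ≠ 0 := fun b hb => by
    rw [Ne, map_eq_zero_iff _ hinj]; exact hb
  refine ⟨{ toFun := fracVal u, map_mul' := ?_, nonneg' := ?_, eq_zero' := ?_, add_le' := ?_ },
    ?_, ?_⟩
  · intro x y
    obtain ⟨a, b, hb, rfl⟩ := rep x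
    obtain ⟨c, d, hd, rfl⟩ := rep y
    have := fracVal_div (K := K) u (a * c) (b * d) (mul_ne_zero hb hd)
    rw [map_mul, map_mul, mul_div_mul_comm] at this
    rw [this, fracVal_div u a b hb, fracVal_div u c d hd, map_mul, map_mul, mul_div_mul_comm]
  · intro x
    exact div_nonneg (u.nonneg _) (u.nonneg _)
  · intro x
    obtain ⟨a, b, hb, rfl⟩ := rep x
    show fracVal u _ = 0 ↔ _
    rw [fracVal_div u a b hb, div_eq_zero_iff, div_eq_zero_iff]
    simp [u.eq_zero, hb, map_eq_zero_iff _ hinj]
  · intro x y
    obtain ⟨a, b, hb, rfl⟩ := rep x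
    obtain ⟨c, d, hd, rfl⟩ := rep y
    have h1 : algebraMap A K a / algebraMap A K b + algebraMap A K c / algebraMap A K d
        = algebraMap A K (a * d + b * c) / algebraMap A K (b * d) := by
      rw [div_add_div _ _ (ne b hb) (ne d hd)]; simp [map_mul]
    show fracVal u _ ≤ fracVal u _ + fracVal u _
    rw [h1, fracVal_div u _ _ (mul_ne_zero hb hd), fracVal_div u a b hb, fracVal_div u c d hd]
    have hub := u.pos hb
    have hud := u.pos hd
    rw [div_add_div _ _ hub.ne' hud.ne', map_mul]
    apply div_le_div_of_nonneg_right _ (by positivity)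
    calc u (a * d + b * c) ≤ u (a * d) + u (b * c) := u.add_le _ _
      _ = u a * u d + u b * u c := by rw [map_mul, map_mul]
  · intro x
    have := fracVal_div (K := K) u x 1 one_ne_zero
    rw [map_one, div_one, map_one, div_one] at this
    exact this
  · intro hna x y
    obtain ⟨a, b, hb, rfl⟩ := rep x
    obtain ⟨c, d, hd, rfl⟩ := rep y
    have h1 : algebraMap A K a / algebraMap A K b + algebraMap A K c / algebraMap A K d
        = algebraMap A K (a * d + b * c) / algebraMap A K (b * d) := by
      rw [div_add_div _ _ (ne b hb) (ne d hd)]; simp [map_mul]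
    show fracVal u _ ≤ max (fracVal u _) (fracVal u _)
    rw [h1, fracVal_div u _ _ (mul_ne_zero hb hd), fracVal_div u a b hb, fracVal_div u c d hd]
    have hub := u.pos hb
    have hud := u.pos hd
    rw [map_mul]
    have h2 : u (a * d + b * c) ≤ max (u a * u d) (u b * u c) := by
      have := hna (a * d) (b * c)
      rwa [map_mul, map_mul] at this
    rw [div_le_iff₀ (by positivity)]
    refine h2.trans ?_
    rw [max_mul_of_nonneg _ _ (by positivity)]
    apply le_of_eq
    congr 1
    · field_simp
    · field_simp

end MFrac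

export MFrac (exists_frac_ext)

end Pool.Agent.Helper259.Var
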