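import Mathlib
import Pool.Agent.Helper259.Var.Defs

set_option autoImplicit false

namespace Pool.Agent.Helper259.Var

namespace MNoether

open Polynomial Pool.Agent.Helper259.AbsHt

theorem le_one_12387 {R A : Type*} [CommRing R] [IsDomain R] [CommRing A] [IsDomain A]
    (f : R →+* A) (hf : Function.Injective f) (hi : f.IsIntegral) (h : Ring.KrullDimLE 1 A) :
    Ring.KrullDimLE 1 R := by
  rw [Ring.krullDimLE_one_iff_of_noZeroDivisors] at h ⊢
  intro P hP hPp
  let _ : Algebra R A := f.toAlgebra
  have : Algebra.IsIntegral R A := ⟨hi⟩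
  have hker : RingHom.ker (algebraMap R A) ≤ P := by
    have : RingHom.ker (algebraMap R A) = ⊥ := (RingHom.injective_iff_ker_eq_bot f).1 hf
    rw [this]
    exact bot_le
  obtain ⟨Q, hQ, hQP⟩ := Ideal.exists_ideal_over_prime_of_isIntegral_of_isDomain (S := A) P hker
  have hQb : Q ≠ ⊥ := by
    rintro rfl
    apply hP
    rw [← hQP]
    exact (RingHom.injective_iff_ker_eq_bot f).1 hf
  have := h Q hQb hQ
  rw [← hQP]
  exact Ideal.isMaximal_comap_of_isIntegral_of_isMaximal Q

theorem le_zero_12387 {R A : Type*} [CommRing R] [CommRing A]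
    (f : R →+* A) (hi : f.IsIntegral) (h : Ring.KrullDimLE 0 R) :
    Ring.KrullDimLE 0 A := by
  rw [Ring.krullDimLE_zero_iff] at h ⊢
  intro Q hQ
  exact Ideal.isMaximal_of_isIntegral_of_isMaximal_comap' f hi Q (h _ (hQ.comap f))

/-- TARGET 1 (Noether normalization of an affine curve): a finitely generated domain of Krull
dimension one over an (infinite) field `k` is integral over a polynomial ring in one variable. -/
theorem exists_noether {k A : Type*} [Field k] [Infinite k] [CommRing A] [IsDomain A] [Algebra k A]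
    [Algebra.FiniteType k A] (hdim : ringKrullDim A = 1) :
    ∃ s : A, Function.Injective (aeval s : k[X] →ₐ[k] A) ∧
      (aeval s : k[X] →ₐ[k] A).toRingHom.IsIntegral := by
  obtain ⟨r, g, hinj, hint⟩ := exists_integral_inj_algHom_of_fg k A
  have hdimR : ringKrullDim (MvPolynomial (Fin r) k) = r := by
    rw [MvPolynomial.ringKrullDim_of_isNoetherianRing, ringKrullDim_eq_zero_of_field, zero_add,
      Nat.card_fin]
  have h1 : Ring.KrullDimLE 1 A := by
    rw [Ring.krullDimLE_iff, hdim]
    rfl
  have h2 := le_one_12387 (g : MvPolynomial (Fin r) k →+* A) hinj hint h1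
  rw [Ring.krullDimLE_iff, hdimR] at h2
  have h3 : r ≤ 1 := by exact_mod_cast h2
  have h4 : r ≠ 0 := by
    rintro rfl
    have h5 : Ring.KrullDimLE 0 (MvPolynomial (Fin 0) k) := by
      rw [Ring.krullDimLE_iff, hdimR]
    have h6 := le_zero_12387 (g : MvPolynomial (Fin 0) k →+* A) hint h5
    rw [Ring.krullDimLE_iff, hdim] at h6
    exact absurd h6 (by norm_num)
  obtain rfl : r = 1 := by omega
  let e := MvPolynomial.uniqueAlgEquiv k (Fin 1)
  have hs : (aeval (g (MvPolynomial.X default)) : k[X] →ₐ[k] A) =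
      g.comp (e.symm : k[X] →ₐ[k] MvPolynomial (Fin 1) k) := by
    apply Polynomial.algHom_ext
    rw [aeval_X, AlgHom.comp_apply]
    congr 1
    show _ = e.symm X
    rw [AlgEquiv.eq_symm_apply]
    simp [e]
  refine ⟨g (MvPolynomial.X default), ?_, ?_⟩
  · rw [hs]
    intro a b hab
    exact e.symm.injective (hinj hab)
  · rw [hs]
    have h7 : (e.symm : k[X] →+* MvPolynomial (Fin 1) k).IsIntegral :=
      RingHom.isIntegral_of_surjective _ e.symm.surjective
    exact h7.trans _ _ hint

/-- TARGET 2 (denominators can be taken in `k[s]`): if `A` is a domain integral over `k[X]`, then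
every element of the fraction field of `A` has a nonzero multiple by a MONIC polynomial in `s`
lying in `A`. -/
theorem exists_monic_mul {k A K : Type*} [Field k] [CommRing A] [IsDomain A] [Algebra k[X] A]
    [FaithfulSMul k[X] A] [Algebra.IsIntegral k[X] A] [Field K] [Algebra A K] [IsFractionRing A K]
    (u : K) :
    ∃ (p : k[X]) (a : A), p.Monic ∧ algebraMap A K a = u * algebraMap A K (algebraMap k[X] A p) := by
  obtain ⟨a1, a2, ha2, rfl⟩ := IsFractionRing.div_surjective (A := A) u
  have ha2' : a2 ≠ 0 := nonZeroDivisors.ne_zero ha2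
  obtain ⟨c, d, hd, h⟩ := Algebra.IsAlgebraic.exists_smul_eq_mul k[X] a1 ha2'
  refine ⟨d * C (leadingCoeff d)⁻¹, algebraMap k[X] A (C (leadingCoeff d)⁻¹) * c,
    monic_mul_leadingCoeff_inv hd, ?_⟩
  have h2 : algebraMap A K a2 ≠ 0 := by
    rw [ne_eq, IsFractionRing.to_map_eq_zero_iff]
    exact ha2'
  rw [Algebra.smul_def] at h
  have h3 := congrArg (algebraMap A K) h
  rw [map_mul, map_mul] at h3
  rw [map_mul, map_mul, map_mul]
  generalize (algebraMap A K) ((algebraMap k[X] A) (C (leadingCoeff d)⁻¹)) = t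
  field_simp
  linear_combination (-t) * h3

end MNoether

export MNoether (exists_noether exists_monic_mul)

end Pool.Agent.Helper259.Var
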