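import Mathlib
import Pool.Agent.Helper259.Var.Frac
import Pool.Agent.Helper259.Var.Approx
import Pool.Agent.Helper259.Var.Noether

set_option autoImplicit false

namespace Pool.Agent.Helper259.Var

namespace MTheta

open Polynomial Pool.Agent.Helper259.AbsHt

/-- elements of the coordinate ring with prescribed leading terms at the places at
infinity -/
theorem exists_theta {A : Type*} [CommRing A] [IsDomain A] [Algebra Qbar[X] A]
    [FaithfulSMul Qbar[X] A] [Algebra.IsIntegral Qbar[X] A] {ι : Type*} [Finite ι]
    (w : ι → AbsoluteValue A ℝ) (hw : ∀ i, IsNonarchimedean (w i)) (hinj : Function.Injective w)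
    (hdeg : ∀ i (p : Qbar[X]), p ≠ 0 → w i (algebraMap Qbar[X] A p) = Real.exp p.natDegree) :
    ∃ l₀ : ℕ, ∀ l : ℕ, l₀ ≤ l → ∀ i, ∃ θ : A,
      w i (θ - algebraMap Qbar[X] A (X ^ l)) < Real.exp l ∧
      ∀ j ≠ i, w j θ ≤ Real.exp ((l : ℝ) - 1) := by
  classical
  choose W hWres hWna using fun i => exists_frac_ext (K := FractionRing A) (w i)
  have hWinj : Function.Injective W := by
    intro i j hij
    apply hinj
    ext x
    rw [← hWres i x, ← hWres j x, hij]
  have hWs : ∀ i, W i (algebraMap A (FractionRing A) (algebraMap Qbar[X] A X)) = Real.exp 1 := by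
    intro i
    rw [hWres, hdeg i X X_ne_zero, natDegree_X]
    norm_num
  choose u hu1 hu2 using fun i => exists_approx W (fun i => hWna i (hw i)) hWinj _ hWs i
  choose p a hp ha using fun i => exists_monic_mul (k := Qbar) (A := A) (K := FractionRing A) (u i)
  have hpW : ∀ i j, w j (algebraMap Qbar[X] A (p i)) = Real.exp (p i).natDegree := fun i j =>
    hdeg j (p i) (hp i).ne_zero
  have h1 : ∀ i, w i (a i - algebraMap Qbar[X] A (p i)) < Real.exp (p i).natDegree := by
    intro i
    rw [← hWres i, map_sub, ha i]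
    have : u i * algebraMap A (FractionRing A) (algebraMap Qbar[X] A (p i))
        - algebraMap A (FractionRing A) (algebraMap Qbar[X] A (p i))
        = (u i - 1) * algebraMap A (FractionRing A) (algebraMap Qbar[X] A (p i)) := by ring
    rw [this, map_mul, hWres, hpW i i]
    have := hu1 i
    have hpos := Real.exp_pos ((p i).natDegree : ℝ)
    nlinarith
  have h2 : ∀ i, ∀ j ≠ i, w j (a i) ≤ Real.exp (((p i).natDegree : ℝ) - 1) := by
    intro i j hj
    rw [← hWres j, ha i, map_mul, hWres, hpW i j]
    have := hu2 i j hj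
    have hpos := Real.exp_pos ((p i).natDegree : ℝ)
    calc W j (u i) * Real.exp ((p i).natDegree : ℝ)
        ≤ Real.exp (-1) * Real.exp ((p i).natDegree : ℝ) := by
          exact mul_le_mul_of_nonneg_right this hpos.le
      _ = Real.exp (((p i).natDegree : ℝ) - 1) := by
          rw [← Real.exp_add]; congr 1; ring
  have h3 : ∀ i, w i (algebraMap Qbar[X] A (p i) - algebraMap Qbar[X] A (X ^ (p i).natDegree))
      < Real.exp (p i).natDegree := by
    intro i
    rw [← map_sub]
    by_cases h0 : p i - X ^ (p i).natDegree = 0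
    · rw [h0, map_zero, map_zero]
      exact Real.exp_pos _
    · rw [hdeg i _ h0]
      apply Real.exp_lt_exp.mpr
      have hd : (p i - X ^ (p i).natDegree).degree < (p i).degree := by
        apply degree_sub_lt_left
        · rw [degree_X_pow, degree_eq_natDegree (hp i).ne_zero]
        · exact (hp i).ne_zero
        · rw [(hp i).leadingCoeff, leadingCoeff_X_pow]
      exact_mod_cast natDegree_lt_natDegree h0 hd
  have h4 : ∀ i, w i (a i - algebraMap Qbar[X] A (X ^ (p i).natDegree))
      < Real.exp (p i).natDegree := by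
    intro i
    have : a i - algebraMap Qbar[X] A (X ^ (p i).natDegree)
        = (a i - algebraMap Qbar[X] A (p i))
          + (algebraMap Qbar[X] A (p i) - algebraMap Qbar[X] A (X ^ (p i).natDegree)) := by ring
    rw [this]
    exact lt_of_le_of_lt (hw i _ _) (max_lt (h1 i) (h3 i))
  obtain ⟨M, hM⟩ := (Set.finite_range (fun i => (p i).natDegree)).bddAbove
  refine ⟨M, fun l hl i => ?_⟩
  have hri : (p i).natDegree ≤ l := le_trans (hM ⟨i, rfl⟩) hl
  have hX : ∀ j, w j (algebraMap Qbar[X] A (X ^ (l - (p i).natDegree)))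
      = Real.exp ((l : ℝ) - (p i).natDegree) := by
    intro j
    rw [hdeg j _ (pow_ne_zero _ X_ne_zero), natDegree_X_pow, Nat.cast_sub hri]
  refine ⟨a i * algebraMap Qbar[X] A (X ^ (l - (p i).natDegree)), ?_, ?_⟩
  · have e : a i * algebraMap Qbar[X] A (X ^ (l - (p i).natDegree)) - algebraMap Qbar[X] A (X ^ l)
        = (a i - algebraMap Qbar[X] A (X ^ (p i).natDegree))
          * algebraMap Qbar[X] A (X ^ (l - (p i).natDegree)) := by
      have : (X : Qbar[X]) ^ l = X ^ (p i).natDegree * X ^ (l - (p i).natDegree) := by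
        rw [← pow_add, Nat.add_sub_cancel' hri]
      rw [this, map_mul, sub_mul]
    rw [e, map_mul, hX i]
    calc w i (a i - algebraMap Qbar[X] A (X ^ (p i).natDegree)) * Real.exp ((l : ℝ) - (p i).natDegree)
        < Real.exp (p i).natDegree * Real.exp ((l : ℝ) - (p i).natDegree) :=
          mul_lt_mul_of_pos_right (h4 i) (Real.exp_pos _)
      _ = Real.exp l := by rw [← Real.exp_add]; congr 1; ring
  · intro j hj
    rw [map_mul, hX j]
    calc w j (a i) * Real.exp ((l : ℝ) - (p i).natDegree)
        ≤ Real.exp (((p i).natDegree : ℝ) - 1) * Real.exp ((l : ℝ) - (p i).natDegree) :=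
          mul_le_mul_of_nonneg_right (h2 i j hj) (Real.exp_pos _).le
      _ = Real.exp ((l : ℝ) - 1) := by rw [← Real.exp_add]; congr 1; ring

end MTheta

export MTheta (exists_theta)

end Pool.Agent.Helper259.Var
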