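import Mathlib
import Pool.Agent.Helper259.Var.PolyBd
import Pool.Agent.Helper259.Var.Theta
import Pool.Agent.Helper259.Var.Cauchy

set_option autoImplicit false

namespace Pool.Agent.Helper259.Var

namespace MNear

open Polynomial Pool.Agent.Helper259.AbsHt

/-- translate of an absolute value -/
noncomputable def wG {R G : Type*} [CommRing R] [Group G] [MulSemiringAction G R]
    (w : AbsoluteValue R ℝ) (g : G) : AbsoluteValue R ℝ where
  toFun x := w (g • x)
  map_mul' x y := by rw [smul_mul', w.map_mul]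
  nonneg' x := w.nonneg _
  eq_zero' x := by rw [w.eq_zero]; exact smul_eq_zero_iff_eq g
  add_le' x y := by rw [smul_add]; exact w.add_le _ _

theorem wG_apply {R G : Type*} [CommRing R] [Group G] [MulSemiringAction G R]
    (w : AbsoluteValue R ℝ) (g : G) (x : R) : wG w g x = w (g • x) := rfl

/-- translate of a point -/
noncomputable def tG {R G : Type*} [CommRing R] [Group G] [MulSemiringAction G R]
    (t : R →+* Qbar) (g : G) : R →+* Qbar := t.comp (MulSemiringAction.toRingHom G R g)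

theorem tG_apply {R G : Type*} [CommRing R] [Group G] [MulSemiringAction G R]
    (t : R →+* Qbar) (g : G) (x : R) : tG t g x = t (g • x) := rfl

theorem tG_isPt {R G : Type*} [CommRing R] [Algebra Qbar[X] R] [Group G]
    [MulSemiringAction G R] [SMulCommClass G Qbar[X] R] (t : R →+* Qbar) (ht : IsPt t) (g : G) :
    IsPt (tG t g) := by
  intro c
  rw [tG_apply, smul_algebraMap]
  exact ht c

theorem tG_sval {R G : Type*} [CommRing R] [Algebra Qbar[X] R] [Group G]
    [MulSemiringAction G R] [SMulCommClass G Qbar[X] R] (t : R →+* Qbar) (g : G) :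
    sval (tG t g) = sval t := by
  unfold sval
  rw [tG_apply, smul_algebraMap]

theorem pt_eval {R : Type*} [CommRing R] [Algebra Qbar[X] R] (t : R →+* Qbar) (ht : IsPt t)
    (p : Qbar[X]) : t (algebraMap Qbar[X] R p) = p.eval (sval t) := by
  have h : t.comp (algebraMap Qbar[X] R) = Polynomial.evalRingHom (sval t) := by
    apply Polynomial.ringHom_ext
    · intro c
      simp only [RingHom.comp_apply, Polynomial.coe_evalRingHom, Polynomial.eval_C]
      exact ht c
    · simp [sval]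
  exact RingHom.congr_fun h p

theorem sum_lt' {R ι : Type*} [CommRing R] (w : AbsoluteValue R ℝ) (hw : IsNonarchimedean w)
    (s : Finset ι) (f : ι → R) (M : ℝ) (hM : 0 < M) (h : ∀ i ∈ s, w (f i) < M) :
    w (∑ i ∈ s, f i) < M := by
  classical
  induction s using Finset.induction_on with
  | empty => simpa using hM
  | @insert a s ha ih =>
    rw [Finset.sum_insert ha]
    refine lt_of_le_of_lt (hw _ _) (max_lt (h a (Finset.mem_insert_self _ _)) (ih ?_))
    exact fun i hi => h i (Finset.mem_insert_of_mem hi)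

theorem isLoc_tame {v : AbsoluteValue Qbar ℝ} {ε : ℕ} (h : IsLoc v ε) : Tame v ε := by
  rcases h with h | h
  · exact Or.inl h
  · exact Or.inr h.2

theorem adm_mono {T T' : Finset Qbar} (hT : T ⊆ T') {v : AbsoluteValue Qbar ℝ} {ε : ℕ} {b : ℝ}
    (h : Adm T' v ε b) : Adm T v ε b :=
  ⟨h.1, h.2.1, fun c hc => h.2.2 c (hT hc)⟩

/-- the invariant polynomial of the trace of `Θ` -/
theorem trace_poly {R G : Type*} [CommRing R] [IsDomain R] [Algebra Qbar[X] R]
    [FaithfulSMul Qbar[X] R] [Group G]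
    [Fintype G] [MulSemiringAction G R] [SMulCommClass G Qbar[X] R]
    [Algebra.IsInvariant Qbar[X] R G] (w : AbsoluteValue R ℝ) (hw : IsNonarchimedean w)
    (hdeg : ∀ p : Qbar[X], p ≠ 0 → w (algebraMap Qbar[X] R p) = Real.exp p.natDegree)
    (l : ℕ) (hl : 1 ≤ l) (Θ : R) (h1 : w (Θ - algebraMap Qbar[X] R (X ^ l)) < Real.exp l)
    (h2 : ∀ g : G, wG w g ≠ w → w (g • Θ) ≤ Real.exp ((l : ℝ) - 1)) :
    ∃ p : Qbar[X], p ≠ 0 ∧ p.natDegree = l ∧ algebraMap Qbar[X] R p = ∑ g : G, g • Θ := by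
  classical
  obtain ⟨p, hp⟩ := Algebra.IsInvariant.isInvariant (A := Qbar[X]) (G := G) (∑ g : G, g • Θ) (by
    intro g
    rw [Finset.smul_sum]
    refine Fintype.sum_equiv (Equiv.mulLeft g) _ _ (fun x => ?_)
    simp [mul_smul])
  set d : ℕ := (Finset.univ.filter (fun g : G => wG w g = w)).card with hd
  have hd0 : d ≠ 0 := by
    rw [hd, Finset.card_ne_zero]
    exact ⟨1, by
      rw [Finset.mem_filter]
      refine ⟨Finset.mem_univ _, ?_⟩
      ext x
      rw [wG_apply, one_smul]⟩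
  set q : Qbar[X] := p - C (d : Qbar) * X ^ l with hq
  have hqw : w (algebraMap Qbar[X] R q) < Real.exp l := by
    have e1 : algebraMap Qbar[X] R q =
        ∑ g : G, (g • Θ - if wG w g = w then algebraMap Qbar[X] R (X ^ l) else 0) := by
      rw [hq, map_sub, hp, Finset.sum_sub_distrib, ← Finset.sum_filter, Finset.sum_const, ← hd]
      rw [map_mul]
      simp
    rw [e1]
    apply sum_lt' w hw _ _ _ (Real.exp_pos _)
    intro g _
    by_cases hg : wG w g = w
    · rw [if_pos hg]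
      have e2 : g • Θ - algebraMap Qbar[X] R (X ^ l) = g • (Θ - algebraMap Qbar[X] R (X ^ l)) := by
        rw [smul_sub, smul_algebraMap]
      rw [e2, ← wG_apply, hg]
      exact h1
    · rw [if_neg hg, sub_zero]
      refine lt_of_le_of_lt (h2 g hg) (Real.exp_lt_exp.2 (by linarith))
  have hqd : q.natDegree < l := by
    by_cases hq0 : q = 0
    · rw [hq0, natDegree_zero]; omega
    · rw [hdeg q hq0, Real.exp_lt_exp] at hqw
      exact_mod_cast hqw
  have hpq : p = q + C (d : Qbar) * X ^ l := by rw [hq]; ring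
  have hdq : (d : Qbar) ≠ 0 := by exact_mod_cast hd0
  have hnd : (C (d : Qbar) * X ^ l : Qbar[X]).natDegree = l := natDegree_C_mul_X_pow l _ hdq
  have hpd : p.natDegree = l := by
    rw [hpq, natDegree_add_eq_right_of_natDegree_lt (by rw [hnd]; exact hqd), hnd]
  refine ⟨p, ?_, hpd, hp⟩
  rintro rfl
  rw [natDegree_zero] at hpd
  omega

theorem close_exists {R G : Type*} [CommRing R] [IsDomain R] [Algebra Qbar[X] R]
    [Group G] [Fintype G] [MulSemiringAction G R]
    (Θ : R) (p : Qbar[X]) (hp : p ≠ 0) (hpΘ : algebraMap Qbar[X] R p = ∑ g : G, g • Θ)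
    (δ' : ℝ) :
    ∃ (T : Finset Qbar) (C : ℝ), 0 ≤ C ∧ ∀ v ε b, Adm T v ε b → ∀ t : R →+* Qbar, IsPt t →
      0 < Real.log (v (sval t)) → C * b ≤ Real.log (v (sval t)) →
      C * b ≤ δ' * Real.log (v (sval t)) →
      ∃ g : G, Real.exp ((p.natDegree - δ') * Real.log (v (sval t))) ≤ v (t (g • Θ)) := by
  classical
  obtain ⟨T, C, hC, h⟩ := poly_large p hp
  have hm1 : (1 : ℝ) ≤ Fintype.card G := by exact_mod_cast Fintype.card_pos
  have hlm : 0 ≤ Real.log (Fintype.card G) := Real.log_nonneg hm1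
  refine ⟨T, C + Real.log (Fintype.card G), by positivity, ?_⟩
  intro v ε b hA t ht hl0 hl1 hl2
  have hb : 0 ≤ b := le_trans (Nat.cast_nonneg ε) hA.2.1
  have hlb : 0 ≤ Real.log (Fintype.card G) * b := mul_nonneg hlm hb
  by_contra hcon
  push Not at hcon
  obtain ⟨g0, -, hg0⟩ := Finset.exists_max_image Finset.univ (fun g : G => v (t (g • Θ)))
    ⟨1, Finset.mem_univ _⟩
  have h1 := sum_le (isLoc_tame hA.1) Finset.univ (fun g : G => t (g • Θ)) (v (t (g0 • Θ)))
    (v.nonneg _) hg0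
  rw [← map_sum, ← hpΘ, pt_eval t ht] at h1
  have h2 := (h v ε b hA (sval t) hl0 (by nlinarith)).1
  have h3 : (((Finset.univ : Finset G).card : ℝ)) ^ ε ≤ Real.exp (Real.log (Fintype.card G) * b) := by
    rw [Finset.card_univ]
    calc ((Fintype.card G : ℝ)) ^ ε = Real.exp (Real.log (Fintype.card G)) ^ ε := by
          rw [Real.exp_log (by linarith)]
      _ = Real.exp (ε * Real.log (Fintype.card G)) := by rw [← Real.exp_nat_mul]
      _ ≤ _ := Real.exp_le_exp.2 (by rw [mul_comm]; exact mul_le_mul_of_nonneg_left hA.2.1 hlm)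
  have h4 := hcon g0
  have h5 : Real.exp (p.natDegree * Real.log (v (sval t)) - C * b) <
      Real.exp (Real.log (Fintype.card G) * b + (p.natDegree - δ') * Real.log (v (sval t))) := by
    calc _ ≤ _ := h2
      _ ≤ _ := h1
      _ ≤ Real.exp (Real.log (Fintype.card G) * b) * v (t (g0 • Θ)) :=
          mul_le_mul_of_nonneg_right h3 (v.nonneg _)
      _ < Real.exp (Real.log (Fintype.card G) * b) *
          Real.exp ((p.natDegree - δ') * Real.log (v (sval t))) :=
          mul_lt_mul_of_pos_left h4 (Real.exp_pos _)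
      _ = _ := by rw [← Real.exp_add]
  rw [Real.exp_lt_exp] at h5
  nlinarith

theorem exists_delta {R : Type*} [CommRing R] (w : AbsoluteValue R ℝ) (l : ℕ) (x1 : R)
    (h : w x1 < Real.exp l) : ∃ δ : ℝ, 0 < δ ∧ δ ≤ 1 ∧ w x1 ≤ Real.exp (l - δ) := by
  rcases (w.nonneg x1).eq_or_lt with h0 | h0
  · exact ⟨1, one_pos, le_rfl, by rw [← h0]; exact (Real.exp_pos _).le⟩
  · have h1 : Real.log (w x1) < l := by
      rw [← Real.exp_lt_exp, Real.exp_log h0]; exact h
    refine ⟨min 1 (l - Real.log (w x1)), lt_min one_pos (by linarith), min_le_left _ _, ?_⟩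
    rw [← Real.log_le_iff_le_exp h0]
    have := min_le_right (1 : ℝ) (l - Real.log (w x1))
    linarith

theorem exists_J {R G : Type*} [CommRing R] [Group G] [Fintype G] [MulSemiringAction G R]
    (w : AbsoluteValue R ℝ) (a : ℝ) (x : R) :
    ∃ J : ℕ, ∀ g : G, w (g • x) ≤ Real.exp (a + J) := by
  classical
  obtain ⟨g0, -, hg0⟩ := Finset.exists_max_image Finset.univ (fun g : G => w (g • x))
    ⟨1, Finset.mem_univ _⟩
  obtain ⟨J, hJ⟩ := exists_nat_ge (w (g0 • x) - a)
  refine ⟨J, fun g => (hg0 g (Finset.mem_univ _)).trans ?_⟩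
  have h1 := Real.add_one_le_exp (a + J)
  show w (g0 • x) ≤ Real.exp (a + J)
  linarith

theorem close_large {R G : Type*} [CommRing R] [IsDomain R] [Algebra Qbar[X] R]
    [Algebra.IsIntegral Qbar[X] R] [Group G]
    [Fintype G] [MulSemiringAction G R] [SMulCommClass G Qbar[X] R]
    [Algebra.IsInvariant Qbar[X] R G] (w : AbsoluteValue R ℝ) (hw : IsNonarchimedean w)
    (hdeg : ∀ p : Qbar[X], p ≠ 0 → w (algebraMap Qbar[X] R p) = Real.exp p.natDegree)
    (l : ℕ) (Θ : R) (h1 : w (Θ - algebraMap Qbar[X] R (X ^ l)) < Real.exp l)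
    (hΘ : w Θ ≤ Real.exp l)
    (h2 : ∀ g : G, wG w g ≠ w → w (g • Θ) ≤ Real.exp ((l : ℝ) - 1)) :
    ∃ δ' : ℝ, 0 < δ' ∧ ∃ (T : Finset Qbar) (C : ℝ), 0 ≤ C ∧ ∀ v ε b, Adm T v ε b →
      ∀ t : R →+* Qbar, IsPt t →
      0 < Real.log (v (sval t)) → C * b ≤ Real.log (v (sval t)) →
      Real.exp ((l - δ') * Real.log (v (sval t))) ≤ v (t Θ) →
      Real.exp (l * Real.log (v (sval t)) - b) ≤ v (t Θ) := by
  classical
  set x1 : R := Θ - algebraMap Qbar[X] R (X ^ l) with hx1
  obtain ⟨δ, hδ0, hδ1, hδ⟩ := exists_delta w l x1 h1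
  obtain ⟨J, hJ⟩ := exists_J (G := G) w (l - δ) x1
  set a : ℝ := l - δ + l * J with ha
  have hwy : ∀ g : G, w (g • (x1 * Θ ^ J)) ≤ Real.exp a := by
    intro g
    rw [smul_mul', smul_pow', w.map_mul, w.map_pow]
    by_cases hg : wG w g = w
    · rw [← wG_apply w g x1, ← wG_apply w g Θ, hg]
      calc w x1 * w Θ ^ J ≤ Real.exp (l - δ) * Real.exp l ^ J :=
            mul_le_mul hδ (pow_le_pow_left₀ (w.nonneg _) hΘ _) (pow_nonneg (w.nonneg _) _)
              (Real.exp_pos _).le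
        _ = _ := by rw [← Real.exp_nat_mul, ← Real.exp_add, ha]; congr 1; ring
    · calc w (g • x1) * w (g • Θ) ^ J ≤ Real.exp (l - δ + J) * Real.exp ((l : ℝ) - 1) ^ J :=
            mul_le_mul (hJ g) (pow_le_pow_left₀ (w.nonneg _) (h2 g hg) _)
              (pow_nonneg (w.nonneg _) _) (Real.exp_pos _).le
        _ = _ := by rw [← Real.exp_nat_mul, ← Real.exp_add, ha]; congr 1; ring
  obtain ⟨T, C2, hC2, hT⟩ := bdd_pt (x1 * Θ ^ J)
  obtain ⟨C3, hC3, hcau⟩ := cauchy_le (G := G) w hw hdeg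
  set K : ℝ := C2 + C3 * (|a| + 1) with hK
  have hK0 : 0 ≤ K := by positivity
  refine ⟨δ / (2 * (J + 1)), by positivity, T, 4 * (K + 1) / δ, by positivity, ?_⟩
  intro v ε b hA t ht hl0 hl1 hcl
  set ell : ℝ := Real.log (v (sval t)) with hell
  have hb : 0 ≤ b := le_trans (Nat.cast_nonneg ε) hA.2.1
  have hvs : 0 < v (sval t) := by
    rcases (v.nonneg (sval t)).eq_or_lt with h0 | h0
    · rw [hell, ← h0, Real.log_zero] at hl0; exact absurd hl0 (lt_irrefl _)
    · exact h0
  have hS : ∀ t' : R →+* Qbar, IsPt t' → v (sval t') = 1 → v (t' (x1 * Θ ^ J)) ≤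
      Real.exp (C2 * b) := by
    intro t' ht' hs'
    have := hT v ε b hA t' ht'
    rw [hs', Real.log_one, max_self, add_zero] at this
    exact this
  have h3 := hcau v ε hA.1 t ht hl0 (x1 * Θ ^ J) a (C2 * b) hwy hS
  have h4 : v (t (x1 * Θ ^ J)) ≤ Real.exp (a * ell + K * b) := by
    refine h3.trans (Real.exp_le_exp.2 ?_)
    have : C3 * (|a| + 1) * ε ≤ C3 * (|a| + 1) * b :=
      mul_le_mul_of_nonneg_left hA.2.1 (by positivity)
    rw [hK]; nlinarith
  rw [map_mul, map_pow, v.map_mul, v.map_pow] at h4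
  have hJpos : (0 : ℝ) < 2 * (J + 1) := by positivity
  have h5 : v (t x1) ≤ Real.exp ((l - δ / 2) * ell + K * b) := by
    have e1 : Real.exp ((l - δ / (2 * (J + 1))) * ell) ^ J ≤ v (t Θ) ^ J :=
      pow_le_pow_left₀ (Real.exp_pos _).le hcl _
    have e2 : v (t x1) * Real.exp ((l - δ / (2 * (J + 1))) * ell) ^ J ≤
        Real.exp (a * ell + K * b) :=
      (mul_le_mul_of_nonneg_left e1 (v.nonneg _)).trans h4
    rw [← Real.exp_nat_mul, ← le_div_iff₀ (Real.exp_pos _), ← Real.exp_sub] at e2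
    refine e2.trans (Real.exp_le_exp.2 ?_)
    have e3 : (J : ℝ) * (δ / (2 * (J + 1))) ≤ δ / 2 := by
      rw [mul_div_assoc', div_le_div_iff₀ hJpos two_pos]
      nlinarith
    have e4 : (J : ℝ) * (δ / (2 * (J + 1))) * ell ≤ δ / 2 * ell :=
      mul_le_mul_of_nonneg_right e3 hl0.le
    rw [ha]
    nlinarith
  have hl2 : (K + 1) * b ≤ δ / 4 * ell := by
    rw [div_mul_eq_mul_div, div_le_iff₀ hδ0] at hl1
    nlinarith
  have htΘ : t Θ = sval t ^ l + t x1 := by
    rw [hx1, map_sub, pt_eval t ht, eval_pow, eval_X]; ring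
  have hsl : v (sval t ^ l) = Real.exp (l * ell) := by
    rw [v.map_pow, ← Real.exp_log hvs, ← Real.exp_nat_mul]
  rcases hA.1 with ⟨hna, hε⟩ | ⟨_, hε⟩
  · -- nonarchimedean
    have h6 : v (t x1) < v (sval t ^ l) := by
      rw [hsl]
      refine h5.trans_lt (Real.exp_lt_exp.2 ?_)
      nlinarith [mul_pos hδ0 hl0]
    have h7 : v (sval t ^ l) ≤ v (t Θ) := by
      have e : sval t ^ l = t Θ + (- t x1) := by rw [htΘ]; ring
      have := hna (t Θ) (- t x1)
      rw [← e, v.map_neg] at this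
      rcases le_max_iff.1 this with h | h
      · exact h
      · exact absurd h (not_le_of_gt h6)
    rw [hsl] at h7
    refine le_trans (Real.exp_le_exp.2 ?_) h7
    linarith
  · have hb1 : 1 ≤ b := by
      have := hA.2.1
      rw [hε] at this
      exact_mod_cast this
    have h6 : v (t x1) ≤ Real.exp (l * ell - 1) := by
      refine h5.trans (Real.exp_le_exp.2 ?_)
      nlinarith [mul_pos hδ0 hl0]
    have h7 : v (sval t ^ l) ≤ v (t Θ) + v (t x1) := by
      have e : sval t ^ l = t Θ + (- t x1) := by rw [htΘ]; ring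
      have := v.add_le (t Θ) (- t x1)
      rw [← e, v.map_neg] at this
      exact this
    rw [hsl] at h7
    have h8 : Real.exp (l * ell - b) ≤ Real.exp (l * ell - 1) :=
      Real.exp_le_exp.2 (by linarith)
    have h9 : 2 * Real.exp (l * ell - 1) ≤ Real.exp (l * ell) := by
      have : Real.exp (l * ell) = Real.exp 1 * Real.exp (l * ell - 1) := by
        rw [← Real.exp_add]; congr 1; ring
      rw [this]
      exact mul_le_mul_of_nonneg_right (by linarith [Real.add_one_le_exp (1 : ℝ)]) (Real.exp_pos _).le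
    linarith

theorem near_of_large {R G : Type*} [CommRing R] [IsDomain R] [Algebra Qbar[X] R]
    [Algebra.IsIntegral Qbar[X] R] [Group G]
    [Fintype G] [MulSemiringAction G R] [SMulCommClass G Qbar[X] R]
    [Algebra.IsInvariant Qbar[X] R G] (w : AbsoluteValue R ℝ) (hw : IsNonarchimedean w)
    (hdeg : ∀ p : Qbar[X], p ≠ 0 → w (algebraMap Qbar[X] R p) = Real.exp p.natDegree)
    (l : ℕ) (Θ : R) (hΘ : w Θ ≤ Real.exp l)
    (h2 : ∀ g : G, wG w g ≠ w → w (g • Θ) ≤ Real.exp ((l : ℝ) - 1)) :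
    ∃ (T : Finset Qbar) (C : ℝ), 0 ≤ C ∧ ∀ v ε b, Adm T v ε b → ∀ t : R →+* Qbar, IsPt t →
      0 < Real.log (v (sval t)) → Real.exp (l * Real.log (v (sval t)) - b) ≤ v (t Θ) →
      Nr w v b C t (1 : G) := by
  classical
  obtain ⟨T, C4, hC4, hT⟩ := bdd_pt Θ
  obtain ⟨C3, hC3, hcau⟩ := cauchy_le (G := G) w hw hdeg
  refine ⟨T, 1 + C4 + C3 * l + C3, by positivity, ?_⟩
  intro v ε b hA t ht hl0 hcl
  set ell : ℝ := Real.log (v (sval t)) with hell
  have hb : 0 ≤ b := le_trans (Nat.cast_nonneg ε) hA.2.1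
  intro x a S J hS0 hx1 hxg hxS
  rw [one_smul] at hx1
  have hwy : ∀ g : G, w (g • (x * Θ ^ J)) ≤ Real.exp (a + l * J) := by
    intro g
    rw [smul_mul', smul_pow', w.map_mul, w.map_pow]
    by_cases hg : wG w g = w
    · rw [← wG_apply w g x, ← wG_apply w g Θ, hg]
      calc w x * w Θ ^ J ≤ Real.exp a * Real.exp l ^ J :=
            mul_le_mul hx1 (pow_le_pow_left₀ (w.nonneg _) hΘ _) (pow_nonneg (w.nonneg _) _)
              (Real.exp_pos _).le
        _ = _ := by rw [← Real.exp_nat_mul, ← Real.exp_add]; congr 1; ring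
    · calc w (g • x) * w (g • Θ) ^ J ≤ Real.exp (a + J) * Real.exp ((l : ℝ) - 1) ^ J :=
            mul_le_mul (hxg g) (pow_le_pow_left₀ (w.nonneg _) (h2 g hg) _)
              (pow_nonneg (w.nonneg _) _) (Real.exp_pos _).le
        _ = _ := by rw [← Real.exp_nat_mul, ← Real.exp_add]; congr 1; ring
  have hS : ∀ t' : R →+* Qbar, IsPt t' → v (sval t') = 1 → v (t' (x * Θ ^ J)) ≤
      Real.exp (S + J * (C4 * b)) := by
    intro t' ht' hs'
    have h1 := hT v ε b hA t' ht'
    rw [hs', Real.log_one, max_self, add_zero] at h1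
    rw [map_mul, map_pow, v.map_mul, v.map_pow, Real.exp_add, Real.exp_nat_mul]
    exact mul_le_mul (hxS t' ht' hs') (pow_le_pow_left₀ (v.nonneg _) h1 _)
      (pow_nonneg (v.nonneg _) _) (Real.exp_pos _).le
  have h3 := hcau v ε hA.1 t ht hl0 (x * Θ ^ J) (a + l * J) (S + J * (C4 * b)) hwy hS
  rw [map_mul, map_pow, v.map_mul, v.map_pow] at h3
  have e1 : Real.exp (l * ell - b) ^ J ≤ v (t Θ) ^ J :=
    pow_le_pow_left₀ (Real.exp_pos _).le hcl _
  have e2 := (mul_le_mul_of_nonneg_left e1 (v.nonneg (t x))).trans h3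
  rw [← Real.exp_nat_mul, ← le_div_iff₀ (Real.exp_pos _), ← Real.exp_sub] at e2
  refine e2.trans (Real.exp_le_exp.2 ?_)
  have h5 : |a + l * J| ≤ |a| + l * J := by
    refine (abs_add_le _ _).trans ?_
    rw [abs_of_nonneg (show (0 : ℝ) ≤ l * J by positivity)]
  have h6 : C3 * (|a + l * J| + 1) * ε ≤ C3 * (|a| + l * J + 1) * b := by
    apply mul_le_mul _ hA.2.1 (Nat.cast_nonneg _) (by positivity)
    exact mul_le_mul_of_nonneg_left (by linarith) hC3
  have hJ0 : (0 : ℝ) ≤ J := Nat.cast_nonneg _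
  have hl' : (0 : ℝ) ≤ l := Nat.cast_nonneg _
  have ha0 : 0 ≤ |a| := abs_nonneg _
  have n1 : 0 ≤ (|a| + 1) * b := by positivity
  have n2 : 0 ≤ C4 * ((|a| + 1) * b) := by positivity
  have n3 : 0 ≤ C3 * l * ((|a| + 1) * b) := by positivity
  have n4 : 0 ≤ C3 * (J * b) := by positivity
  have key : (a + l * J) * ell + (S + J * (C4 * b)) + C3 * (|a| + l * J + 1) * b -
      J * (l * ell - b) ≤ a * ell + S + (1 + C4 + C3 * l + C3) * (J + |a| + 1) * b := by
    have : a * ell + S + (1 + C4 + C3 * l + C3) * (J + |a| + 1) * b -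
      ((a + l * J) * ell + (S + J * (C4 * b)) + C3 * (|a| + l * J + 1) * b -
      J * (l * ell - b)) = (|a| + 1) * b + C4 * ((|a| + 1) * b) + C3 * l * ((|a| + 1) * b)
        + C3 * (J * b) := by ring
    linarith
  linarith

/-- a point with `s` large is near some place at infinity -/
theorem exists_near {R G : Type*} [CommRing R] [IsDomain R] [Algebra Qbar[X] R]
    [FaithfulSMul Qbar[X] R] [Algebra.IsIntegral Qbar[X] R] [Group G]
    [Fintype G] [MulSemiringAction G R] [SMulCommClass G Qbar[X] R]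
    [Algebra.IsInvariant Qbar[X] R G] (w : AbsoluteValue R ℝ) (hw : IsNonarchimedean w)
    (hdeg : ∀ p : Qbar[X], p ≠ 0 → w (algebraMap Qbar[X] R p) = Real.exp p.natDegree) :
    ∃ (T : Finset Qbar) (C : ℝ), 0 ≤ C ∧ ∀ v ε b, Adm T v ε b → ∀ t : R →+* Qbar, IsPt t →
      0 < Real.log (v (sval t)) → C * b ≤ Real.log (v (sval t)) → ∃ γ : G, Nr w v b C t γ := by
  classical
  have hwGna : ∀ g : G, IsNonarchimedean (wG w g) := by
    intro g x y
    rw [wG_apply, wG_apply, wG_apply, smul_add]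
    exact hw _ _
  have hwGdeg : ∀ (g : G) (p : Qbar[X]), p ≠ 0 →
      wG w g (algebraMap Qbar[X] R p) = Real.exp p.natDegree := by
    intro g p hp
    rw [wG_apply, smul_algebraMap, hdeg p hp]
  have hwG1 : wG w (1 : G) = w := by
    ext x
    rw [wG_apply, one_smul]
  obtain ⟨l₀, hl₀⟩ := exists_theta (A := R) (ι := Set.range (fun g : G => wG w g))
    (fun i => i.1) (by rintro ⟨_, g, rfl⟩; exact hwGna g) Subtype.val_injective
    (by rintro ⟨_, g, rfl⟩ p hp; exact hwGdeg g p hp)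
  set l : ℕ := max l₀ 1 with hl
  have hl1 : 1 ≤ l := le_max_right _ _
  obtain ⟨Θ, hΘ1, hΘ2⟩ := hl₀ l (le_max_left _ _) ⟨wG w (1 : G), 1, rfl⟩
  simp only [hwG1] at hΘ1
  have h2 : ∀ g : G, wG w g ≠ w → w (g • Θ) ≤ Real.exp ((l : ℝ) - 1) := by
    intro g hg
    have := hΘ2 ⟨wG w g, g, rfl⟩ (by
      intro h
      apply hg
      have := congrArg Subtype.val h
      simp only [hwG1] at this
      exact this)
    exact this
  have hΘ : w Θ ≤ Real.exp l := by
    have e : Θ = (Θ - algebraMap Qbar[X] R (X ^ l)) + algebraMap Qbar[X] R (X ^ l) := by ring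
    have h3 := hw (Θ - algebraMap Qbar[X] R (X ^ l)) (algebraMap Qbar[X] R (X ^ l))
    rw [← e] at h3
    refine h3.trans (max_le hΘ1.le ?_)
    rw [hdeg _ (pow_ne_zero _ X_ne_zero), natDegree_X_pow]
  obtain ⟨p, hp0, hpd, hpΘ⟩ := trace_poly (G := G) w hw hdeg l hl1 Θ hΘ1 h2
  obtain ⟨δ', hδ', T2, C2, hC2, hlarge⟩ := close_large (G := G) w hw hdeg l Θ hΘ1 hΘ h2
  obtain ⟨T1, C1, hC1, hex⟩ := close_exists (G := G) Θ p hp0 hpΘ δ'
  obtain ⟨T3, C3, hC3, hnear⟩ := near_of_large (G := G) w hw hdeg l Θ hΘ h2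
  refine ⟨T1 ∪ T2 ∪ T3, C1 + C1 / δ' + C2 + C3, by positivity, ?_⟩
  intro v ε b hA t ht hl0 hl1'
  have hb : 0 ≤ b := le_trans (Nat.cast_nonneg ε) hA.2.1
  have hA1 : Adm T1 v ε b := adm_mono (by
    intro c hc; simp [hc]) hA
  have hA2 : Adm T2 v ε b := adm_mono (by
    intro c hc; simp [hc]) hA
  have hA3 : Adm T3 v ε b := adm_mono (by
    intro c hc; simp [hc]) hA
  have p1 : 0 ≤ C1 * b := mul_nonneg hC1 hb
  have p2 : 0 ≤ C1 / δ' * b := mul_nonneg (by positivity) hb
  have p3 : 0 ≤ C2 * b := mul_nonneg hC2 hb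
  have p4 : 0 ≤ C3 * b := mul_nonneg hC3 hb
  have q0 : (C1 + C1 / δ' + C2 + C3) * b = C1 * b + C1 / δ' * b + C2 * b + C3 * b := by ring
  rw [q0] at hl1'
  have q1 : C1 * b ≤ Real.log (v (sval t)) := by linarith
  have q2 : C1 * b ≤ δ' * Real.log (v (sval t)) := by
    have : C1 / δ' * b ≤ Real.log (v (sval t)) := by linarith
    rw [div_mul_eq_mul_div, div_le_iff₀ hδ'] at this
    linarith
  have q3 : C2 * b ≤ Real.log (v (sval t)) := by linarith
  obtain ⟨g, hg⟩ := hex v ε b hA1 t ht hl0 q1 q2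
  rw [hpd, ← tG_apply t g Θ, ← tG_sval t g] at hg
  have hg2 := hlarge v ε b hA2 (tG t g) (tG_isPt t ht g) (by rw [tG_sval]; exact hl0)
    (by rw [tG_sval]; exact q3) hg
  have hg3 := hnear v ε b hA3 (tG t g) (tG_isPt t ht g) (by rw [tG_sval]; exact hl0) hg2
  refine ⟨g⁻¹, ?_⟩
  intro x a S J hS hx hxg hxS
  have h4 := hg3 (g⁻¹ • x) a S J hS (by rw [one_smul]; exact hx)
    (by intro h; rw [← mul_smul]; exact hxg _)
    (by
      intro t' ht' hs'
      rw [← tG_apply]
      exact hxS _ (tG_isPt t' ht' _) (by rw [tG_sval]; exact hs'))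
  rw [tG_sval, tG_apply, smul_inv_smul] at h4
  refine h4.trans (Real.exp_le_exp.2 ?_)
  have : C3 * (J + |a| + 1) * b ≤ (C1 + C1 / δ' + C2 + C3) * (J + |a| + 1) * b := by
    apply mul_le_mul_of_nonneg_right _ hb
    apply mul_le_mul_of_nonneg_right _ (by positivity)
    have : 0 ≤ C1 / δ' := by positivity
    linarith
  linarith

end MNear

export MNear (exists_near)

end Pool.Agent.Helper259.Var
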