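import Mathlib
import Pool.Agent.Helper259.Var.Defs

set_option autoImplicit false

namespace Pool.Agent.Helper259.Var

namespace MUpperNear

open Polynomial Pool.Agent.Helper259.AbsHt

theorem j13979_growth {d : ℕ} (hd : 2 ≤ d) {D : ℕ → ℝ} {M : ℝ} (h0 : |D 0| ≤ M)
    (h1 : ∀ n, |D (n + 1) - d * D n| ≤ M) (n : ℕ) : |D n| ≤ M * (2 * d ^ n) := by
  have hM : 0 ≤ M := (abs_nonneg _).trans h0
  have hd2 : (2 : ℝ) ≤ d := by exact_mod_cast hd
  have key : |D n| ≤ M * (2 * d ^ n - 1) := by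
    induction n with
    | zero => simpa using (by linarith : |D 0| ≤ M * (2 * 1 - 1))
    | succ n ih =>
      have h2 : |D (n + 1)| ≤ |D (n + 1) - d * D n| + |d * D n| := by
        have := abs_add_le (D (n + 1) - d * D n) (d * D n)
        rwa [sub_add_cancel] at this
      have h3 : |(d : ℝ) * D n| = d * |D n| := by
        rw [abs_mul, abs_of_nonneg (by linarith : (0 : ℝ) ≤ d)]
      have h4 : (d : ℝ) * |D n| ≤ d * (M * (2 * d ^ n - 1)) :=
        mul_le_mul_of_nonneg_left ih (by linarith)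
      have h5 : M * (2 * (d : ℝ) ^ (n + 1) - 1) - (d * (M * (2 * d ^ n - 1)) + M) =
          M * (d - 2) := by ring
      have h6 : 0 ≤ M * ((d : ℝ) - 2) := mul_nonneg hM (by linarith)
      have h7 := h1 n
      linarith
  linarith

theorem j13979_le_sup {N : ℕ} (f : Fin (N + 1) → ℝ) (i : Fin (N + 1)) : f i ≤ ⨆ j, f j :=
  le_ciSup (Set.finite_range f).bddAbove i

theorem j13979_le_exp {N : ℕ} (f : Fin (N + 1) → ℝ) (hf : ∃ i, 0 < f i) (i : Fin (N + 1)) :
    f i ≤ Real.exp (Real.log (⨆ j, f j)) := by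
  obtain ⟨j, hj⟩ := hf
  have h1 : 0 < ⨆ j, f j := hj.trans_le (j13979_le_sup f j)
  rw [Real.exp_log h1]
  exact j13979_le_sup f i

/-- upper bound for the iterates near a place at infinity -/
theorem upper_near {R G : Type*} [CommRing R] [IsDomain R] [Algebra Qbar[X] R]
    [Group G] [Fintype G] [MulSemiringAction G R] [SMulCommClass G Qbar[X] R]
    (w : AbsoluteValue R ℝ)
    (N d : ℕ) (hd : 2 ≤ d) (q : ℕ → Fin (N + 1) → R) (hq0 : ∀ n, q n ≠ 0) (M : ℝ)
    (hW : WGrowth G w d q M) (T₀ : Finset Qbar) (C₀ : ℝ) (hC₀ : 0 ≤ C₀)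
    (hV : VGrowth d q T₀ C₀) (C' : ℝ) (hC' : 0 ≤ C') :
    ∃ C : ℝ, 0 ≤ C ∧ ∀ v ε b, Adm T₀ v ε b → ∀ t : R →+* Qbar, IsPt t →
      0 < Real.log (v (sval t)) → ∀ γ : G, Nr w v b C' t γ → ∀ n (g : G),
        Real.log (⨆ i, v (t (g • q n i))) ≤
          Real.log (⨆ i, w ((γ * g) • q n i)) * Real.log (v (sval t)) + C * d ^ n * b := by
  have hM : 0 ≤ M := (abs_nonneg _).trans (hW.1 1)
  have hd1 : (1 : ℝ) ≤ d := by
    have : (2 : ℝ) ≤ d := by exact_mod_cast hd
    linarith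
  refine ⟨2 * C₀ + C' * (6 * M + 2), by positivity, ?_⟩
  intro v ε b hadm t ht _ γ hNr n g
  have hb : 0 ≤ b := (Nat.cast_nonneg ε).trans hadm.2.1
  have hdn : (1 : ℝ) ≤ (d : ℝ) ^ n := one_le_pow₀ hd1
  -- growth at infinity
  have hD : ∀ g : G, |Real.log (⨆ i, w (g • q n i))| ≤ M * (2 * d ^ n) := fun g =>
    j13979_growth hd (D := fun n => Real.log (⨆ i, w (g • q n i))) (hW.1 g) (fun n => hW.2 n g) n
  -- positivity
  have hwpos : ∀ g : G, ∃ i, 0 < w (g • q n i) := by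
    intro g
    obtain ⟨i, hi⟩ := Function.ne_iff.1 (hq0 n)
    refine ⟨i, w.pos ?_⟩
    intro h
    exact hi ((smul_eq_zero_iff_eq g).1 h)
  -- composed points
  have hfix : ∀ (g : G) (p : Qbar[X]), g • (algebraMap Qbar[X] R p) = algebraMap Qbar[X] R p := by
    intro g p
    rw [Algebra.algebraMap_eq_smul_one, smul_comm, smul_one]
  have hcomp : ∀ (t' : R →+* Qbar) (g : G), IsPt t' →
      IsPt (t'.comp (MulSemiringAction.toRingHom G R g)) ∧
      sval (t'.comp (MulSemiringAction.toRingHom G R g)) = sval t' := by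
    intro t' g ht'
    constructor
    · intro c
      show t' (g • algebraMap Qbar[X] R (C c)) = c
      rw [hfix]
      exact ht' c
    · show t' (g • algebraMap Qbar[X] R X) = t' (algebraMap Qbar[X] R X)
      rw [hfix]
  have hvpos : ∀ (t' : R →+* Qbar) (g : G), IsPt t' → ∃ i, 0 < v (t' (g • q n i)) := by
    intro t' g ht'
    obtain ⟨i, hi⟩ := (hV v ε b hadm _ (hcomp t' g ht').1).1 n
    exact ⟨i, v.pos hi⟩
  -- points on the unit circle
  have hunit : ∀ (t' : R →+* Qbar) (g : G), IsPt t' → v (sval t') = 1 → ∀ i,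
      v (t' (g • q n i)) ≤ Real.exp (C₀ * b * (2 * d ^ n)) := by
    intro t' g ht' hv1 i
    have h1 := hV v ε b hadm _ (hcomp t' g ht').1
    rw [(hcomp t' g ht').2, hv1, Real.log_one, max_self, add_zero] at h1
    have h2 := j13979_growth hd
      (D := fun n => Real.log (⨆ i, v ((t'.comp (MulSemiringAction.toRingHom G R g)) (q n i))))
      h1.2.1 h1.2.2 n
    refine (j13979_le_exp (fun i => v (t' (g • q n i))) (hvpos t' g ht') i).trans ?_
    exact Real.exp_le_exp.2 ((le_abs_self _).trans h2)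
  set a : ℝ := Real.log (⨆ i, w ((γ * g) • q n i)) with ha
  have haM : |a| ≤ M * (2 * d ^ n) := hD (γ * g)
  set J : ℕ := ⌈4 * M * (d : ℝ) ^ n⌉₊ with hJ
  have hJ1 : 4 * M * (d : ℝ) ^ n ≤ J := Nat.le_ceil _
  have hJ2 : (J : ℝ) ≤ 4 * M * (d : ℝ) ^ n + 1 := (Nat.ceil_lt_add_one (by positivity)).le
  have hmain : ∀ i, v (t (g • q n i)) ≤
      Real.exp (a * Real.log (v (sval t)) + (2 * C₀ + C' * (6 * M + 2)) * d ^ n * b) := by
    intro i
    have h1 := hNr (g • q n i) a (C₀ * b * (2 * d ^ n)) J (by positivity) ?_ ?_ ?_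
    · refine h1.trans (Real.exp_le_exp.2 ?_)
      have h2 : (J : ℝ) + |a| + 1 ≤ (6 * M + 2) * (d : ℝ) ^ n := by
        have e1 : (6 * M + 2) * (d : ℝ) ^ n = 4 * M * (d : ℝ) ^ n + M * (2 * d ^ n) +
          2 * (d : ℝ) ^ n := by ring
        rw [e1]
        linarith
      have h3 : C' * ((J : ℝ) + |a| + 1) * b ≤ C' * ((6 * M + 2) * (d : ℝ) ^ n) * b :=
        mul_le_mul_of_nonneg_right (mul_le_mul_of_nonneg_left h2 hC') hb
      have e2 : (2 * C₀ + C' * (6 * M + 2)) * (d : ℝ) ^ n * b = C₀ * b * (2 * d ^ n) +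
          C' * ((6 * M + 2) * (d : ℝ) ^ n) * b := by ring
      rw [e2]
      linarith
    · rw [← mul_smul]
      exact j13979_le_exp (fun i => w ((γ * g) • q n i)) (hwpos _) i
    · intro g'
      rw [← mul_smul]
      refine (j13979_le_exp (fun i => w ((g' * g) • q n i)) (hwpos _) i).trans
        (Real.exp_le_exp.2 ?_)
      have h2 := (abs_le.1 (hD (g' * g))).2
      have h3 := (abs_le.1 haM).1
      have e1 : 4 * M * (d : ℝ) ^ n = M * (2 * d ^ n) + M * (2 * d ^ n) := by ring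
      linarith
    · intro t' ht' hv1
      exact hunit t' g ht' hv1 i
  obtain ⟨i, hi⟩ := hvpos t g ht
  have hpos : 0 < ⨆ i, v (t (g • q n i)) :=
    hi.trans_le (j13979_le_sup (fun i => v (t (g • q n i))) i)
  rw [Real.log_le_iff_le_exp hpos]
  exact ciSup_le hmain

end MUpperNear

export MUpperNear (upper_near)

end Pool.Agent.Helper259.Var
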