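import Mathlib
import Pool.Agent.Helper259.Var.Near
import Pool.Agent.Helper259.Var.DefectMain
import Pool.Agent.Helper259.Var.UpperNear

set_option autoImplicit false

namespace Pool.Agent.Helper259.Var

namespace MLocalMain

open Polynomial Pool.Agent.Helper259.AbsHt

theorem j13980_adm {T T' : Finset Qbar} (h : T ⊆ T') {v : AbsoluteValue Qbar ℝ} {ε : ℕ} {b : ℝ}
    (hA : Adm T' v ε b) : Adm T v ε b :=
  ⟨hA.1, hA.2.1, fun c hc => hA.2.2 c (h hc)⟩

theorem j13980_seq {d : ℕ} (hd : 2 ≤ d) (a : ℕ → ℝ) {B : ℝ} (hB : 0 ≤ B) (h0 : |a 0| ≤ B)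
    (hs : ∀ n, |a (n + 1) - d * a n| ≤ B) (n : ℕ) : |a n| ≤ (2 * (d : ℝ) ^ n - 1) * B := by
  have hd' : (2 : ℝ) ≤ d := by exact_mod_cast hd
  induction n with
  | zero =>
    rw [pow_zero]
    linarith
  | succ n ih =>
    have h1 : a (n + 1) = (a (n + 1) - d * a n) + d * a n := by ring
    have h2 : |a (n + 1)| ≤ B + d * |a n| := by
      calc |a (n + 1)| = |(a (n + 1) - d * a n) + d * a n| := by rw [← h1]
        _ ≤ |a (n + 1) - d * a n| + |d * a n| := abs_add_le _ _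
        _ = |a (n + 1) - d * a n| + d * |a n| := by
          rw [abs_mul, abs_of_nonneg (by linarith : (0 : ℝ) ≤ d)]
        _ ≤ B + d * |a n| := by linarith [hs n]
    have h3 : (d : ℝ) * |a n| ≤ d * ((2 * (d : ℝ) ^ n - 1) * B) :=
      mul_le_mul_of_nonneg_left ih (by linarith)
    have h4 : (2 * (d : ℝ) ^ (n + 1) - 1) * B - (B + d * ((2 * (d : ℝ) ^ n - 1) * B)) =
        (d - 2) * B := by rw [pow_succ]; ring
    have h5 : 0 ≤ ((d : ℝ) - 2) * B := mul_nonneg (by linarith) hB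
    linarith

theorem j13980_sup {m : ℕ} {W : Fin m → Qbar} (hW : W ≠ 0) (v : AbsoluteValue Qbar ℝ) {x : ℝ}
    (h : ∀ i, v (W i) ≤ Real.exp x) : -x ≤ -Real.log (⨆ i, v (W i)) := by
  obtain ⟨i, hi⟩ := Function.ne_iff.1 hW
  have : Nonempty (Fin m) := ⟨i⟩
  have h1 : 0 < ⨆ i, v (W i) :=
    lt_of_lt_of_le (v.pos hi) (le_ciSup (f := fun i => v (W i)) (Set.finite_range _).bddAbove i)
  have h2 : ⨆ i, v (W i) ≤ Real.exp x := ciSup_le h
  have h3 := Real.log_le_log h1 h2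
  rw [Real.log_exp] at h3
  linarith

theorem j13980_numA {k C2 C3 C D L l x : ℝ} (hC0 : 0 ≤ C) (e2 : C3 + 1 ≤ C)
    (e3 : k * C2 ≤ C) (e4 : C2 ≤ C) (hD0 : 0 ≤ D) (hl0 : 0 ≤ l) (hLn : -(C3 * D) ≤ L)
    (hone : x ≤ C3 * (L + C3 * D) + C3 * l + k * (C2 * D)) (hlow : -(C2 * D) ≤ x) :
    |x| ≤ C * (L + C * D) + C * l := by
  have hCD : 0 ≤ C * D := mul_nonneg hC0 hD0
  have f1 : 1 * (C * D) ≤ (C - C3) * (C * D) :=
    mul_le_mul_of_nonneg_right (by linarith) hCD
  have f2 : (C - C3) * (-(C3 * D)) ≤ (C - C3) * L :=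
    mul_le_mul_of_nonneg_left hLn (by linarith)
  have f3 : k * C2 * D ≤ C * D := mul_le_mul_of_nonneg_right e3 hD0
  have f4 : C2 * D ≤ C * D := mul_le_mul_of_nonneg_right e4 hD0
  have f5 : C3 * l ≤ C * l := mul_le_mul_of_nonneg_right (by linarith) hl0
  have f6 : 0 ≤ C * l := mul_nonneg hC0 hl0
  have f7 : C * (-(C3 * D)) ≤ C * L := mul_le_mul_of_nonneg_left hLn hC0
  rw [abs_le]
  constructor
  · have h1 : C * (L + C * D) = C * L + C * (C * D) := by ring
    have h2 : (C - C3) * (C * D) = C * (C * D) + C * (-(C3 * D)) := by ring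
    linarith
  · have h1 : C * (L + C * D) - C3 * (L + C3 * D) =
        (C - C3) * L - (C - C3) * (-(C3 * D)) + (C - C3) * (C * D) := by ring
    have h2 : k * (C2 * D) = k * C2 * D := by ring
    linarith

theorem j13980_numB {C₀ C3 C P b mx L a : ℝ} (hC₀ : 0 ≤ C₀) (hC0 : 0 ≤ C) (e5 : C3 + 4 * C₀ ≤ C)
    (e6 : 1 ≤ C) (hP : 0 ≤ P) (hb : 0 ≤ b) (hm0 : 0 ≤ mx) (hm : mx ≤ C * b)
    (hL : -(C3 * (P * b)) ≤ L) (h1 : |a| ≤ (2 * P - 1) * (C₀ * (b + mx))) :
    |a| ≤ C * (L + C * P * b) := by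
  have hB : 0 ≤ C₀ * (b + mx) := mul_nonneg hC₀ (add_nonneg hb hm0)
  have h2 : C₀ * (b + mx) ≤ C₀ * (b + C * b) :=
    mul_le_mul_of_nonneg_left (by linarith) hC₀
  have h3 : (2 * P - 1) * (C₀ * (b + mx)) ≤ 2 * P * (C₀ * (b + C * b)) := by
    calc (2 * P - 1) * (C₀ * (b + mx)) ≤ 2 * P * (C₀ * (b + mx)) :=
          mul_le_mul_of_nonneg_right (by linarith) hB
      _ ≤ 2 * P * (C₀ * (b + C * b)) := mul_le_mul_of_nonneg_left h2 (by linarith)
  have hD0 : 0 ≤ P * b := mul_nonneg hP hb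
  have h4 : 2 * P * (C₀ * (b + C * b)) = 2 * C₀ * (1 + C) * (P * b) := by ring
  have h5 : C * P * b = C * (P * b) := by ring
  rw [h5]
  have g0 : C₀ * 1 ≤ C₀ * C := mul_le_mul_of_nonneg_left e6 hC₀
  have g1 : 2 * C₀ * (1 + C) ≤ C * (4 * C₀) := by
    have e1 : 2 * C₀ * (1 + C) = 2 * (C₀ * 1) + 2 * (C₀ * C) := by ring
    have e2 : C * (4 * C₀) = 4 * (C₀ * C) := by ring
    linarith
  have g2 : C * (4 * C₀) ≤ C * (C - C3) := mul_le_mul_of_nonneg_left (by linarith) hC0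
  have g3 := mul_le_mul_of_nonneg_right (g1.trans g2) hD0
  have h7 : C * (-(C3 * (P * b)) + C * (P * b)) ≤ C * (L + C * (P * b)) :=
    mul_le_mul_of_nonneg_left (by linarith) hC0
  have h8 : C * (-(C3 * (P * b)) + C * (P * b)) = C * (C - C3) * (P * b) := by ring
  linarith

theorem j13980_sum {G : Type*} [Fintype G] [One G] (f : G → ℝ) {e U : ℝ} (he : 0 ≤ e)
    (hlow : ∀ g, -e ≤ f g) (hsum : ∑ g, f g ≤ U) : f 1 ≤ U + (Fintype.card G : ℝ) * e := by
  classical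
  have h1 : ∑ g : G, (f g + e) = ∑ g : G, f g + (Fintype.card G : ℝ) * e := by
    rw [Finset.sum_add_distrib, Finset.sum_const, Finset.card_univ, nsmul_eq_mul]
  have h2 : f 1 + e ≤ ∑ g : G, (f g + e) :=
    Finset.single_le_sum (f := fun g : G => f g + e)
      (fun g _ => by
        have := hlow g
        change 0 ≤ f g + e
        linarith) (Finset.mem_univ (1 : G))
  linarith

/-- the local comparison theorem -/
theorem local_main {R G : Type*} [CommRing R] [IsDomain R] [Algebra Qbar[X] R]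
    [FaithfulSMul Qbar[X] R] [Algebra.IsIntegral Qbar[X] R] [Group G]
    [Fintype G] [MulSemiringAction G R] [SMulCommClass G Qbar[X] R]
    [Algebra.IsInvariant Qbar[X] R G] (w : AbsoluteValue R ℝ) (hw : IsNonarchimedean w)
    (hdeg : ∀ p : Qbar[X], p ≠ 0 → w (algebraMap Qbar[X] R p) = Real.exp p.natDegree)
    (N d : ℕ) (hd : 2 ≤ d) (q : ℕ → Fin (N + 1) → R) (hq0 : ∀ n, q n ≠ 0) (M : ℝ)
    (hW : WGrowth G w d q M) (T₀ : Finset Qbar) (C₀ : ℝ) (hC₀ : 0 ≤ C₀)
    (hV : VGrowth d q T₀ C₀) :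
    ∃ (m : ℕ) (W : ℕ → Fin m → Qbar), (∀ n, W n ≠ 0) ∧ ∃ (T : Finset Qbar) (C : ℝ), 0 ≤ C ∧
      ∀ v ε b, Adm T v ε b → (∀ n, 0 ≤ -Real.log (⨆ i, v (W n i)) + C * d ^ n * b) ∧
        ∀ t : R →+* Qbar, IsPt t →
        (0 < Real.log (v (sval t)) ∧ C * b ≤ Real.log (v (sval t)) ∧ ∃ γ : G, Nr w v b C t γ ∧
          ∀ n, |Real.log (⨆ i, w (γ • q n i)) * Real.log (v (sval t)) -
              Real.log (⨆ i, v (t (q n i)))| ≤
            C * (-Real.log (⨆ i, v (W n i)) + C * d ^ n * b) + C * Real.log (v (sval t))) ∨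
        (max 0 (Real.log (v (sval t))) ≤ C * b ∧
          ∀ n, |Real.log (⨆ i, v (t (q n i)))| ≤
            C * (-Real.log (⨆ i, v (W n i)) + C * d ^ n * b)) := by
  classical
  obtain ⟨T1, C1, hC1, hnear⟩ := exists_near (G := G) w hw hdeg
  obtain ⟨C2, hC2, hup⟩ := upper_near w N d hd q hq0 M hW T₀ C₀ hC₀ hV C1 hC1
  obtain ⟨m, W, hWne, T3, C3, hC3, hdef⟩ := defect_main w hw hdeg N d hd q hq0 M hW T₀ C₀ hC₀ hV
  set k : ℝ := (Fintype.card G : ℝ) with hk
  have hk0 : 0 ≤ k := Nat.cast_nonneg _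
  have hkC2 : 0 ≤ k * C2 := mul_nonneg hk0 hC2
  set C : ℝ := C1 + C3 + 4 * C₀ + 1 + k * C2 + C2 with hCdef
  have e1 : C1 ≤ C := by rw [hCdef]; linarith
  have e2 : C3 + 1 ≤ C := by rw [hCdef]; linarith
  have e3 : k * C2 ≤ C := by rw [hCdef]; linarith
  have e4 : C2 ≤ C := by rw [hCdef]; linarith
  have e5 : C3 + 4 * C₀ ≤ C := by rw [hCdef]; linarith
  have e6 : 1 ≤ C := by linarith
  have hC0 : 0 ≤ C := by linarith
  refine ⟨m, W, hWne, T₀ ∪ T1 ∪ T3, C, hC0, ?_⟩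
  intro v ε b hA
  have hA0 : Adm T₀ v ε b :=
    j13980_adm (Finset.subset_union_left.trans Finset.subset_union_left) hA
  have hA1 : Adm T1 v ε b :=
    j13980_adm (Finset.subset_union_right.trans Finset.subset_union_left) hA
  have hA3 : Adm T3 v ε b := j13980_adm Finset.subset_union_right hA
  have hb : 0 ≤ b := le_trans (Nat.cast_nonneg ε) hA.2.1
  obtain ⟨hWle, hdef'⟩ := hdef v ε b hA3
  have hD : ∀ n : ℕ, 0 ≤ (d : ℝ) ^ n * b := fun n => by positivity
  have hL : ∀ n, -(C3 * ((d : ℝ) ^ n * b)) ≤ -Real.log (⨆ i, v (W n i)) := by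
    intro n
    have := j13980_sup (hWne n) v (hWle n)
    rwa [mul_assoc] at this
  refine ⟨?_, ?_⟩
  · intro n
    have h1 := hL n
    have h2 : C3 * ((d : ℝ) ^ n * b) ≤ C * ((d : ℝ) ^ n * b) :=
      mul_le_mul_of_nonneg_right (by linarith) (hD n)
    have h3 : C * (d : ℝ) ^ n * b = C * ((d : ℝ) ^ n * b) := by ring
    linarith
  · intro t ht
    set l : ℝ := Real.log (v (sval t)) with hl
    by_cases hcase : 0 < l ∧ C * b ≤ l
    · left
      obtain ⟨hl0, hlC⟩ := hcase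
      have hC1b : C1 * b ≤ C * b := mul_le_mul_of_nonneg_right e1 hb
      have hC3b : C3 * b ≤ C * b := mul_le_mul_of_nonneg_right (by linarith) hb
      obtain ⟨γ, hγ⟩ := hnear v ε b hA1 t ht hl0 (hC1b.trans hlC)
      refine ⟨hl0, hlC, γ, ?_, ?_⟩
      · intro x a S J hS h1 h2 h3
        refine (hγ x a S J hS h1 h2 h3).trans (Real.exp_le_exp.2 ?_)
        have h4 : C1 * ((J : ℝ) + |a| + 1) * b ≤ C * ((J : ℝ) + |a| + 1) * b := by
          gcongr
        linarith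
      · intro n
        have hlow : ∀ g : G, -(C2 * ((d : ℝ) ^ n * b)) ≤
            Real.log (⨆ i, w ((γ * g) • q n i)) * l - Real.log (⨆ i, v (t (g • q n i))) := by
          intro g
          have h1 := hup v ε b hA0 t ht hl0 γ hγ n g
          have h2 : C2 * (d : ℝ) ^ n * b = C2 * ((d : ℝ) ^ n * b) := by ring
          rw [h2] at h1
          linarith
        have hsum : ∑ g : G, (Real.log (⨆ i, w ((γ * g) • q n i)) * l -
            Real.log (⨆ i, v (t (g • q n i)))) ≤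
            C3 * (-Real.log (⨆ i, v (W n i)) + C3 * ((d : ℝ) ^ n * b)) + C3 * l := by
          have h1 := hdef' t ht hl0 (hC3b.trans hlC) n
          rw [Finset.sum_sub_distrib] at h1 ⊢
          have h2 : ∑ g : G, Real.log (⨆ i, w ((γ * g) • q n i)) * l =
              ∑ g : G, Real.log (⨆ i, w (g • q n i)) * l :=
            Equiv.sum_comp (Equiv.mulLeft γ) (fun g => Real.log (⨆ i, w (g • q n i)) * l)
          rw [h2]
          have h3 : C3 * (d : ℝ) ^ n * b = C3 * ((d : ℝ) ^ n * b) := by ring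
          rw [h3] at h1
          exact h1
        have hone : Real.log (⨆ i, w ((γ * 1) • q n i)) * l -
            Real.log (⨆ i, v (t ((1 : G) • q n i))) ≤
            C3 * (-Real.log (⨆ i, v (W n i)) + C3 * ((d : ℝ) ^ n * b)) + C3 * l +
              k * (C2 * ((d : ℝ) ^ n * b)) := by
          exact j13980_sum (fun g : G => Real.log (⨆ i, w ((γ * g) • q n i)) * l -
            Real.log (⨆ i, v (t (g • q n i)))) (mul_nonneg hC2 (hD n)) hlow hsum
        have hlow1 := hlow 1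
        simp only [mul_one, one_smul] at hone hlow1
        set D : ℝ := (d : ℝ) ^ n * b with hDdef
        have hD0 : 0 ≤ D := hD n
        set L : ℝ := -Real.log (⨆ i, v (W n i)) with hLdef
        have hLn : -(C3 * D) ≤ L := hL n
        have h3 : C * (d : ℝ) ^ n * b = C * D := by rw [hDdef]; ring
        rw [h3]
        exact j13980_numA hC0 e2 e3 e4 hD0 hl0.le hLn hone hlow1
    · right
      have hmax : max 0 l ≤ C * b := by
        have hCb : 0 ≤ C * b := mul_nonneg hC0 hb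
        refine max_le hCb ?_
        by_contra hlt
        have hlt := not_le.1 hlt
        exact hcase ⟨lt_of_le_of_lt hCb hlt, hlt.le⟩
      refine ⟨hmax, fun n => ?_⟩
      obtain ⟨_, hv0, hvs⟩ := hV v ε b hA0 t ht
      rw [← hl] at hv0 hvs
      have hB : 0 ≤ C₀ * (b + max 0 l) :=
        mul_nonneg hC₀ (add_nonneg hb (le_max_left _ _))
      have h1 := j13980_seq hd (fun n => Real.log (⨆ i, v (t (q n i)))) hB hv0 hvs n
      have h1' : |Real.log (⨆ i, v (t (q n i)))| ≤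
        (2 * (d : ℝ) ^ n - 1) * (C₀ * (b + max 0 l)) := h1
      exact j13980_numB hC₀ hC0 e5 e6 (by positivity) hb (le_max_left _ _) hmax (hL n) h1'

end MLocalMain

export MLocalMain (local_main)

end Pool.Agent.Helper259.Var
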