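import Mathlib
import Pool.Agent.Helper259.Var.Fix
import Pool.Agent.Helper259.Var.LocalMain
import Pool.Agent.Helper259.Var.Tel

set_option autoImplicit false

namespace Pool.Agent.Helper259.Var

namespace MLocalPhi

open Polynomial Pool.Agent.Helper259.AbsHt

theorem _root_.Pool.Agent.Helper259.Var.Adm.mono' {T T' : Finset Qbar} (hT : T' ⊆ T) {v : AbsoluteValue Qbar ℝ} {ε : ℕ} {b : ℝ}
    (h : Adm T v ε b) : Adm T' v ε b :=
  ⟨h.1, h.2.1, fun c hc => h.2.2 c (hT hc)⟩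

/-- comparison of logarithms of suprema -/
theorem sup_compare {k : ℕ} (a u : Fin (k + 1) → ℝ) (l e : ℝ) (hl : 0 < l)
    (ha : ∀ i, 0 ≤ a i) (hane : ∃ i, a i ≠ 0)
    (hu0 : ∀ i, a i = 0 → u i = 0)
    (h : ∀ i, a i ≠ 0 → Real.exp (Real.log (a i) * l - e) ≤ u i ∧
      u i ≤ Real.exp (Real.log (a i) * l + e)) :
    |Real.log (⨆ i, u i) - Real.log (⨆ i, a i) * l| ≤ e := by
  have hbu : BddAbove (Set.range u) := (Set.finite_range u).bddAbove
  have hba : BddAbove (Set.range a) := (Set.finite_range a).bddAbove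
  obtain ⟨i0, hi0⟩ := exists_eq_ciSup_of_finite (f := a)
  obtain ⟨i1, hi1⟩ := hane
  have hpos1 : 0 < a i1 := lt_of_le_of_ne (ha i1) (Ne.symm hi1)
  have hle1 : a i1 ≤ ⨆ i, a i := le_ciSup hba i1
  have hspos : 0 < ⨆ i, a i := lt_of_lt_of_le hpos1 hle1
  have hi0pos : 0 < a i0 := by rw [hi0]; exact hspos
  have h0 := h i0 hi0pos.ne'
  have hu1 : Real.exp (Real.log (⨆ i, a i) * l - e) ≤ ⨆ i, u i := by
    rw [← hi0]
    exact h0.1.trans (le_ciSup hbu i0)
  have hu2 : ⨆ i, u i ≤ Real.exp (Real.log (⨆ i, a i) * l + e) := by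
    apply ciSup_le
    intro i
    by_cases hi : a i = 0
    · rw [hu0 i hi]
      exact (Real.exp_pos _).le
    · refine (h i hi).2.trans ?_
      apply Real.exp_le_exp.2
      have h3 : Real.log (a i) ≤ Real.log (⨆ i, a i) :=
        Real.log_le_log (lt_of_le_of_ne (ha i) (Ne.symm hi)) (le_ciSup hba i)
      nlinarith
  have hupos : 0 < ⨆ i, u i := lt_of_lt_of_le (Real.exp_pos _) hu1
  have h4 : Real.log (⨆ i, a i) * l - e ≤ Real.log (⨆ i, u i) := by
    have := Real.log_le_log (Real.exp_pos _) hu1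
    rwa [Real.log_exp] at this
  have h5 : Real.log (⨆ i, u i) ≤ Real.log (⨆ i, a i) * l + e := by
    have := Real.log_le_log hupos hu2
    rwa [Real.log_exp] at this
  rw [abs_le]
  constructor <;> linarith

theorem growth_bound (d : ℕ) (hd : 2 ≤ d) (Q : ℕ → ℝ) (E : ℝ) (hE : 0 ≤ E) (h0 : |Q 0| ≤ E)
    (h1 : ∀ n, |Q (n + 1) - d * Q n| ≤ E) (n : ℕ) : |Q n| ≤ 2 * (d : ℝ) ^ n * E := by
  have hd' : (2 : ℝ) ≤ d := by exact_mod_cast hd
  have key : ∀ n, |Q n| ≤ (2 * (d : ℝ) ^ n - 1) * E := by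
    intro n
    induction n with
    | zero => simpa using (by linarith : |Q 0| ≤ (2 * 1 - 1) * E)
    | succ n ih =>
      have h2 := h1 n
      have h3 : |Q (n + 1)| ≤ |Q (n + 1) - d * Q n| + |d * Q n| := by
        have := abs_add_le (Q (n + 1) - d * Q n) (d * Q n)
        rwa [sub_add_cancel] at this
      rw [abs_mul, abs_of_nonneg (by linarith : (0 : ℝ) ≤ d)] at h3
      have h4 : (d : ℝ) * |Q n| ≤ d * ((2 * (d : ℝ) ^ n - 1) * E) :=
        mul_le_mul_of_nonneg_left ih (by linarith)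
      have h5 : (d : ℝ) * E ≥ 2 * E := mul_le_mul_of_nonneg_right hd' hE
      rw [pow_succ]
      nlinarith
  have := key n
  nlinarith

/-- local comparison with a real combination of fixed vectors of functions -/
theorem local_phi {R G : Type*} [CommRing R] [IsDomain R] [Algebra Qbar[X] R]
    [FaithfulSMul Qbar[X] R] [Algebra.IsIntegral Qbar[X] R] [Group G]
    [Fintype G] [MulSemiringAction G R] [SMulCommClass G Qbar[X] R]
    [Algebra.IsInvariant Qbar[X] R G] (w : AbsoluteValue R ℝ) (hw : IsNonarchimedean w)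
    (hdeg : ∀ p : Qbar[X], p ≠ 0 → w (algebraMap Qbar[X] R p) = Real.exp p.natDegree)
    (N d : ℕ) (hd : 2 ≤ d) (q : ℕ → Fin (N + 1) → R) (hq0 : ∀ n, q n ≠ 0) (M : ℝ)
    (hW : WGrowth G w d q M) (T₀ : Finset Qbar) (C₀ : ℝ) (hC₀ : 0 ≤ C₀)
    (hV : VGrowth d q T₀ C₀) {r k : ℕ} (φ : Fin r → Fin (k + 1) → R) (c : Fin r → ℝ)
    (hφ0 : ∀ j, φ j ≠ 0)
    (hφ : ∀ v ε b, Adm T₀ v ε b → ∀ t : R →+* Qbar, IsPt t → ∀ j, (∃ i, t (φ j i) ≠ 0) ∧
      |Real.log (⨆ i, v (t (φ j i)))| ≤ C₀ * (b + max 0 (Real.log (v (sval t)))))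
    (hrep : ∀ γ : G, Filter.Tendsto
      (fun n => Real.log (⨆ i, w (γ • q n i)) / (d : ℝ) ^ n) Filter.atTop
      (nhds (∑ j, c j * Real.log (⨆ i, w (γ • φ j i))))) :
    ∃ (m : ℕ) (W : ℕ → Fin m → Qbar), (∀ n, W n ≠ 0) ∧ ∃ (T : Finset Qbar) (C : ℝ), 0 ≤ C ∧
      ∀ v ε b, Adm T v ε b → ∀ t : R →+* Qbar, IsPt t → ∀ n,
        |Real.log (⨆ i, v (t (q n i))) - d ^ n * ∑ j, c j * Real.log (⨆ i, v (t (φ j i)))| ≤
          C * (-Real.log (⨆ i, v (W n i)) + C * d ^ n * b) + C * max 0 (Real.log (v (sval t))) := by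
  classical
  obtain ⟨m, W, hW0, T1, C1, hC1, hmain⟩ := local_main w hw hdeg N d hd q hq0 M hW T₀ C₀ hC₀ hV
  have hfix : ∀ j i, ∃ (T : Finset Qbar) (C : ℝ), 0 ≤ C ∧ (φ j i ≠ 0 →
      ∀ v ε b, Adm T v ε b → ∀ t : R →+* Qbar, IsPt t →
      0 < Real.log (v (sval t)) → C * b ≤ Real.log (v (sval t)) → ∀ γ : G, Nr w v b C1 t γ →
      Real.exp (Real.log (w (γ • φ j i)) * Real.log (v (sval t)) - C * b) ≤ v (t (φ j i)) ∧
      v (t (φ j i)) ≤ Real.exp (Real.log (w (γ • φ j i)) * Real.log (v (sval t)) + C * b)) := by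
    intro j i
    by_cases h0 : φ j i = 0
    · exact ⟨∅, 0, le_rfl, fun h => absurd h0 h⟩
    · obtain ⟨T, C, hC, h⟩ := fix_near (G := G) w hw hdeg (φ j i) h0 C1 hC1
      exact ⟨T, C, hC, fun _ => h⟩
  choose Tf Cf hCf0 hCf using hfix
  set C2 : ℝ := C1 + ∑ j, ∑ i, Cf j i with hC2
  have hCfle : ∀ j i, Cf j i ≤ C2 := by
    intro j i
    have h1 : Cf j i ≤ ∑ i, Cf j i :=
      Finset.single_le_sum (f := fun i => Cf j i) (fun i _ => hCf0 j i) (Finset.mem_univ i)
    have h2 : ∑ i, Cf j i ≤ ∑ j, ∑ i, Cf j i :=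
      Finset.single_le_sum (f := fun j => ∑ i, Cf j i)
        (fun j _ => Finset.sum_nonneg fun i _ => hCf0 j i) (Finset.mem_univ j)
    linarith
  have hsum0 : 0 ≤ ∑ j, ∑ i, Cf j i :=
    Finset.sum_nonneg fun j _ => Finset.sum_nonneg fun i _ => hCf0 j i
  have hC12 : C1 ≤ C2 := by linarith
  have hC20 : 0 ≤ C2 := hC1.trans hC12
  set S : ℝ := ∑ j, |c j| with hS
  have hS0 : 0 ≤ S := Finset.sum_nonneg fun j _ => abs_nonneg _
  have hM0 : 0 ≤ M := (abs_nonneg _).trans (hW.1 1)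
  set K : ℝ := C₀ * (1 + C2) * (2 + S) with hK
  have hK0 : 0 ≤ K := by positivity
  set C : ℝ := C1 + M + S * C2 + K + 1 with hC
  have hSC : 0 ≤ S * C2 := mul_nonneg hS0 hC20
  have hC0 : 0 ≤ C := by positivity
  refine ⟨m, W, hW0, T₀ ∪ T1 ∪ Finset.univ.biUnion fun j => Finset.univ.biUnion fun i => Tf j i,
    C, hC0, ?_⟩
  intro v ε b hA t ht n
  have hA0 : Adm T₀ v ε b := hA.mono' (fun x hx =>
    Finset.mem_union_left _ (Finset.mem_union_left _ hx))
  have hA1 : Adm T1 v ε b := hA.mono' (fun x hx =>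
    Finset.mem_union_left _ (Finset.mem_union_right _ hx))
  have hAf : ∀ j i, Adm (Tf j i) v ε b := fun j i => hA.mono' (fun x hx => by
    refine Finset.mem_union_right _ ?_
    rw [Finset.mem_biUnion]
    refine ⟨j, Finset.mem_univ _, ?_⟩
    rw [Finset.mem_biUnion]
    exact ⟨i, Finset.mem_univ _, hx⟩)
  have hb : 0 ≤ b := (Nat.cast_nonneg ε).trans hA.2.1
  set l := Real.log (v (sval t)) with hl
  obtain ⟨hWn, hmt⟩ := hmain v ε b hA1
  have hWn' := hWn n
  set ω : ℝ := -Real.log (⨆ i, v (W n i)) with hω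
  have hdpos : (0 : ℝ) < (d : ℝ) ^ n := by
    have : (0 : ℝ) < d := by exact_mod_cast (by omega : 0 < d)
    positivity
  -- lower bound for the right hand side
  have hdb : 0 ≤ (d : ℝ) ^ n * b := mul_nonneg hdpos.le hb
  have hrhs : C1 * (ω + C1 * (d : ℝ) ^ n * b) + (S * C2 + K) * ((d : ℝ) ^ n * b) ≤
      C * (ω + C * (d : ℝ) ^ n * b) := by
    have e1 : C * (ω + C * (d : ℝ) ^ n * b) =
        C * (ω + C1 * (d : ℝ) ^ n * b) + C * (C - C1) * ((d : ℝ) ^ n * b) := by ring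
    rw [e1]
    have h1 : C1 * (ω + C1 * (d : ℝ) ^ n * b) ≤ C * (ω + C1 * (d : ℝ) ^ n * b) :=
      mul_le_mul_of_nonneg_right (by rw [hC]; linarith) hWn'
    have h2 : S * C2 + K ≤ C * (C - C1) := by
      have h3 : 1 ≤ C := by rw [hC]; linarith
      have h4 : S * C2 + K ≤ C - C1 := by rw [hC]; linarith
      have h5 : 0 ≤ C - C1 := by linarith
      nlinarith
    have h3 := mul_le_mul_of_nonneg_right h2 hdb
    linarith
  have hml0 : 0 ≤ max 0 l := le_max_left _ _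
  -- the far case
  have far : max 0 l ≤ C2 * b →
      |Real.log (⨆ i, v (t (q n i))) - d ^ n * ∑ j, c j * Real.log (⨆ i, v (t (φ j i)))| ≤
          C * (ω + C * d ^ n * b) + C * max 0 l := by
    intro hmax
    obtain ⟨-, hv0, hv1⟩ := hV v ε b hA0 t ht
    have hE0 : 0 ≤ C₀ * (b + max 0 l) := mul_nonneg hC₀ (add_nonneg hb hml0)
    have hE : C₀ * (b + max 0 l) ≤ C₀ * (1 + C2) * b := by
      have : b + max 0 l ≤ (1 + C2) * b := by linarith
      have := mul_le_mul_of_nonneg_left this hC₀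
      linarith
    have hQ := growth_bound d hd (fun n => Real.log (⨆ i, v (t (q n i)))) _ hE0 hv0 hv1 n
    have hQ' : |Real.log (⨆ i, v (t (q n i)))| ≤ 2 * (d : ℝ) ^ n * (C₀ * (1 + C2) * b) :=
      hQ.trans (mul_le_mul_of_nonneg_left hE (by positivity))
    have hP : ∀ j, |Real.log (⨆ i, v (t (φ j i)))| ≤ C₀ * (1 + C2) * b := fun j =>
      (hφ v ε b hA0 t ht j).2.trans hE
    have hsumP : |∑ j, c j * Real.log (⨆ i, v (t (φ j i)))| ≤ S * (C₀ * (1 + C2) * b) := by
      refine (Finset.abs_sum_le_sum_abs _ _).trans ?_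
      rw [hS, Finset.sum_mul]
      refine Finset.sum_le_sum fun j _ => ?_
      rw [abs_mul]
      exact mul_le_mul_of_nonneg_left (hP j) (abs_nonneg _)
    have h1 : |Real.log (⨆ i, v (t (q n i))) - d ^ n * ∑ j, c j * Real.log (⨆ i, v (t (φ j i)))| ≤
        2 * (d : ℝ) ^ n * (C₀ * (1 + C2) * b) + d ^ n * (S * (C₀ * (1 + C2) * b)) := by
      refine (abs_sub _ _).trans ?_
      rw [abs_mul, abs_of_pos hdpos]
      exact add_le_add hQ' (mul_le_mul_of_nonneg_left hsumP hdpos.le)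
    have h2 : 2 * (d : ℝ) ^ n * (C₀ * (1 + C2) * b) + d ^ n * (S * (C₀ * (1 + C2) * b)) =
        K * ((d : ℝ) ^ n * b) := by rw [hK]; ring
    rw [h2] at h1
    have h3 : 0 ≤ C1 * (ω + C1 * (d : ℝ) ^ n * b) := mul_nonneg hC1 hWn'
    have h4 : 0 ≤ S * C2 * ((d : ℝ) ^ n * b) := mul_nonneg hSC hdb
    have h5 : 0 ≤ C * max 0 l := mul_nonneg hC0 hml0
    have h6 : (S * C2 + K) * ((d : ℝ) ^ n * b) = S * C2 * ((d : ℝ) ^ n * b) +
      K * ((d : ℝ) ^ n * b) := by ring
    linarith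
  by_cases hcase : 0 < l ∧ C2 * b ≤ l
  · obtain ⟨hl0, hl2⟩ := hcase
    rcases hmt t ht with ⟨-, -, γ, hγ, hn⟩ | ⟨hmax, -⟩
    · have hn' := hn n
      -- comparison of the fixed vectors
      have hP : ∀ j, |Real.log (⨆ i, v (t (φ j i))) - Real.log (⨆ i, w (γ • φ j i)) * l| ≤
          C2 * b := by
        intro j
        refine sup_compare (fun i => w (γ • φ j i)) (fun i => v (t (φ j i))) l (C2 * b) hl0
          (fun i => w.nonneg _) ?_ ?_ ?_
        · have hne : ∃ i, φ j i ≠ 0 := by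
            by_contra hcon
            push Not at hcon
            exact hφ0 j (funext hcon)
          obtain ⟨i, hi⟩ := hne
          refine ⟨i, ?_⟩
          rw [ne_eq, AbsoluteValue.eq_zero, smul_eq_zero_iff_eq]
          exact hi
        · intro i hi
          rw [AbsoluteValue.eq_zero, smul_eq_zero_iff_eq] at hi
          rw [hi, map_zero, map_zero]
        · intro i hi
          rw [ne_eq, AbsoluteValue.eq_zero, smul_eq_zero_iff_eq] at hi
          have h2 : Cf j i * b ≤ C2 * b := mul_le_mul_of_nonneg_right (hCfle j i) hb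
          have h3 := hCf j i hi v ε b (hAf j i) t ht hl0 (h2.trans hl2) γ hγ
          refine ⟨le_trans ?_ h3.1, h3.2.trans ?_⟩
          · apply Real.exp_le_exp.2
            linarith
          · apply Real.exp_le_exp.2
            linarith
      -- the linear growth of `D n γ`
      obtain ⟨L, hL1, hL2⟩ := telescope d hd (fun n => Real.log (⨆ i, w (γ • q n i))) M
        (fun n => hW.2 n γ)
      have hLeq : L = ∑ j, c j * Real.log (⨆ i, w (γ • φ j i)) :=
        tendsto_nhds_unique hL1 (hrep γ)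
      have hD : |Real.log (⨆ i, w (γ • q n i)) - (d : ℝ) ^ n * L| ≤ M := by
        have h1 := hL2 n
        have e1 : Real.log (⨆ i, w (γ • q n i)) - (d : ℝ) ^ n * L =
            (d : ℝ) ^ n * (Real.log (⨆ i, w (γ • q n i)) / (d : ℝ) ^ n - L) := by
          field_simp
        rw [e1, abs_mul, abs_of_pos hdpos]
        calc (d : ℝ) ^ n * |Real.log (⨆ i, w (γ • q n i)) / (d : ℝ) ^ n - L| ≤
            (d : ℝ) ^ n * (M / (d : ℝ) ^ n) := mul_le_mul_of_nonneg_left h1 hdpos.le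
          _ = M := by field_simp
      have hsum : |L * l - ∑ j, c j * Real.log (⨆ i, v (t (φ j i)))| ≤ S * (C2 * b) := by
        rw [hLeq, Finset.sum_mul, ← Finset.sum_sub_distrib]
        refine (Finset.abs_sum_le_sum_abs _ _).trans ?_
        rw [hS, Finset.sum_mul]
        refine Finset.sum_le_sum fun j _ => ?_
        have e1 : c j * Real.log (⨆ i, w (γ • φ j i)) * l - c j * Real.log (⨆ i, v (t (φ j i))) =
            c j * (-(Real.log (⨆ i, v (t (φ j i))) - Real.log (⨆ i, w (γ • φ j i)) * l)) := by ring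
        rw [e1, abs_mul, abs_neg]
        exact mul_le_mul_of_nonneg_left (hP j) (abs_nonneg _)
      have e2 : Real.log (⨆ i, v (t (q n i))) - d ^ n * ∑ j, c j * Real.log (⨆ i, v (t (φ j i))) =
          -(Real.log (⨆ i, w (γ • q n i)) * l - Real.log (⨆ i, v (t (q n i)))) +
          ((Real.log (⨆ i, w (γ • q n i)) - (d : ℝ) ^ n * L) * l +
          (d : ℝ) ^ n * (L * l - ∑ j, c j * Real.log (⨆ i, v (t (φ j i))))) := by ring
      rw [e2, max_eq_right hl0.le]
      have h1 := abs_add_le (-(Real.log (⨆ i, w (γ • q n i)) * l - Real.log (⨆ i, v (t (q n i)))))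
          ((Real.log (⨆ i, w (γ • q n i)) - (d : ℝ) ^ n * L) * l +
          (d : ℝ) ^ n * (L * l - ∑ j, c j * Real.log (⨆ i, v (t (φ j i)))))
      have h2 := abs_add_le ((Real.log (⨆ i, w (γ • q n i)) - (d : ℝ) ^ n * L) * l)
          ((d : ℝ) ^ n * (L * l - ∑ j, c j * Real.log (⨆ i, v (t (φ j i)))))
      rw [abs_neg] at h1
      rw [abs_mul, abs_mul, abs_of_pos hl0, abs_of_pos hdpos] at h2
      have h3 := mul_le_mul_of_nonneg_right hD hl0.le
      have h4 := mul_le_mul_of_nonneg_left hsum hdpos.le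
      have h5 : (d : ℝ) ^ n * (S * (C2 * b)) = S * C2 * ((d : ℝ) ^ n * b) := by ring
      have h6 : 0 ≤ K * ((d : ℝ) ^ n * b) := mul_nonneg hK0 hdb
      have h7 : (S * C2 + K) * ((d : ℝ) ^ n * b) = S * C2 * ((d : ℝ) ^ n * b) +
        K * ((d : ℝ) ^ n * b) := by ring
      have h8 : C1 * l + M * l ≤ C * l := by
        have : C1 + M ≤ C := by rw [hC]; linarith
        have := mul_le_mul_of_nonneg_right this hl0.le
        linarith
      linarith
    · refine far (hmax.trans ?_)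
      exact mul_le_mul_of_nonneg_right hC12 hb
  · apply far
    apply max_le (mul_nonneg hC20 hb)
    by_contra hcon
    push Not at hcon
    exact hcase ⟨lt_of_le_of_lt (mul_nonneg hC20 hb) hcon, hcon.le⟩

end MLocalPhi

export MLocalPhi (local_phi)

end Pool.Agent.Helper259.Var
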