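import Mathlib
import Pool.Agent.Helper259.Var.Defs
import Pool.Agent.Helper259.Var.Iter

set_option autoImplicit false

namespace Pool.Agent.Helper259.Var

open Polynomial Pool.Agent.Helper259.AbsHt

/-- the combination `∑ j, c j * (divisor of φ j)` is the limit divisor of the orbit -/
def Rep {A : Type*} [CommRing A] [Algebra Qbar[X] A] {N r k : ℕ} (d : ℕ)
    (F : Fin (N + 1) → MvPolynomial (Fin (N + 1)) A) (P : Fin (N + 1) → A)
    (φ : Fin r → Fin (k + 1) → A) (c : Fin r → ℝ) : Prop :=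
  ∀ u : AbsoluteValue A ℝ, IsNonarchimedean u →
    (∀ a : Qbar, a ≠ 0 → u (algebraMap Qbar[X] A (C a)) = 1) →
    Filter.Tendsto (fun n => Real.log (⨆ i, u (iterQ F P n i)) / (d : ℝ) ^ n) Filter.atTop
      (nhds (∑ j, c j * Real.log (⨆ i, u (φ j i))))

end Pool.Agent.Helper259.Var
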