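import Mathlib
import Pool.Agent.Helper259.Var.Ext
import Pool.Agent.Helper259.Var.Frac

set_option autoImplicit false

universe u1 u2

namespace Pool.Agent.Helper259.Var

namespace MSetup

open Polynomial Pool.Agent.Helper259.AbsHt

/-- a finite extension of a field of characteristic zero lies in a finite Galois extension -/
theorem eg_galois_field (F : Type*) (K : Type u1) [Field F] [Field K] [Algebra F K]
    [FiniteDimensional F K] [CharZero F] :
    ∃ (L : Type u1) (_ : Field L) (_ : Algebra K L) (_ : Algebra F L) (_ : IsScalarTower F K L),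
      FiniteDimensional F L ∧ IsGalois F L := by
  have : IsGalois F (AlgebraicClosure K) := IsAlgClosure.isGalois F (AlgebraicClosure K)
  refine ⟨IntermediateField.normalClosure F K (AlgebraicClosure K), inferInstance, inferInstance, inferInstance,
    inferInstance, inferInstance, inferInstance⟩

/-- the Galois closure of the ring extension `A / P` -/
theorem eg_galois_ring (P : Type*) (F : Type*) (A L : Type u1) [CommRing P] [IsDomain P]
    [IsIntegrallyClosed P] [Field F] [Algebra P F] [IsFractionRing P F] [CommRing A] [IsDomain A]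
    [Algebra P A] [Algebra.IsIntegral P A] [Field L] [Algebra F L] [Algebra P L]
    [IsScalarTower P F L] [Algebra A L] [IsScalarTower P A L] [FaithfulSMul A L]
    [FaithfulSMul P A] [FiniteDimensional F L] [IsGalois F L]
    (w0 : AbsoluteValue L ℝ) (hw0 : IsNonarchimedean w0) :
    ∃ (R : Type u1) (_ : CommRing R) (_ : IsDomain R) (_ : Algebra P R) (_ : Algebra A R)
      (_ : IsScalarTower P A R) (_ : FaithfulSMul A R) (_ : FaithfulSMul P R)
      (_ : Algebra.IsIntegral P R) (G : Type u1) (_ : Group G) (_ : Fintype G)
      (_ : MulSemiringAction G R) (_ : SMulCommClass G P R)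
      (_ : Algebra.IsInvariant P R G) (w : AbsoluteValue R ℝ),
      IsNonarchimedean w ∧
      ∀ p : P, w (algebraMap P R p) = w0 (algebraMap P L p) := by
  classical
  let R := integralClosure A L
  have hPR : ∀ x : R, IsIntegral P x := by
    intro x
    have : Algebra.IsIntegral A R := inferInstance
    have : Algebra.IsIntegral P R := Algebra.IsIntegral.trans A
    exact Algebra.IsIntegral.isIntegral x
  have : Algebra.IsIntegral P R := ⟨hPR⟩
  have hinj : Function.Injective (algebraMap R L) := Subtype.val_injective
  have : IsIntegralClosure R P L := by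
    refine ⟨hinj, fun {x} => ⟨fun hx => ?_, ?_⟩⟩
    · exact ⟨⟨x, hx.tower_top⟩, rfl⟩
    · rintro ⟨y, rfl⟩
      exact (hPR y).map (IsScalarTower.toAlgHom P R L)
  have : IsFractionRing R L := IsIntegralClosure.isFractionRing_of_finite_extension P F L R
  have : FaithfulSMul A R := by
    rw [faithfulSMul_iff_algebraMap_injective]
    intro a b hab
    apply FaithfulSMul.algebraMap_injective A L
    rw [IsScalarTower.algebraMap_apply A R L, IsScalarTower.algebraMap_apply A R L, hab]
  have : FaithfulSMul P R := by
    rw [faithfulSMul_iff_algebraMap_injective]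
    rw [IsScalarTower.algebraMap_eq P A R]
    exact (FaithfulSMul.algebraMap_injective A R).comp (FaithfulSMul.algebraMap_injective P A)
  let : MulSemiringAction Gal(L/F) R := IsIntegralClosure.MulSemiringAction P F L R
  have : SMulCommClass Gal(L/F) P R := by
    refine ⟨fun g p x => ?_⟩
    show (galRestrict P F L R g) (p • x) = p • (galRestrict P F L R g) x
    exact map_smul _ _ _
  have : Algebra.IsInvariant P R Gal(L/F) := Algebra.isInvariant_of_isGalois P F L R
  refine ⟨R, inferInstance, inferInstance, inferInstance, inferInstance, inferInstance,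
    inferInstance, inferInstance, inferInstance, Gal(L/F), inferInstance, Fintype.ofFinite _,
    inferInstance, inferInstance, inferInstance, w0.comp hinj, ?_, ?_⟩
  · intro x y
    show w0 (algebraMap R L (x + y)) ≤ _
    rw [map_add]
    exact hw0 _ _
  · intro p
    show w0 (algebraMap R L (algebraMap P R p)) = _
    rw [← IsScalarTower.algebraMap_apply]

open Classical in

/-- the size at infinity -/
noncomputable def egf (p : Qbar[X]) : ℝ := if p = 0 then 0 else Real.exp p.natDegree

theorem egf_nonneg (p : Qbar[X]) : 0 ≤ egf p := by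
  unfold egf
  split_ifs
  · exact le_rfl
  · exact (Real.exp_pos _).le

theorem egf_max (p q : Qbar[X]) : egf (p + q) ≤ max (egf p) (egf q) := by
  by_cases hp : p = 0
  · subst hp
    rw [zero_add]
    exact le_max_right _ _
  by_cases hq : q = 0
  · subst hq
    rw [add_zero]
    exact le_max_left _ _
  by_cases hpq : p + q = 0
  · have h1 : egf (p + q) = 0 := by
      unfold egf
      rw [if_pos hpq]
    rw [h1]
    exact le_max_of_le_left (egf_nonneg p)
  · have h1 : egf (p + q) = Real.exp (p + q).natDegree := by
      unfold egf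
      rw [if_neg hpq]
    have h2 : egf p = Real.exp p.natDegree := by
      unfold egf
      rw [if_neg hp]
    have h3 : egf q = Real.exp q.natDegree := by
      unfold egf
      rw [if_neg hq]
    rw [h1, h2, h3]
    have h4 := natDegree_add_le p q
    rcases le_max_iff.1 h4 with h5 | h5
    · exact le_max_of_le_left (Real.exp_le_exp.2 (by exact_mod_cast h5))
    · exact le_max_of_le_right (Real.exp_le_exp.2 (by exact_mod_cast h5))

/-- the absolute value at infinity of `Qbar[X]` -/
theorem eg_infty : ∃ u : AbsoluteValue Qbar[X] ℝ, IsNonarchimedean u ∧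
    ∀ p : Qbar[X], p ≠ 0 → u p = Real.exp p.natDegree := by
  refine ⟨{ toFun := egf, map_mul' := ?_, nonneg' := egf_nonneg, eq_zero' := ?_,
            add_le' := ?_ }, ?_, ?_⟩
  · intro p q
    unfold egf
    by_cases hp : p = 0
    · simp [hp]
    by_cases hq : q = 0
    · simp [hq]
    rw [if_neg hp, if_neg hq, if_neg (mul_ne_zero hp hq), natDegree_mul hp hq, Nat.cast_add,
      Real.exp_add]
  · intro p
    show egf p = 0 ↔ p = 0
    unfold egf
    split_ifs with h
    · simp [h]
    · simp [h, (Real.exp_pos _).ne']
  · intro p q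
    show egf (p + q) ≤ egf p + egf q
    refine (egf_max p q).trans (max_le ?_ ?_)
    · have := egf_nonneg q
      linarith
    · have := egf_nonneg p
      linarith
  · intro p q
    exact egf_max p q
  · intro p hp
    show egf p = _
    unfold egf
    exact if_neg hp

/-- Galois closure of an affine curve over the `s`-line, with an absolute value at
infinity -/
theorem exists_galois (A : Type u1) [CommRing A] [IsDomain A] [Algebra Qbar[X] A]
    [FaithfulSMul Qbar[X] A] [Module.Finite Qbar[X] A] :
    ∃ (R : Type u1) (_ : CommRing R) (_ : IsDomain R) (_ : Algebra Qbar[X] R) (_ : Algebra A R)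
      (_ : IsScalarTower Qbar[X] A R) (_ : FaithfulSMul A R) (_ : FaithfulSMul Qbar[X] R)
      (_ : Algebra.IsIntegral Qbar[X] R) (G : Type u1) (_ : Group G) (_ : Fintype G)
      (_ : MulSemiringAction G R) (_ : SMulCommClass G Qbar[X] R)
      (_ : Algebra.IsInvariant Qbar[X] R G) (w : AbsoluteValue R ℝ),
      IsNonarchimedean w ∧
      ∀ p : Qbar[X], p ≠ 0 → w (algebraMap Qbar[X] R p) = Real.exp p.natDegree := by
  obtain ⟨u, hu1, hu2⟩ := eg_infty
  let : Algebra (FractionRing Qbar[X]) (FractionRing A) :=
    FractionRing.liftAlgebra Qbar[X] (FractionRing A)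
  have : IsScalarTower Qbar[X] (FractionRing Qbar[X]) (FractionRing A) :=
    FractionRing.isScalarTower_liftAlgebra _ _
  have : FiniteDimensional (FractionRing Qbar[X]) (FractionRing A) :=
    .of_isLocalization Qbar[X] A (nonZeroDivisors Qbar[X])
  have : CharZero (FractionRing Qbar[X]) := inferInstance
  obtain ⟨L, _, _, _, _, _, _⟩ := eg_galois_field (FractionRing Qbar[X]) (FractionRing A)
  let : Algebra A L := ((algebraMap (FractionRing A) L).comp
    (algebraMap A (FractionRing A))).toAlgebra
  have : IsScalarTower A (FractionRing A) L := IsScalarTower.of_algebraMap_eq' rfl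
  let : Algebra Qbar[X] L := ((algebraMap A L).comp (algebraMap Qbar[X] A)).toAlgebra
  have : IsScalarTower Qbar[X] A L := IsScalarTower.of_algebraMap_eq' rfl
  have : IsScalarTower Qbar[X] (FractionRing Qbar[X]) L := by
    refine IsScalarTower.of_algebraMap_eq fun p => ?_
    rw [IsScalarTower.algebraMap_apply Qbar[X] A L,
      IsScalarTower.algebraMap_apply A (FractionRing A) L,
      IsScalarTower.algebraMap_apply (FractionRing Qbar[X]) (FractionRing A) L,
      ← IsScalarTower.algebraMap_apply Qbar[X] (FractionRing Qbar[X]) (FractionRing A),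
      ← IsScalarTower.algebraMap_apply Qbar[X] A (FractionRing A)]
  have : FaithfulSMul A L := by
    rw [faithfulSMul_iff_algebraMap_injective, IsScalarTower.algebraMap_eq A (FractionRing A) L]
    exact (algebraMap (FractionRing A) L).injective.comp (IsFractionRing.injective A _)
  obtain ⟨w1, hw1, hw1'⟩ := exists_frac_ext (K := FractionRing Qbar[X]) u
  obtain ⟨w2, hw2, hw2'⟩ := exists_ext_abv (L := L) w1 (hw1' hu1)
  obtain ⟨R, i1, i2, i3, i4, i5, i6, i7, i8, G, i9, i10, i11, i12, i13, w, hw, hw'⟩ :=
    eg_galois_ring Qbar[X] (FractionRing Qbar[X]) A L w2 hw2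
  refine ⟨R, i1, i2, i3, i4, i5, i6, i7, i8, G, i9, i10, i11, i12, i13, w, hw, fun p hp => ?_⟩
  rw [hw', IsScalarTower.algebraMap_apply Qbar[X] (FractionRing Qbar[X]) L, hw2', hw1, hu2 p hp]

end MSetup

export MSetup (exists_galois)

end Pool.Agent.Helper259.Var
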