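import Mathlib
import Pool.Agent.Helper259.Var.RepDef
import Pool.Agent.Helper259.Var.Lift
import Pool.Agent.Helper259.Var.PolyBd
import Pool.Agent.Helper259.Var.IterG
import Pool.Agent.Helper259.Var.LocalPhi
import Pool.Agent.Helper259.Var.Setup
import Pool.Agent.Helper259.Var.Lim

set_option autoImplicit false

universe u1 u2

namespace Pool.Agent.Helper259.Var

namespace MABound

open Polynomial Pool.Agent.Helper259.AbsHt

theorem _root_.Pool.Agent.Helper259.Var.Adm.mono {T T' : Finset Qbar} (hT : T ⊆ T') {v : AbsoluteValue Qbar ℝ} {ε : ℕ} {b : ℝ}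
    (h : Adm T' v ε b) : Adm T v ε b := ⟨h.1, h.2.1, fun c hc => h.2.2 c (hT hc)⟩

theorem _root_.Pool.Agent.Helper259.Var.Adm.nonneg {T : Finset Qbar} {v : AbsoluteValue Qbar ℝ} {ε : ℕ} {b : ℝ}
    (h : Adm T v ε b) : 0 ≤ b := le_trans (Nat.cast_nonneg ε) h.2.1

theorem _root_.Pool.Agent.Helper259.Var.Adm.tame {T : Finset Qbar} {v : AbsoluteValue Qbar ℝ} {ε : ℕ} {b : ℝ}
    (h : Adm T v ε b) : Tame v ε := by
  rcases h.1 with h1 | h1
  · exact Or.inl h1
  · exact Or.inr h1.2

theorem bdd_finset {R : Type*} [CommRing R] [Algebra Qbar[X] R] [Algebra.IsIntegral Qbar[X] R]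
    (S : Finset R) :
    ∃ (T : Finset Qbar) (C : ℝ), 0 ≤ C ∧ ∀ v ε b, Adm T v ε b → ∀ t : R →+* Qbar, IsPt t →
      ∀ x ∈ S, v (t x) ≤ Real.exp (C * (b + max 0 (Real.log (v (sval t))))) := by
  classical
  induction S using Finset.induction_on with
  | empty => exact ⟨∅, 0, le_rfl, fun v ε b _ t _ x hx => absurd hx (Finset.notMem_empty x)⟩
  | insert a S ha ih =>
    obtain ⟨T, C, hC, h⟩ := ih
    obtain ⟨T', C', hC', h'⟩ := bdd_pt a
    refine ⟨T ∪ T', C + C', by positivity, ?_⟩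
    intro v ε b hadm t ht x hx
    have hb := hadm.nonneg
    have hm : 0 ≤ max 0 (Real.log (v (sval t))) := le_max_left _ _
    rw [Finset.mem_insert] at hx
    rcases hx with rfl | hx
    · refine (h' v ε b (hadm.mono Finset.subset_union_right) t ht).trans ?_
      apply Real.exp_le_exp.2
      nlinarith [mul_nonneg hC (add_nonneg hb hm)]
    · refine (h v ε b (hadm.mono Finset.subset_union_left) t ht x hx).trans ?_
      apply Real.exp_le_exp.2
      nlinarith [mul_nonneg hC' (add_nonneg hb hm)]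

theorem unif {A : Type u1} {R : Type u1} [CommRing A] [CommRing R] [Algebra A R]
    [Algebra Qbar[X] R] [Algebra.IsIntegral Qbar[X] R] (T₁ : Finset A) (C₁ : ℝ) (hC₁ : 0 ≤ C₁) :
    ∃ (T : Finset Qbar) (C : ℝ), 0 ≤ C ∧ ∀ v ε b, Adm T v ε b → ∀ t : R →+* Qbar, IsPt t →
      ∃ M : ℝ, 0 ≤ M ∧ (∀ c ∈ T₁, v ((t.comp (algebraMap A R)) c) ≤ Real.exp M) ∧
        C₁ * (M + ε) ≤ C * (b + max 0 (Real.log (v (sval t)))) := by
  classical
  obtain ⟨T, C, hC, h⟩ := bdd_finset (T₁.image (algebraMap A R))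
  refine ⟨T, C₁ * (C + 1), by positivity, ?_⟩
  intro v ε b hadm t ht
  have hb := hadm.nonneg
  have hm : 0 ≤ max 0 (Real.log (v (sval t))) := le_max_left _ _
  refine ⟨C * (b + max 0 (Real.log (v (sval t)))), by positivity, ?_, ?_⟩
  · intro c hc
    exact h v ε b hadm t ht _ (Finset.mem_image_of_mem _ hc)
  · have h1 : (ε : ℝ) ≤ b + max 0 (Real.log (v (sval t))) := by linarith [hadm.2.1]
    have h2 : C * (b + max 0 (Real.log (v (sval t)))) + ε ≤
        (C + 1) * (b + max 0 (Real.log (v (sval t)))) := by linarith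
    calc C₁ * (C * (b + max 0 (Real.log (v (sval t)))) + ε) ≤
        C₁ * ((C + 1) * (b + max 0 (Real.log (v (sval t))))) := mul_le_mul_of_nonneg_left h2 hC₁
      _ = _ := by ring

theorem nonarch_trivial : ∃ v : AbsoluteValue Qbar ℝ, IsNonarchimedean v ∧ ∀ x, v x ≤ 1 := by
  classical
  refine ⟨AbsoluteValue.trivial, ?_, ?_⟩
  · intro x y
    by_cases hx : x = 0
    · simp [hx]
    · by_cases hxy : x + y = 0
      · rw [hxy, map_zero]
        exact le_max_of_le_left (AbsoluteValue.nonneg _ _)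
      · rw [AbsoluteValue.trivial_apply hxy, AbsoluteValue.trivial_apply hx]
        exact le_max_left _ _
  · intro x
    by_cases hx : x = 0
    · rw [hx, map_zero]; exact zero_le_one
    · rw [AbsoluteValue.trivial_apply hx]

/-- boundedness of the difference, for an affine curve with coordinate ring `A` -/
theorem thmA_bound {A : Type u1} [CommRing A] [IsDomain A] [Algebra Qbar[X] A]
    [FaithfulSMul Qbar[X] A] [Module.Finite Qbar[X] A] {N d : ℕ} (hd : 2 ≤ d)
    (F : Fin (N + 1) → MvPolynomial (Fin (N + 1)) A) (hhom : ∀ i, (F i).IsHomogeneous d)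
    (hpow : ∀ k, ∃ e : ℕ,
      (MvPolynomial.X k : MvPolynomial (Fin (N + 1)) A) ^ e ∈ Ideal.span (Set.range F))
    (P U : Fin (N + 1) → A) (hU : ∑ i, U i * P i = 1) {r k : ℕ}
    (φ : Fin r → Fin (k + 1) → A) (c : Fin r → ℝ)
    (hφ : ∀ j, ∃ V : Fin (k + 1) → A, ∑ i, V i * φ j i = 1) (hrep : Rep d F P φ c) :
    (∀ t : A →+* Qbar, IsPt t → ∃ L : ℝ, Filter.Tendsto
      (fun n => absLogHeight (fun i => t (iterQ F P n i)) / (d : ℝ) ^ n) Filter.atTop (nhds L)) ∧
    ∃ C' : ℝ, 0 ≤ C' ∧ ∀ t : A →+* Qbar, IsPt t → ∀ L : ℝ, Filter.Tendsto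
      (fun n => absLogHeight (fun i => t (iterQ F P n i)) / (d : ℝ) ^ n) Filter.atTop (nhds L) →
      |L - ∑ j, c j * absLogHeight (fun i => t (φ j i))| ≤ C' := by
  classical
  obtain ⟨R, iR1, iR2, iR3, iR4, iR5, iR6, iR7, iR8, G, iG1, iG2, iG3, iG4, iG5, w, hw, hdeg⟩ :=
    exists_galois A
  have hinj : Function.Injective (algebraMap A R) := FaithfulSMul.algebraMap_injective A R
  have : Algebra.IsIntegral A R := Algebra.IsIntegral.tower_top (R := Qbar[X])
  let q : ℕ → Fin (N + 1) → R := fun n i => algebraMap A R (iterQ F P n i)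
  -- the places at infinity
  obtain ⟨M, hW, hq0⟩ : ∃ M, WGrowth G w d q M ∧ ∀ n, q n ≠ 0 := by
    obtain ⟨T₁, C₁, hC₁, hgr⟩ := iter_growth.{u1, u1} hd F hhom hpow P U hU
    set S : ℝ := ∑ a ∈ T₁, ∑ g : G, w (g • algebraMap A R a) with hS
    have hS0 : 0 ≤ S := Finset.sum_nonneg fun a _ => Finset.sum_nonneg fun g _ => w.nonneg _
    have hM0 : 0 ≤ Real.log (1 + S) := Real.log_nonneg (by linarith)
    have hle : ∀ g : G, ∀ a ∈ T₁, w (((MulSemiringAction.toRingHom G R g).comp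
        (algebraMap A R)) a) ≤ Real.exp (Real.log (1 + S)) := by
      intro g a ha
      rw [Real.exp_log (by linarith)]
      have h1 : w (g • algebraMap A R a) ≤ ∑ g : G, w (g • algebraMap A R a) :=
        Finset.single_le_sum (f := fun g : G => w (g • algebraMap A R a))
          (fun g _ => w.nonneg _) (Finset.mem_univ g)
      have h2 : ∑ g : G, w (g • algebraMap A R a) ≤ S :=
        Finset.single_le_sum (f := fun a => ∑ g : G, w (g • algebraMap A R a))
          (fun a _ => Finset.sum_nonneg fun g _ => w.nonneg _) ha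
      show w (g • algebraMap A R a) ≤ 1 + S
      linarith
    have hgr' := fun g : G => hgr R w 0 (Or.inl ⟨hw, rfl⟩)
      ((MulSemiringAction.toRingHom G R g).comp (algebraMap A R)) _ hM0 (hle g)
    refine ⟨C₁ * (Real.log (1 + S) + (0 : ℕ)), ⟨fun g => ?_, fun n g => ?_⟩, fun n h => ?_⟩
    · have := (hgr' g 0).2.1
      rw [pow_zero, mul_one] at this
      exact this
    · exact (hgr' g n).2.2
    · obtain ⟨i, hi⟩ := (hgr' 1 n).1
      apply hi
      have h3 : q n i = 0 := by rw [h]; rfl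
      show (1 : G) • algebraMap A R (iterQ F P n i) = 0
      rw [one_smul]
      exact h3
  -- growth at the points
  obtain ⟨TV, CV, hCV, hV⟩ : ∃ (T : Finset Qbar) (C : ℝ), 0 ≤ C ∧ VGrowth d q T C := by
    obtain ⟨T₁, C₁, hC₁, hgr⟩ := iter_growth.{u1, 0} hd F hhom hpow P U hU
    obtain ⟨T, C, hC, hT⟩ := unif (R := R) T₁ C₁ hC₁
    refine ⟨T, C, hC, ?_⟩
    intro v ε b hadm t ht
    obtain ⟨M', hM', hle, hfin⟩ := hT v ε b hadm t ht
    have hgr' := hgr Qbar v ε hadm.tame (t.comp (algebraMap A R)) M' hM' hle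
    refine ⟨fun n => (hgr' n).1, ?_, fun n => (hgr' n).2.2.trans hfin⟩
    have := (hgr' 0).2.1
    rw [pow_zero, mul_one] at this
    exact this.trans hfin
  -- the vectors `φ j`
  have hφT : ∀ j, ∃ (T : Finset Qbar) (C : ℝ), 0 ≤ C ∧ ∀ v ε b, Adm T v ε b →
      ∀ t : R →+* Qbar, IsPt t → (∃ i, t (algebraMap A R (φ j i)) ≠ 0) ∧
      |Real.log (⨆ i, v (t (algebraMap A R (φ j i))))| ≤
        C * (b + max 0 (Real.log (v (sval t)))) := by
    intro j
    obtain ⟨V, hVj⟩ := hφ j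
    obtain ⟨T₁, C₁, hC₁, hun⟩ := unimod_ineq.{u1, 0} (φ j) V hVj
    obtain ⟨T, C, hC, hT⟩ := unif (R := R) T₁ C₁ hC₁
    refine ⟨T, C, hC, ?_⟩
    intro v ε b hadm t ht
    obtain ⟨M', hM', hle, hfin⟩ := hT v ε b hadm t ht
    have h1 := hun Qbar v ε hadm.tame (t.comp (algebraMap A R)) M' hM' hle
    exact ⟨h1.1, h1.2.trans hfin⟩
  choose Tφ Cφ hCφ hTφ using hφT
  set T₀ : Finset Qbar := TV ∪ Finset.univ.biUnion Tφ with hT₀
  set C₀ : ℝ := CV + ∑ j, Cφ j with hC₀
  have hsum0 : 0 ≤ ∑ j, Cφ j := Finset.sum_nonneg fun j _ => hCφ j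
  have hC₀0 : 0 ≤ C₀ := add_nonneg hCV hsum0
  have hV0 : VGrowth d q T₀ C₀ := by
    intro v ε b hadm t ht
    have hb := hadm.nonneg
    have hm : 0 ≤ max 0 (Real.log (v (sval t))) := le_max_left _ _
    obtain ⟨h1, h2, h3⟩ := hV v ε b (hadm.mono Finset.subset_union_left) t ht
    have h4 : CV * (b + max 0 (Real.log (v (sval t)))) ≤
        C₀ * (b + max 0 (Real.log (v (sval t)))) :=
      mul_le_mul_of_nonneg_right (by linarith) (add_nonneg hb hm)
    exact ⟨h1, h2.trans h4, fun n => (h3 n).trans h4⟩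
  have hφ' : ∀ v ε b, Adm T₀ v ε b → ∀ t : R →+* Qbar, IsPt t → ∀ j,
      (∃ i, t (algebraMap A R (φ j i)) ≠ 0) ∧
      |Real.log (⨆ i, v (t (algebraMap A R (φ j i))))| ≤
        C₀ * (b + max 0 (Real.log (v (sval t)))) := by
    intro v ε b hadm t ht j
    have hb := hadm.nonneg
    have hm : 0 ≤ max 0 (Real.log (v (sval t))) := le_max_left _ _
    obtain ⟨h1, h2⟩ := hTφ j v ε b (hadm.mono ((Finset.subset_biUnion_of_mem Tφ
      (Finset.mem_univ j)).trans Finset.subset_union_right)) t ht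
    have h5 : Cφ j ≤ ∑ j, Cφ j := Finset.single_le_sum (fun j _ => hCφ j) (Finset.mem_univ j)
    exact ⟨h1, h2.trans (mul_le_mul_of_nonneg_right (by linarith) (add_nonneg hb hm))⟩
  have hφ0 : ∀ j, (fun i => algebraMap A R (φ j i)) ≠ 0 := by
    intro j h
    obtain ⟨V, hVj⟩ := hφ j
    have h1 := congrArg (algebraMap A R) hVj
    rw [map_sum, map_one] at h1
    have h2 : ∀ i, algebraMap A R (V i * φ j i) = 0 := by
      intro i
      rw [map_mul, show algebraMap A R (φ j i) = 0 from congrFun h i, mul_zero]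
    simp only [h2, Finset.sum_const_zero] at h1
    exact zero_ne_one h1
  have hrep' : ∀ γ : G, Filter.Tendsto
      (fun n => Real.log (⨆ i, w (γ • q n i)) / (d : ℝ) ^ n) Filter.atTop
      (nhds (∑ j, c j * Real.log (⨆ i, w (γ • (algebraMap A R (φ j i)))))) := by
    intro γ
    have hf : Function.Injective ((MulSemiringAction.toRingHom G R γ).comp (algebraMap A R)) := by
      intro x y hxy
      have : γ • algebraMap A R x = γ • algebraMap A R y := hxy
      exact hinj (smul_left_cancel γ this)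
    exact hrep (w.comp hf) (fun x y => by
      have h1 := hw (γ • algebraMap A R x) (γ • algebraMap A R y)
      rw [← smul_add, ← map_add] at h1
      exact h1) (fun a ha => by
      show w (γ • algebraMap A R (algebraMap Qbar[X] A (C a))) = 1
      rw [← IsScalarTower.algebraMap_apply, smul_algebraMap, hdeg _ (by simpa using ha),
        natDegree_C, Nat.cast_zero, Real.exp_zero])
  obtain ⟨m, Wn, hWn, T, C, hC, hloc⟩ := local_phi w hw hdeg N d hd q hq0 M hW T₀ C₀ hC₀0 hV0
    (fun j i => algebraMap A R (φ j i)) c hφ0 hφ' hrep'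
  -- lifting points
  have hlift : ∀ t : A →+* Qbar, IsPt t → ∃ t' : R →+* Qbar, IsPt t' ∧ sval t' = sval t ∧
      ∀ x, t' (algebraMap A R x) = t x := by
    intro t ht
    obtain ⟨t', ht'⟩ := exists_lift hinj t
    have h1 : ∀ x, t' (algebraMap A R x) = t x := fun x => by rw [← ht']; rfl
    refine ⟨t', fun a => ?_, ?_, h1⟩
    · rw [IsScalarTower.algebraMap_apply Qbar[X] A R, h1]
      exact ht a
    · unfold sval
      rw [IsScalarTower.algebraMap_apply Qbar[X] A R, h1]
  have hqne : ∀ (t : A →+* Qbar) (n : ℕ), (fun i => t (iterQ F P n i)) ≠ 0 := by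
    intro t n h
    obtain ⟨v, hv, hv1⟩ := nonarch_trivial
    obtain ⟨T₁, C₁, hC₁, hgr⟩ := iter_growth.{u1, 0} hd F hhom hpow P U hU
    obtain ⟨i, hi⟩ := (hgr Qbar v 0 (Or.inl ⟨hv, rfl⟩) t 0 le_rfl
      (fun c _ => by rw [Real.exp_zero]; exact hv1 _) n).1
    exact hi (congrFun h i)
  have hφne : ∀ (t : A →+* Qbar) (j : Fin r), (fun i => t (φ j i)) ≠ 0 := by
    intro t j h
    obtain ⟨V, hVj⟩ := hφ j
    have h1 := congrArg t hVj
    rw [map_sum, map_one] at h1
    have h2 : ∀ i, t (V i * φ j i) = 0 := by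
      intro i
      rw [map_mul, show t (φ j i) = 0 from congrFun h i, mul_zero]
    simp only [h2, Finset.sum_const_zero] at h1
    exact zero_ne_one h1
  have hfin := canonical_bound (τ := {t : A →+* Qbar // IsPt t}) hd
    (fun t n i => t.1 (iterQ F P n i)) (fun t j i => t.1 (φ j i)) c (fun t => sval t.1)
    (fun t n => hqne t.1 n) (fun t j => hφne t.1 j) m Wn hWn T C hC
    (by
      intro v ε b hadm t n
      obtain ⟨t', ht', hs, hx⟩ := hlift t.1 t.2
      have h1 := hloc v ε b hadm t' ht' n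
      simp only [q, hx, hs] at h1
      exact h1) T₀ C₀ hC₀0
    (by
      intro v ε b hadm t n
      obtain ⟨t', ht', hs, hx⟩ := hlift t.1 t.2
      have h1 := (hV0 v ε b hadm t' ht').2.2 n
      simp only [q, hx, hs] at h1
      exact h1)
  obtain ⟨h1, C', hC', h2⟩ := hfin
  exact ⟨fun t ht => h1 ⟨t, ht⟩, C', hC', fun t ht L hL => h2 ⟨t, ht⟩ L hL⟩

end MABound

export MABound (thmA_bound)

end Pool.Agent.Helper259.Var
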