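import Mathlib
import Pool.Agent.Helper259.Var.Base
import Pool.Agent.Helper259.Var.Theta

set_option autoImplicit false

namespace Pool.Agent.Helper259.Var

namespace MConj

open Polynomial Pool.Agent.Helper259.AbsHt

/-- the places at infinity are conjugate -/
theorem conj_abv {R G : Type*} [CommRing R] [IsDomain R] [Algebra Qbar[X] R]
    [FaithfulSMul Qbar[X] R] [Algebra.IsIntegral Qbar[X] R] [Group G]
    [Fintype G] [MulSemiringAction G R] [SMulCommClass G Qbar[X] R]
    [Algebra.IsInvariant Qbar[X] R G] (w : AbsoluteValue R ℝ) (hw : IsNonarchimedean w)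
    (hdeg : ∀ p : Qbar[X], p ≠ 0 → w (algebraMap Qbar[X] R p) = Real.exp p.natDegree)
    (u : AbsoluteValue R ℝ) (hu : IsNonarchimedean u)
    (hudeg : ∀ p : Qbar[X], p ≠ 0 → u (algebraMap Qbar[X] R p) = Real.exp p.natDegree) :
    ∃ g : G, ∀ x, u x = w (g • x) := by
  by_contra hcon
  push Not at hcon
  -- the conjugates
  have hinjg : ∀ g : G, Function.Injective (MulSemiringAction.toRingHom G R g) := fun g =>
    MulAction.injective g
  let W : G → AbsoluteValue R ℝ := fun g => w.comp (hinjg g)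
  have hW : ∀ g x, W g x = w (g • x) := fun g x => rfl
  have hWu : ∀ g, W g ≠ u := by
    intro g he
    obtain ⟨x, hx⟩ := hcon g
    exact hx (by rw [← he, hW])
  let 𝒮 : Set (AbsoluteValue R ℝ) := insert u (Set.range W)
  have hfin : Finite 𝒮 := (Set.Finite.insert u (Set.finite_range W)).to_subtype
  have hna : ∀ i : 𝒮, IsNonarchimedean (i : AbsoluteValue R ℝ) := by
    rintro ⟨v, hv | ⟨g, rfl⟩⟩
    · change IsNonarchimedean v
      rw [hv]
      exact hu
    · intro x y
      change W g (x + y) ≤ max (W g x) (W g y)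
      rw [hW, hW, hW, smul_add]
      exact hw _ _
  have hd : ∀ (i : 𝒮) (p : Qbar[X]), p ≠ 0 →
      (i : AbsoluteValue R ℝ) (algebraMap Qbar[X] R p) = Real.exp p.natDegree := by
    rintro ⟨v, hv | ⟨g, rfl⟩⟩ p hp
    · change v (algebraMap Qbar[X] R p) = _
      rw [hv]
      exact hudeg p hp
    · change W g (algebraMap Qbar[X] R p) = _
      rw [hW, smul_algebraMap]
      exact hdeg p hp
  obtain ⟨l₀, hl₀⟩ := exists_theta (A := R) (fun i : 𝒮 => (i : AbsoluteValue R ℝ)) hna
    Subtype.val_injective hd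
  obtain ⟨θ, h1, h2⟩ := hl₀ (l₀ + 1) (Nat.le_succ _) ⟨u, Set.mem_insert _ _⟩
  have h1' : u (θ - algebraMap Qbar[X] R (X ^ (l₀ + 1))) < Real.exp ((l₀ + 1 : ℕ) : ℝ) := h1
  have hM : ∀ g : G, w (g • θ) ≤ Real.exp l₀ := by
    intro g
    have h3 := h2 ⟨W g, Set.mem_insert_of_mem _ ⟨g, rfl⟩⟩ (by
      intro he
      exact hWu g (congrArg Subtype.val he))
    have h4 : W g θ ≤ Real.exp (((l₀ + 1 : ℕ) : ℝ) - 1) := h3
    rw [hW] at h4
    refine h4.trans (le_of_eq ?_)
    push_cast
    rw [add_sub_cancel_right]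
  -- lower bound
  have hlow : Real.exp ((l₀ + 1 : ℕ) : ℝ) ≤ u θ := by
    by_contra hlt
    push Not at hlt
    have h3 : u (algebraMap Qbar[X] R (X ^ (l₀ + 1))) = Real.exp ((l₀ + 1 : ℕ) : ℝ) := by
      rw [hudeg _ (pow_ne_zero _ X_ne_zero), natDegree_X_pow]
    have h4 := hu θ (-(θ - algebraMap Qbar[X] R (X ^ (l₀ + 1))))
    have h5 : θ + -(θ - algebraMap Qbar[X] R (X ^ (l₀ + 1))) =
        algebraMap Qbar[X] R (X ^ (l₀ + 1)) := by ring
    rw [h5, h3, u.map_neg] at h4
    exact absurd h4 (not_le.mpr (max_lt hlt h1'))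
  -- upper bound
  have huw : ∀ p : Qbar[X], u (algebraMap Qbar[X] R p) = w (algebraMap Qbar[X] R p) := by
    intro p
    by_cases hp : p = 0
    · rw [hp, map_zero, map_zero, map_zero]
    · rw [hudeg p hp, hdeg p hp]
  have hroot := root_le (u := u) (ε := 0) (Or.inl ⟨hu, rfl⟩) (Fintype.card G)
    (MulSemiringAction.charpoly G θ) (MulSemiringAction.monic_charpoly G θ) (by
      rw [MulSemiringAction.charpoly_eq, natDegree_prod_of_monic _ _ fun g _ => monic_X_sub_C _]
      simp) (Real.exp l₀) 1 le_rfl (Real.exp_pos _).le (by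
      intro j hj1 hj2
      obtain ⟨c, hc⟩ := Algebra.IsInvariant.isInvariant (A := Qbar[X]) (G := G)
        ((MulSemiringAction.charpoly G θ).coeff (Fintype.card G - j))
        (MulSemiringAction.smul_coeff_charpoly θ _)
      have h3 := coeff_prod_le (u := w) (ε := 0) (Or.inl ⟨hw, rfl⟩) (fun g : G => g • θ)
        (Real.exp l₀) hM (Real.exp_pos _).le j hj2
      rw [← MulSemiringAction.charpoly_eq, pow_zero, ← hc, ← huw, hc] at h3
      exact h3) θ (MulSemiringAction.eval_charpoly G θ)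
  rw [pow_zero, one_mul, one_mul] at hroot
  have h6 : Real.exp l₀ < Real.exp ((l₀ + 1 : ℕ) : ℝ) := by
    apply Real.exp_lt_exp.mpr
    push_cast
    linarith
  linarith

end MConj

export MConj (conj_abv)

end Pool.Agent.Helper259.Var
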