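import Mathlib
import Pool.Agent.Helper259.Var.Conj
import Pool.Agent.Helper259.Var.Ext
import Pool.Agent.Helper259.Var.Frac

set_option autoImplicit false

namespace Pool.Agent.Helper259.Var

namespace MClass

open Polynomial Pool.Agent.Helper259.AbsHt

theorem poly_le {A : Type*} [CommRing A] [IsDomain A] [Algebra Qbar[X] A]
    (u : AbsoluteValue A ℝ) (hu : IsNonarchimedean u)
    (htriv : ∀ c : Qbar, c ≠ 0 → u (algebraMap Qbar[X] A (C c)) = 1) (M : ℝ) (hM : 0 ≤ M) (q : Qbar[X])
    (h : ∀ i ≤ q.natDegree, q.coeff i ≠ 0 → u (algebraMap Qbar[X] A X) ^ i ≤ M) :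
    u (algebraMap Qbar[X] A q) ≤ M := by
  have hT : Tame u 0 := Or.inl ⟨hu, rfl⟩
  have e : algebraMap Qbar[X] A q =
      ∑ i ∈ Finset.range (q.natDegree + 1), algebraMap Qbar[X] A (C (q.coeff i) * X ^ i) := by
    rw [← map_sum, ← Polynomial.as_sum_range_C_mul_X_pow]
  rw [e]
  have := sum_le hT (Finset.range (q.natDegree + 1))
    (fun i => algebraMap Qbar[X] A (C (q.coeff i) * X ^ i)) M hM ?_
  · simpa using this
  · intro i hi
    rw [Finset.mem_range, Nat.lt_succ_iff] at hi
    rw [map_mul, map_mul, map_pow, map_pow]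
    by_cases hc : q.coeff i = 0
    · rw [hc]; simpa using hM
    · rw [htriv _ hc, one_mul]
      exact h i hi hc

/-- the value of a polynomial at a place at infinity -/
theorem poly_eq {A : Type*} [CommRing A] [IsDomain A] [Algebra Qbar[X] A]
    (u : AbsoluteValue A ℝ) (hu : IsNonarchimedean u)
    (htriv : ∀ c : Qbar, c ≠ 0 → u (algebraMap Qbar[X] A (C c)) = 1)
    (hs : 1 < u (algebraMap Qbar[X] A X)) (p : Qbar[X]) (hp : p ≠ 0) :
    u (algebraMap Qbar[X] A p) = u (algebraMap Qbar[X] A X) ^ p.natDegree := by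
  set s := u (algebraMap Qbar[X] A X) with hsdef
  rcases Nat.eq_zero_or_pos p.natDegree with h0 | h0
  · rw [h0, pow_zero, Polynomial.eq_C_of_natDegree_eq_zero h0]
    apply htriv
    intro hc
    apply hp
    rw [Polynomial.eq_C_of_natDegree_eq_zero h0, hc, map_zero]
  · have e := Polynomial.eraseLead_add_C_mul_X_pow p
    have h1 : u (algebraMap Qbar[X] A p.eraseLead) ≤ s ^ (p.natDegree - 1) := by
      refine poly_le u hu htriv _ (by positivity) _ fun i hi _ => ?_
      exact pow_le_pow_right₀ hs.le (hi.trans (Polynomial.eraseLead_natDegree_le p))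
    have h2 : u (algebraMap Qbar[X] A (C p.leadingCoeff * X ^ p.natDegree)) = s ^ p.natDegree := by
      rw [map_mul, map_mul, map_pow, map_pow, htriv _ (by simpa using hp), one_mul]
    have h3 : s ^ (p.natDegree - 1) < s ^ p.natDegree :=
      pow_lt_pow_right₀ hs (by omega)
    have h4 : u (algebraMap Qbar[X] A p) ≤ s ^ p.natDegree := by
      refine poly_le u hu htriv _ (by positivity) _ fun i hi _ => ?_
      exact pow_le_pow_right₀ hs.le hi
    refine le_antisymm h4 ?_
    by_contra hcon
    push Not at hcon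
    have h5 : algebraMap Qbar[X] A (C p.leadingCoeff * X ^ p.natDegree) =
        algebraMap Qbar[X] A p + -(algebraMap Qbar[X] A p.eraseLead) := by
      have e' := congrArg (algebraMap Qbar[X] A) e
      rw [map_add] at e'
      rw [← e']
      ring
    have h6 := hu (algebraMap Qbar[X] A p) (-(algebraMap Qbar[X] A p.eraseLead))
    rw [← h5, h2, u.map_neg] at h6
    have h7 : max (u (algebraMap Qbar[X] A p)) (u (algebraMap Qbar[X] A p.eraseLead)) <
        s ^ p.natDegree := max_lt hcon (lt_of_le_of_lt h1 h3)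
    exact absurd (lt_of_le_of_lt h6 h7) (lt_irrefl _)

/-- a power of a nonarchimedean absolute value -/
noncomputable def powAbv {A : Type*} [CommRing A] (u : AbsoluteValue A ℝ) (hu : IsNonarchimedean u)
    (c : ℝ) (hc : 0 < c) : AbsoluteValue A ℝ where
  toFun x := (u x) ^ c
  map_mul' x y := by
    show (u (x * y)) ^ c = _
    rw [map_mul, Real.mul_rpow (u.nonneg _) (u.nonneg _)]
  nonneg' x := Real.rpow_nonneg (u.nonneg _) _
  eq_zero' x := by
    show (u x) ^ c = 0 ↔ x = 0
    rw [Real.rpow_eq_zero (u.nonneg _) hc.ne', u.eq_zero]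
  add_le' x y := by
    show (u (x + y)) ^ c ≤ (u x) ^ c + (u y) ^ c
    have h := hu x y
    have hx : 0 ≤ (u x) ^ c := Real.rpow_nonneg (u.nonneg _) _
    have hy : 0 ≤ (u y) ^ c := Real.rpow_nonneg (u.nonneg _) _
    rcases le_max_iff.1 h with h | h
    · have := Real.rpow_le_rpow (u.nonneg _) h hc.le
      linarith
    · have := Real.rpow_le_rpow (u.nonneg _) h hc.le
      linarith

theorem powAbv_apply {A : Type*} [CommRing A] (u : AbsoluteValue A ℝ) (hu : IsNonarchimedean u)
    (c : ℝ) (hc : 0 < c) (x : A) : powAbv u hu c hc x = (u x) ^ c := rfl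

theorem powAbv_nonarch {A : Type*} [CommRing A] (u : AbsoluteValue A ℝ) (hu : IsNonarchimedean u)
    (c : ℝ) (hc : 0 < c) : IsNonarchimedean (powAbv u hu c hc) := by
  intro x y
  rw [powAbv_apply, powAbv_apply, powAbv_apply]
  rcases le_max_iff.1 (hu x y) with h | h
  · exact le_max_of_le_left (Real.rpow_le_rpow (u.nonneg _) h hc.le)
  · exact le_max_of_le_right (Real.rpow_le_rpow (u.nonneg _) h hc.le)

/-- classification of the places of the curve with coordinate ring `A` -/
theorem place_class {A R G : Type*} [CommRing A] [IsDomain A] [Algebra Qbar[X] A]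
    [FaithfulSMul Qbar[X] A] [Algebra.IsIntegral Qbar[X] A] [CommRing R] [IsDomain R]
    [Algebra Qbar[X] R] [Algebra A R] [IsScalarTower Qbar[X] A R] [FaithfulSMul A R]
    [FaithfulSMul Qbar[X] R] [Algebra.IsIntegral Qbar[X] R] [Group G]
    [Fintype G] [MulSemiringAction G R] [SMulCommClass G Qbar[X] R]
    [Algebra.IsInvariant Qbar[X] R G] (w : AbsoluteValue R ℝ) (hw : IsNonarchimedean w)
    (hdeg : ∀ p : Qbar[X], p ≠ 0 → w (algebraMap Qbar[X] R p) = Real.exp p.natDegree)
    (u : AbsoluteValue A ℝ) (hu : IsNonarchimedean u)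
    (htriv : ∀ c : Qbar, c ≠ 0 → u (algebraMap Qbar[X] A (C c)) = 1) :
    (∀ x, u x ≤ 1) ∨ ∃ (g : G) (κ : ℝ), 0 < κ ∧ ∀ x : A, u x = (w (g • algebraMap A R x)) ^ κ := by
  have hT : Tame u 0 := Or.inl ⟨hu, rfl⟩
  rcases le_or_gt (u (algebraMap Qbar[X] A X)) 1 with hs | hs
  · left
    have h1 : ∀ p : Qbar[X], u (algebraMap Qbar[X] A p) ≤ 1 := fun p =>
      poly_le u hu htriv 1 zero_le_one p fun i _ _ => pow_le_one₀ (u.nonneg _) hs
    intro x
    obtain ⟨P, hP, hx⟩ := Algebra.IsIntegral.isIntegral (R := Qbar[X]) x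
    have := root_le hT (P.map (algebraMap Qbar[X] A)).natDegree (P.map (algebraMap Qbar[X] A))
      (hP.map _) rfl 1 1 le_rfl zero_le_one (fun j _ _ => by
        rw [Polynomial.coeff_map]
        simpa using h1 _) x (by rw [Polynomial.eval_map]; exact hx)
    simpa using this
  · right
    set s := u (algebraMap Qbar[X] A X) with hsdef
    have hκ : 0 < Real.log s := Real.log_pos hs
    set κ := Real.log s with hκdef
    have hs0 : 0 < s := by linarith
    let u' := powAbv u hu (1 / κ) (by positivity)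
    have hu' : IsNonarchimedean u' := powAbv_nonarch _ _ _ _
    have hdeg' : ∀ p : Qbar[X], p ≠ 0 → u' (algebraMap Qbar[X] A p) = Real.exp p.natDegree := by
      intro p hp
      show (u (algebraMap Qbar[X] A p)) ^ (1 / κ) = _
      rw [poly_eq u hu htriv hs p hp, ← Real.rpow_natCast, ← Real.rpow_mul (u.nonneg _), ← hsdef,
        Real.rpow_def_of_pos hs0, ← hκdef]
      congr 1
      field_simp
    -- extension
    let K := FractionRing A
    let L := FractionRing R
    have hAR : Function.Injective (algebraMap A R) := FaithfulSMul.algebraMap_injective A R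
    have hRL : Function.Injective (algebraMap R L) := IsFractionRing.injective R L
    have hAL : Function.Injective (algebraMap A L) := by
      rw [IsScalarTower.algebraMap_eq A R L]
      exact hRL.comp hAR
    have : FaithfulSMul A L := (faithfulSMul_iff_algebraMap_injective A L).2 hAL
    let _ : Algebra K L := FractionRing.liftAlgebra A L
    have : IsScalarTower A K L := FractionRing.isScalarTower_liftAlgebra A L
    have : Algebra.IsIntegral A R := Algebra.IsIntegral.tower_top (R := Qbar[X])
    have : Algebra.IsAlgebraic K L := isAlgebraic_of_isFractionRing (R := A) (S := R) K L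
    obtain ⟨w₁, hw₁, hw₁n⟩ := exists_frac_ext (K := K) u'
    obtain ⟨w₂, hw₂n, hw₂⟩ := exists_ext_abv (L := L) w₁ (hw₁n hu')
    let u'' : AbsoluteValue R ℝ := w₂.comp hRL
    have hu'' : ∀ x, u'' x = w₂ (algebraMap R L x) := fun x => rfl
    have hu''n : IsNonarchimedean u'' := by
      intro x y
      rw [hu'', hu'', hu'', map_add]
      exact hw₂n _ _
    have hres : ∀ x : A, u'' (algebraMap A R x) = u' x := by
      intro x
      rw [hu'', ← IsScalarTower.algebraMap_apply A R L, IsScalarTower.algebraMap_apply A K L, hw₂, hw₁]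
    have hdeg'' : ∀ p : Qbar[X], p ≠ 0 → u'' (algebraMap Qbar[X] R p) = Real.exp p.natDegree := by
      intro p hp
      rw [IsScalarTower.algebraMap_apply Qbar[X] A R, hres, hdeg' p hp]
    obtain ⟨g, hg⟩ := conj_abv (G := G) w hw hdeg u'' hu''n hdeg''
    refine ⟨g, κ, hκ, fun x => ?_⟩
    rw [← hg, hres]
    show u x = ((u x) ^ (1 / κ)) ^ κ
    rw [← Real.rpow_mul (u.nonneg _), one_div, inv_mul_cancel₀ hκ.ne', Real.rpow_one]

end MClass

export MClass (place_class)

end Pool.Agent.Helper259.Var
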