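import Mathlib
import Pool.Agent.Helper259.Var.RepDef
import Pool.Agent.Helper259.Var.Theta
import Pool.Agent.Helper259.Var.Tel
import Pool.Agent.Helper259.Var.IterG
import Pool.Agent.Helper259.Var.Class
import Pool.Agent.Helper259.Var.Setup

set_option autoImplicit false

universe u1 u2

namespace Pool.Agent.Helper259.Var

namespace MARep

open Polynomial Pool.Agent.Helper259.AbsHt

theorem log_iSup_rpow' {ι : Type*} [Finite ι] [Nonempty ι] (a : ι → ℝ) (ha : ∀ i, 0 ≤ a i)
    (κ : ℝ) (hκ : 0 < κ) :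
    Real.log (⨆ i, a i ^ κ) = κ * Real.log (⨆ i, a i) := by
  have h1 : (⨆ i, a i ^ κ) = (⨆ i, a i) ^ κ := by
    obtain ⟨i0, hi0⟩ := Finite.exists_max a
    have hs : (⨆ i, a i) = a i0 :=
      le_antisymm (ciSup_le hi0) (le_ciSup (Set.finite_range a).bddAbove i0)
    rw [hs]
    exact le_antisymm (ciSup_le fun i => Real.rpow_le_rpow (ha i) (hi0 i) hκ.le)
      (le_ciSup (Set.finite_range fun i => a i ^ κ).bddAbove i0)
  rw [h1]
  have h0 : 0 ≤ ⨆ i, a i := Real.iSup_nonneg ha
  rcases h0.eq_or_lt with h | h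
  · rw [← h, Real.zero_rpow hκ.ne', Real.log_zero, mul_zero]
  · rw [Real.log_rpow h]

theorem iSup_fin3' (f : Fin (2 + 1) → ℝ) (c : ℝ) (h0 : f 0 ≤ c) (h1 : f 1 ≤ c) (h2 : f 2 ≤ c)
    (hex : ∃ i, f i = c) : (⨆ i, f i) = c := by
  refine le_antisymm (ciSup_le fun i => ?_) ?_
  · fin_cases i
    · exact h0
    · exact h1
    · exact h2
  · obtain ⟨i, hi⟩ := hex
    rw [← hi]
    exact le_ciSup (Set.finite_range f).bddAbove i

theorem lim_exists' {A : Type u1} [CommRing A] [IsDomain A] {N d : ℕ} (hd : 2 ≤ d)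
    (F : Fin (N + 1) → MvPolynomial (Fin (N + 1)) A) (hhom : ∀ i, (F i).IsHomogeneous d)
    (hpow : ∀ k, ∃ e : ℕ,
      (MvPolynomial.X k : MvPolynomial (Fin (N + 1)) A) ^ e ∈ Ideal.span (Set.range F))
    (P U : Fin (N + 1) → A) (hU : ∑ i, U i * P i = 1) (u : AbsoluteValue A ℝ)
    (hu : IsNonarchimedean u) :
    ∃ L : ℝ, Filter.Tendsto (fun n => Real.log (⨆ i, u (iterQ F P n i)) / (d : ℝ) ^ n)
      Filter.atTop (nhds L) := by
  obtain ⟨T, C, hC, h⟩ := iter_growth hd F hhom hpow P U hU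
  have hM0 : 0 ≤ ∑ c ∈ T, u c := Finset.sum_nonneg fun c _ => u.nonneg c
  have h1 := h A u 0 (Or.inl ⟨hu, rfl⟩) (RingHom.id A) (∑ c ∈ T, u c) hM0 (by
    intro c hc
    have h2 : u c ≤ ∑ c ∈ T, u c :=
      Finset.single_le_sum (f := fun c => u c) (fun c _ => u.nonneg c) hc
    have h3 := Real.add_one_le_exp (∑ c ∈ T, u c)
    simp only [RingHom.id_apply]
    linarith)
  obtain ⟨L, hL, -⟩ := telescope d hd (fun n => Real.log (⨆ i, u (iterQ F P n i)))
    (C * (∑ c ∈ T, u c + ((0 : ℕ) : ℝ))) (fun n => (h1 n).2.2)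
  exact ⟨L, hL⟩

theorem lim_zero' {A : Type u1} [CommRing A] [IsDomain A] {N d : ℕ} (hd : 2 ≤ d)
    (F : Fin (N + 1) → MvPolynomial (Fin (N + 1)) A) (hhom : ∀ i, (F i).IsHomogeneous d)
    (hpow : ∀ k, ∃ e : ℕ,
      (MvPolynomial.X k : MvPolynomial (Fin (N + 1)) A) ^ e ∈ Ideal.span (Set.range F))
    (P U : Fin (N + 1) → A) (hU : ∑ i, U i * P i = 1) (u : AbsoluteValue A ℝ)
    (hu : IsNonarchimedean u) (hle : ∀ x, u x ≤ 1) (n : ℕ) :
    Real.log (⨆ i, u (iterQ F P n i)) = 0 := by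
  obtain ⟨T, C, hC, h⟩ := iter_growth hd F hhom hpow P U hU
  have h1 := h A u 0 (Or.inl ⟨hu, rfl⟩) (RingHom.id A) 0 le_rfl (by
    intro c hc
    rw [Real.exp_zero]
    exact hle _)
  have h2 := (h1 n).2.1
  simp only [Nat.cast_zero, add_zero, mul_zero, RingHom.id_apply] at h2
  exact abs_nonpos_iff.mp h2

/-- the conjugate absolute values on `A` -/
noncomputable def wg' {A R G : Type*} [CommRing A] [CommRing R] [IsDomain R] [Algebra A R]
    [FaithfulSMul A R] [Group G] [MulSemiringAction G R] (w : AbsoluteValue R ℝ) (g : G) :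
    AbsoluteValue A ℝ :=
  w.comp (f := (MulSemiringAction.toRingHom G R g).comp (algebraMap A R)) (by
    intro x y hxy
    have h1 : g • algebraMap A R x = g • algebraMap A R y := hxy
    exact FaithfulSMul.algebraMap_injective A R ((smul_left_cancel_iff g).mp h1))

theorem wg'_apply {A R G : Type*} [CommRing A] [CommRing R] [IsDomain R] [Algebra A R]
    [FaithfulSMul A R] [Group G] [MulSemiringAction G R] (w : AbsoluteValue R ℝ) (g : G) (x : A) :
    wg' w g x = w (g • algebraMap A R x) := rfl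

theorem wg'_nonarch {A R G : Type*} [CommRing A] [CommRing R] [IsDomain R] [Algebra A R]
    [FaithfulSMul A R] [Group G] [MulSemiringAction G R] (w : AbsoluteValue R ℝ)
    (hw : IsNonarchimedean w) (g : G) :
    IsNonarchimedean (wg' (A := A) w g) := by
  intro x y
  rw [wg'_apply, wg'_apply, wg'_apply, map_add, smul_add]
  exact hw _ _

theorem wg'_deg {A R G : Type*} [CommRing A] [Algebra Qbar[X] A] [CommRing R] [IsDomain R]
    [Algebra Qbar[X] R] [Algebra A R] [IsScalarTower Qbar[X] A R]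
    [FaithfulSMul A R] [Group G] [MulSemiringAction G R] [SMulCommClass G Qbar[X] R]
    (w : AbsoluteValue R ℝ)
    (hdeg : ∀ p : Qbar[X], p ≠ 0 → w (algebraMap Qbar[X] R p) = Real.exp p.natDegree) (g : G)
    (p : Qbar[X]) (hp : p ≠ 0) :
    wg' (A := A) w g (algebraMap Qbar[X] A p) = Real.exp p.natDegree := by
  rw [wg'_apply, ← IsScalarTower.algebraMap_apply, smul_algebraMap, hdeg p hp]

/-- the finite-family version -/
theorem thmA_fam {A : Type u1} [CommRing A] [IsDomain A] [Algebra Qbar[X] A]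
    [FaithfulSMul Qbar[X] A] [Algebra.IsIntegral Qbar[X] A] {I : Type*} [Fintype I]
    [DecidableEq I]
    (v : I → AbsoluteValue A ℝ) (hv : ∀ i, IsNonarchimedean (v i)) (hinj : Function.Injective v)
    (hdeg : ∀ i (p : Qbar[X]), p ≠ 0 → v i (algebraMap Qbar[X] A p) = Real.exp p.natDegree)
    (L : I → ℝ) :
    ∃ (φ : Option I → Fin (2 + 1) → A) (c : Option I → ℝ), (∀ j, φ j 0 = 1) ∧
      ∀ i0, ∑ j, c j * Real.log (⨆ i, v i0 (φ j i)) = L i0 := by
  obtain ⟨l₀, hl⟩ := exists_theta v hv hinj hdeg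
  choose θ hθ1 hθ2 using hl (l₀ + 1) (Nat.le_succ _)
  have hX : ∀ (i : I) (k : ℕ), v i (algebraMap Qbar[X] A X ^ k) = Real.exp k := by
    intro i k
    rw [← map_pow, hdeg i _ (pow_ne_zero k X_ne_zero), natDegree_X_pow]
  have hX1 : ∀ (i : I), v i (algebraMap Qbar[X] A X) = Real.exp 1 := by
    intro i
    have := hX i 1
    rw [pow_one] at this
    rw [this]; norm_num
  have hθ : ∀ i, v i (θ i) = Real.exp (((l₀ + 1 : ℕ) : ℝ)) := by
    intro i
    have h1 : v i (θ i - algebraMap Qbar[X] A (X ^ (l₀ + 1))) <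
        v i (algebraMap Qbar[X] A (X ^ (l₀ + 1))) := by
      rw [map_pow (algebraMap Qbar[X] A), hX i (l₀ + 1), ← map_pow]
      exact hθ1 i
    have h2 := IsNonarchimedean.add_eq_max_of_ne (hv i) h1.ne
    rw [sub_add_cancel] at h2
    rw [h2, max_eq_right h1.le, map_pow, hX]
  refine ⟨fun o => o.elim ![1, algebraMap Qbar[X] A X, 0]
      (fun i => ![1, algebraMap Qbar[X] A X ^ l₀, θ i]),
    fun o => o.elim (-(l₀ : ℝ) * ∑ i, L i) L, ?_, ?_⟩
  · rintro (_ | i) <;> rfl
  · intro i0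
    rw [Fintype.sum_option]
    simp only [Option.elim]
    have hstar : Real.log (⨆ i, v i0 (![1, algebraMap Qbar[X] A X, 0] i)) = 1 := by
      rw [iSup_fin3' (fun i => v i0 (![1, algebraMap Qbar[X] A X, 0] i)) (Real.exp 1)]
      · exact Real.log_exp 1
      · simp
      · simp [hX1]
      · simp [Real.exp_nonneg]
      · exact ⟨1, by simp [hX1]⟩
    have hself : Real.log (⨆ i, v i0 (![1, algebraMap Qbar[X] A X ^ l₀, θ i0] i)) =
        (l₀ : ℝ) + 1 := by
      rw [iSup_fin3' (fun i => v i0 (![1, algebraMap Qbar[X] A X ^ l₀, θ i0] i))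
        (Real.exp ((l₀ : ℝ) + 1))]
      · exact Real.log_exp _
      · show v i0 1 ≤ _
        rw [map_one]
        exact Real.one_le_exp (by positivity)
      · show v i0 (algebraMap Qbar[X] A X ^ l₀) ≤ _
        rw [hX]
        exact Real.exp_le_exp.mpr (by linarith)
      · show v i0 (θ i0) ≤ _
        rw [hθ]
        push_cast
        exact le_rfl
      · refine ⟨2, ?_⟩
        show v i0 (θ i0) = _
        rw [hθ]
        push_cast
        rfl
    have hother : ∀ i, i ≠ i0 →
        Real.log (⨆ k, v i0 (![1, algebraMap Qbar[X] A X ^ l₀, θ i] k)) = (l₀ : ℝ) := by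
      intro i hi
      rw [iSup_fin3' (fun k => v i0 (![1, algebraMap Qbar[X] A X ^ l₀, θ i] k))
        (Real.exp (l₀ : ℝ))]
      · exact Real.log_exp _
      · show v i0 1 ≤ _
        rw [map_one]
        exact Real.one_le_exp (by positivity)
      · show v i0 (algebraMap Qbar[X] A X ^ l₀) ≤ _
        rw [hX]
      · show v i0 (θ i) ≤ _
        have := hθ2 i i0 (Ne.symm hi)
        push_cast at this
        rw [add_sub_cancel_right] at this
        exact this
      · refine ⟨1, ?_⟩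
        show v i0 (algebraMap Qbar[X] A X ^ l₀) = _
        rw [hX]
    rw [hstar]
    have hsum : ∑ i, L i * Real.log (⨆ k, v i0 (![1, algebraMap Qbar[X] A X ^ l₀, θ i] k)) =
        ∑ i, (L i * l₀ + if i = i0 then L i else 0) := by
      apply Finset.sum_congr rfl
      intro i _
      by_cases h : i = i0
      · subst h
        rw [hself, if_pos rfl]
        ring
      · rw [hother i h, if_neg h]
        ring
    rw [hsum, Finset.sum_add_distrib, ← Finset.sum_mul, Finset.sum_ite_eq' Finset.univ i0]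
    simp
    ring

/-- the limit divisor exists and is a real combination of divisors of maps to the plane -/
theorem thmA_rep {A : Type u1} [CommRing A] [IsDomain A] [Algebra Qbar[X] A]
    [FaithfulSMul Qbar[X] A] [Module.Finite Qbar[X] A] {N d : ℕ} (hd : 2 ≤ d)
    (F : Fin (N + 1) → MvPolynomial (Fin (N + 1)) A) (hhom : ∀ i, (F i).IsHomogeneous d)
    (hpow : ∀ k, ∃ e : ℕ,
      (MvPolynomial.X k : MvPolynomial (Fin (N + 1)) A) ^ e ∈ Ideal.span (Set.range F))
    (P U : Fin (N + 1) → A) (hU : ∑ i, U i * P i = 1) :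
    ∃ (r : ℕ) (φ : Fin r → Fin (2 + 1) → A) (c : Fin r → ℝ), (∀ j, φ j 0 = 1) ∧
      Rep d F P φ c := by
  classical
  obtain ⟨R, _, _, _, _, _, _, _, _, G, _, _, _, _, _, w, hw, hdeg⟩ := exists_galois A
  have hint : Algebra.IsIntegral Qbar[X] A := inferInstance
  let I : Type u1 := Set.range (fun g : G => wg' (A := A) w g)
  have hfin : Finite I := Set.finite_range _
  have : Fintype I := Fintype.ofFinite I
  let v : I → AbsoluteValue A ℝ := fun i => i.1
  have hv : ∀ i, IsNonarchimedean (v i) := by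
    rintro ⟨_, g, rfl⟩
    exact wg'_nonarch w hw g
  have hvinj : Function.Injective v := Subtype.val_injective
  have hvdeg : ∀ i (p : Qbar[X]), p ≠ 0 → v i (algebraMap Qbar[X] A p) = Real.exp p.natDegree := by
    rintro ⟨_, g, rfl⟩ p hp
    exact wg'_deg w hdeg g p hp
  choose L hL using fun i : I => lim_exists' hd F hhom hpow P U hU (v i) (hv i)
  obtain ⟨φ, c, hφ, hsum⟩ := thmA_fam v hv hvinj hvdeg L
  let e := Fintype.equivFin (Option I)
  refine ⟨Fintype.card (Option I), fun j => φ (e.symm j), fun j => c (e.symm j),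
    fun j => hφ _, ?_⟩
  intro u hu htriv
  have hreidx : (∑ j, c (e.symm j) * Real.log (⨆ i, u (φ (e.symm j) i))) =
      ∑ o, c o * Real.log (⨆ i, u (φ o i)) :=
    Equiv.sum_comp e.symm (fun o => c o * Real.log (⨆ i, u (φ o i)))
  show Filter.Tendsto _ _ (nhds (∑ j, c (e.symm j) * Real.log (⨆ i, u (φ (e.symm j) i))))
  rw [hreidx]
  rcases place_class (A := A) (R := R) (G := G) w hw hdeg u hu htriv with hle | ⟨g, κ, hκ, hg⟩
  · have h1 : ∀ o, Real.log (⨆ i, u (φ o i)) = 0 := by
      intro o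
      rw [iSup_fin3' (fun i => u (φ o i)) 1 (hle _) (hle _) (hle _)
        ⟨0, by show u (φ o 0) = 1; rw [hφ, map_one]⟩]
      exact Real.log_one
    simp only [h1, mul_zero, Finset.sum_const_zero]
    simp only [lim_zero' hd F hhom hpow P U hU u hu hle, zero_div]
    exact tendsto_const_nhds
  · let i0 : I := ⟨wg' (A := A) w g, g, rfl⟩
    have hu' : ∀ x, u x = (v i0 x) ^ κ := hg
    have hlog : ∀ {M : ℕ} (x : Fin (M + 1) → A), Real.log (⨆ i, u (x i)) =
        κ * Real.log (⨆ i, v i0 (x i)) := by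
      intro M x
      simp only [hu']
      exact log_iSup_rpow' _ (fun i => (v i0).nonneg _) κ hκ
    have h2 : (∑ o, c o * Real.log (⨆ i, u (φ o i))) = κ * L i0 := by
      rw [← hsum i0, Finset.mul_sum]
      apply Finset.sum_congr rfl
      intro o _
      rw [hlog]
      ring
    rw [h2]
    have h3 := (hL i0).const_mul κ
    refine h3.congr fun n => ?_
    rw [hlog, mul_div_assoc]

end MARep

export MARep (thmA_rep)

end Pool.Agent.Helper259.Var
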