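import Mathlib
import Pool.Agent.Helper259.HtDef
import Pool.Agent.Helper259.Var.Iter

set_option autoImplicit false

namespace Pool.Agent.Helper259.Var

open Pool.Agent.Helper259.AbsHt

/-- `K` is an algebraic function field in one variable over `Qbar`. -/
def IsFunctionField (K : Type*) [Field K] [Algebra Qbar K] : Prop :=
  ∃ s : K, Transcendental Qbar s ∧
    FiniteDimensional (IntermediateField.adjoin Qbar ({s} : Set K)) K

/-- A closed point of the smooth projective curve with function field `K`: its local ring, a
valuation ring `V` of `K` containing the constants, with the evaluation map `V → Qbar` at the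
point, whose kernel is the maximal ideal. -/
structure CurvePoint (K : Type*) [Field K] [Algebra Qbar K] where
  /-- the local ring at the point -/
  V : ValuationSubring K
  /-- evaluation at the point -/
  ev : V →+* Qbar
  const_mem : ∀ c : Qbar, algebraMap Qbar K c ∈ V
  ev_const : ∀ c : Qbar, ev ⟨algebraMap Qbar K c, const_mem c⟩ = c
  isUnit_of_ev_ne_zero : ∀ x : V, ev x ≠ 0 → IsUnit x

/-- `y` is a coordinate vector of the value at the point `t` of the rational map to projective
space whose coordinates are the functions `x i`. -/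
def IsValueAt {K : Type*} [Field K] [Algebra Qbar K] {ι : Type*} (t : CurvePoint K) (x : ι → K)
    (y : ι → Qbar) : Prop :=
  y ≠ 0 ∧ ∃ a : K, ∀ i, ∃ h : a * x i ∈ t.V, t.ev ⟨a * x i, h⟩ = y i

/-- The polynomials `F'` over `Qbar` define the specialisation at `t` of the rational self-map of
projective space defined by the polynomials `F` over `K` (one scaling factor for all the
coefficients). -/
def IsSpecAt {K : Type*} [Field K] [Algebra Qbar K] {N : ℕ} (t : CurvePoint K)
    (F : Fin (N + 1) → MvPolynomial (Fin (N + 1)) K)
    (F' : Fin (N + 1) → MvPolynomial (Fin (N + 1)) Qbar) : Prop :=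
  ∃ a : K, ∀ i m, ∃ h : a * (F i).coeff m ∈ t.V, t.ev ⟨a * (F i).coeff m, h⟩ = (F' i).coeff m

/-- The homogeneous polynomials `F'` over `Qbar` have no common zero in projective space, so they
define a morphism. -/
def NoCommonZero {N : ℕ} (F' : Fin (N + 1) → MvPolynomial (Fin (N + 1)) Qbar) : Prop :=
  ∀ x : Fin (N + 1) → Qbar, (∀ i, MvPolynomial.eval x (F' i) = 0) → x = 0

/-- Canonical height of the point `x` for the morphism of degree `d` given by `F'`. -/
noncomputable def canHeight {N : ℕ} (d : ℕ)
    (F' : Fin (N + 1) → MvPolynomial (Fin (N + 1)) Qbar) (x : Fin (N + 1) → Qbar) : ℝ :=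
  Filter.limUnder Filter.atTop
    (fun n : ℕ => absLogHeight ((fun (y : Fin (N + 1) → Qbar) i => MvPolynomial.eval y (F' i))^[n] x)
      / (d : ℝ) ^ n)

/-- `v` (on the nonzero functions) is the order of vanishing at the point `t`: the normalised
discrete valuation whose valuation ring is the local ring at `t`. -/
structure IsOrd {K : Type*} [Field K] [Algebra Qbar K] (t : CurvePoint K) (v : K → ℤ) : Prop where
  map_mul : ∀ x y : K, x ≠ 0 → y ≠ 0 → v (x * y) = v x + v y
  mem_iff : ∀ x : K, x ≠ 0 → (x ∈ t.V ↔ 0 ≤ v x)
  exists_uniformizer : ∃ x : K, x ≠ 0 ∧ v x = 1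

/-- `- min_i v (x i)`, the minimum over the nonzero entries: the coefficient, at the point with
order function `v`, of the divisor `- min_i ord (x i)`, which is the pull-back of the class of a
hyperplane under the map to projective space with coordinates `x`. -/
noncomputable def polarOrd {K : Type*} [Field K] {ι : Type*} (v : K → ℤ) (x : ι → K) : ℤ :=
  -sInf {m : ℤ | ∃ i, x i ≠ 0 ∧ v (x i) = m}

/-- `h` is a Weil height associated with the real divisor `E` on the smooth projective curve with
function field `K`: for some expression `E = ∑ c j * (- min_i ord (φ j i))` of `E` as a real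
combination of divisors of maps `φ j` to projective space, `h` differs from
`∑ c j * (Weil height of φ j (t))` by a bounded function. -/
def IsWeilHeight {K : Type*} [Field K] [Algebra Qbar K] (E : CurvePoint K →₀ ℝ)
    (h : CurvePoint K → ℝ) : Prop :=
  ∃ (r k : ℕ) (φ : Fin r → Fin (k + 1) → K) (c : Fin r → ℝ), (∀ j, φ j ≠ 0) ∧
    (∀ t v, IsOrd t v → ∑ j, c j * (polarOrd v (φ j) : ℝ) = E t) ∧
    ∃ C : ℝ, ∀ (t : CurvePoint K) (φ' : Fin r → Fin (k + 1) → Qbar),
      (∀ j, IsValueAt t (φ j) (φ' j)) → |h t - ∑ j, c j * absLogHeight (φ' j)| ≤ C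

/-- The coefficient, at the point with order function `v`, of the pull-back of the hyperplane
`∑ l i X_i = 0` under the map to projective space with coordinates `x`. -/
noncomputable def pullbackOrd {K : Type*} [Field K] [Algebra Qbar K] {N : ℕ} (v : K → ℤ)
    (l : Fin (N + 1) → Qbar) (x : Fin (N + 1) → K) : ℤ :=
  v (∑ i, algebraMap Qbar K (l i) * x i) + polarOrd v x

/-- The hyperplane `∑ l i X_i = 0` is totally invariant under the map given by `F` of degree
`d`: the composite of the linear form with `F` is a nonzero multiple of its `d`-th power. -/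
def IsTotallyInvariant {K : Type*} [Field K] [Algebra Qbar K] {N : ℕ} (d : ℕ)
    (F : Fin (N + 1) → MvPolynomial (Fin (N + 1)) K) (l : Fin (N + 1) → Qbar) : Prop :=
  ∃ a : K, a ≠ 0 ∧ ∑ i, MvPolynomial.C (algebraMap Qbar K (l i)) * F i =
    MvPolynomial.C a * (∑ i, MvPolynomial.C (algebraMap Qbar K (l i)) * MvPolynomial.X i) ^ d

/-- Weil heights associated with `E` exist, and each of them differs by a bounded function from
the canonical height of the specialised point `P_t` under the specialised map `f_t`, over all the
points `t` at which `f_t` is a morphism of degree `d` (where the limit defining the canonical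
height exists). -/
def HeightIsWeil {K : Type*} [Field K] [Algebra Qbar K] {N : ℕ} (d : ℕ)
    (F : Fin (N + 1) → MvPolynomial (Fin (N + 1)) K) (P : Fin (N + 1) → K)
    (E : CurvePoint K →₀ ℝ) : Prop :=
  (∃ h, IsWeilHeight E h) ∧
  ∀ h, IsWeilHeight E h → ∃ C : ℝ, ∀ (t : CurvePoint K)
    (F' : Fin (N + 1) → MvPolynomial (Fin (N + 1)) Qbar) (P' : Fin (N + 1) → Qbar),
    IsSpecAt t F F' → NoCommonZero F' → IsValueAt t P P' →
    Filter.Tendsto (fun n : ℕ =>
      absLogHeight ((fun (y : Fin (N + 1) → Qbar) i => MvPolynomial.eval y (F' i))^[n] P')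
        / (d : ℝ) ^ n) Filter.atTop (nhds (canHeight d F' P')) ∧
    |canHeight d F' P' - h t| ≤ C

end Pool.Agent.Helper259.Var
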