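import Mathlib
import Pool.Agent.Helper259.Var.FinalDefs

set_option autoImplicit false

universe u1 u2

namespace Pool.Agent.Helper259.Var

namespace MBridge

open Polynomial Pool.Agent.Helper259.AbsHt

/-- the absolute value attached to a point -/
theorem ord_abv {K : Type*} [Field K] [Algebra Qbar K] (t : CurvePoint K) (v : K → ℤ)
    (hv : IsOrd t v) :
    ∃ u : AbsoluteValue K ℝ, (∀ x, x ≠ 0 → u x = Real.exp (-(v x : ℝ))) ∧
      ∀ a : Qbar, a ≠ 0 → u (algebraMap Qbar K a) = 1 := by
  classical
  have v1 : v 1 = 0 := by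
    have := hv.map_mul 1 1 one_ne_zero one_ne_zero
    rw [mul_one] at this
    omega
  have vinv : ∀ x : K, x ≠ 0 → v x⁻¹ = -v x := by
    intro x hx
    have := hv.map_mul x x⁻¹ hx (inv_ne_zero hx)
    rw [mul_inv_cancel₀ hx, v1] at this
    omega
  have ultra : ∀ x y : K, x ≠ 0 → y ≠ 0 → x + y ≠ 0 → v x ≤ v y → v x ≤ v (x + y) := by
    intro x y hx hy hxy h
    have h1 : y * x⁻¹ ∈ t.V := by
      rw [hv.mem_iff _ (mul_ne_zero hy (inv_ne_zero hx)), hv.map_mul _ _ hy (inv_ne_zero hx),
        vinv x hx]
      omega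
    have h2 : (x + y) * x⁻¹ ∈ t.V := by
      have e : (x + y) * x⁻¹ = 1 + y * x⁻¹ := by
        rw [add_mul, mul_inv_cancel₀ hx]
      rw [e]
      exact t.V.add_mem _ _ t.V.one_mem h1
    rw [hv.mem_iff _ (mul_ne_zero hxy (inv_ne_zero hx)), hv.map_mul _ _ hxy (inv_ne_zero hx),
      vinv x hx] at h2
    omega
  let u : AbsoluteValue K ℝ :=
    { toFun := fun x => if x = 0 then 0 else Real.exp (-(v x : ℝ))
      map_mul' := by
        intro x y
        by_cases hx : x = 0
        · simp [hx]
        · by_cases hy : y = 0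
          · simp [hy]
          · simp only [if_neg hx, if_neg hy, if_neg (mul_ne_zero hx hy), hv.map_mul x y hx hy]
            rw [← Real.exp_add]
            push_cast
            congr 1
            ring
      nonneg' := by
        intro x
        by_cases hx : x = 0
        · simp [hx]
        · simp only [if_neg hx]
          exact (Real.exp_pos _).le
      eq_zero' := by
        intro x
        by_cases hx : x = 0
        · simp [hx]
        · simp only [if_neg hx]
          exact ⟨fun h => absurd h (Real.exp_pos _).ne', fun h => absurd h hx⟩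
      add_le' := by
        intro x y
        by_cases hx : x = 0
        · simp [hx]
        · by_cases hy : y = 0
          · simp [hy]
          · by_cases hxy : x + y = 0
            · simp only [if_neg hx, if_neg hy, if_pos hxy]
              positivity
            · simp only [if_neg hx, if_neg hy, if_neg hxy]
              rcases le_total (v x) (v y) with h | h
              · have h1 : ((v x : ℤ) : ℝ) ≤ (v (x + y) : ℝ) := by
                  exact_mod_cast ultra x y hx hy hxy h
                have h2 : Real.exp (-(v (x + y) : ℝ)) ≤ Real.exp (-(v x : ℝ)) :=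
                  Real.exp_le_exp.2 (by linarith)
                have := Real.exp_pos (-(v y : ℝ))
                linarith
              · have h0 := ultra y x hy hx (by rwa [add_comm]) h
                rw [add_comm y x] at h0
                have h1 : ((v y : ℤ) : ℝ) ≤ (v (x + y) : ℝ) := by
                  exact_mod_cast h0
                have h2 : Real.exp (-(v (x + y) : ℝ)) ≤ Real.exp (-(v y : ℝ)) :=
                  Real.exp_le_exp.2 (by linarith)
                have := Real.exp_pos (-(v x : ℝ))
                linarith }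
  have hu : ∀ x, x ≠ 0 → u x = Real.exp (-(v x : ℝ)) := fun x hx => if_neg hx
  refine ⟨u, hu, fun a ha => ?_⟩
  have ha' : algebraMap Qbar K a ≠ 0 := by
    rw [Ne, map_eq_zero]
    exact ha
  have h1 := (hv.mem_iff _ ha').1 (t.const_mem a)
  have h2 := (hv.mem_iff _ (inv_ne_zero ha')).1 (by rw [← map_inv₀]; exact t.const_mem a⁻¹)
  rw [vinv _ ha'] at h2
  have h3 : v (algebraMap Qbar K a) = 0 := by omega
  rw [hu _ ha', h3]
  simp

/-- sup norms and orders -/
theorem log_sup_abv {K : Type*} [Field K] {k : ℕ} (u : AbsoluteValue K ℝ) (v : K → ℤ) (κ : ℝ)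
    (hκ : 0 < κ) (hu : ∀ x, x ≠ 0 → u x = Real.exp (-(κ * v x))) (x : Fin (k + 1) → K)
    (hx : x ≠ 0) : Real.log (⨆ i, u (x i)) = κ * (polarOrd v x : ℝ) := by
  obtain ⟨i1, hi1⟩ : ∃ i, x i ≠ 0 := by
    by_contra hc
    push Not at hc
    exact hx (funext hc)
  have hfin : {m : ℤ | ∃ i, x i ≠ 0 ∧ v (x i) = m}.Finite := by
    refine (Set.finite_range fun i => v (x i)).subset ?_
    rintro m ⟨i, -, hi⟩
    exact ⟨i, hi⟩
  have hne : {m : ℤ | ∃ i, x i ≠ 0 ∧ v (x i) = m}.Nonempty := ⟨_, i1, hi1, rfl⟩
  obtain ⟨i0, hi0, hm⟩ := Int.csInf_mem hne hfin.bddBelow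
  have hle : ∀ i, x i ≠ 0 → v (x i0) ≤ v (x i) := by
    intro i hi
    rw [hm]
    exact csInf_le hfin.bddBelow ⟨i, hi, rfl⟩
  have hsup : (⨆ i, u (x i)) = Real.exp (-(κ * v (x i0))) := by
    apply le_antisymm
    · apply ciSup_le
      intro i
      by_cases hi : x i = 0
      · rw [hi, map_zero]
        exact (Real.exp_pos _).le
      · rw [hu _ hi]
        apply Real.exp_le_exp.2
        have h1 : ((v (x i0) : ℤ) : ℝ) ≤ (v (x i) : ℝ) := by exact_mod_cast hle i hi
        have := mul_le_mul_of_nonneg_left h1 hκ.le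
        linarith
    · rw [← hu _ hi0]
      exact le_ciSup (f := fun i => u (x i)) (Set.finite_range _).bddAbove i0
  rw [hsup, Real.log_exp]
  unfold polarOrd
  rw [← hm]
  push_cast
  ring

/-- nonvanishing of the iterates -/
theorem iterQ_ne_zero {K : Type*} [Field K] {N : ℕ}
    (F : Fin (N + 1) → MvPolynomial (Fin (N + 1)) K)
    (hmor : ∀ x : Fin (N + 1) → AlgebraicClosure K, (∀ i, MvPolynomial.aeval x (F i) = 0) → x = 0)
    (P : Fin (N + 1) → K) (hP : P ≠ 0) (n : ℕ) : iterQ F P n ≠ 0 := by
  induction n with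
  | zero => exact hP
  | succ n ih =>
    intro h
    apply ih
    have h1 : ∀ i, MvPolynomial.eval (iterQ F P n) (F i) = 0 := fun i => congrFun h i
    have h2 := hmor (fun i => algebraMap K (AlgebraicClosure K) (iterQ F P n i)) (fun i => by
      have h3 := MvPolynomial.aeval_algebraMap_apply (AlgebraicClosure K) (iterQ F P n) (F i)
      have h4 : (MvPolynomial.aeval (iterQ F P n)) (F i) = 0 := by
        rw [← h1 i]
        rfl
      rw [h4, map_zero] at h3
      exact h3)
    funext i
    have h5 := congrFun h2 i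
    exact (map_eq_zero (algebraMap K (AlgebraicClosure K))).1 h5

end MBridge

export MBridge (ord_abv log_sup_abv iterQ_ne_zero)

end Pool.Agent.Helper259.Var
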