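import Mathlib
import Pool.Agent.Helper259.Var.Defs

set_option autoImplicit false

namespace Pool.Agent.Helper259.Var

namespace MNull

open Pool.Agent.Helper259.AbsHt

open MvPolynomial

theorem exists_hom_aux {R : Type*} [CommRing R] [Algebra Qbar R] [Algebra.FiniteType Qbar R]
    (m : Ideal R) (hm : m.IsMaximal) : ∃ χ : R →ₐ[Qbar] Qbar, ∀ x, χ x = 0 ↔ x ∈ m := by
  letI : Field (R ⧸ m) := Ideal.Quotient.field m
  have hft : Algebra.FiniteType Qbar (R ⧸ m) :=
    Algebra.FiniteType.of_surjective (Ideal.Quotient.mkₐ Qbar m) (Ideal.Quotient.mkₐ_surjective Qbar m)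
  have hfin : Module.Finite Qbar (R ⧸ m) := finite_of_finite_type_of_isJacobsonRing Qbar (R ⧸ m)
  have hbij : Function.Bijective (algebraMap Qbar (R ⧸ m)) :=
    IsAlgClosed.algebraMap_bijective_of_isIntegral
  let e : Qbar ≃ₐ[Qbar] (R ⧸ m) := AlgEquiv.ofBijective (Algebra.ofId Qbar (R ⧸ m)) hbij
  refine ⟨(e.symm : (R ⧸ m) →ₐ[Qbar] Qbar).comp (Ideal.Quotient.mkₐ Qbar m), fun x => ?_⟩
  have h1 : ((e.symm : (R ⧸ m) →ₐ[Qbar] Qbar).comp (Ideal.Quotient.mkₐ Qbar m)) x =
      e.symm (Ideal.Quotient.mk m x) := rfl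
  rw [h1, EmbeddingLike.map_eq_zero_iff, Ideal.Quotient.eq_zero_iff_mem]

/-- TARGET 1 (Nullstellensatz over an affine base): if at every point `t` of the affine variety the
specialised polynomials have no common zero except the origin, then a power of every variable lies
in the ideal they generate.
(The ring `MvPolynomial (Fin n) A` is a finitely generated `Qbar`-algebra, hence Jacobson, and its
maximal ideals are the kernels of `Qbar`-algebra homomorphisms to `Qbar`.) -/
theorem exists_pow_mem_span {A : Type*} [CommRing A] [Algebra Qbar A] [Algebra.FiniteType Qbar A]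
    {m n : ℕ} (F : Fin m → MvPolynomial (Fin n) A)
    (hF : ∀ (t : A →ₐ[Qbar] Qbar) (x : Fin n → Qbar),
      (∀ i, eval x (map (t : A →+* Qbar) (F i)) = 0) → x = 0) (k : Fin n) :
    ∃ e : ℕ, (X k : MvPolynomial (Fin n) A) ^ e ∈ Ideal.span (Set.range F) := by
  have hft : Algebra.FiniteType Qbar (MvPolynomial (Fin n) A) :=
    Algebra.FiniteType.trans (S := A) inferInstance inferInstance
  have hjac : IsJacobsonRing (MvPolynomial (Fin n) A) := isJacobsonRing_of_finiteType (A := Qbar)
  suffices h : (X k : MvPolynomial (Fin n) A) ∈ (Ideal.span (Set.range F)).radical by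
    exact h
  rw [Ideal.radical_eq_jacobson, Ideal.jacobson, Submodule.mem_sInf]
  rintro J ⟨hJ1, hJ2⟩
  obtain ⟨χ, hχ⟩ := exists_hom_aux J hJ2
  let t : A →ₐ[Qbar] Qbar := χ.comp (IsScalarTower.toAlgHom Qbar A (MvPolynomial (Fin n) A))
  let x : Fin n → Qbar := fun i => χ (X i)
  have hcomp : (eval x).comp (map (t : A →+* Qbar)) = (χ : MvPolynomial (Fin n) A →+* Qbar) := by
    apply MvPolynomial.ringHom_ext
    · intro r
      simp [t, MvPolynomial.algebraMap_eq]
    · intro i
      simp [x]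
  have hx := hF t x (fun i => by
    have h1 : eval x (map (t : A →+* Qbar) (F i)) = χ (F i) := congrArg (fun g => g (F i)) hcomp
    rw [h1, hχ]
    exact hJ1 (Ideal.subset_span ⟨i, rfl⟩))
  rw [← hχ]
  exact congr_fun hx k

/-- second estimate -/
theorem exists_unimodular {A : Type*} [CommRing A] [Algebra Qbar A] [Algebra.FiniteType Qbar A]
    {n : ℕ} (P : Fin n → A) (hP : ∀ t : A →ₐ[Qbar] Qbar, ∃ i, t (P i) ≠ 0) :
    ∃ u : Fin n → A, ∑ i, u i * P i = 1 := by
  by_cases h : Ideal.span (Set.range P) = ⊤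
  · have h1 : (1 : A) ∈ Ideal.span (Set.range P) := by rw [h]; exact Submodule.mem_top
    obtain ⟨u, hu⟩ := Ideal.mem_span_range_iff_exists_fun.mp h1
    exact ⟨u, hu⟩
  · exfalso
    obtain ⟨m, hm, hle⟩ := Ideal.exists_le_maximal _ h
    obtain ⟨χ, hχ⟩ := exists_hom_aux m hm
    obtain ⟨i, hi⟩ := hP χ
    exact hi ((hχ _).mpr (hle (Ideal.subset_span ⟨i, rfl⟩)))

end MNull

export MNull (exists_pow_mem_span exists_unimodular)

end Pool.Agent.Helper259.Var
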