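import Mathlib
import Pool.Agent.Helper259.Var.FinalDefs
import Pool.Agent.Helper259.Var.Null
import Pool.Agent.Helper259.Var.Dyn
import Pool.Agent.Helper259.Var.Tel
import Pool.Agent.Helper259.Var.Glob

set_option autoImplicit false

universe u1 u2

namespace Pool.Agent.Helper259.Var

namespace MCant

open Polynomial Pool.Agent.Helper259.AbsHt

/-- the limit defining the canonical height exists -/
theorem canHeight_tendsto {N d : ℕ} (hd : 2 ≤ d)
    (F' : Fin (N + 1) → MvPolynomial (Fin (N + 1)) Qbar) (hhom : ∀ i, (F' i).IsHomogeneous d)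
    (hF' : NoCommonZero F') (x : Fin (N + 1) → Qbar) (hx : x ≠ 0) :
    Filter.Tendsto (fun n : ℕ =>
      absLogHeight ((fun (y : Fin (N + 1) → Qbar) i => MvPolynomial.eval y (F' i))^[n] x)
        / (d : ℝ) ^ n) Filter.atTop (nhds (canHeight d F' x)) := by
  have hpow : ∀ k, ∃ e : ℕ,
      (MvPolynomial.X k : MvPolynomial (Fin (N + 1)) Qbar) ^ e ∈ Ideal.span (Set.range F') := by
    intro k
    refine exists_pow_mem_span F' ?_ k
    intro t y hy
    apply hF' y
    intro i
    have h1 := hy i
    have h2 : (t : Qbar →+* Qbar) = RingHom.id Qbar := by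
      ext c
      exact t.commutes c
    rw [h2, MvPolynomial.map_id] at h1
    exact h1
  obtain ⟨T, C, hC, h⟩ := dyn_ineq.{0, 0} F' hhom hpow
  set f : (Fin (N + 1) → Qbar) → (Fin (N + 1) → Qbar) :=
    fun (y : Fin (N + 1) → Qbar) i => MvPolynomial.eval y (F' i) with hf
  have hf0 : ∀ y, y ≠ 0 → f y ≠ 0 := by
    intro y hy h0
    exact hy (hF' y (fun i => congrFun h0 i))
  have hq : ∀ n, f^[n] x ≠ 0 := by
    intro n
    induction n with
    | zero => exact hx
    | succ n ih =>
      rw [Function.iterate_succ_apply']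
      exact hf0 _ ih
  obtain ⟨C', hC', h'⟩ := global_dyn (τ := Unit) (d := d) (fun _ n => f^[n] x) (fun _ => 1)
    (fun _ n => hq n) T (2 * C) (by positivity) (by
      intro v ε b hadm _ n
      obtain ⟨hloc, hεb, hT⟩ := hadm
      have hε0 : (0 : ℝ) ≤ ε := Nat.cast_nonneg ε
      have hb0 : 0 ≤ b := hε0.trans hεb
      have htame : Tame v ε := by
        rcases hloc with h1 | h1
        · exact Or.inl h1
        · exact Or.inr h1.2
      have h1 := (h Qbar v ε htame (RingHom.id Qbar) b hb0 hT (f^[n] x) (hq n)).2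
      simp only [MvPolynomial.map_id] at h1
      rw [Function.iterate_succ_apply']
      refine le_trans h1 ?_
      have h2 : (0 : ℝ) ≤ max 0 (Real.log (v 1)) := le_max_left _ _
      nlinarith)
  obtain ⟨L, hL, _⟩ := telescope d hd (fun n => absLogHeight (f^[n] x)) _ (fun n => h' () n)
  exact tendsto_nhds_limUnder ⟨L, hL⟩

end MCant

export MCant (canHeight_tendsto)

end Pool.Agent.Helper259.Var
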