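import Mathlib
import Pool.Agent.Helper259.Var.FinalDefs

set_option autoImplicit false

universe u1 u2

namespace Pool.Agent.Helper259.Var

namespace MNoetherK

open Polynomial Pool.Agent.Helper259.AbsHt

open scoped IntermediateField.algebraAdjoinAdjoin in

theorem aux_trdeg {K : Type*} [Field K] [Algebra Qbar K] (hK : IsFunctionField K) :
    Algebra.trdeg Qbar K = 1 := by
  obtain ⟨s, hs, hfin⟩ := hK
  have hind : AlgebraicIndependent Qbar (fun _ : Unit => s) :=
    algebraicIndependent_unique_type_iff.2 hs
  have halg : Algebra.IsAlgebraic (Algebra.adjoin Qbar (Set.range fun _ : Unit => s)) K := by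
    rw [Set.range_const]
    have h1 : Algebra.IsAlgebraic (IntermediateField.adjoin Qbar ({s} : Set K)) K := inferInstance
    exact (IsFractionRing.comap_isAlgebraic_iff (A := Algebra.adjoin Qbar ({s} : Set K))
      (K := IntermediateField.adjoin Qbar ({s} : Set K)) (C := K)).2 h1
  have hb := hind.isTranscendenceBasis_iff_isAlgebraic.2 halg
  have := hb.lift_cardinalMk_eq_trdeg
  simpa using this.symm

/-- Noether normalization inside a function field -/
theorem noetherK {K : Type*} [Field K] [Algebra Qbar K] (hK : IsFunctionField K)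
    (A : Subalgebra Qbar K) (hA : A.FG) (hs : ∃ s ∈ A, Transcendental Qbar s) :
    ∃ s : A, Transcendental Qbar s ∧ (Polynomial.aeval s : Qbar[X] →ₐ[Qbar] A).toRingHom.Finite := by
  have hft : Algebra.FiniteType Qbar A := (Subalgebra.fg_iff_finiteType A).1 hA
  obtain ⟨r, g, hginj, hgfin⟩ := exists_finite_inj_algHom_of_fg Qbar A
  have hindA : AlgebraicIndependent Qbar (fun i : Fin r => g (MvPolynomial.X i)) := by
    rw [algebraicIndependent_iff_injective_aeval]
    have : MvPolynomial.aeval (R := Qbar) (fun i : Fin r => g (MvPolynomial.X i)) = g := by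
      ext i
      simp
    rw [this]
    exact hginj
  have hindK : AlgebraicIndependent Qbar (fun i : Fin r => ((g (MvPolynomial.X i) : A) : K)) :=
    hindA.map' (f := A.val) Subtype.val_injective
  have hcard := hindK.lift_cardinalMk_le_trdeg
  rw [aux_trdeg hK] at hcard
  have hr : r ≤ 1 := by
    simp only [Cardinal.mk_fin, Cardinal.lift_natCast, Cardinal.lift_one] at hcard
    exact_mod_cast hcard
  obtain ⟨s₁, hs₁A, hs₁⟩ := hs
  have hr0 : r ≠ 0 := by
    rintro rfl
    apply hs₁
    have hint : g.toRingHom.IsIntegral := RingHom.Finite.to_isIntegral hgfin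
    have h1 : (algebraMap Qbar A).IsIntegral := by
      have h2 : (algebraMap Qbar A) = g.toRingHom.comp (algebraMap Qbar (MvPolynomial (Fin 0) Qbar)) := by
        ext x
        simp
      rw [h2]
      apply RingHom.IsIntegral.trans
      · apply RingHom.isIntegral_of_surjective
        exact MvPolynomial.C_surjective (Fin 0)
      · exact hint
    have h3 : IsIntegral Qbar (⟨s₁, hs₁A⟩ : A) := h1 _
    have h4 := h3.map A.val
    exact h4.isAlgebraic
  have hr1 : r = 1 := by omega
  subst hr1
  have hcomp : (Polynomial.aeval (g (MvPolynomial.X 0)) : Qbar[X] →ₐ[Qbar] A) =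
      g.comp (Polynomial.aeval (MvPolynomial.X (0 : Fin 1)) : Qbar[X] →ₐ[Qbar] MvPolynomial (Fin 1) Qbar) := by
    ext
    simp
  refine ⟨g (MvPolynomial.X 0), ?_, ?_⟩
  · have := (algebraicIndependent_unique_type_iff (x := fun i : Fin 1 => g (MvPolynomial.X i))).1 hindA
    exact this
  · rw [hcomp]
    have hsurj : Function.Surjective (Polynomial.aeval (MvPolynomial.X (0 : Fin 1)) :
        Qbar[X] →ₐ[Qbar] MvPolynomial (Fin 1) Qbar) := by
      intro p
      have : (Polynomial.aeval (MvPolynomial.X (0 : Fin 1)) :
        Qbar[X] →ₐ[Qbar] MvPolynomial (Fin 1) Qbar).range = ⊤ := by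
        rw [eq_top_iff, ← MvPolynomial.adjoin_range_X]
        apply Algebra.adjoin_le
        rintro _ ⟨i, rfl⟩
        refine ⟨Polynomial.X, ?_⟩
        have hi : i = 0 := Subsingleton.elim _ _
        rw [hi]
        simp
      have hp : p ∈ (Polynomial.aeval (MvPolynomial.X (0 : Fin 1)) :
        Qbar[X] →ₐ[Qbar] MvPolynomial (Fin 1) Qbar).range := by
        rw [this]; trivial
      exact hp
    exact RingHom.Finite.comp hgfin (RingHom.Finite.of_surjective _ hsurj)

end MNoetherK

export MNoetherK (noetherK)

end Pool.Agent.Helper259.Var
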