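import Mathlib
import Pool.Agent.Helper259.Var.Defs
import Pool.Agent.Helper259.Var.NoetherK

set_option autoImplicit false

universe u1 u2

namespace Pool.Agent.Helper259.Var

namespace MDescend

open Polynomial Pool.Agent.Helper259.AbsHt

open scoped IntermediateField.algebraAdjoinAdjoin in

theorem descend_isAlg {K : Type u1} [Field K] [Algebra Qbar K] (s0 : K)
    (hfin : FiniteDimensional (IntermediateField.adjoin Qbar ({s0} : Set K)) K)
    (A : Subalgebra Qbar K) (h : s0 ∈ A) : Algebra.IsAlgebraic A K := by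
  have h1 : Algebra.IsAlgebraic (IntermediateField.adjoin Qbar ({s0} : Set K)) K :=
    Algebra.IsAlgebraic.of_finite _ _
  have h2 : Algebra.IsAlgebraic (Algebra.adjoin Qbar ({s0} : Set K)) K :=
    Algebra.IsAlgebraic.trans (Algebra.adjoin Qbar ({s0} : Set K))
      (IntermediateField.adjoin Qbar ({s0} : Set K)) K
  have hle : Algebra.adjoin Qbar ({s0} : Set K) ≤ A :=
    Algebra.adjoin_le (Set.singleton_subset_iff.2 h)
  exact ⟨fun x => IsAlgebraic.tower_top_of_subalgebra_le hle (h2.isAlgebraic x)⟩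

theorem descend_lift {K : Type u1} [Field K] [Algebra Qbar K] (A : Subalgebra Qbar K) {N : ℕ}
    (p : MvPolynomial (Fin (N + 1)) K) (h : ∀ c ∈ p.coeffs, c ∈ A) :
    ∃ q : MvPolynomial (Fin (N + 1)) A, MvPolynomial.map (algebraMap A K) q = p := by
  have h1 : p ∈ Set.range (MvPolynomial.map (algebraMap A K)) := by
    rw [MvPolynomial.mem_range_map_iff_coeffs_subset]
    intro c hc
    exact ⟨⟨c, h c hc⟩, rfl⟩
  exact h1

theorem descend_unit {K : Type u1} [Field K] {ι : Type} [Fintype ι] (P : ι → K) (hP : P ≠ 0) :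
    ∃ U : ι → K, ∑ i, U i * P i = 1 := by
  classical
  obtain ⟨i0, hi0⟩ := Function.ne_iff.1 hP
  refine ⟨fun i => if i = i0 then (P i0)⁻¹ else 0, ?_⟩
  have h0 : P i0 ≠ 0 := hi0
  simp [h0]

/-- descent of all the data to an affine curve -/
theorem descend {K : Type u1} [Field K] [Algebra Qbar K] (hK : IsFunctionField K) {N d r k : ℕ}
    (F : Fin (N + 1) → MvPolynomial (Fin (N + 1)) K) (hhom : ∀ i, (F i).IsHomogeneous d)
    (hpow : ∀ j, ∃ e : ℕ,
      (MvPolynomial.X j : MvPolynomial (Fin (N + 1)) K) ^ e ∈ Ideal.span (Set.range F))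
    (P : Fin (N + 1) → K) (hP : P ≠ 0) (φ : Fin r → Fin (k + 1) → K) (hφ : ∀ j, φ j ≠ 0) :
    ∃ (A : Type u1) (_ : CommRing A) (_ : IsDomain A) (_ : Algebra Qbar[X] A)
      (_ : FaithfulSMul Qbar[X] A) (_ : Module.Finite Qbar[X] A) (_ : Algebra A K)
      (_ : FaithfulSMul A K) (_ : Algebra.IsAlgebraic A K),
      (∀ c : Qbar, algebraMap A K (algebraMap Qbar[X] A (C c)) = algebraMap Qbar K c) ∧
      (∃ S : Finset K, ∀ t : CurvePoint K, (∀ a ∈ S, a ∈ t.V) →
        ∀ x : A, algebraMap A K x ∈ t.V) ∧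
      ∃ (FA : Fin (N + 1) → MvPolynomial (Fin (N + 1)) A) (PA U : Fin (N + 1) → A)
        (φA : Fin r → Fin (k + 1) → A),
        (∀ i, MvPolynomial.map (algebraMap A K) (FA i) = F i) ∧ (∀ i, (FA i).IsHomogeneous d) ∧
        (∀ j, ∃ e : ℕ,
          (MvPolynomial.X j : MvPolynomial (Fin (N + 1)) A) ^ e ∈ Ideal.span (Set.range FA)) ∧
        (∀ i, algebraMap A K (PA i) = P i) ∧ ∑ i, U i * PA i = 1 ∧
        (∀ j i, algebraMap A K (φA j i) = φ j i) ∧
        ∀ j, ∃ V : Fin (k + 1) → A, ∑ i, V i * φA j i = 1 := by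
  classical
  have hK' := hK
  obtain ⟨s0, hs0, hfin⟩ := hK'
  choose e he using hpow
  have he' : ∀ j, ∃ G : Fin (N + 1) → MvPolynomial (Fin (N + 1)) K,
      ∑ i, G i * F i = (MvPolynomial.X j : MvPolynomial (Fin (N + 1)) K) ^ e j := fun j =>
    Ideal.mem_span_range_iff_exists_fun.1 (he j)
  choose G hG using he'
  obtain ⟨U, hU⟩ := descend_unit P hP
  choose V hV using fun j => descend_unit (φ j) (hφ j)
  let S : Finset K := insert s0
    ((Finset.univ.biUnion fun i => (F i).coeffs) ∪
    (Finset.univ.biUnion fun j => Finset.univ.biUnion fun i => (G j i).coeffs) ∪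
    Finset.univ.image P ∪ Finset.univ.image U ∪
    (Finset.univ.biUnion fun j => Finset.univ.image (φ j)) ∪
    (Finset.univ.biUnion fun j => Finset.univ.image (V j)))
  let A : Subalgebra Qbar K := Algebra.adjoin Qbar (S : Set K)
  have hmem : ∀ x ∈ S, x ∈ A := fun x hx => Algebra.subset_adjoin hx
  have hs0A : s0 ∈ A := hmem _ (Finset.mem_insert_self _ _)
  have hFG : A.FG := ⟨S, rfl⟩
  obtain ⟨s, hs, hsf⟩ := noetherK hK A hFG ⟨s0, hs0A, hs0⟩
  have hFc : ∀ i, ∀ c ∈ (F i).coeffs, c ∈ A := by
    intro i c hc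
    apply hmem
    simp only [S, Finset.mem_insert, Finset.mem_union, Finset.mem_biUnion, Finset.mem_univ,
      true_and]
    right; left; left; left; left; left
    exact ⟨i, hc⟩
  have hGc : ∀ j i, ∀ c ∈ (G j i).coeffs, c ∈ A := by
    intro j i c hc
    apply hmem
    simp only [S, Finset.mem_insert, Finset.mem_union, Finset.mem_biUnion, Finset.mem_univ,
      true_and]
    right; left; left; left; left; right
    exact ⟨j, i, hc⟩
  have hPc : ∀ i, P i ∈ A := by
    intro i
    apply hmem
    simp only [S, Finset.mem_insert, Finset.mem_union, Finset.mem_biUnion, Finset.mem_univ,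
      true_and, Finset.mem_image]
    right; left; left; left; right
    exact ⟨i, rfl⟩
  have hUc : ∀ i, U i ∈ A := by
    intro i
    apply hmem
    simp only [S, Finset.mem_insert, Finset.mem_union, Finset.mem_biUnion, Finset.mem_univ,
      true_and, Finset.mem_image]
    right; left; left; right
    exact ⟨i, rfl⟩
  have hφc : ∀ j i, φ j i ∈ A := by
    intro j i
    apply hmem
    simp only [S, Finset.mem_insert, Finset.mem_union, Finset.mem_biUnion, Finset.mem_univ,
      true_and, Finset.mem_image]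
    right; left; right
    exact ⟨j, i, rfl⟩
  have hVc : ∀ j i, V j i ∈ A := by
    intro j i
    apply hmem
    simp only [S, Finset.mem_insert, Finset.mem_union, Finset.mem_biUnion, Finset.mem_univ,
      true_and, Finset.mem_image]
    right; right
    exact ⟨j, i, rfl⟩
  choose FA hFA using fun i => descend_lift A (F i) (hFc i)
  choose GA hGA using fun j i => descend_lift A (G j i) (hGc j i)
  have hinj : Function.Injective (algebraMap A K) := Subtype.val_injective
  letI algX : Algebra Qbar[X] A := (Polynomial.aeval s : Qbar[X] →ₐ[Qbar] A).toRingHom.toAlgebra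
  have halgX : ∀ q : Qbar[X], algebraMap Qbar[X] A q = Polynomial.aeval s q := fun q => rfl
  have hfaith : FaithfulSMul Qbar[X] A := by
    rw [faithfulSMul_iff_algebraMap_injective]
    intro a b hab
    rw [halgX, halgX] at hab
    exact (transcendental_iff_injective.1 hs) hab
  refine ⟨A, inferInstance, inferInstance, algX, hfaith, hsf, inferInstance, ?_,
    descend_isAlg s0 hfin A hs0A, ?_, ⟨S, ?_⟩, FA, fun i => ⟨P i, hPc i⟩, fun i => ⟨U i, hUc i⟩,
    fun j i => ⟨φ j i, hφc j i⟩, hFA, ?_, ?_, fun i => rfl, ?_, fun j i => rfl, ?_⟩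
  · rw [faithfulSMul_iff_algebraMap_injective]
    exact hinj
  · intro c
    rw [halgX, Polynomial.aeval_C]
    rfl
  · intro t ht x
    have hx : (x : K) ∈ Algebra.adjoin Qbar (S : Set K) := x.2
    show (x : K) ∈ t.V
    refine Algebra.adjoin_induction (p := fun y _ => y ∈ t.V) ?_ ?_ ?_ ?_ hx
    · intro y hy; exact ht y hy
    · intro c; exact t.const_mem c
    · intro y z _ _ hy hz; exact t.V.add_mem _ _ hy hz
    · intro y z _ _ hy hz; exact t.V.mul_mem _ _ hy hz
  · intro i m hm
    refine hhom i ?_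
    rw [← hFA i, MvPolynomial.coeff_map]
    intro h0
    exact hm (hinj (by rw [h0, map_zero]))
  · intro j
    refine ⟨e j, Ideal.mem_span_range_iff_exists_fun.2 ⟨GA j, ?_⟩⟩
    apply MvPolynomial.map_injective _ hinj
    rw [map_sum, map_pow, MvPolynomial.map_X, ← hG j]
    refine Finset.sum_congr rfl fun i _ => ?_
    rw [map_mul, hGA, hFA]
  · apply hinj
    rw [map_sum, map_one, ← hU]
    exact Finset.sum_congr rfl fun i _ => rfl
  · intro j
    refine ⟨fun i => ⟨V j i, hVc j i⟩, ?_⟩
    apply hinj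
    rw [map_sum, map_one, ← hV j]
    exact Finset.sum_congr rfl fun i _ => rfl

end MDescend

export MDescend (descend)

end Pool.Agent.Helper259.Var
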