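import Mathlib
import Pool.Agent.Helper259.Var.FinalDefs

set_option autoImplicit false

universe u1 u2

namespace Pool.Agent.Helper259.Var

namespace MNANull

open Polynomial Pool.Agent.Helper259.AbsHt

/-- an absolute value trivial on the constants is nonarchimedean -/
theorem nonarch_of_trivial {K : Type*} [Field K] [Algebra Qbar K] (u : AbsoluteValue K ℝ)
    (h : ∀ a : Qbar, a ≠ 0 → u (algebraMap Qbar K a) = 1) : IsNonarchimedean u := by
  letI : NormedField K := u.toNormedField
  have hn : ∀ n : ℕ, ‖(n : K)‖ ≤ 1 := by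
    intro n
    show u (n : K) ≤ 1
    rcases Nat.eq_zero_or_pos n with hn | hn
    · subst hn
      simp
    · have h1 : ((n : ℕ) : Qbar) ≠ 0 := by
        exact_mod_cast hn.ne'
      have h2 := h ((n : ℕ) : Qbar) h1
      rw [map_natCast] at h2
      exact h2.le
  haveI := IsUltrametricDist.isUltrametricDist_of_forall_norm_natCast_le_one hn
  have h3 : IsNonarchimedean (norm : K → ℝ) := IsUltrametricDist.isNonarchimedean_norm
  exact h3

/-- Nullstellensatz over a field -/
theorem nullK {K : Type*} [Field K] {m n : ℕ} (F : Fin m → MvPolynomial (Fin n) K)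
    (hF : ∀ x : Fin n → AlgebraicClosure K, (∀ i, MvPolynomial.aeval x (F i) = 0) → x = 0)
    (k : Fin n) : ∃ e : ℕ, (MvPolynomial.X k : MvPolynomial (Fin n) K) ^ e ∈
      Ideal.span (Set.range F) := by
  have h1 := MvPolynomial.vanishingIdeal_zeroLocus_eq_radical (K := AlgebraicClosure K)
    (Ideal.span (Set.range F))
  have h2 : (MvPolynomial.X k : MvPolynomial (Fin n) K) ∈ (Ideal.span (Set.range F)).radical := by
    rw [← h1, MvPolynomial.mem_vanishingIdeal_iff]
    intro x hx
    have h3 : x = 0 := by
      apply hF x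
      intro i
      exact hx (F i) (Ideal.subset_span ⟨i, rfl⟩)
    rw [MvPolynomial.aeval_X, h3]
    rfl
  exact Ideal.mem_radical_iff.mp h2

end MNANull

export MNANull (nonarch_of_trivial nullK)

end Pool.Agent.Helper259.Var
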