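import Mathlib
import Pool.Agent.Helper259.Var.FinalDefs

set_option autoImplicit false

universe u1 u2

namespace Pool.Agent.Helper259.Var

namespace MOrd

open Polynomial Pool.Agent.Helper259.AbsHt

section VH

variable {k K Γ : Type*} [Field k] [Field K] [Algebra k K] [LinearOrderedCommGroupWithZero Γ]

theorem vh_poly_le (val : Valuation K Γ) (hc : ∀ c : k, c ≠ 0 → val (algebraMap k K c) = 1)
    {y : K} (hy : val y < 1) (q : k[X]) : val (aeval y q) ≤ 1 := by
  induction q using Polynomial.induction_on' with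
  | add p q hp hq =>
    rw [map_add]
    exact (val.map_add _ _).trans (max_le hp hq)
  | monomial n a =>
    rw [aeval_monomial, map_mul, map_pow]
    rcases eq_or_ne a 0 with rfl | ha
    · simp
    · rw [hc a ha, one_mul]
      exact pow_le_one₀ zero_le hy.le

theorem vh_poly (val : Valuation K Γ) (hc : ∀ c : k, c ≠ 0 → val (algebraMap k K c) = 1)
    {y : K} (hy : val y < 1) (q : k[X]) (hq : q ≠ 0) :
    ∃ m : ℕ, val (aeval y q) = val y ^ m := by
  classical
  revert hq
  refine Polynomial.recOnHorner (M := fun q => q ≠ 0 → ∃ m : ℕ, val (aeval y q) = val y ^ m) q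
    (fun h => absurd rfl h) ?_ ?_
  · intro p a hp ha _ _
    refine ⟨0, ?_⟩
    rw [pow_zero, map_add, aeval_C]
    have h1 : p = X * p.divX := by
      have := p.divX_mul_X_add
      rw [hp, C_0, add_zero] at this
      rw [mul_comm]
      exact this.symm
    have h2 : val (aeval y p) < 1 := by
      rw [h1, map_mul, aeval_X, map_mul]
      calc val y * val (aeval y p.divX) ≤ val y * 1 :=
            mul_le_mul_right (vh_poly_le val hc hy _) _
        _ < 1 := by rw [mul_one]; exact hy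
    rw [← hc a ha] at h2
    rw [val.map_add_eq_of_lt_right h2, hc a ha]
  · intro p hp ih _
    obtain ⟨m, hm⟩ := ih hp
    refine ⟨m + 1, ?_⟩
    rw [map_mul, aeval_X, map_mul, hm, pow_succ]

theorem vh_adjoin (val : Valuation K Γ) (hc : ∀ c : k, c ≠ 0 → val (algebraMap k K c) = 1)
    {y : K} (hy0 : y ≠ 0) (hy : val y < 1) (x : K)
    (hx : x ∈ IntermediateField.adjoin k ({y} : Set K)) (hx0 : x ≠ 0) :
    ∃ m : ℤ, val x = val y ^ m := by
  obtain ⟨r, s, rfl⟩ := (IntermediateField.mem_adjoin_simple_iff k x).1 hx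
  have hr : r ≠ 0 := by
    rintro rfl
    simp at hx0
  have hs : s ≠ 0 := by
    rintro rfl
    simp at hx0
  obtain ⟨m, hm⟩ := vh_poly val hc hy r hr
  obtain ⟨n, hn⟩ := vh_poly val hc hy s hs
  have hvy : val y ≠ 0 := (Valuation.ne_zero_iff val).2 hy0
  refine ⟨(m : ℤ) - n, ?_⟩
  rw [map_div₀, hm, hn, zpow_sub₀ hvy, zpow_natCast, zpow_natCast]

theorem vh_pow (val : Valuation K Γ) (F : IntermediateField k K) [FiniteDimensional F K]
    {y : K} (hF : ∀ x ∈ F, x ≠ 0 → ∃ m : ℤ, val x = val y ^ m) (hvy : val y ≠ 0)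
    (x : K) (hx : x ≠ 0) :
    ∃ j : ℕ, 0 < j ∧ j ≤ Module.finrank F K ∧ ∃ m : ℤ, val x ^ j = val y ^ m := by
  classical
  set p := minpoly F x with hp
  have hint : IsIntegral F x := Algebra.IsIntegral.isIntegral x
  have hdeg : p.natDegree ≤ Module.finrank F K := minpoly.natDegree_le x
  have hp0 : p ≠ 0 := minpoly.ne_zero hint
  have hsum : ∑ i ∈ p.support, (p.coeff i : K) * x ^ i = 0 := by
    have h1 : aeval x p = 0 := minpoly.aeval F x
    rw [aeval_eq_sum_range' (Nat.lt_succ_self _)] at h1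
    rw [← h1]
    refine Finset.sum_subset_zero_on_sdiff ?_ ?_ ?_
    · intro i hi
      rw [Finset.mem_range]
      exact Nat.lt_succ_of_le (le_natDegree_of_mem_supp i hi)
    · intro i hi
      rw [Finset.mem_sdiff, mem_support_iff, not_not] at hi
      rw [hi.2, zero_smul]
    · intro i _
      rw [Algebra.smul_def]
      rfl
  have hne : ∀ i ∈ p.support, val ((p.coeff i : K) * x ^ i) ≠ 0 := by
    intro i hi
    rw [Valuation.ne_zero_iff]
    refine mul_ne_zero ?_ (pow_ne_zero _ hx)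
    rw [mem_support_iff] at hi
    intro h
    apply hi
    exact Subtype.ext h
  have hex : ∃ i ∈ p.support, ∃ j ∈ p.support, i < j ∧
      val ((p.coeff i : K) * x ^ i) = val ((p.coeff j : K) * x ^ j) := by
    by_contra hcon
    push Not at hcon
    obtain ⟨i, hi, hmax⟩ := Finset.exists_max_image p.support
      (fun i => val ((p.coeff i : K) * x ^ i)) (nonempty_support_iff.2 hp0)
    have h1 : val (∑ j ∈ p.support.erase i, (p.coeff j : K) * x ^ j) <
        val ((p.coeff i : K) * x ^ i) := by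
      refine val.map_sum_lt (hne i hi) fun j hj => ?_
      rw [Finset.mem_erase] at hj
      refine lt_of_le_of_ne (hmax j hj.2) ?_
      rcases lt_or_gt_of_ne hj.1 with h | h
      · exact hcon j hj.2 i hi h
      · exact (hcon i hi j hj.2 h).symm
    rw [← Finset.add_sum_erase _ _ hi] at hsum
    have h2 := eq_neg_of_add_eq_zero_right hsum
    rw [h2, Valuation.map_neg] at h1
    exact lt_irrefl _ h1
  obtain ⟨i, hi, j, hj, hij, heq⟩ := hex
  refine ⟨j - i, Nat.sub_pos_of_lt hij,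
    (Nat.sub_le _ _).trans ((le_natDegree_of_mem_supp j hj).trans hdeg), ?_⟩
  have hci : (p.coeff i : K) ≠ 0 := fun h => (mem_support_iff.1 hi) (Subtype.ext h)
  have hcj : (p.coeff j : K) ≠ 0 := fun h => (mem_support_iff.1 hj) (Subtype.ext h)
  obtain ⟨a, ha⟩ := hF _ (p.coeff i).2 hci
  obtain ⟨b, hb⟩ := hF _ (p.coeff j).2 hcj
  refine ⟨a - b, ?_⟩
  have hvx : val x ≠ 0 := (Valuation.ne_zero_iff val).2 hx
  rw [map_mul, map_mul, map_pow, map_pow, ha, hb] at heq
  rw [zpow_sub₀ hvy, eq_div_iff (zpow_ne_zero _ hvy)]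
  have h3 : val x ^ j = val x ^ (j - i) * val x ^ i := by
    rw [← pow_add, Nat.sub_add_cancel hij.le]
  rw [h3] at heq
  have h4 : val x ^ i ≠ 0 := pow_ne_zero _ hvx
  apply mul_right_cancel₀ h4
  rw [heq, mul_comm (val x ^ (j - i)) (val y ^ b), mul_assoc]

theorem vh_w (val : Valuation K Γ) (n : ℕ) {y : K} (hy0 : y ≠ 0) (hy : val y < 1)
    (h : ∀ x : K, x ≠ 0 → ∃ j : ℕ, 0 < j ∧ j ≤ n ∧ ∃ m : ℤ, val x ^ j = val y ^ m) :
    ∃ w : K → ℤ, (∀ a b : K, a ≠ 0 → b ≠ 0 → w (a * b) = w a + w b) ∧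
      (∀ a : K, a ≠ 0 → (val a ≤ 1 ↔ 0 ≤ w a)) ∧ 0 < w y := by
  classical
  have hvy : val y ≠ 0 := (Valuation.ne_zero_iff val).2 hy0
  have h1 : ∀ x : K, x ≠ 0 → ∃ m : ℤ, val x ^ n.factorial = val y ^ m := by
    intro x hx
    obtain ⟨j, hj0, hjn, m, hm⟩ := h x hx
    obtain ⟨l, hl⟩ := Nat.dvd_factorial hj0 hjn
    refine ⟨m * l, ?_⟩
    rw [hl, pow_mul, hm, zpow_mul, zpow_natCast]
  have hinj : ∀ a b : ℤ, val y ^ a = val y ^ b → a = b := by
    intro a b hab
    exact zpow_right_injective₀ (zero_lt_iff.2 hvy) hy.ne hab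
  choose! w hw using h1
  have hmul : ∀ a b : K, a ≠ 0 → b ≠ 0 → w (a * b) = w a + w b := by
    intro a b ha hb
    apply hinj
    rw [← hw _ (mul_ne_zero ha hb), map_mul, mul_pow, hw a ha, hw b hb, zpow_add₀ hvy]
  have hfac : n.factorial ≠ 0 := Nat.factorial_ne_zero n
  refine ⟨w, hmul, ?_, ?_⟩
  · intro a ha
    rw [← pow_le_one_iff_of_nonneg zero_le hfac, hw a ha]
    constructor
    · intro h2
      by_contra h3
      push Not at h3
      have h4 : val y ^ (w a) > 1 := one_lt_zpow_of_neg₀ (zero_lt_iff.2 hvy) hy h3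
      exact absurd h2 (not_le.2 h4)
    · intro h2
      exact zpow_le_one₀ (zero_lt_iff.2 hvy) hy.le h2
  · have h2 : w y = n.factorial := by
      apply hinj
      rw [← hw y hy0, zpow_natCast]
    rw [h2]
    exact_mod_cast Nat.factorial_pos n

end VH

theorem vh_hom {K : Type*} [Field K] {w : K → ℤ}
    (hmul : ∀ a b : K, a ≠ 0 → b ≠ 0 → w (a * b) = w a + w b) :
    (∀ a : K, a ≠ 0 → w a⁻¹ = - w a) ∧ ∀ a : K, a ≠ 0 → ∀ n : ℤ, w (a ^ n) = n * w a := by
  let φ : Kˣ →* Multiplicative ℤ := MonoidHom.mk' (fun u => Multiplicative.ofAdd (w u)) (by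
    intro a b
    rw [← ofAdd_add, ← hmul _ _ a.ne_zero b.ne_zero]
    rfl)
  have h1 : ∀ a : K, a ≠ 0 → ∀ n : ℤ, w (a ^ n) = n * w a := by
    intro a ha n
    have h2 := map_zpow φ (Units.mk0 a ha) n
    have h3 : φ (Units.mk0 a ha ^ n) = Multiplicative.ofAdd (w (a ^ n)) := by
      change Multiplicative.ofAdd (w ((Units.mk0 a ha ^ n : Kˣ) : K)) = _
      rw [Units.val_zpow_eq_zpow_val]
      rfl
    rw [h3] at h2
    have h4 : φ (Units.mk0 a ha) ^ n = Multiplicative.ofAdd (n * w a) := by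
      change (Multiplicative.ofAdd (w a)) ^ n = _
      rw [← ofAdd_zsmul, smul_eq_mul]
    rw [h4] at h2
    exact Multiplicative.ofAdd.injective h2
  refine ⟨fun a ha => ?_, h1⟩
  have := h1 a ha (-1)
  rw [zpow_neg_one] at this
  rw [this]
  ring

theorem vh_norm {K : Type*} [Field K] {w : K → ℤ}
    (hmul : ∀ a b : K, a ≠ 0 → b ≠ 0 → w (a * b) = w a + w b) {y : K} (hy0 : y ≠ 0)
    (hy : 0 < w y) : ∃ c : ℤ, 0 < c ∧ (∃ x : K, x ≠ 0 ∧ w x = c) ∧
      ∀ x : K, x ≠ 0 → c ∣ w x := by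
  classical
  have hex : ∃ n : ℕ, 0 < n ∧ ∃ x : K, x ≠ 0 ∧ w x = n :=
    ⟨(w y).toNat, by omega, y, hy0, by omega⟩
  obtain ⟨hc0, x0, hx0, hc⟩ := Nat.find_spec hex
  refine ⟨(Nat.find hex : ℤ), by exact_mod_cast hc0, ⟨x0, hx0, hc⟩, fun x hx => ?_⟩
  set c := Nat.find hex with hcdef
  have h1 : w (x * x0 ^ (-(w x / c))) = w x % c := by
    rw [hmul _ _ hx (zpow_ne_zero _ hx0), (vh_hom hmul).2 x0 hx0, hc]
    have := Int.emod_add_mul_ediv (w x) c
    linarith
  have h2 : 0 ≤ w x % c := Int.emod_nonneg _ (by omega)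
  have h3 : w x % c < c := Int.emod_lt_of_pos _ (by omega)
  by_contra h4
  have h5 : w x % c ≠ 0 := fun h => h4 (Int.dvd_of_emod_eq_zero h)
  have h6 : 0 < w x % c := lt_of_le_of_ne h2 (Ne.symm h5)
  have h7 := Nat.find_min hex (m := (w x % c).toNat) (by omega)
  apply h7
  refine ⟨by omega, x * x0 ^ (-(w x / c)), mul_ne_zero hx (zpow_ne_zero _ hx0), ?_⟩
  rw [h1]
  omega

theorem vh_const {K : Type*} [Field K] [Algebra Qbar K] (t : CurvePoint K) (c : Qbar)
    (hc : c ≠ 0) : t.V.valuation (algebraMap Qbar K c) = 1 := by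
  have h1 := (t.V.valuation_le_one_iff _).2 (t.const_mem c)
  have h2 := (t.V.valuation_le_one_iff _).2 (t.const_mem c⁻¹)
  refine le_antisymm h1 ?_
  have h3 : t.V.valuation (algebraMap Qbar K c) * t.V.valuation (algebraMap Qbar K c⁻¹) = 1 := by
    rw [← map_mul, ← map_mul, mul_inv_cancel₀ hc, map_one, map_one]
  calc (1 : t.V.ValueGroup) = _ := h3.symm
    _ ≤ t.V.valuation (algebraMap Qbar K c) * 1 := mul_le_mul_right h2 _
    _ = _ := mul_one _

theorem vh_lt_one {K : Type*} [Field K] [Algebra Qbar K] (t : CurvePoint K) (y : t.V)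
    (hy : t.ev y = 0) : t.V.valuation (y : K) < 1 := by
  refine lt_of_le_of_ne (t.V.valuation_le_one y) fun h => ?_
  have h1 : IsUnit y := (t.V.valuation_eq_one_iff y).2 h
  have h2 := h1.map t.ev
  rw [hy] at h2
  exact not_isUnit_zero h2

theorem vh_unif {K : Type*} [Field K] [Algebra Qbar K] (hK : IsFunctionField K)
    (t : CurvePoint K) : ∃ y : K, y ≠ 0 ∧ t.V.valuation y < 1 ∧
      FiniteDimensional (IntermediateField.adjoin Qbar ({y} : Set K)) K := by
  obtain ⟨s, hs, hfd⟩ := hK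
  by_cases h : s ∈ t.V
  · set c := t.ev ⟨s, h⟩ with hc
    have hmem : s - algebraMap Qbar K c ∈ t.V := sub_mem h (t.const_mem c)
    refine ⟨s - algebraMap Qbar K c, ?_, ?_, ?_⟩
    · intro h0
      apply hs
      rw [sub_eq_zero.1 h0]
      exact isAlgebraic_algebraMap c
    · have h1 : t.ev ⟨s - algebraMap Qbar K c, hmem⟩ = 0 := by
        have h2 : (⟨s - algebraMap Qbar K c, hmem⟩ : t.V) =
            ⟨s, h⟩ - ⟨algebraMap Qbar K c, t.const_mem c⟩ := rfl
        rw [h2, map_sub, t.ev_const, ← hc, sub_self]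
      exact vh_lt_one t _ h1
    · have h3 : IntermediateField.adjoin Qbar ({s - algebraMap Qbar K c} : Set K) =
          IntermediateField.adjoin Qbar ({s} : Set K) := by
        apply le_antisymm
        · rw [IntermediateField.adjoin_simple_le_iff]
          exact sub_mem (IntermediateField.mem_adjoin_simple_self Qbar s)
            (IntermediateField.algebraMap_mem _ c)
        · rw [IntermediateField.adjoin_simple_le_iff]
          have := add_mem (IntermediateField.mem_adjoin_simple_self Qbar (s - algebraMap Qbar K c))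
            (IntermediateField.algebraMap_mem
              (IntermediateField.adjoin Qbar ({s - algebraMap Qbar K c} : Set K)) c)
          rwa [sub_add_cancel] at this
      rw [h3]
      exact hfd
  · have hs0 : s ≠ 0 := by
      rintro rfl
      exact h (zero_mem _)
    refine ⟨s⁻¹, inv_ne_zero hs0, ?_, ?_⟩
    · rw [map_inv₀]
      rw [← t.V.valuation_le_one_iff, not_le] at h
      exact inv_lt_one_of_one_lt₀ h
    · have h3 : IntermediateField.adjoin Qbar ({s⁻¹} : Set K) =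
          IntermediateField.adjoin Qbar ({s} : Set K) := by
        apply le_antisymm
        · rw [IntermediateField.adjoin_simple_le_iff]
          exact inv_mem (IntermediateField.mem_adjoin_simple_self Qbar s)
        · rw [IntermediateField.adjoin_simple_le_iff]
          have := inv_mem (IntermediateField.mem_adjoin_simple_self Qbar s⁻¹)
          rwa [inv_inv] at this
      rw [h3]
      exact hfd

/-- every point of the curve has an order function -/
theorem exists_ord {K : Type*} [Field K] [Algebra Qbar K] (hK : IsFunctionField K)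
    (t : CurvePoint K) : ∃ v : K → ℤ, IsOrd t v := by
  obtain ⟨y, hy0, hy, hfd⟩ := vh_unif hK t
  have hvy : t.V.valuation y ≠ 0 := (Valuation.ne_zero_iff _).2 hy0
  obtain ⟨w, hmul, hmem, hwy⟩ := vh_w t.V.valuation _ hy0 hy
    (vh_pow t.V.valuation (IntermediateField.adjoin Qbar ({y} : Set K))
      (vh_adjoin t.V.valuation (vh_const t) hy0 hy) hvy)
  obtain ⟨c, hc, ⟨x0, hx0, hcx⟩, hdvd⟩ := vh_norm hmul hy0 hwy
  refine ⟨fun x => w x / c, ?_, ?_, ?_⟩
  · intro a b ha hb
    rw [hmul a b ha hb, Int.add_ediv_of_dvd_left (hdvd a ha)]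
  · intro a ha
    rw [← t.V.valuation_le_one_iff, hmem a ha]
    obtain ⟨d, hd⟩ := hdvd a ha
    rw [hd, Int.mul_ediv_cancel_left _ hc.ne']
    exact mul_nonneg_iff_of_pos_left hc
  · exact ⟨x0, hx0, by rw [hcx, Int.ediv_self hc.ne']⟩

theorem vh_key {K : Type*} [Field K] [Algebra Qbar K] (t : CurvePoint K) (v v' : K → ℤ)
    (hv : IsOrd t v) (hv' : IsOrd t v') {p : K} (hp0 : p ≠ 0) (hp : v p = 1) (x : K)
    (hx : x ≠ 0) : v' x = v x * v' p := by
  have h1 : x * p ^ (-(v x)) ≠ 0 := mul_ne_zero hx (zpow_ne_zero _ hp0)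
  have h2 : v (x * p ^ (-(v x))) = 0 := by
    rw [hv.map_mul _ _ hx (zpow_ne_zero _ hp0), (vh_hom hv.map_mul).2 p hp0, hp]
    ring
  have h3 : v (x * p ^ (-(v x)))⁻¹ = 0 := by
    rw [(vh_hom hv.map_mul).1 _ h1, h2, neg_zero]
  have h4 : 0 ≤ v' (x * p ^ (-(v x))) := (hv'.mem_iff _ h1).1 ((hv.mem_iff _ h1).2 h2.ge)
  have h5 : 0 ≤ v' (x * p ^ (-(v x)))⁻¹ :=
    (hv'.mem_iff _ (inv_ne_zero h1)).1 ((hv.mem_iff _ (inv_ne_zero h1)).2 h3.ge)
  rw [(vh_hom hv'.map_mul).1 _ h1] at h5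
  have h6 : v' (x * p ^ (-(v x))) = 0 := by omega
  rw [hv'.map_mul _ _ hx (zpow_ne_zero _ hp0), (vh_hom hv'.map_mul).2 p hp0] at h6
  linarith

/-- the order function is unique -/
theorem ord_unique {K : Type*} [Field K] [Algebra Qbar K] (t : CurvePoint K) (v v' : K → ℤ)
    (hv : IsOrd t v) (hv' : IsOrd t v') (x : K) (hx : x ≠ 0) : v x = v' x := by
  obtain ⟨p, hp0, hp⟩ := hv.exists_uniformizer
  obtain ⟨q, hq0, hq⟩ := hv'.exists_uniformizer
  have h1 := vh_key t v v' hv hv' hp0 hp q hq0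
  rw [hq] at h1
  have h2 : 0 ≤ v' p := (hv'.mem_iff p hp0).1 ((hv.mem_iff p hp0).2 (by rw [hp]; norm_num))
  have h3 : v' p = 1 := by
    rcases Int.isUnit_iff.1 (IsUnit.of_mul_eq_one_right _ h1.symm) with h | h
    · exact h
    · omega
  have h4 := vh_key t v v' hv hv' hp0 hp x hx
  rw [h3, mul_one] at h4
  exact h4.symm

end MOrd

export MOrd (exists_ord ord_unique)

end Pool.Agent.Helper259.Var
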