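import Mathlib
import Pool.Agent.Helper259.Var.Ord

set_option autoImplicit false

universe u1 u2

namespace Pool.Agent.Helper259.Var

namespace MPoint

open Polynomial Pool.Agent.Helper259.AbsHt

section Aux15911

variable {K : Type*} [Field K] [Algebra Qbar K]

open scoped IntermediateField.algebraAdjoinAdjoin in

lemma h205_alg_rel (hK : IsFunctionField K) (y : K) (hy : Transcendental Qbar y) (x : K) :
    ∃ P : Polynomial (Polynomial Qbar), P ≠ 0 ∧
      P.eval₂ (aeval y : Qbar[X] →ₐ[Qbar] K).toRingHom x = 0 := by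
  obtain ⟨s, hs, hfin⟩ := hK
  have h1 : Algebra.IsAlgebraic (IntermediateField.adjoin Qbar ({s} : Set K)) K :=
    Algebra.IsAlgebraic.of_finite _ _
  have h2 : Algebra.IsAlgebraic (Algebra.adjoin Qbar ({s} : Set K)) K :=
    (IsFractionRing.comap_isAlgebraic_iff
      (A := Algebra.adjoin Qbar ({s} : Set K))
      (K := IntermediateField.adjoin Qbar ({s} : Set K)) (C := K)).mpr h1
  have h3 : Algebra.trdeg Qbar K ≤ 1 := by
    have := Algebra.IsAlgebraic.trdeg_le_cardinalMk Qbar ({s} : Set K)
    simpa using this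
  have h4 : AlgebraicIndependent Qbar ![y] := algebraicIndependent_iff_transcendental.mpr hy
  have h5 : IsTranscendenceBasis Qbar ![y] := by
    apply h4.isTranscendenceBasis_of_lift_trdeg_le_of_finite
    simpa using h3
  have h6 := h5.isAlgebraic
  have h7 : Set.range ![y] = ({y} : Set K) := by simp
  rw [h7] at h6
  obtain ⟨p, hp, hpx⟩ := h6.isAlgebraic x
  let φ : Qbar[X] →ₐ[Qbar] Algebra.adjoin Qbar ({y} : Set K) :=
    aeval (⟨y, Algebra.self_mem_adjoin_singleton Qbar y⟩ : Algebra.adjoin Qbar ({y} : Set K))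
  have hφ : Function.Surjective φ := by
    intro z
    have hz : (z : K) ∈ (aeval y : Qbar[X] →ₐ[Qbar] K).range := by
      rw [← Algebra.adjoin_singleton_eq_range_aeval]
      exact z.2
    obtain ⟨q, hq⟩ := hz
    refine ⟨q, ?_⟩
    apply Subtype.ext
    rw [← hq]
    have := Polynomial.aeval_algHom_apply (Algebra.adjoin Qbar ({y} : Set K)).val
      (⟨y, Algebra.self_mem_adjoin_singleton Qbar y⟩ : Algebra.adjoin Qbar ({y} : Set K)) q
    simpa [φ] using this.symm
  obtain ⟨P, hP⟩ := Polynomial.map_surjective φ.toRingHom hφ p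
  refine ⟨P, ?_, ?_⟩
  · rintro rfl
    exact hp (by rw [← hP]; simp)
  · rw [← hP] at hpx
    rw [Polynomial.aeval_def, Polynomial.eval₂_map] at hpx
    have : (algebraMap (Algebra.adjoin Qbar ({y} : Set K)) K).comp φ.toRingHom
        = (aeval y : Qbar[X] →ₐ[Qbar] K).toRingHom := by
      apply Polynomial.ringHom_ext
      · intro a
        simp [φ]
      · simp [φ]
    rw [this] at hpx
    exact hpx

lemma h205_u_const (u : AbsoluteValue K ℝ)
    (htriv : ∀ a : Qbar, a ≠ 0 → u (algebraMap Qbar K a) = 1) (a : Qbar) :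
    u (algebraMap Qbar K a) ≤ 1 := by
  by_cases h : a = 0
  · subst h; simp
  · exact (htriv a h).le

lemma h205_u_aeval (u : AbsoluteValue K ℝ) (hu : IsNonarchimedean u)
    (htriv : ∀ a : Qbar, a ≠ 0 → u (algebraMap Qbar K a) = 1) (y : K) (hy : u y ≤ 1)
    (p : Qbar[X]) : u (aeval y p) ≤ 1 := by
  induction p using Polynomial.induction_on' with
  | add p q hp hq =>
    rw [map_add]
    exact (hu _ _).trans (max_le hp hq)
  | monomial n a =>
    rw [Polynomial.aeval_monomial, map_mul, map_pow]
    exact mul_le_one₀ (h205_u_const u htriv a) (by positivity) (pow_le_one₀ (u.nonneg _) hy)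

lemma h205_u_eval₂ (u : AbsoluteValue K ℝ) (hu : IsNonarchimedean u)
    (htriv : ∀ a : Qbar, a ≠ 0 → u (algebraMap Qbar K a) = 1) (y : K) (hy : u y ≤ 1)
    (x : K) (hx : u x ≤ 1) (P : Polynomial (Polynomial Qbar)) :
    u (P.eval₂ (aeval y : Qbar[X] →ₐ[Qbar] K).toRingHom x) ≤ 1 := by
  induction P using Polynomial.induction_on' with
  | add p q hp hq =>
    rw [Polynomial.eval₂_add]
    exact (hu _ _).trans (max_le hp hq)
  | monomial n a =>
    rw [Polynomial.eval₂_monomial, map_mul, map_pow]
    exact mul_le_one₀ (h205_u_aeval u hu htriv y hy a) (by positivity)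
      (pow_le_one₀ (u.nonneg _) hx)

lemma h205_exists_const (u : AbsoluteValue K ℝ) (hu : IsNonarchimedean u)
    (htriv : ∀ a : Qbar, a ≠ 0 → u (algebraMap Qbar K a) = 1) (y : K) (hy0 : y ≠ 0)
    (hy : u y < 1) (x : K) (hx : u x ≤ 1) (P : Polynomial (Polynomial Qbar)) (hP : P ≠ 0)
    (hPx : P.eval₂ (aeval y : Qbar[X] →ₐ[Qbar] K).toRingHom x = 0) :
    ∃ c : Qbar, u (x - algebraMap Qbar K c) < 1 := by
  have hnu : ¬ IsUnit (C (X : Qbar[X]) : Polynomial (Polynomial Qbar)) := by
    intro h
    rw [Polynomial.isUnit_C] at h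
    exact Polynomial.not_isUnit_X h
  have hfm : FiniteMultiplicity (C (X : Qbar[X]) : Polynomial (Polynomial Qbar)) P :=
    FiniteMultiplicity.of_not_isUnit hnu hP
  obtain ⟨P1, hP1, hnd⟩ := hfm.exists_eq_pow_mul_and_not_dvd
  have hP1x : P1.eval₂ (aeval y : Qbar[X] →ₐ[Qbar] K).toRingHom x = 0 := by
    rw [hP1, Polynomial.eval₂_mul, Polynomial.eval₂_pow, Polynomial.eval₂_C] at hPx
    rcases mul_eq_zero.mp hPx with h | h
    · exfalso
      have h2 : (aeval y : Qbar[X] →ₐ[Qbar] K).toRingHom X = y := by simp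
      rw [h2] at h
      exact absurd h (pow_ne_zero _ hy0)
    · exact h
  obtain ⟨i, hi⟩ : ∃ i, ¬ (X : Qbar[X]) ∣ P1.coeff i := by
    by_contra hcon
    push Not at hcon
    exact hnd ((Polynomial.C_dvd_iff_dvd_coeff _ _).mpr hcon)
  set P0 : Qbar[X] := P1.map Polynomial.constantCoeff with hP0
  have hP0ne : P0 ≠ 0 := by
    intro h0
    apply hi
    rw [Polynomial.X_dvd_iff]
    have := congrArg (fun q : Qbar[X] => q.coeff i) h0
    simpa [hP0] using this
  obtain ⟨P2, hP2⟩ : (C (X : Qbar[X]) : Polynomial (Polynomial Qbar)) ∣ (P1 - P0.map C) := by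
    rw [Polynomial.C_dvd_iff_dvd_coeff]
    intro j
    rw [Polynomial.X_dvd_iff]
    simp [hP0]
  have hP0x : u (aeval x P0) < 1 := by
    have h1 := congrArg (Polynomial.eval₂ (aeval y : Qbar[X] →ₐ[Qbar] K).toRingHom x) hP2
    rw [Polynomial.eval₂_sub, hP1x, Polynomial.eval₂_mul, Polynomial.eval₂_C,
      Polynomial.eval₂_map] at h1
    have h2 : (aeval y : Qbar[X] →ₐ[Qbar] K).toRingHom.comp C = algebraMap Qbar K := by
      ext a
      simp
    have h3 : (aeval y : Qbar[X] →ₐ[Qbar] K).toRingHom X = y := by simp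
    rw [h2, h3, ← Polynomial.aeval_def, zero_sub] at h1
    have h4 : u (aeval x P0) = u y * u (P2.eval₂ (aeval y : Qbar[X] →ₐ[Qbar] K).toRingHom x) := by
      rw [← map_mul, ← h1, map_neg_eq_map]
    rw [h4]
    calc u y * u (P2.eval₂ (aeval y : Qbar[X] →ₐ[Qbar] K).toRingHom x)
        ≤ u y * 1 := mul_le_mul_of_nonneg_left
          (h205_u_eval₂ u hu htriv y hy.le x hx P2) (u.nonneg _)
      _ < 1 := by rw [mul_one]; exact hy
  have hsp : P0 = C P0.leadingCoeff * (P0.roots.map (fun a => X - C a)).prod :=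
    (IsAlgClosed.splits P0).eq_prod_roots
  by_contra hcon
  push Not at hcon
  rw [hsp, map_mul, map_mul, Polynomial.aeval_C, htriv _ (by simpa using hP0ne), one_mul,
    map_multiset_prod, map_multiset_prod, Multiset.map_map, Multiset.map_map] at hP0x
  refine absurd hP0x (not_lt.mpr ?_)
  apply Multiset.one_le_prod
  intro r hr
  obtain ⟨a, _, rfl⟩ := Multiset.mem_map.mp hr
  simpa using hcon a

end Aux15911

/-- every nontrivial absolute value of the function field, trivial on the constants, comes
from a point of the curve -/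
theorem exists_point_of_abv {K : Type*} [Field K] [Algebra Qbar K] (hK : IsFunctionField K)
    (u : AbsoluteValue K ℝ) (hu : IsNonarchimedean u)
    (htriv : ∀ a : Qbar, a ≠ 0 → u (algebraMap Qbar K a) = 1)
    (hnt : ∃ x : K, x ≠ 0 ∧ u x ≠ 1) :
    ∃ (t : CurvePoint K) (v : K → ℤ) (κ : ℝ), 0 < κ ∧ IsOrd t v ∧
      ∀ x : K, x ≠ 0 → u x = Real.exp (-(κ * v x)) := by
  -- the valuation ring
  let V : ValuationSubring K :=
    { carrier := {x | u x ≤ 1}
      mul_mem' := by
        intro a b ha hb
        show u (a * b) ≤ 1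
        rw [map_mul]
        exact mul_le_one₀ ha (u.nonneg _) hb
      one_mem' := by show u 1 ≤ 1; simp
      add_mem' := by
        intro a b ha hb
        exact (hu a b).trans (max_le ha hb)
      zero_mem' := by show u 0 ≤ 1; simp
      neg_mem' := by
        intro a ha
        show u (-a) ≤ 1
        rw [map_neg_eq_map]
        exact ha
      mem_or_inv_mem' := by
        intro x
        by_cases h : u x ≤ 1
        · left; exact h
        · right
          show u x⁻¹ ≤ 1
          rw [map_inv₀]
          exact inv_le_one_of_one_le₀ (not_le.mp h).le }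
  have hVmem : ∀ x : K, x ∈ V ↔ u x ≤ 1 := fun x => Iff.rfl
  -- a transcendental element of small absolute value
  obtain ⟨y, hy0, hy⟩ : ∃ y : K, y ≠ 0 ∧ u y < 1 := by
    obtain ⟨x, hx0, hx1⟩ := hnt
    rcases lt_or_gt_of_ne hx1 with h | h
    · exact ⟨x, hx0, h⟩
    · refine ⟨x⁻¹, inv_ne_zero hx0, ?_⟩
      rw [map_inv₀]
      exact inv_lt_one_of_one_lt₀ h
  have hytr : Transcendental Qbar y := by
    intro halg
    have hint : IsIntegral Qbar y := halg.isIntegral
    obtain ⟨a, ha⟩ := minpoly.mem_range_of_degree_eq_one Qbar y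
      (IsAlgClosed.degree_eq_one_of_irreducible Qbar (minpoly.irreducible hint))
    have ha0 : a ≠ 0 := by
      rintro rfl
      exact hy0 (by rw [← ha]; simp)
    have := htriv a ha0
    rw [ha] at this
    linarith
  have hex : ∀ x : K, u x ≤ 1 → ∃ c : Qbar, u (x - algebraMap Qbar K c) < 1 := by
    intro x hx
    obtain ⟨P, hP, hPx⟩ := h205_alg_rel hK y hytr x
    exact h205_exists_const u hu htriv y hy0 hy x hx P hP hPx
  have huniq : ∀ (x : K) (c c' : Qbar), u (x - algebraMap Qbar K c) < 1 →
      u (x - algebraMap Qbar K c') < 1 → c = c' := by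
    intro x c c' h h'
    by_contra hne
    have h1 : u (algebraMap Qbar K (c - c')) = 1 := htriv _ (sub_ne_zero.mpr hne)
    have h2 : algebraMap Qbar K (c - c') =
        (x - algebraMap Qbar K c') + -(x - algebraMap Qbar K c) := by
      rw [map_sub]; ring
    have h3 : u (algebraMap Qbar K (c - c')) < 1 := by
      rw [h2]
      refine (hu _ _).trans_lt (max_lt h' ?_)
      rw [map_neg_eq_map]
      exact h
    rw [h1] at h3
    exact lt_irrefl _ h3
  choose! e he using hex
  let ev : V →+* Qbar :=
    { toFun := fun x => e x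
      map_one' := by
        apply huniq 1 _ _ (he (1 : K) (by simp))
        simp
      map_zero' := by
        apply huniq 0 _ _ (he (0 : K) (by simp))
        simp
      map_mul' := by
        intro a b
        apply huniq ((a : K) * b) _ _ (he _ (by
          rw [map_mul]; exact mul_le_one₀ a.2 (u.nonneg _) b.2))
        have h1 : (a : K) * b - algebraMap Qbar K (e a * e b)
            = (a - algebraMap Qbar K (e a)) * b
              + algebraMap Qbar K (e a) * (b - algebraMap Qbar K (e b)) := by
          rw [map_mul]; ring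
        rw [h1]
        refine (hu _ _).trans_lt (max_lt ?_ ?_)
        · rw [map_mul]
          exact mul_lt_one_of_nonneg_of_lt_one_left (u.nonneg _) (he _ a.2) b.2
        · rw [map_mul]
          exact mul_lt_one_of_nonneg_of_lt_one_right (h205_u_const u htriv _) (u.nonneg _)
            (he _ b.2)
      map_add' := by
        intro a b
        apply huniq ((a : K) + b) _ _ (he _ ((hu _ _).trans (max_le a.2 b.2)))
        have h1 : (a : K) + b - algebraMap Qbar K (e a + e b)
            = (a - algebraMap Qbar K (e a)) + (b - algebraMap Qbar K (e b)) := by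
          rw [map_add]; ring
        rw [h1]
        exact (hu _ _).trans_lt (max_lt (he _ a.2) (he _ b.2)) }
  let t : CurvePoint K :=
    { V := V
      ev := ev
      const_mem := fun c => h205_u_const u htriv c
      ev_const := by
        intro c
        apply huniq (algebraMap Qbar K c) _ _ (he _ (h205_u_const u htriv c))
        simp
      isUnit_of_ev_ne_zero := by
        intro x hx
        have h1 : u (x : K) = 1 := by
          apply le_antisymm x.2
          have h2 : u (algebraMap Qbar K (e x)) = 1 := htriv _ hx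
          rw [← h2]
          have h3 : algebraMap Qbar K (e x) = x + -(x - algebraMap Qbar K (e x)) := by ring
          by_contra hlt
          push Not at hlt
          rw [h2] at hlt
          have h4 : u (algebraMap Qbar K (e x)) < 1 := by
            rw [h3]
            refine (hu _ _).trans_lt (max_lt hlt ?_)
            rw [map_neg_eq_map]
            exact he _ x.2
          rw [h2] at h4
          exact lt_irrefl _ h4
        have hx0 : (x : K) ≠ 0 := by
          intro h0
          rw [h0] at h1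
          simp at h1
        have hxi : (x : K)⁻¹ ∈ V := by
          rw [hVmem, map_inv₀, h1]
          simp
        exact IsUnit.of_mul_eq_one ⟨(x : K)⁻¹, hxi⟩ (Subtype.ext (mul_inv_cancel₀ hx0)) }
  obtain ⟨v, hv⟩ := exists_ord hK t
  obtain ⟨ϖ, hϖ0, hϖ⟩ := hv.exists_uniformizer
  have hmem : ∀ x : K, x ≠ 0 → (u x ≤ 1 ↔ 0 ≤ v x) := fun x hx => hv.mem_iff x hx
  have hv1 : v 1 = 0 := by
    have := hv.map_mul 1 1 one_ne_zero one_ne_zero
    rw [one_mul] at this
    omega
  have hvinv : ∀ x : K, x ≠ 0 → v x⁻¹ = - v x := by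
    intro x hx
    have := hv.map_mul x x⁻¹ hx (inv_ne_zero hx)
    rw [mul_inv_cancel₀ hx, hv1] at this
    omega
  have hvpow : ∀ (x : K), x ≠ 0 → ∀ n : ℕ, v (x ^ n) = n * v x := by
    intro x hx n
    induction n with
    | zero => simp [hv1]
    | succ n ih =>
      rw [pow_succ, hv.map_mul _ _ (pow_ne_zero _ hx) hx, ih]
      push_cast
      ring
  have hvzpow : ∀ (x : K), x ≠ 0 → ∀ n : ℤ, v (x ^ n) = n * v x := by
    intro x hx n
    obtain ⟨m, rfl | rfl⟩ := Int.eq_nat_or_neg n
    · simpa using hvpow x hx m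
    · rw [zpow_neg, zpow_natCast, hvinv _ (pow_ne_zero _ hx), hvpow x hx]
      ring
  have huv0 : ∀ x : K, x ≠ 0 → v x = 0 → u x = 1 := by
    intro x hx h0
    apply le_antisymm ((hmem x hx).mpr h0.ge)
    have h1 : u x⁻¹ ≤ 1 := (hmem _ (inv_ne_zero hx)).mpr (by rw [hvinv x hx, h0]; simp)
    rw [map_inv₀] at h1
    have hpos : 0 < u x := u.pos hx
    by_contra hlt
    push Not at hlt
    exact absurd h1 (not_le.mpr (one_lt_inv_iff₀.mpr ⟨hpos, hlt⟩))
  have hϖpos : 0 < u ϖ := u.pos hϖ0
  have hϖlt : u ϖ < 1 := by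
    by_contra hge
    push Not at hge
    have h1 : u ϖ⁻¹ ≤ 1 := by
      rw [map_inv₀]
      exact inv_le_one_of_one_le₀ hge
    have h2 := (hmem _ (inv_ne_zero hϖ0)).mp h1
    rw [hvinv _ hϖ0, hϖ] at h2
    omega
  refine ⟨t, v, -Real.log (u ϖ), ?_, hv, ?_⟩
  · have := Real.log_neg hϖpos hϖlt
    linarith
  · intro x hx
    have h1 : u (x * ϖ ^ (-(v x))) = 1 := by
      apply huv0 _ (mul_ne_zero hx (zpow_ne_zero _ hϖ0))
      rw [hv.map_mul _ _ hx (zpow_ne_zero _ hϖ0), hvzpow _ hϖ0, hϖ]
      ring
    rw [map_mul, map_zpow₀] at h1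
    have h2 : u x = (u ϖ) ^ (v x) := by
      rw [zpow_neg] at h1
      field_simp at h1
      exact h1
    rw [h2, ← Real.rpow_intCast, Real.rpow_def_of_pos hϖpos]
    congr 1
    ring

end MPoint

export MPoint (exists_point_of_abv)

end Pool.Agent.Helper259.Var
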