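import Mathlib
import Pool.Agent.Helper259.Var.LimDef
import Pool.Agent.Helper259.Var.NANull
import Pool.Agent.Helper259.Var.Point
import Pool.Agent.Helper259.Var.Bridge

set_option autoImplicit false

universe u1 u2

namespace Pool.Agent.Helper259.Var

namespace MEquiv

open Polynomial Pool.Agent.Helper259.AbsHt

/-- from points to absolute values -/
theorem limitDivisor_of_points {K : Type*} [Field K] [Algebra Qbar K] (hK : IsFunctionField K)
    {N d r k : ℕ} (F : Fin (N + 1) → MvPolynomial (Fin (N + 1)) K) (P : Fin (N + 1) → K)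
    (hQ : ∀ n, iterQ F P n ≠ 0) (φ : Fin r → Fin (k + 1) → K) (c : Fin r → ℝ)
    (hφ : ∀ j, φ j ≠ 0)
    (h : ∀ (t : CurvePoint K) (v : K → ℤ), IsOrd t v → Filter.Tendsto
      (fun n => (polarOrd v (iterQ F P n) : ℝ) / (d : ℝ) ^ n) Filter.atTop
      (nhds (∑ j, c j * (polarOrd v (φ j) : ℝ)))) :
    IsLimitDivisor d F P φ c := by
  intro u htriv
  by_cases hnt : ∃ x : K, x ≠ 0 ∧ u x ≠ 1
  · obtain ⟨t, v, κ, hκ, hv, hu⟩ :=
      exists_point_of_abv hK u (nonarch_of_trivial u htriv) htriv hnt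
    have h1 := (h t v hv).const_mul κ
    have e1 : (fun n => Real.log (⨆ i, u (iterQ F P n i)) / (d : ℝ) ^ n) =
        fun n => κ * ((polarOrd v (iterQ F P n) : ℝ) / (d : ℝ) ^ n) := by
      funext n
      rw [log_sup_abv u v κ hκ hu (iterQ F P n) (hQ n), mul_div_assoc]
    have e2 : ∑ j, c j * Real.log (⨆ i, u (φ j i)) = κ * ∑ j, c j * (polarOrd v (φ j) : ℝ) := by
      rw [Finset.mul_sum]
      refine Finset.sum_congr rfl fun j _ => ?_
      rw [log_sup_abv u v κ hκ hu (φ j) (hφ j)]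
      ring
    rw [e1, e2]
    exact h1
  · have hone : ∀ x : K, x ≠ 0 → u x = 1 := by
      intro x hx
      by_contra hne
      exact hnt ⟨x, hx, hne⟩
    have hle : ∀ x : K, u x ≤ 1 := by
      intro x
      by_cases hx : x = 0
      · rw [hx, map_zero]; exact zero_le_one
      · exact (hone x hx).le
    have hsup : ∀ (m : ℕ) (x : Fin (m + 1) → K), x ≠ 0 → Real.log (⨆ i, u (x i)) = 0 := by
      intro m x hx
      obtain ⟨i, hi⟩ := Function.ne_iff.1 hx
      have e : (⨆ i, u (x i)) = 1 := by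
        refine le_antisymm (ciSup_le fun i => hle _) ?_
        rw [← hone (x i) hi]
        exact le_ciSup (Set.finite_range fun i => u (x i)).bddAbove i
      rw [e, Real.log_one]
    have e1 : (fun n => Real.log (⨆ i, u (iterQ F P n i)) / (d : ℝ) ^ n) = fun _ => 0 := by
      funext n
      rw [hsup _ _ (hQ n), zero_div]
    have e2 : ∑ j, c j * Real.log (⨆ i, u (φ j i)) = 0 := by
      refine Finset.sum_eq_zero fun j _ => ?_
      rw [hsup _ _ (hφ j), mul_zero]
    rw [e1, e2]
    exact tendsto_const_nhds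

/-- from absolute values to points -/
theorem points_of_limitDivisor {K : Type*} [Field K] [Algebra Qbar K]
    {N d r k : ℕ} (F : Fin (N + 1) → MvPolynomial (Fin (N + 1)) K) (P : Fin (N + 1) → K)
    (hQ : ∀ n, iterQ F P n ≠ 0) (φ : Fin r → Fin (k + 1) → K) (c : Fin r → ℝ)
    (hφ : ∀ j, φ j ≠ 0) (h : IsLimitDivisor d F P φ c) (t : CurvePoint K) (v : K → ℤ)
    (hv : IsOrd t v) : Filter.Tendsto
      (fun n => (polarOrd v (iterQ F P n) : ℝ) / (d : ℝ) ^ n) Filter.atTop
      (nhds (∑ j, c j * (polarOrd v (φ j) : ℝ))) := by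
  obtain ⟨u, hu, htriv⟩ := ord_abv t v hv
  have hu' : ∀ x, x ≠ 0 → u x = Real.exp (-(1 * v x)) := by
    intro x hx
    rw [hu x hx, one_mul]
  have h1 := h u htriv
  have e1 : (fun n => Real.log (⨆ i, u (iterQ F P n i)) / (d : ℝ) ^ n) =
      fun n => (polarOrd v (iterQ F P n) : ℝ) / (d : ℝ) ^ n := by
    funext n
    rw [log_sup_abv u v 1 one_pos hu' (iterQ F P n) (hQ n), one_mul]
  have e2 : ∑ j, c j * Real.log (⨆ i, u (φ j i)) = ∑ j, c j * (polarOrd v (φ j) : ℝ) := by
    refine Finset.sum_congr rfl fun j _ => ?_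
    rw [log_sup_abv u v 1 one_pos hu' (φ j) (hφ j), one_mul]
  rw [e1, e2] at h1
  exact h1

end MEquiv

export MEquiv (limitDivisor_of_points points_of_limitDivisor)

end Pool.Agent.Helper259.Var
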