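import Mathlib
import Pool.Agent.Helper259.Var.FinalDefs

set_option autoImplicit false

universe u1 u2

namespace Pool.Agent.Helper259.Var

namespace MFinPole

open Polynomial Pool.Agent.Helper259.AbsHt

/-- evaluation relation: `x` is regular at `t` with value `c` -/
def EvAt {K : Type*} [Field K] [Algebra Qbar K] (t : CurvePoint K) (x : K) (c : Qbar) : Prop :=
  ∃ h : x ∈ t.V, t.ev ⟨x, h⟩ = c

section EvAtLemmas

variable {K : Type*} [Field K] [Algebra Qbar K] (t : CurvePoint K)

theorem evAt_const (c : Qbar) : EvAt t (algebraMap Qbar K c) c := ⟨t.const_mem c, t.ev_const c⟩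

theorem evAt_zero : EvAt t 0 0 := by
  have := evAt_const t 0
  rwa [map_zero] at this

theorem evAt_one : EvAt t 1 1 := by
  have := evAt_const t 1
  rwa [map_one] at this

theorem evAt_add {x x' : K} {c c' : Qbar} (h : EvAt t x c) (h' : EvAt t x' c') :
    EvAt t (x + x') (c + c') := by
  obtain ⟨h1, rfl⟩ := h
  obtain ⟨h2, rfl⟩ := h'
  exact ⟨add_mem h1 h2, map_add t.ev ⟨x, h1⟩ ⟨x', h2⟩⟩

theorem evAt_mul {x x' : K} {c c' : Qbar} (h : EvAt t x c) (h' : EvAt t x' c') :
    EvAt t (x * x') (c * c') := by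
  obtain ⟨h1, rfl⟩ := h
  obtain ⟨h2, rfl⟩ := h'
  exact ⟨mul_mem h1 h2, map_mul t.ev ⟨x, h1⟩ ⟨x', h2⟩⟩

theorem evAt_pow {x : K} {c : Qbar} (h : EvAt t x c) (n : ℕ) : EvAt t (x ^ n) (c ^ n) := by
  induction n with
  | zero => rw [pow_zero, pow_zero]; exact evAt_one t
  | succ n ih => rw [pow_succ, pow_succ]; exact evAt_mul t ih h

theorem evAt_unique {x : K} {c c' : Qbar} (h : EvAt t x c) (h' : EvAt t x c') : c = c' := by
  obtain ⟨h1, e1⟩ := h
  obtain ⟨h2, e2⟩ := h'
  exact e1.symm.trans e2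

theorem evAt_inv {x : K} {c : Qbar} (h : EvAt t x c) (hc : c ≠ 0) : EvAt t x⁻¹ c⁻¹ := by
  obtain ⟨h1, e⟩ := h
  have hu : IsUnit (⟨x, h1⟩ : t.V) := t.isUnit_of_ev_ne_zero _ (by rw [e]; exact hc)
  obtain ⟨w, hw⟩ := hu.exists_right_inv
  have hxw : x * (w : K) = 1 := congrArg Subtype.val hw
  have hw' : (w : K) = x⁻¹ := eq_inv_of_mul_eq_one_right hxw
  have hev : c * t.ev w = 1 := by
    rw [← e, ← map_mul, hw, map_one]
  have hw2 : t.ev w = c⁻¹ := eq_inv_of_mul_eq_one_right hev
  have hm : x⁻¹ ∈ t.V := hw' ▸ w.2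
  refine ⟨hm, ?_⟩
  have h3 : (⟨x⁻¹, hm⟩ : t.V) = w := Subtype.ext hw'.symm
  rw [h3, hw2]

theorem evAt_of_notMem {x : K} (h : x ∉ t.V) : EvAt t x⁻¹ 0 := by
  have hm : x⁻¹ ∈ t.V := (t.V.mem_or_inv_mem x).resolve_left h
  refine ⟨hm, ?_⟩
  by_contra hne
  obtain ⟨h2, _⟩ := evAt_inv t (⟨hm, rfl⟩ : EvAt t x⁻¹ (t.ev ⟨x⁻¹, hm⟩)) hne
  rw [inv_inv] at h2
  exact h h2

theorem evAt_mono {t t' : CurvePoint K} (h : ∀ x, x ∈ t.V → x ∈ t'.V) {x : K} {c : Qbar}
    (hx : EvAt t' x c) : EvAt t x c := by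
  have hz : EvAt t' (x - algebraMap Qbar K c) 0 := by
    have := evAt_add t' hx (evAt_const t' (-c))
    rw [map_neg, ← sub_eq_add_neg, add_neg_cancel] at this
    exact this
  by_cases h0 : x - algebraMap Qbar K c = 0
  · rw [sub_eq_zero.mp h0]; exact evAt_const t c
  have hn : (x - algebraMap Qbar K c)⁻¹ ∉ t.V := by
    intro hm
    have h1 := h _ hm
    have h2 : EvAt t' ((x - algebraMap Qbar K c) * (x - algebraMap Qbar K c)⁻¹)
        (0 * t'.ev ⟨_, h1⟩) := evAt_mul t' hz ⟨h1, rfl⟩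
    rw [mul_inv_cancel₀ h0, zero_mul] at h2
    exact zero_ne_one (evAt_unique t' h2 (evAt_one t'))
  have h3 := evAt_of_notMem t hn
  rw [inv_inv] at h3
  have h4 := evAt_add t h3 (evAt_const t c)
  rw [sub_add_cancel, zero_add] at h4
  exact h4

theorem curvePoint_eq_of_le {t t' : CurvePoint K} (h : ∀ x, x ∈ t.V → x ∈ t'.V) : t = t' := by
  have hV : t.V = t'.V := by
    ext x
    refine ⟨h x, fun hx => ?_⟩
    obtain ⟨h', _⟩ := evAt_mono h (⟨hx, rfl⟩ : EvAt t' x (t'.ev ⟨x, hx⟩))
    exact h'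
  have hev : ∀ x (hx : x ∈ t.V) (hx' : x ∈ t'.V), t.ev ⟨x, hx⟩ = t'.ev ⟨x, hx'⟩ := by
    intro x hx hx'
    obtain ⟨h', e⟩ := evAt_mono h (⟨hx', rfl⟩ : EvAt t' x (t'.ev ⟨x, hx'⟩))
    exact e
  cases t with
  | mk V ev cm ec iu =>
  cases t' with
  | mk V' ev' cm' ec' iu' =>
  dsimp only at hV
  subst hV
  have : ev = ev' := by
    ext ⟨x, hx⟩
    exact hev x hx hx
  subst this
  rfl

theorem exists_sep (T : Finset (CurvePoint K)) {t t' : CurvePoint K} (hne : t ≠ t') :
    ∃ x : K, EvAt t x 0 ∧ EvAt t' x 1 ∧ ∀ l ∈ T, ∃ c, EvAt l x c := by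
  classical
  obtain ⟨u, hu, hu'⟩ : ∃ u, u ∈ t.V ∧ u ∉ t'.V := by
    by_contra hcon
    push Not at hcon
    exact hne (curvePoint_eq_of_le hcon)
  obtain ⟨w, hw, hw'⟩ : ∃ w, w ∈ t'.V ∧ w ∉ t.V := by
    by_contra hcon
    push Not at hcon
    exact hne (curvePoint_eq_of_le hcon).symm
  have hu0 : u ≠ 0 := fun h => hu' (h ▸ zero_mem _)
  have hw0 : w ≠ 0 := fun h => hw' (h ▸ zero_mem _)
  obtain ⟨z, hz⟩ : ∃ z, z = u * w⁻¹ := ⟨_, rfl⟩
  have hz0 : z ≠ 0 := by rw [hz]; exact mul_ne_zero hu0 (inv_ne_zero hw0)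
  have hzt : EvAt t z 0 := by
    have := evAt_mul t (⟨hu, rfl⟩ : EvAt t u (t.ev ⟨u, hu⟩)) (evAt_of_notMem t hw')
    rw [mul_zero] at this
    rw [hz]; exact this
  have hzt' : EvAt t' z⁻¹ 0 := by
    have := evAt_mul t' (evAt_of_notMem t' hu') (⟨hw, rfl⟩ : EvAt t' w (t'.ev ⟨w, hw⟩))
    rw [zero_mul] at this
    have e : z⁻¹ = u⁻¹ * w := by rw [hz, mul_inv, inv_inv]
    rw [e]; exact this
  obtain ⟨c, hc⟩ : ∃ c : Qbar, c ∉ (insert (0 : Qbar)
      (T.image (fun l : CurvePoint K => if h : z ∈ l.V then - l.ev ⟨z, h⟩ else 0)) :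
      Finset Qbar) := Infinite.exists_notMem_finset _
  have hc0 : c ≠ 0 := fun h => hc (by rw [h]; exact Finset.mem_insert_self _ _)
  have hcl : ∀ l ∈ T, ∀ d, EvAt l z d → d + c ≠ 0 := by
    rintro l hl d ⟨hm, rfl⟩ h0
    apply hc
    apply Finset.mem_insert_of_mem
    rw [Finset.mem_image]
    refine ⟨l, hl, ?_⟩
    rw [dif_pos hm]
    exact (eq_neg_of_add_eq_zero_right h0).symm
  have hpole : ∀ l : CurvePoint K, EvAt l z⁻¹ 0 →
      EvAt l (z * (z + algebraMap Qbar K c)⁻¹) 1 := by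
    intro l hl
    have h1 := evAt_add l (evAt_one l) (evAt_mul l (evAt_const l c) hl)
    rw [mul_zero, add_zero] at h1
    have h2 := evAt_inv l h1 one_ne_zero
    rw [inv_one] at h2
    have e : z * (z + algebraMap Qbar K c)⁻¹ = (1 + algebraMap Qbar K c * z⁻¹)⁻¹ := by
      have h3 : z + algebraMap Qbar K c = z * (1 + algebraMap Qbar K c * z⁻¹) := by
        rw [mul_add, mul_one, mul_comm (algebraMap Qbar K c), ← mul_assoc, mul_inv_cancel₀ hz0,
          one_mul]
      rw [h3, mul_inv, ← mul_assoc, mul_inv_cancel₀ hz0, one_mul]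
    rw [e]; exact h2
  refine ⟨z * (z + algebraMap Qbar K c)⁻¹, ?_, hpole t' hzt', ?_⟩
  · have h1 := evAt_add t hzt (evAt_const t c)
    rw [zero_add] at h1
    have h2 := evAt_mul t hzt (evAt_inv t h1 hc0)
    rwa [zero_mul] at h2
  · intro l hl
    by_cases hm : z ∈ l.V
    · have h0 : EvAt l z (l.ev ⟨z, hm⟩) := ⟨hm, rfl⟩
      exact ⟨_, evAt_mul l h0 (evAt_inv l (evAt_add l h0 (evAt_const l c)) (hcl l hl _ h0))⟩
    · exact ⟨1, hpole l (evAt_of_notMem l hm)⟩

theorem evAt_prod {ι : Type*} (s : Finset ι) (f : ι → K) (c : ι → Qbar)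
    (h : ∀ i ∈ s, EvAt t (f i) (c i)) : EvAt t (∏ i ∈ s, f i) (∏ i ∈ s, c i) := by
  classical
  induction s using Finset.induction_on with
  | empty => simpa using evAt_one t
  | insert a s ha ih =>
    rw [Finset.prod_insert ha, Finset.prod_insert ha]
    exact evAt_mul t (h a (Finset.mem_insert_self _ _))
      (ih fun i hi => h i (Finset.mem_insert_of_mem hi))

theorem evAt_sum {ι : Type*} (s : Finset ι) (f : ι → K) (c : ι → Qbar)
    (h : ∀ i ∈ s, EvAt t (f i) (c i)) : EvAt t (∑ i ∈ s, f i) (∑ i ∈ s, c i) := by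
  classical
  induction s using Finset.induction_on with
  | empty => simpa using evAt_zero t
  | insert a s ha ih =>
    rw [Finset.sum_insert ha, Finset.sum_insert ha]
    exact evAt_add t (h a (Finset.mem_insert_self _ _))
      (ih fun i hi => h i (Finset.mem_insert_of_mem hi))

theorem exists_dual (T : Finset (CurvePoint K)) (j : CurvePoint K) :
    ∃ x : K, EvAt j x 1 ∧ ∀ i ∈ T, i ≠ j → EvAt i x 0 := by
  classical
  have h : ∀ i : CurvePoint K, ∃ x : K, i ≠ j →
      (EvAt i x 0 ∧ EvAt j x 1 ∧ ∀ l ∈ T, ∃ c, EvAt l x c) := by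
    intro i
    by_cases hij : i = j
    · exact ⟨0, fun h => absurd hij h⟩
    · obtain ⟨x, hx⟩ := exists_sep T hij
      exact ⟨x, fun _ => hx⟩
  choose f hf using h
  refine ⟨∏ i ∈ T.erase j, f i, ?_, ?_⟩
  · have := evAt_prod j (T.erase j) f (fun _ => 1)
      (fun i hi => (hf i (Finset.ne_of_mem_erase hi)).2.1)
    rwa [Finset.prod_const_one] at this
  · intro i hi hij
    have hmem : i ∈ T.erase j := Finset.mem_erase.mpr ⟨hij, hi⟩
    rw [← Finset.mul_prod_erase _ _ hmem]
    have h1 : ∏ l ∈ (T.erase j).erase i, f l ∈ i.V := by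
      refine prod_mem fun l hl => ?_
      have hlj : l ≠ j := Finset.ne_of_mem_erase (Finset.mem_of_mem_erase hl)
      obtain ⟨c, hm, _⟩ := (hf l hlj).2.2 i hi
      exact hm
    have h2 := evAt_mul i (hf i hij).1 (⟨h1, rfl⟩ : EvAt i _ (i.ev ⟨_, h1⟩))
    rwa [zero_mul] at h2

theorem evAt_aeval {y : K} {c : Qbar} (hy : EvAt t y c) (p : Qbar[X]) :
    EvAt t (Polynomial.aeval y p) (p.eval c) := by
  induction p using Polynomial.induction_on' with
  | add p q hp hq => rw [map_add, Polynomial.eval_add]; exact evAt_add t hp hq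
  | monomial n a =>
    rw [Polynomial.aeval_monomial, Polynomial.eval_monomial]
    exact evAt_mul t (evAt_const t a) (evAt_pow t hy n)

theorem dvd_of_sum (T : Finset (CurvePoint K)) (y : K) (hy : y ≠ 0) (hT : ∀ t ∈ T, EvAt t y 0)
    (x : T → K) (hx1 : ∀ j : T, EvAt j.1 (x j) 1)
    (hx0 : ∀ i j : T, i ≠ j → EvAt i.1 (x j) 0) (N : ℕ) :
    ∀ p : T → Qbar[X], ∑ i, Polynomial.aeval y (p i) * x i = 0 → ∀ i, X ^ N ∣ p i := by
  classical
  induction N with
  | zero => intro p _ i; rw [pow_zero]; exact one_dvd _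
  | succ N ih =>
    intro p hp
    have h0 : ∀ j : T, (p j).eval 0 = 0 := by
      intro j
      have h1 : EvAt j.1 (∑ i, Polynomial.aeval y (p i) * x i)
          (∑ i, (p i).eval 0 * (if i = j then 1 else 0)) := by
        apply evAt_sum
        intro i _
        apply evAt_mul
        · exact evAt_aeval _ (hT _ j.2) _
        · split_ifs with h
          · rw [h]; exact hx1 j
          · exact hx0 j i (Ne.symm h)
      rw [hp] at h1
      have h2 := evAt_unique j.1 h1 (evAt_zero j.1)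
      simpa using h2
    have hX : ∀ i, ∃ q, p i = X * q := fun i =>
      Polynomial.X_dvd_iff.mpr (by rw [Polynomial.coeff_zero_eq_eval_zero]; exact h0 i)
    choose q hq using hX
    have hs : ∑ i, Polynomial.aeval y (q i) * x i = 0 := by
      have h3 : y * ∑ i, Polynomial.aeval y (q i) * x i = 0 := by
        rw [Finset.mul_sum, ← hp]
        refine Finset.sum_congr rfl fun i _ => ?_
        rw [hq i, map_mul, Polynomial.aeval_X, mul_assoc]
      exact (mul_eq_zero.mp h3).resolve_left hy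
    intro i
    rw [hq i, pow_succ']
    exact mul_dvd_mul_left X (ih q hs i)

end EvAtLemmas

open scoped IntermediateField.algebraAdjoinAdjoin in

theorem finDim_of_transcendental {K : Type*} [Field K] [Algebra Qbar K]
    (hK : IsFunctionField K) (y : K) (hy : Transcendental Qbar y) :
    FiniteDimensional (IntermediateField.adjoin Qbar ({y} : Set K)) K := by
  obtain ⟨s, -, hs⟩ := hK
  haveI := hs
  have hess : Algebra.EssFiniteType Qbar (IntermediateField.adjoin Qbar ({s} : Set K)) :=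
    IntermediateField.essFiniteType_iff.mpr
      (IntermediateField.fg_adjoin_of_finite (Set.finite_singleton s))
  haveI : Algebra.EssFiniteType Qbar K :=
    Algebra.EssFiniteType.comp Qbar (IntermediateField.adjoin Qbar ({s} : Set K)) K
  haveI : Algebra.IsAlgebraic (Algebra.adjoin Qbar ({s} : Set K)) K :=
    Algebra.IsAlgebraic.trans _ (IntermediateField.adjoin Qbar ({s} : Set K)) _
  have htr : Algebra.trdeg Qbar K ≤ 1 := by
    have := Algebra.IsAlgebraic.trdeg_le_cardinalMk Qbar ({s} : Set K)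
    simpa using this
  have hai : AlgebraicIndependent Qbar (fun _ : Unit => y) :=
    algebraicIndependent_unique_type_iff.mpr hy
  have htb : IsTranscendenceBasis Qbar (fun _ : Unit => y) :=
    hai.isTranscendenceBasis_of_lift_trdeg_le_of_finite (by simpa using htr)
  haveI : Algebra.IsAlgebraic (IntermediateField.adjoin Qbar ({y} : Set K)) K := by
    have := htb.isAlgebraic_field
    rwa [Set.range_const] at this
  haveI : Algebra.EssFiniteType (IntermediateField.adjoin Qbar ({y} : Set K)) K :=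
    Algebra.EssFiniteType.of_comp Qbar _ _
  exact Algebra.finite_of_essFiniteType_of_isAlgebraic

open scoped IntermediateField.algebraAdjoinAdjoin in

/-- a function has finitely many poles -/
theorem finite_poles {K : Type*} [Field K] [Algebra Qbar K] (hK : IsFunctionField K) (a : K) :
    {t : CurvePoint K | a ∉ t.V}.Finite := by
  classical
  by_cases ha : IsAlgebraic Qbar a
  · have h1 : a ∈ (algebraMap Qbar K).range :=
      minpoly.mem_range_of_degree_eq_one Qbar a
        (IsAlgClosed.degree_eq_one_of_irreducible Qbar (minpoly.irreducible ha.isIntegral))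
    obtain ⟨c, rfl⟩ := h1
    have h2 : {t : CurvePoint K | algebraMap Qbar K c ∉ t.V} = ∅ := by
      apply Set.eq_empty_of_forall_notMem
      intro t ht
      exact ht (t.const_mem c)
    rw [h2]
    exact Set.finite_empty
  · have hinv : Transcendental Qbar a⁻¹ := by
      intro h
      apply ha
      have := h.inv
      rwa [inv_inv] at this
    have hy0 : a⁻¹ ≠ 0 := by
      intro h0
      apply hinv
      rw [h0]
      exact isAlgebraic_zero
    haveI := finDim_of_transcendental hK a⁻¹ hinv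
    by_contra hinf
    obtain ⟨T, hTs, hTc⟩ := (show Set.Infinite _ from hinf).exists_subset_card_eq
      (Module.finrank (IntermediateField.adjoin Qbar ({a⁻¹} : Set K)) K + 1)
    have hT : ∀ t ∈ T, EvAt t a⁻¹ 0 := fun t ht => evAt_of_notMem t (hTs ht)
    have hd : ∀ j : T, ∃ x : K, EvAt j.1 x 1 ∧ ∀ i ∈ T, i ≠ j.1 → EvAt i x 0 :=
      fun j => exists_dual T j.1
    choose x hx using hd
    have hli : LinearIndependent (Algebra.adjoin Qbar ({a⁻¹} : Set K)) x := by
      rw [Fintype.linearIndependent_iff]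
      intro g hg
      have hg' : ∀ i, ∃ p : Qbar[X], Polynomial.aeval a⁻¹ p = (g i : K) := by
        have hz : ∀ z ∈ Algebra.adjoin Qbar ({a⁻¹} : Set K), ∃ p : Qbar[X],
            Polynomial.aeval a⁻¹ p = z := by
          intro z hz
          rw [Algebra.adjoin_singleton_eq_range_aeval] at hz
          exact hz
        exact fun i => hz _ (g i).2
      choose p hp using hg'
      have hsum : ∑ i, Polynomial.aeval a⁻¹ (p i) * x i = 0 := by
        rw [← hg]
        refine Finset.sum_congr rfl fun i _ => ?_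
        rw [hp i]; rfl
      intro i
      have hpi : p i = 0 := by
        apply Polynomial.eq_zero_of_dvd_of_natDegree_lt (dvd_of_sum T a⁻¹ hy0 hT x
          (fun j => (hx j).1) (fun i j hij => (hx j).2 i.1 i.2 (fun h => hij (Subtype.ext h)))
          ((p i).natDegree + 1) p hsum i)
        rw [Polynomial.natDegree_X_pow]; omega
      apply Subtype.ext
      rw [← hp i, hpi, map_zero]; rfl
    have hli' : LinearIndependent (IntermediateField.adjoin Qbar ({a⁻¹} : Set K)) x :=
      (LinearIndependent.iff_fractionRing (Algebra.adjoin Qbar ({a⁻¹} : Set K)) _).mp hli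
    have hcard := hli'.fintype_card_le_finrank
    rw [Fintype.card_coe, hTc] at hcard
    omega

end MFinPole

export MFinPole (finite_poles)

end Pool.Agent.Helper259.Var
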