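import Mathlib
import Pool.Agent.Helper259.Var.NANull
import Pool.Agent.Helper259.Var.Descend
import Pool.Agent.Helper259.Var.FinPole

set_option autoImplicit false

universe u1 u2

namespace Pool.Agent.Helper259.Var

namespace MGood

open Polynomial Pool.Agent.Helper259.AbsHt

/-- good reduction at all but finitely many points -/
theorem good_cofinite {K : Type u1} [Field K] [Algebra Qbar K] (hK : IsFunctionField K) {N d : ℕ}
    (F : Fin (N + 1) → MvPolynomial (Fin (N + 1)) K)
    (hhom : ∀ i, (F i).IsHomogeneous d)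
    (hmor : ∀ x : Fin (N + 1) → AlgebraicClosure K,
      (∀ i, MvPolynomial.aeval x (F i) = 0) → x = 0) :
    {t : CurvePoint K | ¬ ∃ F' : Fin (N + 1) → MvPolynomial (Fin (N + 1)) Qbar,
      IsSpecAt t F F' ∧ NoCommonZero F'}.Finite := by
  have hpow : ∀ j, ∃ e : ℕ,
      (MvPolynomial.X j : MvPolynomial (Fin (N + 1)) K) ^ e ∈ Ideal.span (Set.range F) :=
    fun j => nullK F hmor j
  have hP : (fun _ : Fin (N + 1) => (1 : K)) ≠ 0 := by
    intro h
    exact one_ne_zero (congrFun h 0)
  obtain ⟨A, iA1, iA2, iA3, iA4, iA5, iA6, iA7, iA8, -, ⟨S, hS⟩, FA, -, -, -, hFA, -, hpowA, -⟩ :=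
    descend hK F hhom hpow (fun _ => (1 : K)) hP (fun (_ : Fin 0) (_ : Fin (0 + 1)) => (1 : K))
      (fun j => j.elim0)
  refine Set.Finite.subset (S.finite_toSet.biUnion fun a _ => finite_poles hK a) ?_
  intro t ht
  by_contra hcon
  apply ht
  have hSt : ∀ a ∈ S, a ∈ t.V := by
    intro a ha
    by_contra haV
    apply hcon
    rw [Set.mem_iUnion₂]
    exact ⟨a, ha, haV⟩
  have hA := hS t hSt
  obtain ⟨tA, htA⟩ : ∃ tA : A →+* Qbar, ∀ x, tA x = t.ev ⟨algebraMap A K x, hA x⟩ :=
    ⟨t.ev.comp ((algebraMap A K).codRestrict t.V hA), fun x => rfl⟩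
  refine ⟨fun i => MvPolynomial.map tA (FA i), ⟨1, ?_⟩, ?_⟩
  · intro i m
    have e : 1 * (F i).coeff m = algebraMap A K ((FA i).coeff m) := by
      rw [one_mul, ← hFA i, MvPolynomial.coeff_map]
    have h1 : 1 * (F i).coeff m ∈ t.V := by
      rw [e]
      exact hA _
    refine ⟨h1, ?_⟩
    rw [MvPolynomial.coeff_map, htA]
    congr 1
    exact Subtype.ext e
  · intro x hx
    funext j
    obtain ⟨e, he⟩ := hpowA j
    have hker : Ideal.span (Set.range FA) ≤
        RingHom.ker ((MvPolynomial.eval x).comp (MvPolynomial.map tA)) := by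
      rw [Ideal.span_le]
      rintro _ ⟨i, rfl⟩
      exact hx i
    have h1 := hker he
    rw [RingHom.mem_ker, RingHom.comp_apply, map_pow, map_pow, MvPolynomial.map_X,
      MvPolynomial.eval_X] at h1
    exact IsReduced.eq_zero _ ⟨e, h1⟩

end MGood

export MGood (good_cofinite)

end Pool.Agent.Helper259.Var
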