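import Mathlib
import Pool.Agent.Helper259.Var.FinalDefs
import Pool.Agent.Helper259.AbsHt

set_option autoImplicit false

universe u1 u2

namespace Pool.Agent.Helper259.Var

namespace MScale

open Polynomial Pool.Agent.Helper259.AbsHt

/-- heights are invariant under scaling -/
theorem absLogHeight_smul {ι : Type*} [Finite ι] (c : Qbar) (hc : c ≠ 0) (x : ι → Qbar) :
    absLogHeight (c • x) = absLogHeight x := by
  classical
  let z : Option ι → Qbar := fun o => o.elim c x
  have hcm : c ∈ fieldOf z := IntermediateField.subset_adjoin ℚ _ ⟨none, rfl⟩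
  have hxm : ∀ i, x i ∈ fieldOf z := fun i => IntermediateField.subset_adjoin ℚ _ ⟨some i, rfl⟩
  let c' : fieldOf z := ⟨c, hcm⟩
  let y : ι → fieldOf z := fun i => ⟨x i, hxm i⟩
  have hc' : c' ≠ 0 := by
    intro h
    apply hc
    have := congrArg (Subtype.val) h
    simpa [c'] using this
  have h1 := absLogHeight_eq (fieldOf z) (algebraMap (fieldOf z) Qbar) y
  have h2 := absLogHeight_eq (fieldOf z) (algebraMap (fieldOf z) Qbar) (c' • y)
  have e1 : (fun i => (algebraMap (fieldOf z) Qbar) (y i)) = x := by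
    funext i; rfl
  have e2 : (fun i => (algebraMap (fieldOf z) Qbar) ((c' • y) i)) = c • x := by
    funext i
    simp only [Pi.smul_apply, smul_eq_mul, map_mul]
    rfl
  rw [e1] at h1
  rw [e2] at h2
  rw [h1, h2, Height.logHeight_smul_eq_logHeight y hc']

theorem eval_smul_hom {N d : ℕ} (P : MvPolynomial (Fin (N + 1)) Qbar) (hP : P.IsHomogeneous d)
    (k : Qbar) (y : Fin (N + 1) → Qbar) :
    MvPolynomial.eval (k • y) P = k ^ d * MvPolynomial.eval y P := by
  rw [MvPolynomial.eval_eq, MvPolynomial.eval_eq, Finset.mul_sum]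
  refine Finset.sum_congr rfl fun m hm => ?_
  have hd : (∑ i ∈ m.support, m i) = d := by
    have := hP (MvPolynomial.mem_support_iff.mp hm)
    rw [Finsupp.weight_apply] at this
    simpa [Finsupp.sum] using this
  have : (∏ i ∈ m.support, (k • y) i ^ m i) = k ^ d * ∏ i ∈ m.support, y i ^ m i := by
    simp only [Pi.smul_apply, smul_eq_mul, mul_pow]
    rw [Finset.prod_mul_distrib, Finset.prod_pow_eq_pow_sum, hd]
  rw [this]; ring

/-- canonical heights are invariant under scaling -/
theorem canHeight_smul {N : ℕ} (d : ℕ) (F' : Fin (N + 1) → MvPolynomial (Fin (N + 1)) Qbar)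
    (hF : ∀ i, (F' i).IsHomogeneous d) (x : Fin (N + 1) → Qbar) (a c : Qbar) (ha : a ≠ 0)
    (hc : c ≠ 0) : canHeight d (a • F') (c • x) = canHeight d F' x := by
  have key : ∀ n : ℕ, ∃ k : Qbar, k ≠ 0 ∧
      (fun (y : Fin (N + 1) → Qbar) i => MvPolynomial.eval y ((a • F') i))^[n] (c • x) =
        k • ((fun (y : Fin (N + 1) → Qbar) i => MvPolynomial.eval y (F' i))^[n] x) := by
    intro n
    induction n with
    | zero => exact ⟨c, hc, rfl⟩
    | succ n ih =>
      obtain ⟨k, hk, h⟩ := ih
      refine ⟨a * k ^ d, mul_ne_zero ha (pow_ne_zero _ hk), ?_⟩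
      rw [Function.iterate_succ_apply', Function.iterate_succ_apply', h]
      funext i
      simp only [Pi.smul_apply, smul_eq_mul]
      rw [MvPolynomial.smul_eval, eval_smul_hom _ (hF i)]
      ring
  unfold canHeight
  congr 1
  funext n
  obtain ⟨k, hk, h⟩ := key n
  rw [h, absLogHeight_smul k hk]

end MScale

export MScale (absLogHeight_smul canHeight_smul)

end Pool.Agent.Helper259.Var
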