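import Mathlib
import Pool.Agent.Helper259.Var.FinalDefs

set_option autoImplicit false

universe u1 u2

namespace Pool.Agent.Helper259.Var

namespace MValue

open Polynomial Pool.Agent.Helper259.AbsHt

/-- values exist -/
theorem exists_value {K : Type*} [Field K] [Algebra Qbar K] {ι : Type*} [Finite ι]
    (t : CurvePoint K) (x : ι → K) (hx : x ≠ 0) : ∃ y, IsValueAt t x y := by
  obtain ⟨i1, hi1⟩ := Function.ne_iff.1 hx
  have : Nonempty ι := ⟨i1⟩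
  obtain ⟨i0, hi0⟩ := Finite.exists_max (fun i => t.V.valuation (x i))
  have hx0 : x i0 ≠ 0 := by
    intro h0
    have h1 := hi0 i1
    simp only [h0, map_zero] at h1
    exact hi1 ((t.V.valuation.zero_iff).1 (le_antisymm h1 zero_le))
  have hv0 : t.V.valuation (x i0) ≠ 0 := (t.V.valuation.ne_zero_iff).2 hx0
  have hmem : ∀ i, (x i0)⁻¹ * x i ∈ t.V := by
    intro i
    rw [← t.V.valuation_le_one_iff, map_mul, map_inv₀]
    exact inv_mul_le_one_of_le₀ (hi0 i) zero_le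
  refine ⟨fun i => t.ev ⟨(x i0)⁻¹ * x i, hmem i⟩, ?_, (x i0)⁻¹, fun i => ⟨hmem i, rfl⟩⟩
  intro hy
  have h1 := congrFun hy i0
  have h2 : (⟨(x i0)⁻¹ * x i0, hmem i0⟩ : t.V) = 1 := Subtype.ext (inv_mul_cancel₀ hx0)
  simp only [h2, map_one] at h1
  exact one_ne_zero h1

theorem core14750 {K : Type*} [Field K] [Algebra Qbar K] {κ : Type*}
    (t : CurvePoint K) (x : κ → K) (y y' : κ → Qbar) (hy : ∃ k, y k ≠ 0) (hy' : ∃ k, y' k ≠ 0)
    (a a' : K) (h : ∀ i, ∃ h : a * x i ∈ t.V, t.ev ⟨a * x i, h⟩ = y i)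
    (h' : ∀ i, ∃ h : a' * x i ∈ t.V, t.ev ⟨a' * x i, h⟩ = y' i) :
    ∃ c : Qbar, c ≠ 0 ∧ ∀ i, y' i = c * y i := by
  have aux : ∀ (b b' : K) (z z' : κ → Qbar) (_ : ∃ k, z k ≠ 0)
      (_ : ∀ i, ∃ h : b * x i ∈ t.V, t.ev ⟨b * x i, h⟩ = z i)
      (_ : ∀ i, ∃ h : b' * x i ∈ t.V, t.ev ⟨b' * x i, h⟩ = z' i), b ≠ 0 ∧ b' / b ∈ t.V := by
    intro b b' z z' hz hb hb'
    obtain ⟨k, hk⟩ := hz
    obtain ⟨hm, he⟩ := hb k
    obtain ⟨hm', -⟩ := hb' k
    obtain ⟨u, hu⟩ := t.isUnit_of_ev_ne_zero ⟨b * x k, hm⟩ (by rw [he]; exact hk)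
    have h1 : (b * x k) * (((u⁻¹ : t.Vˣ) : t.V) : K) = 1 := by
      have h2 : (u : t.V) * ((u⁻¹ : t.Vˣ) : t.V) = 1 := u.mul_inv
      have h3 := congrArg (fun s : t.V => (s : K)) h2
      simp only [hu] at h3
      exact h3
    have hb0 : b ≠ 0 := by
      rintro rfl
      rw [zero_mul, zero_mul] at h1
      exact zero_ne_one h1
    refine ⟨hb0, ?_⟩
    have h4 : b' / b = (b' * x k) * (((u⁻¹ : t.Vˣ) : t.V) : K) := by
      rw [div_eq_iff hb0]
      calc b' = b' * ((b * x k) * (((u⁻¹ : t.Vˣ) : t.V) : K)) := by rw [h1, mul_one]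
        _ = _ := by ring
    rw [h4]
    exact t.V.mul_mem _ _ hm' ((u⁻¹ : t.Vˣ) : t.V).2
  obtain ⟨ha, he⟩ := aux a a' y y' hy h h'
  obtain ⟨ha', he'⟩ := aux a' a y' y hy' h' h
  refine ⟨t.ev ⟨a' / a, he⟩, ?_, ?_⟩
  · intro h0
    have h1 : (⟨a' / a, he⟩ : t.V) * ⟨a / a', he'⟩ = 1 := by
      apply Subtype.ext
      show a' / a * (a / a') = 1
      field_simp
    have h2 := congrArg t.ev h1
    rw [map_mul, h0, zero_mul, map_one] at h2
    exact zero_ne_one h2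
  · intro i
    obtain ⟨hm, e⟩ := h i
    obtain ⟨hm', e'⟩ := h' i
    rw [← e, ← e', ← map_mul]
    congr 1
    apply Subtype.ext
    show a' * x i = a' / a * (a * x i)
    field_simp

/-- values are unique up to scaling -/
theorem value_unique {K : Type*} [Field K] [Algebra Qbar K] {ι : Type*}
    (t : CurvePoint K) (x : ι → K) (y y' : ι → Qbar) (h : IsValueAt t x y)
    (h' : IsValueAt t x y') : ∃ c : Qbar, c ≠ 0 ∧ y' = c • y := by
  obtain ⟨hy, a, ha⟩ := h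
  obtain ⟨hy', a', ha'⟩ := h'
  obtain ⟨c, hc, hcy⟩ := core14750 t x y y' (Function.ne_iff.1 hy) (Function.ne_iff.1 hy')
    a a' ha ha'
  exact ⟨c, hc, funext fun i => hcy i⟩

/-- specialisations are unique up to scaling -/
theorem spec_unique {K : Type*} [Field K] [Algebra Qbar K] {N : ℕ} (t : CurvePoint K)
    (F : Fin (N + 1) → MvPolynomial (Fin (N + 1)) K)
    (F' F'' : Fin (N + 1) → MvPolynomial (Fin (N + 1)) Qbar) (h' : IsSpecAt t F F')
    (h'' : IsSpecAt t F F'') (h0' : F' ≠ 0) (h0'' : F'' ≠ 0) :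
    ∃ c : Qbar, c ≠ 0 ∧ F'' = c • F' := by
  obtain ⟨a', ha'⟩ := h'
  obtain ⟨a'', ha''⟩ := h''
  have hne : ∀ G : Fin (N + 1) → MvPolynomial (Fin (N + 1)) Qbar, G ≠ 0 →
      ∃ k : Fin (N + 1) × (Fin (N + 1) →₀ ℕ), (G k.1).coeff k.2 ≠ 0 := by
    intro G hG
    obtain ⟨i, hi⟩ := Function.ne_iff.1 hG
    obtain ⟨m, hm⟩ := MvPolynomial.ne_zero_iff.1 hi
    exact ⟨(i, m), hm⟩
  obtain ⟨c, hc, hcy⟩ := core14750 t
    (fun k : Fin (N + 1) × (Fin (N + 1) →₀ ℕ) => (F k.1).coeff k.2)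
    (fun k => (F' k.1).coeff k.2) (fun k => (F'' k.1).coeff k.2) (hne F' h0') (hne F'' h0'')
    a' a'' (fun k => ha' k.1 k.2) (fun k => ha'' k.1 k.2)
  refine ⟨c, hc, funext fun i => ?_⟩
  apply MvPolynomial.ext
  intro m
  rw [Pi.smul_apply, MvPolynomial.coeff_smul, smul_eq_mul]
  exact hcy (i, m)

end MValue

export MValue (exists_value value_unique spec_unique)

end Pool.Agent.Helper259.Var
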