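import Mathlib
import Pool.Agent.Helper259.Var.Value
import Pool.Agent.Helper259.Var.Scale

set_option autoImplicit false

universe u1 u2

namespace Pool.Agent.Helper259.Var

namespace MSpecBdd

open Polynomial Pool.Agent.Helper259.AbsHt

/-- at one point the comparison is a single number -/
theorem spec_bdd {K : Type*} [Field K] [Algebra Qbar K] {N d r k : ℕ}
    (t : CurvePoint K) (F : Fin (N + 1) → MvPolynomial (Fin (N + 1)) K)
    (hhom : ∀ i, (F i).IsHomogeneous d) (P : Fin (N + 1) → K) (φ : Fin r → Fin (k + 1) → K)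
    (c : Fin r → ℝ) (F₀ : Fin (N + 1) → MvPolynomial (Fin (N + 1)) Qbar)
    (P₀ : Fin (N + 1) → Qbar) (φ₀ : Fin r → Fin (k + 1) → Qbar)
    (h1 : IsSpecAt t F F₀) (h2 : NoCommonZero F₀) (h3 : IsValueAt t P P₀)
    (h4 : ∀ j, IsValueAt t (φ j) (φ₀ j))
    (F' : Fin (N + 1) → MvPolynomial (Fin (N + 1)) Qbar)
    (P' : Fin (N + 1) → Qbar) (φ' : Fin r → Fin (k + 1) → Qbar)
    (h1' : IsSpecAt t F F') (h2' : NoCommonZero F') (h3' : IsValueAt t P P')
    (h4' : ∀ j, IsValueAt t (φ j) (φ' j)) :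
    canHeight d F' P' - ∑ j, c j * absLogHeight (φ' j) =
      canHeight d F₀ P₀ - ∑ j, c j * absLogHeight (φ₀ j) := by
  have aux : ∀ G : Fin (N + 1) → MvPolynomial (Fin (N + 1)) Qbar, NoCommonZero G → G ≠ 0 := by
    intro G hG h0
    have := hG (fun _ => 1) (fun i => by rw [h0]; simp)
    exact one_ne_zero (congrFun this 0)
  have hhom₀ : ∀ i, (F₀ i).IsHomogeneous d := by
    intro i
    obtain ⟨a, ha⟩ := h1
    intro m hm
    apply hhom i
    intro h
    obtain ⟨h5, h6⟩ := ha i m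
    apply hm
    rw [← h6]
    have : (⟨a * (F i).coeff m, h5⟩ : t.V) = 0 := by
      apply Subtype.ext
      change a * (F i).coeff m = 0
      rw [h, mul_zero]
    rw [this, map_zero]
  obtain ⟨a, ha, haF⟩ := spec_unique t F F₀ F' h1 h1' (aux _ h2) (aux _ h2')
  obtain ⟨b, hb, hbP⟩ := value_unique t P P₀ P' h3 h3'
  rw [haF, hbP, canHeight_smul d F₀ hhom₀ P₀ a b ha hb]
  congr 1
  refine Finset.sum_congr rfl fun j _ => ?_
  obtain ⟨e, he, hj⟩ := value_unique t (φ j) (φ₀ j) (φ' j) (h4 j) (h4' j)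
  rw [hj, absLogHeight_smul e he]

end MSpecBdd

export MSpecBdd (spec_bdd)

end Pool.Agent.Helper259.Var
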