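import Mathlib
import Pool.Agent.Helper259.Var.LimDef
import Pool.Agent.Helper259.Var.RepDef
import Pool.Agent.Helper259.Var.NANull
import Pool.Agent.Helper259.Var.Descend
import Pool.Agent.Helper259.Var.ABound
import Pool.Agent.Helper259.Var.Frac
import Pool.Agent.Helper259.Var.Ext
import Pool.Agent.Helper259.Var.FinPole
import Pool.Agent.Helper259.Var.SpecBdd
import Pool.Agent.Helper259.Var.Cant

set_option autoImplicit false

universe u1 u2

namespace Pool.Agent.Helper259.Var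

namespace MKBound

open Polynomial Pool.Agent.Helper259.AbsHt

/-! helper lemmas -/

theorem fb_iterQ_map {A : Type*} {B : Type*} [CommRing A] [CommRing B] {N : ℕ} (f : A →+* B)
    (F : Fin (N + 1) → MvPolynomial (Fin (N + 1)) A) (P : Fin (N + 1) → A)
    (F' : Fin (N + 1) → MvPolynomial (Fin (N + 1)) B) (P' : Fin (N + 1) → B)
    (hF : ∀ i, MvPolynomial.map f (F i) = F' i) (hP : ∀ i, f (P i) = P' i) (n : ℕ) :
    ∀ i, f (iterQ F P n i) = iterQ F' P' n i := by
  induction n with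
  | zero => exact hP
  | succ n ih =>
    intro i
    show f (MvPolynomial.eval (iterQ F P n) (F i)) = MvPolynomial.eval (iterQ F' P' n) (F' i)
    have e : f ∘ iterQ F P n = iterQ F' P' n := funext ih
    rw [← hF i, MvPolynomial.eval_map, ← e]
    have h := MvPolynomial.eval₂_comp_left f (RingHom.id A) (iterQ F P n) (F i)
    rw [RingHom.comp_id] at h
    exact h

theorem fb_iter {N : ℕ} (F : Fin (N + 1) → MvPolynomial (Fin (N + 1)) Qbar)
    (P : Fin (N + 1) → Qbar) (n : ℕ) :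
    (fun (y : Fin (N + 1) → Qbar) i => MvPolynomial.eval y (F i))^[n] P = iterQ F P n := by
  induction n with
  | zero => rfl
  | succ n ih =>
    rw [Function.iterate_succ_apply', ih]
    rfl

theorem fb_rep {K : Type*} [Field K] [Algebra Qbar K] {A : Type*} [CommRing A] [IsDomain A]
    [Algebra Qbar[X] A] [Algebra A K] [FaithfulSMul A K] [Algebra.IsAlgebraic A K]
    (hc : ∀ c : Qbar, algebraMap A K (algebraMap Qbar[X] A (C c)) = algebraMap Qbar K c)
    {N d r k : ℕ} (F : Fin (N + 1) → MvPolynomial (Fin (N + 1)) K) (P : Fin (N + 1) → K)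
    (φ : Fin r → Fin (k + 1) → K) (c : Fin r → ℝ) (hrep : IsLimitDivisor d F P φ c)
    (FA : Fin (N + 1) → MvPolynomial (Fin (N + 1)) A) (PA : Fin (N + 1) → A)
    (φA : Fin r → Fin (k + 1) → A)
    (hFA : ∀ i, MvPolynomial.map (algebraMap A K) (FA i) = F i)
    (hPA : ∀ i, algebraMap A K (PA i) = P i)
    (hφA : ∀ j i, algebraMap A K (φA j i) = φ j i) : Rep d FA PA φA c := by
  intro u hu htr
  obtain ⟨w0, hw0, hw0n⟩ := exists_frac_ext (K := FractionRing A) u
  letI : Algebra (FractionRing A) K := FractionRing.liftAlgebra A K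
  haveI : Algebra.IsAlgebraic (FractionRing A) K :=
    IsFractionRing.comap_isAlgebraic_iff.mp (inferInstance : Algebra.IsAlgebraic A K)
  obtain ⟨w, hwn, hw⟩ := exists_ext_abv (K := FractionRing A) (L := K) w0 (hw0n hu)
  have hwA : ∀ x : A, w (algebraMap A K x) = u x := by
    intro x
    rw [IsScalarTower.algebraMap_apply A (FractionRing A) K x, hw, hw0]
  have h1 := hrep w (by
    intro a ha
    rw [← hc a, hwA]
    exact htr a ha)
  have h2 : ∀ n i, w (iterQ F P n i) = u (iterQ FA PA n i) := by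
    intro n i
    rw [← fb_iterQ_map (algebraMap A K) FA PA F P hFA hPA n i, hwA]
  have h3 : ∀ j i, w (φ j i) = u (φA j i) := by
    intro j i
    rw [← hφA j i, hwA]
  simp only [h2, h3] at h1
  exact h1

theorem fb_one {K : Type*} [Field K] [Algebra Qbar K] {N d r k : ℕ}
    (t : CurvePoint K) (F : Fin (N + 1) → MvPolynomial (Fin (N + 1)) K)
    (hhom : ∀ i, (F i).IsHomogeneous d) (P : Fin (N + 1) → K) (φ : Fin r → Fin (k + 1) → K)
    (c : Fin r → ℝ) : ∃ B : ℝ, 0 ≤ B ∧ ∀ (F' : Fin (N + 1) → MvPolynomial (Fin (N + 1)) Qbar)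
      (P' : Fin (N + 1) → Qbar) (φ' : Fin r → Fin (k + 1) → Qbar),
      IsSpecAt t F F' → NoCommonZero F' → IsValueAt t P P' → (∀ j, IsValueAt t (φ j) (φ' j)) →
      |canHeight d F' P' - ∑ j, c j * absLogHeight (φ' j)| ≤ B := by
  by_cases h : ∃ (F' : Fin (N + 1) → MvPolynomial (Fin (N + 1)) Qbar)
      (P' : Fin (N + 1) → Qbar) (φ' : Fin r → Fin (k + 1) → Qbar),
      IsSpecAt t F F' ∧ NoCommonZero F' ∧ IsValueAt t P P' ∧ (∀ j, IsValueAt t (φ j) (φ' j))
  · obtain ⟨F₀, P₀, φ₀, h1, h2, h3, h4⟩ := h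
    refine ⟨|canHeight d F₀ P₀ - ∑ j, c j * absLogHeight (φ₀ j)|, abs_nonneg _, ?_⟩
    intro F' P' φ' h1' h2' h3' h4'
    rw [spec_bdd t F hhom P φ c F₀ P₀ φ₀ h1 h2 h3 h4 F' P' φ' h1' h2' h3' h4']
  · refine ⟨0, le_rfl, ?_⟩
    intro F' P' φ' h1' h2' h3' h4'
    exact absurd ⟨F', P', φ', h1', h2', h3', h4'⟩ h

theorem fb_good {K : Type u1} [Field K] [Algebra Qbar K] {A : Type u1} [CommRing A] [IsDomain A]
    [Algebra Qbar[X] A] [FaithfulSMul Qbar[X] A] [Module.Finite Qbar[X] A] [Algebra A K]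
    (hc : ∀ c : Qbar, algebraMap A K (algebraMap Qbar[X] A (C c)) = algebraMap Qbar K c)
    {N d r k : ℕ} (hd : 2 ≤ d) (F : Fin (N + 1) → MvPolynomial (Fin (N + 1)) K)
    (hhom : ∀ i, (F i).IsHomogeneous d) (P : Fin (N + 1) → K)
    (φ : Fin r → Fin (k + 1) → K) (c : Fin r → ℝ)
    (FA : Fin (N + 1) → MvPolynomial (Fin (N + 1)) A) (PA U : Fin (N + 1) → A)
    (φA : Fin r → Fin (k + 1) → A)
    (hFA : ∀ i, MvPolynomial.map (algebraMap A K) (FA i) = F i)
    (hhomA : ∀ i, (FA i).IsHomogeneous d)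
    (hpowA : ∀ j, ∃ e : ℕ,
          (MvPolynomial.X j : MvPolynomial (Fin (N + 1)) A) ^ e ∈ Ideal.span (Set.range FA))
    (hPA : ∀ i, algebraMap A K (PA i) = P i) (hU : ∑ i, U i * PA i = 1)
    (hφA : ∀ j i, algebraMap A K (φA j i) = φ j i)
    (hV : ∀ j, ∃ V : Fin (k + 1) → A, ∑ i, V i * φA j i = 1) (C' : ℝ)
    (hC' : ∀ t : A →+* Qbar, IsPt t → ∀ L : ℝ, Filter.Tendsto
      (fun n => absLogHeight (fun i => t (iterQ FA PA n i)) / (d : ℝ) ^ n) Filter.atTop (nhds L) →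
      |L - ∑ j, c j * absLogHeight (fun i => t (φA j i))| ≤ C')
    (t : CurvePoint K) (ht : ∀ x : A, algebraMap A K x ∈ t.V)
    (F' : Fin (N + 1) → MvPolynomial (Fin (N + 1)) Qbar)
    (P' : Fin (N + 1) → Qbar) (φ' : Fin r → Fin (k + 1) → Qbar)
    (h1' : IsSpecAt t F F') (h2' : NoCommonZero F') (h3' : IsValueAt t P P')
    (h4' : ∀ j, IsValueAt t (φ j) (φ' j)) :
    |canHeight d F' P' - ∑ j, c j * absLogHeight (φ' j)| ≤ C' := by
  obtain ⟨tA, htA⟩ : ∃ tA : A →+* Qbar, ∀ x, tA x = t.ev ⟨algebraMap A K x, ht x⟩ := by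
    refine ⟨t.ev.comp ((algebraMap A K).codRestrict t.V ht), fun x => rfl⟩
  have evh : ∀ (x : A) (y : K), y = algebraMap A K x → ∃ h : y ∈ t.V, t.ev ⟨y, h⟩ = tA x := by
    rintro x y rfl
    exact ⟨ht x, (htA x).symm⟩
  have hPt : IsPt tA := by
    intro a
    obtain ⟨h, e⟩ := evh (algebraMap Qbar[X] A (C a)) (algebraMap Qbar K a) (hc a).symm
    rw [← e]
    exact t.ev_const a
  obtain ⟨F₀, hF₀⟩ : ∃ F₀ : Fin (N + 1) → MvPolynomial (Fin (N + 1)) Qbar,
    ∀ i, F₀ i = MvPolynomial.map tA (FA i) := ⟨_, fun _ => rfl⟩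
  obtain ⟨P₀, hP₀⟩ : ∃ P₀ : Fin (N + 1) → Qbar, ∀ i, P₀ i = tA (PA i) := ⟨_, fun _ => rfl⟩
  obtain ⟨φ₀, hφ₀⟩ : ∃ φ₀ : Fin r → Fin (k + 1) → Qbar, ∀ j, φ₀ j = fun i => tA (φA j i) :=
    ⟨_, fun _ => rfl⟩
  have s1 : IsSpecAt t F F₀ := by
    refine ⟨1, fun i m => ?_⟩
    obtain ⟨h, e⟩ := evh ((FA i).coeff m) (1 * (F i).coeff m) (by
      rw [one_mul, ← hFA i, MvPolynomial.coeff_map])
    refine ⟨h, ?_⟩
    rw [e, hF₀, MvPolynomial.coeff_map]
  have s2 : NoCommonZero F₀ := by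
    intro x hx
    funext j
    obtain ⟨e, he⟩ := hpowA j
    have hle : Ideal.span (Set.range FA) ≤ RingHom.ker (MvPolynomial.eval₂Hom tA x) := by
      rw [Ideal.span_le]
      rintro _ ⟨i, rfl⟩
      show MvPolynomial.eval₂Hom tA x (FA i) = 0
      have := hx i
      rw [hF₀, MvPolynomial.eval_map] at this
      exact this
    have h0 := hle he
    rw [RingHom.mem_ker, map_pow, MvPolynomial.eval₂Hom_X'] at h0
    exact eq_zero_of_pow_eq_zero h0
  have s3 : IsValueAt t P P₀ := by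
    refine ⟨?_, 1, fun i => ?_⟩
    · intro h0
      have h1 : tA (∑ i, U i * PA i) = 1 := by rw [hU, map_one]
      rw [map_sum] at h1
      have h2 : ∑ i, tA (U i * PA i) = 0 := by
        apply Finset.sum_eq_zero
        intro i _
        rw [map_mul, ← hP₀ i, h0]
        simp
      rw [h2] at h1
      exact zero_ne_one h1
    · obtain ⟨h, e⟩ := evh (PA i) (1 * P i) (by rw [one_mul, hPA])
      exact ⟨h, by rw [e, hP₀]⟩
  have s4 : ∀ j, IsValueAt t (φ j) (φ₀ j) := by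
    intro j
    refine ⟨?_, 1, fun i => ?_⟩
    · intro h0
      obtain ⟨V, hVj⟩ := hV j
      have h1 : tA (∑ i, V i * φA j i) = 1 := by rw [hVj, map_one]
      rw [map_sum] at h1
      have h2 : ∑ i, tA (V i * φA j i) = 0 := by
        apply Finset.sum_eq_zero
        intro i _
        have h3 : tA (φA j i) = 0 := by
          have := congrFun (hφ₀ j) i
          rw [h0] at this
          exact this.symm
        rw [map_mul, h3, mul_zero]
      rw [h2] at h1
      exact zero_ne_one h1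
    · obtain ⟨h, e⟩ := evh (φA j i) (1 * φ j i) (by rw [one_mul, hφA])
      exact ⟨h, by rw [e, hφ₀]⟩
  have hhom₀ : ∀ i, (F₀ i).IsHomogeneous d := by
    intro i
    rw [hF₀]
    exact (hhomA i).map tA
  have hten := canHeight_tendsto hd F₀ hhom₀ s2 P₀ s3.1
  have hten' : Filter.Tendsto
      (fun n => absLogHeight (fun i => tA (iterQ FA PA n i)) / (d : ℝ) ^ n) Filter.atTop
      (nhds (canHeight d F₀ P₀)) := by
    refine hten.congr fun n => ?_
    rw [fb_iter F₀ P₀ n]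
    have e : iterQ F₀ P₀ n = fun i => tA (iterQ FA PA n i) := by
      funext i
      exact (fb_iterQ_map tA FA PA F₀ P₀ (fun i => (hF₀ i).symm) (fun i => (hP₀ i).symm) n i).symm
    rw [e]
  have hfin := hC' tA hPt _ hten'
  rw [spec_bdd t F hhom P φ c F₀ P₀ φ₀ s1 s2 s3 s4 F' P' φ' h1' h2' h3' h4']
  simp only [hφ₀]
  exact hfin

/-- boundedness over all points of good reduction -/
theorem finalK_bound {K : Type u1} [Field K] [Algebra Qbar K] (hK : IsFunctionField K) {N d : ℕ}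
    (hd : 2 ≤ d) (F : Fin (N + 1) → MvPolynomial (Fin (N + 1)) K)
    (hhom : ∀ i, (F i).IsHomogeneous d)
    (hmor : ∀ x : Fin (N + 1) → AlgebraicClosure K, (∀ i, MvPolynomial.aeval x (F i) = 0) → x = 0)
    (P : Fin (N + 1) → K) (hP : P ≠ 0) {r k : ℕ} (φ : Fin r → Fin (k + 1) → K) (c : Fin r → ℝ)
    (hφ : ∀ j, φ j ≠ 0) (hrep : IsLimitDivisor d F P φ c) :
    ∃ C : ℝ, ∀ (t : CurvePoint K) (F' : Fin (N + 1) → MvPolynomial (Fin (N + 1)) Qbar)
      (P' : Fin (N + 1) → Qbar) (φ' : Fin r → Fin (k + 1) → Qbar),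
      IsSpecAt t F F' → NoCommonZero F' → IsValueAt t P P' → (∀ j, IsValueAt t (φ j) (φ' j)) →
      |canHeight d F' P' - ∑ j, c j * absLogHeight (φ' j)| ≤ C := by
  obtain ⟨A, i1, i2, i3, i4, i5, i6, i7, i8, hc, ⟨S, hS⟩, FA, PA, U, φA, hFA, hhomA, hpowA, hPA,
    hU, hφA, hV⟩ := descend hK F hhom (fun j => nullK F hmor j) P hP φ hφ
  have hRep : Rep d FA PA φA c := fb_rep hc F P φ c hrep FA PA φA hFA hPA hφA
  obtain ⟨_, C', hC'0, hC'⟩ := thmA_bound hd FA hhomA hpowA PA U hU φA c hV hRep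
  have hTfin : {t : CurvePoint K | ∃ a ∈ S, a ∉ t.V}.Finite := by
    have h1 : (⋃ a ∈ (S : Set K), {t : CurvePoint K | a ∉ t.V}).Finite :=
      S.finite_toSet.biUnion fun a _ => finite_poles hK a
    refine h1.subset ?_
    rintro t ⟨a, haS, hat⟩
    exact Set.mem_biUnion (Finset.mem_coe.mpr haS) hat
  choose B hB0 hB using fun t : CurvePoint K => fb_one t F hhom P φ c
  refine ⟨C' + ∑ t ∈ hTfin.toFinset, B t, ?_⟩
  intro t F' P' φ' h1 h2 h3 h4
  have hsum0 : 0 ≤ ∑ t ∈ hTfin.toFinset, B t := Finset.sum_nonneg fun t _ => hB0 t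
  by_cases ht : ∀ a ∈ S, a ∈ t.V
  · have := fb_good hc hd F hhom P φ c FA PA U φA hFA hhomA hpowA hPA hU hφA hV C' hC' t
      (hS t ht) F' P' φ' h1 h2 h3 h4
    linarith
  · have ht' : t ∈ hTfin.toFinset := by
      rw [Set.Finite.mem_toFinset]
      push Not at ht
      exact ht
    have h5 := hB t F' P' φ' h1 h2 h3 h4
    have h6 : B t ≤ ∑ t ∈ hTfin.toFinset, B t :=
      Finset.single_le_sum (f := B) (fun t _ => hB0 t) ht'
    linarith

end MKBound

export MKBound (finalK_bound)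

end Pool.Agent.Helper259.Var
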