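import Mathlib
import Pool.Agent.Helper259.Var.LimDef
import Pool.Agent.Helper259.Var.RepDef
import Pool.Agent.Helper259.Var.NANull
import Pool.Agent.Helper259.Var.Descend
import Pool.Agent.Helper259.Var.ARep

set_option autoImplicit false

universe u1 u2

namespace Pool.Agent.Helper259.Var

namespace MKRep

open Polynomial Pool.Agent.Helper259.AbsHt

theorem iterQ_map_aux {A K : Type*} [CommRing A] [CommRing K] (g : A →+* K) {N : ℕ}
    (FA : Fin (N + 1) → MvPolynomial (Fin (N + 1)) A) (F : Fin (N + 1) → MvPolynomial (Fin (N + 1)) K)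
    (PA : Fin (N + 1) → A) (P : Fin (N + 1) → K)
    (hF : ∀ i, MvPolynomial.map g (FA i) = F i) (hP : ∀ i, g (PA i) = P i) (n : ℕ) :
    ∀ i, g (iterQ FA PA n i) = iterQ F P n i := by
  induction n with
  | zero => intro i; exact hP i
  | succ n ih =>
    intro i
    show g (MvPolynomial.eval (iterQ FA PA n) (FA i)) = MvPolynomial.eval (iterQ F P n) (F i)
    rw [← hF i, MvPolynomial.eval_map, ← MvPolynomial.eval₂_id, MvPolynomial.hom_eval₂]
    have : (fun i => g (iterQ FA PA n i)) = iterQ F P n := funext ih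
    rw [this]
    simp

/-- the limit divisor exists, in terms of absolute values -/
theorem finalK_rep {K : Type u1} [Field K] [Algebra Qbar K] (hK : IsFunctionField K) {N d : ℕ}
    (hd : 2 ≤ d) (F : Fin (N + 1) → MvPolynomial (Fin (N + 1)) K)
    (hhom : ∀ i, (F i).IsHomogeneous d)
    (hmor : ∀ x : Fin (N + 1) → AlgebraicClosure K, (∀ i, MvPolynomial.aeval x (F i) = 0) → x = 0)
    (P : Fin (N + 1) → K) (hP : P ≠ 0) :
    ∃ (r : ℕ) (φ : Fin r → Fin (2 + 1) → K) (c : Fin r → ℝ), (∀ j, φ j 0 = 1) ∧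
      IsLimitDivisor d F P φ c := by
  have hpow := fun j => nullK F hmor j
  obtain ⟨A, i1, i2, i3, i4, i5, i6, i7, i8, hcomp, hS, FA, PA, U, φA0, hFA, hFAh, hFAp, hPA, hU, -, -⟩ :=
    descend hK F hhom hpow P hP (r := 0) (k := 2) (fun j => j.elim0) (fun j => j.elim0)
  obtain ⟨r, φ, c, hφ, hRep⟩ := thmA_rep hd FA hFAh hFAp PA U hU
  refine ⟨r, fun j i => algebraMap A K (φ j i), c, fun j => by show algebraMap A K (φ j 0) = 1; rw [hφ j, map_one], ?_⟩
  intro u hu
  have hna := nonarch_of_trivial u hu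
  have hinj : Function.Injective (algebraMap A K) := FaithfulSMul.algebraMap_injective A K
  let u' : AbsoluteValue A ℝ := u.comp hinj
  have hu' : ∀ a : A, u' a = u (algebraMap A K a) := fun a => rfl
  have hna' : IsNonarchimedean u' := by
    intro x y
    rw [hu', hu', hu', map_add]
    exact hna _ _
  have h := hRep u' hna' (by
    intro a ha
    rw [hu', hcomp]
    exact hu a ha)
  simp only [hu'] at h
  have hit := iterQ_map_aux (algebraMap A K) FA F PA P hFA hPA
  simp only [hit] at h
  exact h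

end MKRep

export MKRep (finalK_rep)

end Pool.Agent.Helper259.Var
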