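import Mathlib
import Pool.Agent.Helper259.Var.Ord
import Pool.Agent.Helper259.Var.Bridge
import Pool.Agent.Helper259.Var.Equiv
import Pool.Agent.Helper259.Var.Value
import Pool.Agent.Helper259.Var.Scale
import Pool.Agent.Helper259.Var.FinPole
import Pool.Agent.Helper259.Var.Cant
import Pool.Agent.Helper259.Var.KRep
import Pool.Agent.Helper259.Var.KBound

set_option autoImplicit false

universe u1 u2

namespace Pool.Agent.Helper259.Var

namespace MMainCoord

open Polynomial Pool.Agent.Helper259.AbsHt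

theorem mc_polarOrd_congr {K : Type*} [Field K] [Algebra Qbar K] {ι : Type*} (t : CurvePoint K)
    (v v' : K → ℤ) (hv : IsOrd t v) (hv' : IsOrd t v') (x : ι → K) :
    polarOrd v x = polarOrd v' x := by
  unfold polarOrd
  have : {m : ℤ | ∃ i, x i ≠ 0 ∧ v (x i) = m} = {m : ℤ | ∃ i, x i ≠ 0 ∧ v' (x i) = m} := by
    ext m
    constructor
    · rintro ⟨i, hi, h⟩
      exact ⟨i, hi, by rw [← ord_unique t v v' hv hv' _ hi]; exact h⟩
    · rintro ⟨i, hi, h⟩
      exact ⟨i, hi, by rw [ord_unique t v v' hv hv' _ hi]; exact h⟩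
  rw [this]

theorem mc_polarOrd_zero {K : Type*} [Field K] [Algebra Qbar K] {k : ℕ} (t : CurvePoint K)
    (v : K → ℤ) (hv : IsOrd t v) (x : Fin (k + 1) → K) (h0 : x 0 = 1) (hx : ∀ i, x i ∈ t.V) :
    polarOrd v x = 0 := by
  have hv1 : v 1 = 0 := by
    have := hv.map_mul 1 1 one_ne_zero one_ne_zero
    rw [mul_one] at this
    omega
  have hL : IsLeast {m : ℤ | ∃ i, x i ≠ 0 ∧ v (x i) = m} 0 := by
    constructor
    · exact ⟨0, by rw [h0]; exact one_ne_zero, by rw [h0]; exact hv1⟩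
    · rintro m ⟨i, hi, rfl⟩
      exact (hv.mem_iff _ hi).1 (hx i)
  unfold polarOrd
  rw [hL.csInf_eq, neg_zero]

theorem mc_hom {K : Type*} [Field K] [Algebra Qbar K] {N d : ℕ} (t : CurvePoint K)
    (F : Fin (N + 1) → MvPolynomial (Fin (N + 1)) K) (hhom : ∀ i, (F i).IsHomogeneous d)
    (F' : Fin (N + 1) → MvPolynomial (Fin (N + 1)) Qbar) (h : IsSpecAt t F F') (i : Fin (N + 1)) :
    (F' i).IsHomogeneous d := by
  obtain ⟨a, ha⟩ := h
  intro m hm
  apply hhom i
  intro h0
  apply hm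
  obtain ⟨hmem, hev⟩ := ha i m
  rw [← hev]
  have : (⟨a * (F i).coeff m, hmem⟩ : t.V) = 0 := by
    apply Subtype.ext
    change a * (F i).coeff m = 0
    rw [h0, mul_zero]
  rw [this, map_zero]

/-- the main theorem in terms of coordinates -/
theorem main_coord {K : Type u1} [Field K] [Algebra Qbar K] (hK : IsFunctionField K) {N d : ℕ}
    (hd : 2 ≤ d) (F : Fin (N + 1) → MvPolynomial (Fin (N + 1)) K)
    (hhom : ∀ i, (F i).IsHomogeneous d)
    (hmor : ∀ x : Fin (N + 1) → AlgebraicClosure K, (∀ i, MvPolynomial.aeval x (F i) = 0) → x = 0)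
    (P : Fin (N + 1) → K) (hP : P ≠ 0) :
    ∃ E : CurvePoint K →₀ ℝ,
      (∀ (t : CurvePoint K) (v : K → ℤ), IsOrd t v → Filter.Tendsto
        (fun n => (polarOrd v (iterQ F P n) : ℝ) / (d : ℝ) ^ n) Filter.atTop (nhds (E t))) ∧
      (∃ h, IsWeilHeight E h) ∧
      ∀ h, IsWeilHeight E h → ∃ C : ℝ, ∀ (t : CurvePoint K)
        (F' : Fin (N + 1) → MvPolynomial (Fin (N + 1)) Qbar) (P' : Fin (N + 1) → Qbar),
        IsSpecAt t F F' → NoCommonZero F' → IsValueAt t P P' →
        Filter.Tendsto (fun n : ℕ =>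
          absLogHeight ((fun (y : Fin (N + 1) → Qbar) i => MvPolynomial.eval y (F' i))^[n] P')
            / (d : ℝ) ^ n) Filter.atTop (nhds (canHeight d F' P')) ∧
        |canHeight d F' P' - h t| ≤ C := by
  classical
  obtain ⟨r, φ, c, hφ0, hlim⟩ := finalK_rep hK hd F hhom hmor P hP
  have hQ : ∀ n, iterQ F P n ≠ 0 := iterQ_ne_zero F hmor P hP
  have hφ : ∀ j, φ j ≠ 0 := by
    intro j h
    have h1 := hφ0 j
    rw [h] at h1
    exact zero_ne_one h1
  choose w hw using fun t : CurvePoint K => exists_ord hK t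
  have hfin : {t : CurvePoint K | ∃ j i, φ j i ∉ t.V}.Finite := by
    have : {t : CurvePoint K | ∃ j i, φ j i ∉ t.V} = ⋃ j, ⋃ i, {t | φ j i ∉ t.V} := by
      ext t
      simp only [Set.mem_ofPred_eq, Set.mem_iUnion]
    rw [this]
    exact Set.finite_iUnion fun j => Set.finite_iUnion fun i => finite_poles hK _
  have hsupp : Function.support
      (fun t : CurvePoint K => ∑ j, c j * (polarOrd (w t) (φ j) : ℝ)) ⊆
      {t : CurvePoint K | ∃ j i, φ j i ∉ t.V} := by
    intro t ht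
    by_contra hcon
    apply ht
    change ∑ j, c j * (polarOrd (w t) (φ j) : ℝ) = 0
    apply Finset.sum_eq_zero
    intro j _
    have hmem : ∀ i, φ j i ∈ t.V := by
      intro i
      by_contra h
      exact hcon ⟨j, i, h⟩
    rw [mc_polarOrd_zero t (w t) (hw t) (φ j) (hφ0 j) hmem]
    simp
  let E : CurvePoint K →₀ ℝ := Finsupp.ofSupportFinite
    (fun t : CurvePoint K => ∑ j, c j * (polarOrd (w t) (φ j) : ℝ)) (hfin.subset hsupp)
  have hE : ∀ (t : CurvePoint K) (v : K → ℤ), IsOrd t v →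
      ∑ j, c j * (polarOrd v (φ j) : ℝ) = E t := by
    intro t v hv
    change _ = ∑ j, c j * (polarOrd (w t) (φ j) : ℝ)
    refine Finset.sum_congr rfl fun j _ => ?_
    rw [mc_polarOrd_congr t v (w t) hv (hw t) (φ j)]
  have hElim : ∀ (t : CurvePoint K) (v : K → ℤ), IsOrd t v → Filter.Tendsto
        (fun n => (polarOrd v (iterQ F P n) : ℝ) / (d : ℝ) ^ n) Filter.atTop (nhds (E t)) := by
    intro t v hv
    rw [← hE t v hv]
    exact points_of_limitDivisor F P hQ φ c hφ hlim t v hv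
  refine ⟨E, hElim, ?_, ?_⟩
  · choose y hy using fun (t : CurvePoint K) (j : Fin r) => exists_value t (φ j) (hφ j)
    refine ⟨fun t => ∑ j, c j * absLogHeight (y t j), r, 2, φ, c, hφ, hE, 0, ?_⟩
    intro t φ' hφ'
    have : ∑ j, c j * absLogHeight (y t j) = ∑ j, c j * absLogHeight (φ' j) := by
      refine Finset.sum_congr rfl fun j _ => ?_
      obtain ⟨a, ha, hya⟩ := value_unique t (φ j) _ _ (hy t j) (hφ' j)
      rw [hya, absLogHeight_smul a ha]
    change |∑ j, c j * absLogHeight (y t j) - ∑ j, c j * absLogHeight (φ' j)| ≤ 0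
    rw [this, sub_self, abs_zero]
  · rintro h ⟨r', k', φ', c', hφ', hE', Ch, hCh⟩
    have hlim' : IsLimitDivisor d F P φ' c' := by
      refine limitDivisor_of_points hK F P hQ φ' c' hφ' ?_
      intro t v hv
      rw [hE' t v hv]
      exact hElim t v hv
    obtain ⟨C1, hC1⟩ := finalK_bound hK hd F hhom hmor P hP φ' c' hφ' hlim'
    refine ⟨C1 + Ch, ?_⟩
    intro t F' P' hspec hno hval
    refine ⟨canHeight_tendsto hd F' (mc_hom t F hhom F' hspec) hno P' hval.1, ?_⟩
    choose y hy using fun (j : Fin r') => exists_value t (φ' j) (hφ' j)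
    have h1 := hC1 t F' P' y hspec hno hval hy
    have h2 := hCh t y hy
    rw [abs_le] at h1 h2 ⊢
    constructor <;> linarith [h1.1, h1.2, h2.1, h2.2]

end MMainCoord

export MMainCoord (main_coord)

end Pool.Agent.Helper259.Var
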