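import Mathlib
import Pool.Agent.Helper259.Var.Value
import Pool.Agent.Helper259.Var.Scale
import Pool.Agent.Helper259.AbsHt

set_option autoImplicit false

universe u1 u2

namespace Pool.Agent.Helper259.Var

namespace MPrinc

open Polynomial Pool.Agent.Helper259.AbsHt

theorem absLogHeight_cons16032 {k : ℕ} (y : Fin (k + 1) → Qbar) :
    absLogHeight (Fin.cons 0 y : Fin (k + 1 + 1) → Qbar) = absLogHeight y := by
  obtain ⟨z, hz⟩ : ∃ z : Fin (k + 1) → fieldOf y, z = fun i =>
    (⟨y i, IntermediateField.subset_adjoin ℚ _ (Set.mem_range_self i)⟩ : fieldOf y) := ⟨_, rfl⟩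
  have h := absLogHeight_eq (fieldOf y) (algebraMap (fieldOf y) Qbar)
    (Fin.cons 0 z : Fin (k + 1 + 1) → fieldOf y)
  have e : (fun i => algebraMap (fieldOf y) Qbar ((Fin.cons 0 z : Fin (k + 1 + 1) → fieldOf y) i)) =
      (Fin.cons 0 y : Fin (k + 1 + 1) → Qbar) := by
    funext i
    refine Fin.cases ?_ (fun i => ?_) i
    · rw [Fin.cons_zero, Fin.cons_zero, map_zero]
    · rw [Fin.cons_succ, Fin.cons_succ, hz]
      rfl
  rw [e] at h
  have h2 : Height.logHeight (Fin.cons 0 z : Fin (k + 1 + 1) → fieldOf y) = Height.logHeight z :=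
    Height.logHeight_cons_zero z
  rw [h, h2, hz]
  rfl

theorem absLogHeight_equiv16032 {ι : Type*} [Finite ι] (e : ι ≃ ι) (x : ι → Qbar) :
    absLogHeight (x ∘ e) = absLogHeight x := by
  obtain ⟨z, hz⟩ : ∃ z : ι → fieldOf x, z = fun i =>
    (⟨x i, IntermediateField.subset_adjoin ℚ _ (Set.mem_range_self i)⟩ : fieldOf x) := ⟨_, rfl⟩
  have h := absLogHeight_eq (fieldOf x) (algebraMap (fieldOf x) Qbar) (z ∘ e)
  have e' : (fun i => algebraMap (fieldOf x) Qbar ((z ∘ e) i)) = x ∘ e := by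
    rw [hz]; rfl
  rw [e', Height.logHeight_comp_equiv] at h
  rw [h, hz]
  rfl

/-- the vector `(u, 1, 0, ..., 0)` -/
def vec16032 {K : Type*} [Field K] (k : ℕ) (u : K) : Fin (k + 1 + 1) → K :=
  Fin.cons u (Fin.cons 1 (fun _ => 0))

theorem vec_zero16032 {K : Type*} [Field K] (k : ℕ) (u : K) : vec16032 k u 0 = u := rfl

theorem vec_one16032 {K : Type*} [Field K] (k : ℕ) (u : K) :
    vec16032 k u (Fin.succ 0) = 1 := rfl

theorem vec_succ16032 {K : Type*} [Field K] (k : ℕ) (u : K) (i : Fin k) :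
    vec16032 k u i.succ.succ = 0 := rfl

theorem vec_ne16032 {K : Type*} [Field K] (k : ℕ) (u : K) : vec16032 k u ≠ 0 := by
  intro h
  have := congrFun h (Fin.succ 0)
  rw [vec_one16032] at this
  exact one_ne_zero this

theorem polarOrd_vec16032 {K : Type*} [Field K] (v : K → ℤ) (k : ℕ) (u : K) (hu : u ≠ 0)
    (h1 : v 1 = 0) : polarOrd v (vec16032 k u) = -min (v u) 0 := by
  unfold polarOrd
  have hset : {m : ℤ | ∃ i, vec16032 k u i ≠ 0 ∧ v (vec16032 k u i) = m} = {v u, 0} := by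
    ext m
    rw [Set.mem_ofPred_eq, Fin.exists_fin_succ, Fin.exists_fin_succ]
    constructor
    · rintro (⟨-, h⟩ | ⟨-, h⟩ | ⟨i, h, -⟩)
      · left; exact h.symm
      · right
        rw [vec_one16032, h1] at h
        exact h.symm
      · exact absurd (vec_succ16032 k u i) h
    · rintro (h | h)
      · left
        exact ⟨hu, h.symm⟩
      · right; left
        refine ⟨one_ne_zero, ?_⟩
        rw [vec_one16032, h1]
        exact h.symm
  rw [hset, csInf_pair]

theorem polarOrd_cons16032 {K : Type*} [Field K] (v : K → ℤ) {k : ℕ} (x : Fin (k + 1) → K) :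
    polarOrd v (Fin.cons 0 x : Fin (k + 1 + 1) → K) = polarOrd v x := by
  unfold polarOrd
  have hset : {m : ℤ | ∃ i, (Fin.cons 0 x : Fin (k + 1 + 1) → K) i ≠ 0 ∧
      v ((Fin.cons 0 x : Fin (k + 1 + 1) → K) i) = m} = {m : ℤ | ∃ i, x i ≠ 0 ∧ v (x i) = m} := by
    ext m
    rw [Set.mem_ofPred_eq, Set.mem_ofPred_eq, Fin.exists_fin_succ]
    simp only [Fin.cons_zero, Fin.cons_succ, ne_eq, not_true_eq_false, false_and, false_or]
  rw [hset]

theorem value_swap16032 {K : Type*} [Field K] [Algebra Qbar K] (t : CurvePoint K) (k : ℕ) (g : K)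
    (hg : g ≠ 0) (z : Fin (k + 1 + 1) → Qbar) (h : IsValueAt t (vec16032 k g⁻¹) z) :
    IsValueAt t (vec16032 k g) (z ∘ Equiv.swap 0 (Fin.succ 0)) := by
  obtain ⟨hz, b, hb⟩ := h
  refine ⟨?_, b * g⁻¹, fun i => ?_⟩
  · intro h0
    apply hz
    funext i
    have := congrFun h0 (Equiv.swap 0 (Fin.succ 0) i)
    rw [Function.comp_apply, Equiv.swap_apply_self] at this
    exact this
  · obtain ⟨hm, he⟩ := hb (Equiv.swap 0 (Fin.succ 0) i)
    have key : b * g⁻¹ * vec16032 k g i = b * vec16032 k g⁻¹ (Equiv.swap 0 (Fin.succ 0) i) := by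
      refine Fin.cases ?_ (fun i => ?_) i
      · rw [Equiv.swap_apply_left, vec_zero16032, vec_one16032, inv_mul_cancel_right₀ hg, mul_one]
      · refine Fin.cases ?_ (fun i => ?_) i
        · rw [Equiv.swap_apply_right, vec_zero16032, vec_one16032, mul_one]
        · rw [Equiv.swap_apply_of_ne_of_ne (Fin.succ_ne_zero _)
            (fun e => Fin.succ_ne_zero i (Fin.succ_injective _ e)), vec_succ16032,
            vec_succ16032, mul_zero, mul_zero]
    refine ⟨by rw [key]; exact hm, ?_⟩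
    simp only [key]
    exact he

theorem height_vec16032 {K : Type*} [Field K] [Algebra Qbar K] (t : CurvePoint K) (k : ℕ) (g : K)
    (hg : g ≠ 0) (y z : Fin (k + 1 + 1) → Qbar) (hy : IsValueAt t (vec16032 k g) y)
    (hz : IsValueAt t (vec16032 k g⁻¹) z) : absLogHeight y = absLogHeight z := by
  obtain ⟨c, hc, hcz⟩ := value_unique t _ _ _ hy (value_swap16032 t k g hg z hz)
  rw [← absLogHeight_equiv16032 (Equiv.swap 0 (Fin.succ 0)) z, hcz, absLogHeight_smul c hc]

theorem value_cons16032 {K : Type*} [Field K] [Algebra Qbar K] (t : CurvePoint K) {k : ℕ}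
    (x : Fin (k + 1) → K) (y : Fin (k + 1 + 1) → Qbar)
    (h : IsValueAt t (Fin.cons 0 x : Fin (k + 1 + 1) → K) y) :
    IsValueAt t x (fun i => y i.succ) ∧ y = Fin.cons 0 (fun i => y i.succ) := by
  obtain ⟨hy, b, hb⟩ := h
  have h0 : y 0 = 0 := by
    obtain ⟨hm, he⟩ := hb 0
    rw [← he]
    have : (⟨b * (Fin.cons 0 x : Fin (k + 1 + 1) → K) 0, hm⟩ : t.V) = 0 := by
      apply Subtype.ext
      show b * (Fin.cons 0 x : Fin (k + 1 + 1) → K) 0 = 0
      rw [Fin.cons_zero, mul_zero]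
    rw [this, map_zero]
  have hcons : y = Fin.cons 0 (fun i => y i.succ) := by
    funext i
    refine Fin.cases ?_ (fun i => ?_) i
    · rw [Fin.cons_zero, h0]
    · rw [Fin.cons_succ]
  refine ⟨⟨?_, b, fun i => hb i.succ⟩, hcons⟩
  intro h1
  apply hy
  rw [hcons]
  funext i
  refine Fin.cases ?_ (fun i => ?_) i
  · rw [Fin.cons_zero]; rfl
  · rw [Fin.cons_succ]; exact congrFun h1 i

/-- linearly equivalent divisors have the same Weil heights -/
theorem weil_principal {K : Type*} [Field K] [Algebra Qbar K] (g : K) (hg : g ≠ 0) (a : ℝ)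
    (E E' : CurvePoint K →₀ ℝ) (hE : ∀ t v, IsOrd t v → E' t = E t + a * (v g : ℝ))
    (h : CurvePoint K → ℝ) (hh : IsWeilHeight E h) : IsWeilHeight E' h := by
  obtain ⟨r, k, φ, c, hφ, hord, C, hC⟩ := hh
  refine ⟨r + 1 + 1, k + 1, Fin.cons (vec16032 k g) (Fin.cons (vec16032 k g⁻¹)
    (fun j => (Fin.cons 0 (φ j) : Fin (k + 1 + 1) → K))), Fin.cons (-a) (Fin.cons a c), ?_, ?_,
    C, ?_⟩
  · intro j
    refine Fin.cases ?_ (fun j => ?_) j
    · exact vec_ne16032 k g
    · refine Fin.cases ?_ (fun j => ?_) j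
      · exact vec_ne16032 k g⁻¹
      · intro h0
        apply hφ j
        funext i
        exact congrFun h0 i.succ
  · intro t v hv
    have h1 : v 1 = 0 := by
      have := hv.map_mul 1 1 one_ne_zero one_ne_zero
      rw [mul_one] at this
      omega
    have hginv : v g⁻¹ = - v g := by
      have := hv.map_mul g g⁻¹ hg (inv_ne_zero hg)
      rw [mul_inv_cancel₀ hg, h1] at this
      omega
    rw [Fin.sum_univ_succ, Fin.sum_univ_succ]
    simp only [Fin.cons_zero, Fin.cons_succ, polarOrd_cons16032]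
    rw [hord t v hv, polarOrd_vec16032 v k g hg h1, polarOrd_vec16032 v k g⁻¹ (inv_ne_zero hg) h1,
      hginv, hE t v hv]
    have e1 : (min (v g) 0 : ℤ) - min (-v g) 0 = v g := by omega
    have e2 : ((min (v g) 0 : ℤ) : ℝ) - ((min (-v g) 0 : ℤ) : ℝ) = (v g : ℝ) := by
      exact_mod_cast e1
    rw [← e2]
    push_cast
    ring
  · intro t φ' hφ'
    have hy := hφ' 0
    have hz := hφ' (Fin.succ 0)
    have hH := height_vec16032 t k g hg (φ' 0) (φ' (Fin.succ 0)) hy hz
    have hcons : ∀ j : Fin r, IsValueAt t (φ j) (fun i => φ' j.succ.succ i.succ) ∧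
        φ' j.succ.succ = Fin.cons 0 (fun i => φ' j.succ.succ i.succ) := fun j =>
      value_cons16032 t (φ j) (φ' j.succ.succ) (hφ' j.succ.succ)
    have hCj := hC t (fun j i => φ' j.succ.succ i.succ) (fun j => (hcons j).1)
    have hsum : ∑ j, (Fin.cons (-a) (Fin.cons a c) : Fin (r + 1 + 1) → ℝ) j *
        absLogHeight (φ' j) = ∑ j, c j * absLogHeight (fun i : Fin (k + 1) => φ' j.succ.succ i.succ) := by
      rw [Fin.sum_univ_succ, Fin.sum_univ_succ]
      simp only [Fin.cons_zero, Fin.cons_succ]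
      rw [hH]
      have hj : ∀ j ∈ Finset.univ, c j * absLogHeight (φ' j.succ.succ) =
          c j * absLogHeight (fun i : Fin (k + 1) => φ' j.succ.succ i.succ) := by
        intro j _
        rw [← absLogHeight_cons16032 (fun i : Fin (k + 1) => φ' j.succ.succ i.succ), ← (hcons j).2]
      rw [Finset.sum_congr rfl hj]
      ring
    rw [hsum]
    exact hCj

end MPrinc

export MPrinc (weil_principal)

end Pool.Agent.Helper259.Var
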