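import Mathlib
import Pool.Agent.Helper259.Var.Ord
import Pool.Agent.Helper259.Var.FinPole
import Pool.Agent.Helper259.Var.MainCoord
import Pool.Agent.Helper259.Var.Princ

set_option autoImplicit false

universe u1 u2

namespace Pool.Agent.Helper259.Var

namespace MHyp

open Polynomial Pool.Agent.Helper259.AbsHt

theorem aux_ord_one {K : Type*} [Field K] [Algebra Qbar K] {t : CurvePoint K} {v : K → ℤ}
    (hv : IsOrd t v) : v 1 = 0 := by
  have h := hv.map_mul 1 1 one_ne_zero one_ne_zero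
  rw [mul_one] at h
  omega

theorem aux_ord_pow {K : Type*} [Field K] [Algebra Qbar K] {t : CurvePoint K} {v : K → ℤ}
    (hv : IsOrd t v) (x : K) (hx : x ≠ 0) (n : ℕ) : v (x ^ n) = n * v x := by
  induction n with
  | zero => simp [aux_ord_one hv]
  | succ n ih =>
    rw [pow_succ, hv.map_mul _ _ (pow_ne_zero _ hx) hx, ih]
    push_cast
    ring

theorem aux_ord_inv {K : Type*} [Field K] [Algebra Qbar K] {t : CurvePoint K} {v : K → ℤ}
    (hv : IsOrd t v) (x : K) (hx : x ≠ 0) : v (x⁻¹) = - v x := by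
  have h := hv.map_mul x x⁻¹ hx (inv_ne_zero hx)
  rw [mul_inv_cancel₀ hx, aux_ord_one hv] at h
  omega

theorem aux_step {K : Type*} [Field K] [Algebra Qbar K]
    {N d : ℕ} (F : Fin (N + 1) → MvPolynomial (Fin (N + 1)) K)
    (P : Fin (N + 1) → K) (l : Fin (N + 1) → Qbar) (α : K)
    (hinv : ∑ i, MvPolynomial.C (algebraMap Qbar K (l i)) * F i =
      MvPolynomial.C α * (∑ i, MvPolynomial.C (algebraMap Qbar K (l i)) * MvPolynomial.X i) ^ d)
    (n : ℕ) :
    ∑ i, algebraMap Qbar K (l i) * iterQ F P (n + 1) i =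
      α * (∑ i, algebraMap Qbar K (l i) * iterQ F P n i) ^ d := by
  have h := congrArg (MvPolynomial.eval (iterQ F P n)) hinv
  simp only [map_sum, map_mul, map_pow, MvPolynomial.eval_C, MvPolynomial.eval_X] at h
  exact h

theorem aux_ne {K : Type*} [Field K] [Algebra Qbar K]
    {N d : ℕ} (F : Fin (N + 1) → MvPolynomial (Fin (N + 1)) K)
    (P : Fin (N + 1) → K) (l : Fin (N + 1) → Qbar) (α : K) (hα : α ≠ 0)
    (hinv : ∑ i, MvPolynomial.C (algebraMap Qbar K (l i)) * F i =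
      MvPolynomial.C α * (∑ i, MvPolynomial.C (algebraMap Qbar K (l i)) * MvPolynomial.X i) ^ d)
    (hl : ∑ i, algebraMap Qbar K (l i) * P i ≠ 0)
    (n : ℕ) :
    ∑ i, algebraMap Qbar K (l i) * iterQ F P n i ≠ 0 := by
  induction n with
  | zero => exact hl
  | succ n ih =>
    rw [aux_step F P l α hinv n]
    exact mul_ne_zero hα (pow_ne_zero _ ih)

theorem aux_val {K : Type*} [Field K] [Algebra Qbar K]
    {N d : ℕ} (hd : 2 ≤ d) (F : Fin (N + 1) → MvPolynomial (Fin (N + 1)) K)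
    (P : Fin (N + 1) → K) (l : Fin (N + 1) → Qbar) (α : K) (hα : α ≠ 0)
    (hinv : ∑ i, MvPolynomial.C (algebraMap Qbar K (l i)) * F i =
      MvPolynomial.C α * (∑ i, MvPolynomial.C (algebraMap Qbar K (l i)) * MvPolynomial.X i) ^ d)
    (hl : ∑ i, algebraMap Qbar K (l i) * P i ≠ 0)
    (t : CurvePoint K) (v : K → ℤ) (hv : IsOrd t v) (n : ℕ) :
    v (∑ i, algebraMap Qbar K (l i) * iterQ F P n i) * ((d : ℤ) - 1) =
      (d : ℤ) ^ n * v (α * (∑ i, algebraMap Qbar K (l i) * P i) ^ (d - 1)) - v α := by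
  have hg : v (α * (∑ i, algebraMap Qbar K (l i) * P i) ^ (d - 1)) =
      v α + ((d : ℤ) - 1) * v (∑ i, algebraMap Qbar K (l i) * P i) := by
    rw [hv.map_mul _ _ hα (pow_ne_zero _ hl), aux_ord_pow hv _ hl]
    have : ((d - 1 : ℕ) : ℤ) = (d : ℤ) - 1 := by
      push_cast [Nat.cast_sub (show 1 ≤ d by omega)]
      ring
    rw [this]
  rw [hg]
  induction n with
  | zero =>
    simp only [iterQ, pow_zero]
    ring
  | succ n ih =>
    rw [aux_step F P l α hinv n, hv.map_mul _ _ hα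
      (pow_ne_zero _ (aux_ne F P l α hα hinv hl n)),
      aux_ord_pow hv _ (aux_ne F P l α hα hinv hl n)]
    rw [pow_succ]
    linear_combination (d : ℤ) * ih

theorem aux_lim {K : Type*} [Field K] [Algebra Qbar K]
    {N d : ℕ} (hd : 2 ≤ d) (F : Fin (N + 1) → MvPolynomial (Fin (N + 1)) K)
    (P : Fin (N + 1) → K) (l : Fin (N + 1) → Qbar) (α : K) (hα : α ≠ 0)
    (hinv : ∑ i, MvPolynomial.C (algebraMap Qbar K (l i)) * F i =
      MvPolynomial.C α * (∑ i, MvPolynomial.C (algebraMap Qbar K (l i)) * MvPolynomial.X i) ^ d)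
    (hl : ∑ i, algebraMap Qbar K (l i) * P i ≠ 0)
    (t : CurvePoint K) (v : K → ℤ) (hv : IsOrd t v) :
    Filter.Tendsto (fun n : ℕ =>
      (v (∑ i, algebraMap Qbar K (l i) * iterQ F P n i) : ℝ) / (d : ℝ) ^ n) Filter.atTop
      (nhds (1 / ((d : ℝ) - 1) *
        (v (α * (∑ i, algebraMap Qbar K (l i) * P i) ^ (d - 1)) : ℝ))) := by
  have hd1 : (1 : ℝ) < d := by exact_mod_cast (show 1 < d by omega)
  have hd0 : (d : ℝ) - 1 ≠ 0 := by
    have : (0 : ℝ) < (d : ℝ) - 1 := by linarith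
    exact this.ne'
  have hfun : (fun n : ℕ =>
      (v (∑ i, algebraMap Qbar K (l i) * iterQ F P n i) : ℝ) / (d : ℝ) ^ n) =
      fun n : ℕ => 1 / ((d : ℝ) - 1) *
        (v (α * (∑ i, algebraMap Qbar K (l i) * P i) ^ (d - 1)) : ℝ) -
        (v α : ℝ) / ((d : ℝ) - 1) * ((d : ℝ)⁻¹) ^ n := by
    funext n
    have h := aux_val hd F P l α hα hinv hl t v hv n
    have h' : (v (∑ i, algebraMap Qbar K (l i) * iterQ F P n i) : ℝ) * ((d : ℝ) - 1) =
      (d : ℝ) ^ n * (v (α * (∑ i, algebraMap Qbar K (l i) * P i) ^ (d - 1)) : ℝ) - (v α : ℝ) := by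
      exact_mod_cast h
    have hdn : (d : ℝ) ^ n ≠ 0 := by positivity
    rw [inv_pow]
    field_simp
    linear_combination h'
  rw [hfun]
  have h0 : Filter.Tendsto (fun n : ℕ => ((d : ℝ)⁻¹) ^ n) Filter.atTop (nhds 0) :=
    tendsto_pow_atTop_nhds_zero_of_lt_one (by positivity) (inv_lt_one_of_one_lt₀ hd1)
  have h1 := (h0.const_mul ((v α : ℝ) / ((d : ℝ) - 1)))
  rw [mul_zero] at h1
  have h2 := (tendsto_const_nhds (x := 1 / ((d : ℝ) - 1) *
        (v (α * (∑ i, algebraMap Qbar K (l i) * P i) ^ (d - 1)) : ℝ))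
        (f := (Filter.atTop : Filter ℕ))).sub h1
  rw [sub_zero] at h2
  exact h2

/-- the main theorem for a totally invariant hyperplane -/
theorem main_hyperplane {K : Type u1} [Field K] [Algebra Qbar K] (hK : IsFunctionField K)
    {N d : ℕ} (hd : 2 ≤ d) (F : Fin (N + 1) → MvPolynomial (Fin (N + 1)) K)
    (hhom : ∀ i, (F i).IsHomogeneous d)
    (hmor : ∀ x : Fin (N + 1) → AlgebraicClosure K, (∀ i, MvPolynomial.aeval x (F i) = 0) → x = 0)
    (P : Fin (N + 1) → K) (hP : P ≠ 0) (l : Fin (N + 1) → Qbar) (α : K) (hα : α ≠ 0)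
    (hinv : ∑ i, MvPolynomial.C (algebraMap Qbar K (l i)) * F i =
      MvPolynomial.C α * (∑ i, MvPolynomial.C (algebraMap Qbar K (l i)) * MvPolynomial.X i) ^ d)
    (hl : ∑ i, algebraMap Qbar K (l i) * P i ≠ 0) :
    ∃ E : CurvePoint K →₀ ℝ,
      (∀ (t : CurvePoint K) (v : K → ℤ), IsOrd t v → Filter.Tendsto
        (fun n => (pullbackOrd v l (iterQ F P n) : ℝ) / (d : ℝ) ^ n) Filter.atTop
        (nhds (E t))) ∧
      (∃ h, IsWeilHeight E h) ∧
      ∀ h, IsWeilHeight E h → ∃ C : ℝ, ∀ (t : CurvePoint K)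
        (F' : Fin (N + 1) → MvPolynomial (Fin (N + 1)) Qbar) (P' : Fin (N + 1) → Qbar),
        IsSpecAt t F F' → NoCommonZero F' → IsValueAt t P P' →
        |canHeight d F' P' - h t| ≤ C := by
  classical
  obtain ⟨E0, hE0lim, hE0ex, hE0bd⟩ := main_coord hK hd F hhom hmor P hP
  set g : K := α * (∑ i, algebraMap Qbar K (l i) * P i) ^ (d - 1) with hgdef
  have hg : g ≠ 0 := mul_ne_zero hα (pow_ne_zero _ hl)
  choose w hw using fun t : CurvePoint K => exists_ord hK t
  have hfin : (Function.support (fun t : CurvePoint K =>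
      1 / ((d : ℝ) - 1) * (w t g : ℝ))).Finite := by
    refine ((finite_poles hK g).union (finite_poles hK g⁻¹)).subset ?_
    intro t ht
    rw [Function.mem_support] at ht
    have hwg : w t g ≠ 0 := by
      intro h0
      apply ht
      rw [h0]
      simp
    by_contra hcon
    simp only [Set.mem_union, Set.mem_ofPred_eq, not_or, not_not] at hcon
    obtain ⟨h1, h2⟩ := hcon
    rw [(hw t).mem_iff _ hg] at h1
    rw [(hw t).mem_iff _ (inv_ne_zero hg), aux_ord_inv (hw t) _ hg] at h2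
    omega
  set G : CurvePoint K →₀ ℝ := Finsupp.ofSupportFinite _ hfin with hG
  have hGap : ∀ t, G t = 1 / ((d : ℝ) - 1) * (w t g : ℝ) := fun t => rfl
  have hE : ∀ t v, IsOrd t v → (E0 + G) t = E0 t + 1 / ((d : ℝ) - 1) * (v g : ℝ) := by
    intro t v hv
    rw [Finsupp.add_apply, hGap, ord_unique t v (w t) hv (hw t) g hg]
  have hE' : ∀ t v, IsOrd t v → E0 t = (E0 + G) t + (-(1 / ((d : ℝ) - 1))) * (v g : ℝ) := by
    intro t v hv
    rw [hE t v hv]
    ring
  refine ⟨E0 + G, ?_, ?_, ?_⟩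
  · intro t v hv
    have h1 := aux_lim hd F P l α hα hinv hl t v hv
    have h2 := hE0lim t v hv
    rw [hE t v hv, add_comm]
    refine (h1.add h2).congr ?_
    intro n
    simp only [pullbackOrd]
    push_cast
    ring
  · obtain ⟨h, hh⟩ := hE0ex
    exact ⟨h, weil_principal g hg _ E0 (E0 + G) hE h hh⟩
  · intro h hh
    have hh0 : IsWeilHeight E0 h := weil_principal g hg _ (E0 + G) E0 hE' h hh
    obtain ⟨C, hC⟩ := hE0bd h hh0
    exact ⟨C, fun t F' P' h1 h2 h3 => (hC t F' P' h1 h2 h3).2⟩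

end MHyp

export MHyp (main_hyperplane)

end Pool.Agent.Helper259.Var
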