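import Mathlib
import Pool.Agent.Helper259.Var.Frac
import Pool.Agent.Helper259.Var.Ext
import Pool.Agent.Helper259.Var.Point

set_option autoImplicit false

universe u1 u2

namespace Pool.Agent.Helper259.Var

namespace MInfPts

open Polynomial Pool.Agent.Helper259.AbsHt

open Classical in

/-- the absolute value of `Qbar[X]` given by the order of vanishing at `c` -/
noncomputable def rootAbv (c : Qbar) : AbsoluteValue Qbar[X] ℝ where
  toFun p := if p = 0 then 0 else Real.exp (-(p.rootMultiplicity c : ℝ))
  map_mul' p q := by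
    by_cases hp : p = 0
    · simp [hp]
    by_cases hq : q = 0
    · simp [hq]
    rw [if_neg hp, if_neg hq, if_neg (mul_ne_zero hp hq),
      rootMultiplicity_mul (mul_ne_zero hp hq), ← Real.exp_add]
    congr 1
    push_cast
    ring
  nonneg' p := by
    show (0 : ℝ) ≤ if p = 0 then 0 else Real.exp (-(p.rootMultiplicity c : ℝ))
    split_ifs
    · exact le_rfl
    · exact (Real.exp_pos _).le
  eq_zero' p := by
    show (if p = 0 then (0 : ℝ) else Real.exp (-(p.rootMultiplicity c : ℝ))) = 0 ↔ p = 0
    split_ifs with h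
    · simp [h]
    · simp [h, (Real.exp_pos _).ne']
  add_le' p q := by
    show (if p + q = 0 then (0 : ℝ) else Real.exp (-((p + q).rootMultiplicity c : ℝ))) ≤
      (if p = 0 then 0 else Real.exp (-(p.rootMultiplicity c : ℝ))) +
        (if q = 0 then 0 else Real.exp (-(q.rootMultiplicity c : ℝ)))
    by_cases hp : p = 0
    · simp [hp]
    by_cases hq : q = 0
    · simp [hq]
    rw [if_neg hp, if_neg hq]
    by_cases hpq : p + q = 0
    · rw [if_pos hpq]; positivity
    rw [if_neg hpq]
    have h1 := rootMultiplicity_add c hpq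
    rcases min_le_iff.1 h1 with h | h
    · have h2 : Real.exp (-((p + q).rootMultiplicity c : ℝ)) ≤
          Real.exp (-(p.rootMultiplicity c : ℝ)) := by
        apply Real.exp_le_exp.2
        have : (p.rootMultiplicity c : ℝ) ≤ (p + q).rootMultiplicity c := by exact_mod_cast h
        linarith
      have h3 := Real.exp_pos (-(q.rootMultiplicity c : ℝ))
      linarith
    · have h2 : Real.exp (-((p + q).rootMultiplicity c : ℝ)) ≤
          Real.exp (-(q.rootMultiplicity c : ℝ)) := by
        apply Real.exp_le_exp.2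
        have : (q.rootMultiplicity c : ℝ) ≤ (p + q).rootMultiplicity c := by exact_mod_cast h
        linarith
      have h3 := Real.exp_pos (-(p.rootMultiplicity c : ℝ))
      linarith

open Classical in

theorem rootAbv_apply (c : Qbar) (p : Qbar[X]) :
    rootAbv c p = if p = 0 then 0 else Real.exp (-(p.rootMultiplicity c : ℝ)) := rfl

theorem rootAbv_na (c : Qbar) : IsNonarchimedean (rootAbv c) := by
  classical
  intro p q
  rw [rootAbv_apply, rootAbv_apply, rootAbv_apply]
  by_cases hp : p = 0
  · simp [hp]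
  by_cases hq : q = 0
  · simp [hq]
  rw [if_neg hp, if_neg hq]
  by_cases hpq : p + q = 0
  · rw [if_pos hpq]
    exact le_max_of_le_left (Real.exp_pos _).le
  rw [if_neg hpq]
  have h1 := rootMultiplicity_add c hpq
  rcases min_le_iff.1 h1 with h | h
  · apply le_max_of_le_left
    apply Real.exp_le_exp.2
    have : (p.rootMultiplicity c : ℝ) ≤ (p + q).rootMultiplicity c := by exact_mod_cast h
    linarith
  · apply le_max_of_le_right
    apply Real.exp_le_exp.2
    have : (q.rootMultiplicity c : ℝ) ≤ (p + q).rootMultiplicity c := by exact_mod_cast h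
    linarith

/-- the point over the value `c` of the coordinate `s` -/
theorem exists_point_over {K : Type*} [Field K] [Algebra Qbar K] (hK : IsFunctionField K) (s : K)
    (hs : Transcendental Qbar s)
    [FiniteDimensional (IntermediateField.adjoin Qbar ({s} : Set K)) K] (c : Qbar) :
    ∃ (t : CurvePoint K) (h : s - algebraMap Qbar K c ∈ t.V),
      t.ev ⟨s - algebraMap Qbar K c, h⟩ = 0 := by
  classical
  obtain ⟨w1, hw1, hn1⟩ := exists_frac_ext (A := Qbar[X]) (K := RatFunc Qbar) (rootAbv c)
  have hn1 := hn1 (rootAbv_na c)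
  set e := RatFunc.algEquivOfTranscendental s hs with he
  set w2 : AbsoluteValue (IntermediateField.adjoin Qbar ({s} : Set K)) ℝ :=
    w1.comp (f := (e.symm : _ →+* RatFunc Qbar)) e.symm.injective with hw2
  have hw2a : ∀ y, w2 y = w1 (e.symm y) := fun y => rfl
  have hn2 : IsNonarchimedean w2 := by
    intro x y
    rw [hw2a, hw2a, hw2a, map_add]
    exact hn1 _ _
  obtain ⟨w3, hn3, hw3⟩ := exists_ext_abv (K := IntermediateField.adjoin Qbar ({s} : Set K))
    (L := K) w2 hn2
  -- the constants
  have htriv : ∀ a : Qbar, a ≠ 0 → w3 (algebraMap Qbar K a) = 1 := by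
    intro a ha
    have h1 : algebraMap Qbar K a = algebraMap (IntermediateField.adjoin Qbar ({s} : Set K)) K
        (algebraMap Qbar _ a) := rfl
    rw [h1, hw3, hw2a, AlgEquiv.commutes]
    have h2 : algebraMap Qbar (RatFunc Qbar) a = algebraMap Qbar[X] (RatFunc Qbar) (C a) := by
      rw [← Polynomial.algebraMap_eq, ← IsScalarTower.algebraMap_apply]
    rw [h2, hw1, rootAbv_apply, if_neg (C_ne_zero.2 ha), rootMultiplicity_C]
    simp
  have hval : w3 (s - algebraMap Qbar K c) = Real.exp (-1) := by
    have h1 : s - algebraMap Qbar K c = algebraMap (IntermediateField.adjoin Qbar ({s} : Set K)) K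
        (IntermediateField.AdjoinSimple.gen Qbar s - algebraMap Qbar _ c) := rfl
    rw [h1, hw3, hw2a, map_sub, AlgEquiv.commutes, he,
      RatFunc.algEquivOfTranscendental_symm_gen]
    have h2 : (RatFunc.X : RatFunc Qbar) - algebraMap Qbar (RatFunc Qbar) c =
        algebraMap Qbar[X] (RatFunc Qbar) (X - C c) := by
      rw [map_sub, RatFunc.algebraMap_X, ← Polynomial.algebraMap_eq,
        ← IsScalarTower.algebraMap_apply]
    rw [h2, hw1, rootAbv_apply, if_neg (X_sub_C_ne_zero c), rootMultiplicity_X_sub_C_self]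
    simp
  have hne : s - algebraMap Qbar K c ≠ 0 := by
    intro h
    rw [h, map_zero] at hval
    exact (Real.exp_pos _).ne hval
  obtain ⟨t, v, κ, hκ, hv, hexp⟩ := exists_point_of_abv hK w3 hn3 htriv
    ⟨_, hne, by rw [hval, ne_eq, Real.exp_eq_one_iff]; norm_num⟩
  have hvpos : 0 < v (s - algebraMap Qbar K c) := by
    have h1 := hexp _ hne
    rw [hval, Real.exp_eq_exp, neg_inj] at h1
    have h2 : (0 : ℝ) < κ * v (s - algebraMap Qbar K c) := by rw [← h1]; norm_num
    have h3 := pos_of_mul_pos_right h2 hκ.le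
    exact_mod_cast h3
  have hmem : s - algebraMap Qbar K c ∈ t.V := (hv.mem_iff _ hne).2 hvpos.le
  refine ⟨t, hmem, ?_⟩
  by_contra hev
  obtain ⟨y, hy⟩ := (t.isUnit_of_ev_ne_zero ⟨_, hmem⟩ hev).exists_right_inv
  have hy' : (s - algebraMap Qbar K c) * (y : K) = 1 := congrArg Subtype.val hy
  have hy0 : (y : K) ≠ 0 := right_ne_zero_of_mul (by rw [hy']; exact one_ne_zero)
  have h1 := hv.map_mul _ _ hne hy0
  have h2 := hv.map_mul 1 1 one_ne_zero one_ne_zero
  have h3 := (hv.mem_iff _ hy0).1 y.2
  rw [hy'] at h1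
  rw [mul_one] at h2
  omega

/-- the curve has infinitely many points -/
theorem infinite_points {K : Type*} [Field K] [Algebra Qbar K] (hK : IsFunctionField K) :
    Infinite (CurvePoint K) := by
  obtain ⟨s, hs, hfd⟩ := hK
  have key : ∀ c : Qbar, ∃ (t : CurvePoint K) (h : s - algebraMap Qbar K c ∈ t.V),
      t.ev ⟨s - algebraMap Qbar K c, h⟩ = 0 := fun c =>
    exists_point_over ⟨s, hs, hfd⟩ s hs c
  choose t ht he using key
  have hu : ∀ (t' : CurvePoint K) (c c' : Qbar) (h : s - algebraMap Qbar K c ∈ t'.V)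
      (h' : s - algebraMap Qbar K c' ∈ t'.V), t'.ev ⟨_, h⟩ = 0 → t'.ev ⟨_, h'⟩ = 0 → c = c' := by
    intro t' c c' h h' e e'
    have h1 : (⟨algebraMap Qbar K (c - c'), t'.const_mem _⟩ : t'.V) =
        ⟨_, h'⟩ - ⟨_, h⟩ := by
      apply Subtype.ext
      show algebraMap Qbar K (c - c') = (s - algebraMap Qbar K c') - (s - algebraMap Qbar K c)
      rw [map_sub]
      ring
    have h2 := t'.ev_const (c - c')
    rw [h1, map_sub, e, e', sub_zero] at h2
    exact sub_eq_zero.1 h2.symm
  have : Infinite Qbar := CharZero.infinite Qbar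
  refine Infinite.of_injective t fun c c' hcc => ?_
  have h1 : s - algebraMap Qbar K c' ∈ (t c).V := by rw [hcc]; exact ht c'
  have h2 : (t c).ev ⟨_, h1⟩ = 0 := by
    have h3 := he c'
    revert h1
    rw [hcc]
    intro _
    exact h3
  exact hu (t c) c c' (ht c) h1 (he c) h2

end MInfPts

export MInfPts (infinite_points)

end Pool.Agent.Helper259.Var
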